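import Pool.Agent.Q278.GC.Stm

/-!
# Shifts and scales of the test function (helper278)
-/

set_option autoImplicit false

namespace Pool.Agent.Q278.GC

open Filter Topology MeasureTheory Complex
open scoped FourierTransform ContDiff ComplexConjugate
open H370 (Zf mult mem_Zf good_zeta zset finsum_Zf)
open Pool.Agent.Q278.MC Pool.Agent.Q278.MX

lemma sf_eq (g : ℝ → ℝ) (x s v : ℝ) : sf g x s v = g ((v - x) / s) := rfl

lemma sf_fc (g : ℝ → ℝ) (x s : ℝ) : fc (sf g x s) = fun v => fc g ((v - x) / s) := rfl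

lemma sf_CC {g : ℝ → ℝ} (hg : CC (fc g)) {s : ℝ} (hs : 0 < s) (x : ℝ) : CC (fc (sf g x s)) := by
  rw [sf_fc]
  constructor
  · exact hg.cd.comp ((contDiff_id.sub contDiff_const).div_const s)
  · have e : (fun v : ℝ => fc g ((v - x) / s)) =
      fc g ∘ (((Homeomorph.addRight (-x)).trans (Homeomorph.mulRight₀ s⁻¹ (inv_ne_zero hs.ne')))) := by
      funext v
      simp [Function.comp, div_eq_mul_inv, sub_eq_add_neg]
    rw [e]
    exact hg.cs.comp_homeomorph _

lemma sf_int (g : ℝ → ℝ) {s : ℝ} (hs : 0 < s) (x : ℝ) :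
    ∫ v, sf g x s v = s * ∫ v, g v := by
  unfold sf
  have e1 : ∫ v, g ((v - x) / s) = ∫ v, g (v / s) :=
    integral_sub_right_eq_self (fun v => g (v / s)) x
  rw [e1, Measure.integral_comp_div]
  rw [abs_of_pos hs, smul_eq_mul]

lemma aP_sc {L T s : ℝ} : aP (s * L) T = aP L T / s := by
  unfold aP
  rw [div_div]
  congr 1
  ring

lemma st_sf (g : ℝ → ℝ) {L T s : ℝ} (hs : 0 < s) (ha : 0 < aP L T) (x t : ℝ) :
    st (sf g x s) L T t = st g (s * L) T (t + x / aP L T) := by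
  unfold st
  rw [sf_int g hs, aP_sc]
  have e : SZ (sf g x s) (aP L T) t = SZ g (aP L T / s) (t + x / aP L T) := by
    unfold SZ
    refine finsum_congr fun z => ?_
    refine finsum_congr fun _ => ?_
    rw [sf_eq]
    congr 2
    field_simp
    ring
  rw [e]
  ring

lemma four_sf (g : ℝ → ℝ) {s : ℝ} (hs : 0 < s) (x ξ : ℝ) :
    𝓕 (fc (sf g x s)) ξ = (s : ℂ) * cexp (-(2 * Real.pi * x * ξ : ℝ) * I) * 𝓕 (fc g) (s * ξ) := by
  rw [sf_fc, Real.fourier_eq', Real.fourier_eq']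
  have e1 : (∫ v : ℝ, cexp (((-2 * Real.pi * inner ℝ v ξ : ℝ) : ℂ) * I) • fc g ((v - x) / s)) =
      ∫ v : ℝ, cexp (((-2 * Real.pi * inner ℝ (v + x) ξ : ℝ) : ℂ) * I) • fc g (v / s) := by
    rw [← integral_sub_right_eq_self
      (fun v : ℝ => cexp (((-2 * Real.pi * inner ℝ (v + x) ξ : ℝ) : ℂ) * I) • fc g (v / s)) x]
    simp only [sub_add_cancel]
  rw [e1]
  have e2 : (∫ v : ℝ, cexp (((-2 * Real.pi * inner ℝ (v + x) ξ : ℝ) : ℂ) * I) • fc g (v / s)) =
      s • ∫ v : ℝ, cexp (((-2 * Real.pi * inner ℝ (s * v + x) ξ : ℝ) : ℂ) * I) • fc g v := by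
    have := Measure.integral_comp_div
      (fun v : ℝ => cexp (((-2 * Real.pi * inner ℝ (s * v + x) ξ : ℝ) : ℂ) * I) • fc g v) s
    rw [abs_of_pos hs] at this
    rw [← this]
    refine integral_congr_ae (Eventually.of_forall fun v => ?_)
    show _ = cexp (((-2 * Real.pi * inner ℝ (s * (v / s) + x) ξ : ℝ) : ℂ) * I) • fc g (v / s)
    rw [mul_div_cancel₀ v hs.ne']
  rw [e2, ← integral_const_mul, Complex.real_smul, ← integral_const_mul]
  refine integral_congr_ae (Eventually.of_forall fun v => ?_)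
  simp only [RCLike.inner_apply, conj_trivial, smul_eq_mul]
  rw [show ((-2 * Real.pi * (ξ * (s * v + x)) : ℝ) : ℂ) * I =
    (-(2 * Real.pi * x * ξ : ℝ) : ℂ) * I + ((-2 * Real.pi * (s * ξ * v) : ℝ) : ℂ) * I by
    push_cast; ring, Complex.exp_add]
  ring

/-- the prime coefficients of a shifted and scaled function -/
lemma cn_sf (g : ℝ → ℝ) {a s : ℝ} (ha : 0 < a) (hs : 0 < s) (x : ℝ) (X n : ℕ) :
    cn (fc (sf g x s)) a X n = cn (fc g) (a / s) X n * (n : ℂ) ^ (-((x / a : ℝ) : ℂ) * I) := by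
  rw [cn_apply, cn_apply]
  split_ifs with h
  · have hn0 : (n : ℂ) ≠ 0 := by exact_mod_cast h.1.ne_zero
    rw [four_sf g hs, Complex.cpow_def_of_ne_zero hn0, ← Complex.natCast_log]
    have e1 : s * (Real.log n / (2 * Real.pi * a)) = Real.log n / (2 * Real.pi * (a / s)) := by
      field_simp
    rw [e1]
    have e2 : ((1 / (Real.pi * (a / s)) * (Real.log n * (Real.sqrt n)⁻¹) : ℝ) : ℂ) =
      (s : ℂ) * ((1 / (Real.pi * a) * (Real.log n * (Real.sqrt n)⁻¹) : ℝ) : ℂ) := by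
      rw [← Complex.ofReal_mul]
      congr 1
      field_simp
    rw [e2]
    have e3 : (-(2 * Real.pi * x * (Real.log n / (2 * Real.pi * a)) : ℝ) : ℂ) * I =
      ((Real.log n : ℝ) : ℂ) * (-((x / a : ℝ) : ℂ) * I) := by
      have : (2 * Real.pi * x * (Real.log n / (2 * Real.pi * a)) : ℝ) = Real.log n * (x / a) := by
        field_simp
      rw [this]
      push_cast
      ring
    rw [e3]
    ring
  · ring

lemma DP_sf (g : ℝ → ℝ) {a s : ℝ} (ha : 0 < a) (hs : 0 < s) (x : ℝ) (X : ℕ) (t : ℝ) :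
    DP (cn (fc (sf g x s)) a X) X t = DP (cn (fc g) (a / s) X) X (t + x / a) := by
  unfold DP
  refine Finset.sum_congr rfl fun n hn => ?_
  have hn0 : (n : ℂ) ≠ 0 := by
    have := (Finset.mem_Icc.1 hn).1
    exact_mod_cast (by omega : n ≠ 0)
  rw [cn_sf g ha hs, mul_assoc, ← Complex.cpow_add _ _ hn0]
  congr 2
  push_cast
  ring

end Pool.Agent.Q278.GC
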