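import Pool.Agent.Q278.MC.P
import Pool.Agent.Q278.MX.H
import Mathlib.Probability.Distributions.Gaussian.Multivariate

/-!
Statements (lemma jobs) of project GC: quantitative Gaussian coupling for the zeros of zeta.
Each `S_X` is a proposition with a complete paper proof in its docstring.
-/

open MeasureTheory Filter Topology ProbabilityTheory
open scoped ComplexConjugate RealInnerProductSpace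

namespace Pool.Agent.Q278.GC

/-- JOB SM (smoothing inequality in dimension `k`, Euclidean norm, all constants explicit).

PROOF. Let `G(v) = (2 π ε^2)^(-k/2) exp(-‖v‖^2/(2 ε^2))` on `E = EuclideanSpace ℝ (Fin k)`
(`finrank = k`; use `GaussianFourier.integral_cexp_neg_mul_sq_norm_add`,
`GaussianFourier.integral_rexp_neg_mul_sq_norm` and their integrability lemmas).
(1) `∫ G = 1` and, by the same formula with the linear term `v i / ε`,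
`∫ exp(± v i / ε) G(v) dv = exp(1/2)`. Since `y^2 ≤ 2 (cosh y - 1)`:
`∫ (v i)^2 G ≤ 2 ε^2 (exp(1/2) - 1) ≤ 1.3 ε^2`, hence `∫ ‖v‖^2 G ≤ 1.3 k ε^2` and
`∫ ‖v‖ G ≤ sqrt(1.3 k) ε ≤ 2 ε sqrt k` (Cauchy-Schwarz, or `‖v‖ ≤ (ε sqrt k)/2 + ‖v‖^2/(2 ε sqrt k)`).
(2) Put `F(u) = ∫ φ(u + v) G(v) dv = ∫ φ(w) G(w - u) dw` (`G` even). Then `|F - φ| ≤ 2 ε sqrt k`, so
`|∫ φ dμ - ∫ φ dν| ≤ 4 ε sqrt k + |∫ F dμ - ∫ F dν|` (masses at most 1).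
(3) Fubini: `∫ F dμ - ∫ F dν = ∫ φ(w) (P(w) - Q(w)) dw`, `P(w) = ∫ G(w - x) dμ(x)`,
`Q(w) = ∫ G(w - x) dν(x)`, both `≥ 0`, `∫ P ≤ 1`, `∫ Q ≤ 1`.
(4) `G(v) = (2π)^(-k) ∫ exp(i⟨v,ξ⟩) exp(-ε^2‖ξ‖^2/2) dξ` (again the Gaussian integral), so by Fubini
`P(w) - Q(w) = (2π)^(-k) ∫ exp(-ε^2‖ξ‖^2/2) exp(i⟨w,ξ⟩) (charFun μ (-ξ) - charFun ν (-ξ)) dξ`.
The part `‖ξ‖ ≤ Ξ` is at most `(2π)^(-k) D (2π)^(k/2) ε^(-k)`, the part `‖ξ‖ > Ξ` at most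
`(2π)^(-k) * 2 exp(-(εΞ)^2/4) ∫ exp(-ε^2‖ξ‖^2/4) dξ = (2π)^(-k) * 2 exp(-(εΞ)^2/4) (4π)^(k/2) ε^(-k)`.
Hence `|P(w) - Q(w)| ≤ ε^(-k) (D + 2 exp(-(εΞ)^2/4))`.
(5) On the box `B = {w | ∀ i, |w i| ≤ R}` (volume `(2R)^k`, `EuclideanSpace.volume_preserving...`; or on
the ball of radius `R`, contained in it) use (4): `∫_B |P - Q| ≤ (2R/ε)^k (D + 2 exp(..))`.
Outside the box `‖w‖ > R`, and `∫_{‖w‖>R} P ≤ R^(-2) ∫∫ ‖x+v‖^2 G(v) dv dμ(x) ≤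
R^(-2) (2 m2 + 2 * 1.3 k ε^2) ≤ 3 (m2 + k)/R^2` (as `ε ≤ 1`); the same for `Q`. QED -/
def S_SM : Prop :=
  ∀ (k : ℕ) (μ ν : Measure (EuclideanSpace ℝ (Fin k))), IsFiniteMeasure μ → IsFiniteMeasure ν →
    μ.real Set.univ ≤ 1 → ν.real Set.univ ≤ 1 →
    ∀ (φ : EuclideanSpace ℝ (Fin k) → ℝ) (ε R D Ξ m2 : ℝ),
    (∀ x, |φ x| ≤ 1) → LipschitzWith 1 φ → 0 < ε → ε ≤ 1 → 0 < R → 0 ≤ Ξ → 0 ≤ D →
    Integrable (fun x => ‖x‖ ^ 2) μ → Integrable (fun x => ‖x‖ ^ 2) ν →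
    ∫ x, ‖x‖ ^ 2 ∂μ ≤ m2 → ∫ x, ‖x‖ ^ 2 ∂ν ≤ m2 →
    (∀ ξ, ‖ξ‖ ≤ Ξ → ‖charFun μ ξ - charFun ν ξ‖ ≤ D) →
    |∫ x, φ x ∂μ - ∫ x, φ x ∂ν| ≤
      4 * ε * Real.sqrt k + (4 * R / ε) ^ k * (D + 2 * Real.exp (-(ε * Ξ) ^ 2 / 4)) +
        8 * (m2 + k) / R ^ 2

/-- JOB GC (comparison of two centred Gaussian laws).

PROOF. `B = S2 + (k η) • 1` and `D = B - S1` are positive semidefinite: with `Δ = S2 - S1`,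
`|xᵀ Δ x| ≤ η (∑ |x i|)^2 ≤ k η ‖x‖^2`. `N(0, B)` is the convolution of `N(0, S1)` and `N(0, D)`, and of
`N(0, S2)` and `N(0, (k η) • 1)` (compare `charFun`: `charFun_multivariateGaussian`, `Measure.ext_of_charFun`,
`charFun_conv`). So `∫ φ dN(0,B) = ∫∫ φ(x + z) dN(0,D)(z) dN(0,S1)(x)` and
`|∫ φ dN(0,B) - ∫ φ dN(0,S1)| ≤ ∫ ‖z‖ dN(0,D)(z) ≤ sqrt(trace D) ≤ sqrt(k (η + k η)) ≤ k sqrt(2 η)`
(`∫ ‖z‖^2 dN(0,D) = ∑ i, variance of the coordinate i = trace D`, see `covariance_eval_multivariateGaussian`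
or `variance_eval_multivariateGaussian`), and the same with `S2`: at most
`sqrt(k * k η) = k sqrt η`. Sum: `(1 + sqrt 2) k sqrt η ≤ 3 k sqrt η`. (For `k = 0` both sides are `0`;
`η ≥ 0` if `k ≥ 1`.) QED -/
def S_GC : Prop :=
  ∀ (k : ℕ) (S1 S2 : Matrix (Fin k) (Fin k) ℝ), S1.PosSemidef → S2.PosSemidef →
    ∀ (φ : EuclideanSpace ℝ (Fin k) → ℝ) (η : ℝ), (∀ x, |φ x| ≤ 1) → LipschitzWith 1 φ →
    (∀ i j, |S1 i j - S2 i j| ≤ η) →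
    |∫ x, φ x ∂(multivariateGaussian 0 S1) - ∫ x, φ x ∂(multivariateGaussian 0 S2)| ≤
      3 * k * Real.sqrt η

open Pool.Agent.Q278.MC Pool.Agent.Q278.MX in
/-- `sf g x s v = g((v - x)/s)`: the test function `g` moved to `x` and scaled by `s`. -/
noncomputable def sf (g : ℝ → ℝ) (x s v : ℝ) : ℝ := g ((v - x) / s)

open Pool.Agent.Q278.MC Pool.Agent.Q278.MX in
/-- JOB CV (asymptotics of the covariance of the prime sums, uniform in shifts and scales).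
`cn (fc f) a X p = 1/(π a) (log p) p^(-1/2) 𝓕 f (log p/(2 π a))` for primes `p ≤ X` (file MC/K),
`cv f g = ∫ |ξ| Re(𝓕 f conj(𝓕 g))` (file MC/P), `PB α β` = primes with `α < log p ≤ β` (file MX/H).

PROOF. Write `f = sf g x s`, `h = sf g y r`, `ρ(ξ) = Re(𝓕 f(ξ) conj(𝓕 h(ξ)))`. Change of variables:
`𝓕 f(ξ) = s exp(-2 π i x ξ) 𝓕 g(s ξ)` and, with `m v = (-2 π i v) (f v)`, `(𝓕 f)' = 𝓕 m` (MC/D `four_deriv`),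
where `v f(v) = x g(w) + s w g(w)`, `w = (v - x)/s`; so by MC/K `four_bound` (for `g` and `w ↦ w g w`)
`‖𝓕 f(ξ)‖, ‖𝓕 h(ξ)‖ ≤ K (1 + ξ²/M²)^(-3)`, `‖(𝓕 f)'‖, ‖(𝓕 h)'‖ ≤ K M (1 + ξ²/M²)^(-3)`
(`1/M ≤ s ≤ 1`, so `1 + s²ξ² ≥ 1 + ξ²/M²`). Hence `|ρ| ≤ K² (1 + ξ²/M²)^(-6)`,
`|ρ'| ≤ 2 K² M (1 + ξ²/M²)^(-6)`. Let `b = 2 π a`, `H(v) = v ρ(v/b)`. The sum on the left is
`(π a)^(-2) ∑_{p ∈ PB β B} (log p/p) H(log p)`, by MX/H `band_sum` equal to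
`(π a)^(-2) ∫_β^B H` up to `C (π a)^(-2) (|H(B)| + ∫_β^B |H'|)`.
Here `|H(v)| ≤ b (v/b) K² (1 + (v/b)²/M²)^(-6) ≤ b K² M`, and
`∫ |H'| dv ≤ b ∫ (|ρ| + |ξ ρ'|) dξ ≤ C b M^3`: the error is `≤ C M^3/a`.
Main term: `(π a)^(-2) ∫_0^∞ H = (π a)^(-2) b² ∫_0^∞ ξ ρ dξ = 4 ∫_0^∞ ξ ρ = 2 cv f h` (`ρ` is even, since `f`, `h`
are real); `(π a)^(-2) ∫_0^β |H| ≤ C β²/a²`, and `(π a)^(-2) ∫_B^∞ |H| = 4 ∫_{B/b}^∞ ξ |ρ| ≤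
C ∫_{Y}^∞ ξ (1 + ξ²/M²)^(-6) dξ ≤ C M² (1 + Y²/M²)^(-5) ≤ C M⁴/Y²`, `Y = B/(2 π a)`. QED
(You may first prove the case of general `f`, `h` with these bounds.) -/
def S_CV : Prop :=
  ∀ g : ℝ → ℝ, CC (fc g) → ∃ C : ℝ, 1 ≤ C ∧ ∀ (M a β : ℝ) (X : ℕ) (x y s r : ℝ),
    1 ≤ M → 1 ≤ a → 1 ≤ β → β ≤ Real.log X → |x| ≤ M → |y| ≤ M → 1 / M ≤ s → s ≤ 1 → 1 / M ≤ r → r ≤ 1 →
    |(∑ p ∈ PB β (Real.log X), (cn (fc (sf g x s)) a X p * conj (cn (fc (sf g y r)) a X p)).re) -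
      2 * cv (sf g x s) (sf g y r)| ≤
      C * M ^ 4 * (β ^ 2 / a ^ 2 + 1 / a + 1 / (Real.log X / (2 * Real.pi * a)) ^ 2)

end Pool.Agent.Q278.GC
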