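import Pool.Agent.Q278.GC.Stm2

/-!
# More statements: the field is log-correlated (helper278)
-/

set_option autoImplicit false

namespace Pool.Agent.Q278.GC

open Filter Topology MeasureTheory Complex ProbabilityTheory
open scoped FourierTransform ContDiff ComplexConjugate RealInnerProductSpace
open Pool.Agent.Q278.MC

/-- two-sided form of `S_K2` -/
def S_K2b : Prop :=
  ∀ H : ℝ → ℝ, Step H → ∃ C : ℝ, 1 ≤ C ∧ ∀ J : ℕ,
    |kj H J J 0 0 - J * Real.log 2 / (2 * Real.pi ^ 2)| ≤ C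

/-- the covariances are `(1/(2π²)) log (1/max(|x-y|, 2^(-J))) + O(1)` -/
def S_K4 : Prop :=
  S_K1 → S_K2b → ∀ H : ℝ → ℝ, Step H → ∃ C : ℝ, 1 ≤ C ∧ ∀ (J : ℕ) (x y : ℝ), |x - y| ≤ 1 →
    |kj H J J x y - 1 / (2 * Real.pi ^ 2) * Real.log (1 / max |x - y| (1 / 2 ^ J))| ≤ C

end Pool.Agent.Q278.GC
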