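import Pool.Agent.Q278.GC.A

/-!
# The explicit formula in mean, uniformly in shifts and scales (helper278)
-/

set_option autoImplicit false

namespace Pool.Agent.Q278.GC

open Filter Topology MeasureTheory Complex
open scoped FourierTransform ContDiff ComplexConjugate
open H370 (Zf mult mem_Zf good_zeta zset finsum_Zf)
open Pool.Agent.Q278.MC Pool.Agent.Q278.MX

/-- continuity of `SZ` on a segment inside `[T, 2T]` -/
lemma SZ_cont {f : ℝ → ℝ} (hf : CC (fc f)) {R : ℝ} (hR : ∀ x, R < |x| → f x = 0) {a T : ℝ}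
    (ha : 1 ≤ a) (hT : R + 3 ≤ T) : ContinuousOn (fun t => SZ f a t)
      (Set.Icc (T - 1) (2 * T + 1)) := by
  have hfc := fc_cont hf
  have h1 : ContinuousOn (fun t => ∑ s ∈ Zf riemannZeta (T - R - 2) (2 * T + R + 1),
      mz s * f (a * (s.im - t))) (Set.Icc (T - 1) (2 * T + 1)) := by
    refine (continuous_finsetSum _ fun s _ => continuous_const.mul
      (hfc.comp (by fun_prop))).continuousOn
  refine h1.congr fun t ht => ?_
  show SZ f a t = _
  rw [SZ_eq (A := T - R - 2) (B := 2 * T + R + 1) hR ha (by linarith) (by linarith [ht.1])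
    (by linarith [ht.2])]

/-- the explicit formula in mean for one test function -/
theorem mean_err {f : ℝ → ℝ} (hf : CC (fc f)) : ∃ K T0 : ℝ, 0 < K ∧ 10 ≤ T0 ∧ ∀ T : ℝ, T0 ≤ T →
    (∀ a : ℝ, 1 ≤ a → ContinuousOn (fun t => SZ f a t) (Set.Icc (T - 1) (2 * T + 1))) ∧
    ∀ (L W a : ℝ) (X : ℕ), 1 ≤ a → 1 ≤ W → 0 < L → 2 * Real.pi * a = Real.log T / L → 4 * W ≤ L →
        16 ≤ 2 * W * (2 * Real.pi * a) → 2 * (2 * W * (2 * Real.pi * a)) ≤ Real.log (X + 1) →
        1 ≤ X → 8 * (X : ℝ) * (1 + Real.log X) ≤ T →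
        ∫ t in (T + Real.log T)..(2 * T - Real.log T),
          |SZ f a t - L * (∫ x, f x) + (DP (cn (fc f) a X) X t).re| ≤
        K * T * ((L * W⁻¹ ^ 4 + W / L) + (1 / a + Real.exp (-(2 * W * (2 * Real.pi * a))) +
          L * W⁻¹ ^ 4) + 1 / a * (1 + W⁻¹ ^ 4 * (1 + Real.log X))) := by
  obtain ⟨K1, T1, hK1, hT1, h1⟩ := approx hf
  obtain ⟨C2, hC2, h2⟩ := Bz_int
  obtain ⟨K3, hK3, h3⟩ := Er_int hf
  obtain ⟨R, hR0, hR⟩ := exists_R hf
  refine ⟨C2 * K1 + K1 + K3, max T1 (R + 3), by positivity, hT1.trans (le_max_left _ _),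
    fun T hT => ?_⟩
  have hTT1 : T1 ≤ T := (le_max_left _ _).trans hT
  have hTR : R + 3 ≤ T := (le_max_right _ _).trans hT
  have hT10 : 10 ≤ T := hT1.trans hTT1
  have hT0 : 0 < T := by linarith
  refine ⟨fun a ha => SZ_cont hf hR ha hTR, fun L W a X ha hW hL haL hWL hU hX2 hX1 hX => ?_⟩
  obtain ⟨U1, U2, g1, g2, g3, g4, g5⟩ := h1 T hTT1
  have hl : 0 < Real.log T := Real.log_pos (by linarith)
  have h2l := two_log_le (x := T) (by linarith)
  set ℓ := Real.log T with hℓ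
  have hpt := g5 L W a ha hW hL haL (by linarith) hU X hX2
  set Q : ℝ := 1 / a + Real.exp (-(2 * W * (2 * Real.pi * a))) + L * W⁻¹ ^ 4 with hQ
  have hW0 : 0 < W := by linarith
  have ha0 : 0 < a := by linarith
  have hcst := SZ_cont hf hR ha hTR
  have hErc : Continuous (Er (fc f) W a X) := DP_cont _ _
  have hci : IntervalIntegrable (fun t => |SZ f a t - L * (∫ x, f x) + (DP (cn (fc f) a X) X t).re|)
      volume (T + ℓ) (2 * T - ℓ) := by
    apply ContinuousOn.intervalIntegrable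
    rw [Set.uIcc_of_le (by linarith)]
    have h6 : ContinuousOn (fun t => SZ f a t) (Set.Icc (T + ℓ) (2 * T - ℓ)) :=
      hcst.mono (Set.Icc_subset_Icc (by linarith) (by linarith))
    have h7 : ContinuousOn (fun t => (DP (cn (fc f) a X) X t).re) (Set.Icc (T + ℓ) (2 * T - ℓ)) :=
      (Complex.continuous_re.comp (DP_cont _ _)).continuousOn
    exact ((h6.sub continuousOn_const).add h7).abs
  have hgi : IntervalIntegrable (fun t => Bz K1 W a U1 U2 t + K1 * Q + ‖Er (fc f) W a X t‖)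
      volume (T + ℓ) (2 * T - ℓ) :=
    Continuous.intervalIntegrable (((Bz_cont _ _ _ _ _).add continuous_const).add hErc.norm) _ _
  have hle := intervalIntegral.integral_mono_on (by linarith) hci hgi fun t ht => hpt t ht.1 ht.2
  have i1 : IntervalIntegrable (fun t => Bz K1 W a U1 U2 t + K1 * Q) volume (T + ℓ)
      (2 * T - ℓ) :=
    Continuous.intervalIntegrable ((Bz_cont _ _ _ _ _).add continuous_const) _ _
  have i2 : IntervalIntegrable (fun t => ‖Er (fc f) W a X t‖) volume (T + ℓ) (2 * T - ℓ) :=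
    hErc.norm.intervalIntegrable _ _
  have i3 : IntervalIntegrable (fun t => Bz K1 W a U1 U2 t) volume (T + ℓ) (2 * T - ℓ) :=
    (Bz_cont _ _ _ _ _).intervalIntegrable _ _
  have i4 : IntervalIntegrable (fun _ : ℝ => K1 * Q) volume (T + ℓ) (2 * T - ℓ) := by simp
  rw [intervalIntegral.integral_add i1 i2, intervalIntegral.integral_add i3 i4,
    intervalIntegral.integral_const, smul_eq_mul] at hle
  have b1 := h2 K1 T U1 U2 L W a (T + ℓ) (2 * T - ℓ) hK1.le hT10 g1 g4 hL hW0 hWL haL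
    (by linarith)
  have b3 := h3 T W a X hT10 ha hW hX1 hX
  have b2 : (2 * T - ℓ - (T + ℓ)) * (K1 * Q) ≤ T * (K1 * Q) := by
    refine mul_le_mul_of_nonneg_right (by linarith) ?_
    positivity
  have hlX : 0 ≤ Real.log X := Real.log_nonneg (by exact_mod_cast hX1)
  have q1 : 0 ≤ T * (L * W⁻¹ ^ 4 + W / L) := by positivity
  have q2 : 0 ≤ T * Q := by positivity
  have q3 : 0 ≤ T * (1 / a * (1 + W⁻¹ ^ 4 * (1 + Real.log X))) := by positivity
  have p1 : 0 ≤ C2 * K1 := by positivity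
  nlinarith [mul_nonneg p1 q2, mul_nonneg p1 q3, mul_nonneg hK1.le q1, mul_nonneg hK1.le q3,
    mul_nonneg hK3.le q1, mul_nonneg hK3.le q2]

/-- the parameters -/
structure Par (M L T : ℝ) : Prop where
  hM : 100 ≤ M
  hL : M ^ 20 ≤ L
  hT : M ^ 20 * L ≤ Real.log T

noncomputable def WG (L M : ℝ) : ℝ := (L / M) ^ (1 / 3 : ℝ)

/-- cutoff exponent -/
noncomputable def UG (L T M : ℝ) : ℝ := 2 * WG L M * (M * (Real.log T / L))

/-- length of the prime sums -/
noncomputable def XG (L T M : ℝ) : ℕ := ⌊Real.exp (2 * UG L T M)⌋₊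

section

variable {M L T : ℝ}

lemma Par.M0 (h : Par M L T) : 0 < M := by linarith [h.hM]

lemma Par.M1 (h : Par M L T) : 1 ≤ M := by linarith [h.hM]

lemma Par.L0 (h : Par M L T) : 0 < L := lt_of_lt_of_le (pow_pos h.M0 20) h.hL

lemma Par.W3 (h : Par M L T) : WG L M ^ 3 = L / M := by
  unfold WG
  rw [← Real.rpow_natCast, ← Real.rpow_mul (div_nonneg h.L0.le h.M0.le)]
  norm_num

lemma Par.W0 (h : Par M L T) : 0 < WG L M := Real.rpow_pos_of_pos (div_pos h.L0 h.M0) _

lemma Par.Leq (h : Par M L T) : L = M * WG L M ^ 3 := by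
  rw [h.W3]
  have := h.M0.ne'
  field_simp

lemma Par.Wlow (h : Par M L T) : M ^ 6 ≤ WG L M := by
  have h1 : (M ^ 6) ^ 3 ≤ WG L M ^ 3 := by
    rw [h.W3, le_div_iff₀ h.M0]
    calc (M ^ 6) ^ 3 * M = M ^ 19 := by ring
      _ ≤ M ^ 20 := pow_le_pow_right₀ h.M1 (by norm_num)
      _ ≤ L := h.hL
  exact le_of_pow_le_pow_left₀ (by norm_num) h.W0.le h1

lemma Par.logT (h : Par M L T) : M ^ 40 ≤ Real.log T := by
  have h1 : M ^ 20 * M ^ 20 ≤ M ^ 20 * L := mul_le_mul_of_nonneg_left h.hL (pow_pos h.M0 20).le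
  calc M ^ 40 = M ^ 20 * M ^ 20 := by ring
    _ ≤ M ^ 20 * L := h1
    _ ≤ _ := h.hT

lemma Par.log0 (h : Par M L T) : 0 < Real.log T := lt_of_lt_of_le (pow_pos h.M0 40) h.logT

lemma Par.logTL (h : Par M L T) : M ^ 20 ≤ Real.log T / L := by
  rw [le_div_iff₀ h.L0]
  exact h.hT

lemma Par.aeq (h : Par M L T) : 2 * Real.pi * aP L T = Real.log T / L := aP_eq h.L0

lemma Par.a0 (h : Par M L T) : 0 < aP L T := by
  have h1 := h.aeq
  have h2 : 0 < Real.log T / L := div_pos h.log0 h.L0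
  by_contra h3
  push Not at h3
  nlinarith [Real.pi_pos]

lemma Par.alow (h : Par M L T) : M ^ 19 ≤ aP L T := by
  have h1 := h.aeq
  have h2 := h.logTL
  have h4 : Real.pi < 4 := Real.pi_lt_four
  have h3 : M ^ 20 = M * M ^ 19 := by ring
  have h5 : 0 < M ^ 19 := pow_pos h.M0 19
  have h6 : 100 * M ^ 19 ≤ M * M ^ 19 := mul_le_mul_of_nonneg_right h.hM h5.le
  by_contra h7
  push Not at h7
  nlinarith [Real.pi_pos, h.a0]

lemma Par.Ueq (h : Par M L T) : UG L T M = 2 * Real.log T / WG L M ^ 2 := by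
  unfold UG
  have h1 := h.Leq
  have h2 := h.W0.ne'
  have h3 := h.M0.ne'
  have h4 := h.L0.ne'
  have h5 : M * (Real.log T / L) = Real.log T / WG L M ^ 3 := by
    rw [h.W3]
    field_simp
  rw [h5]
  field_simp

lemma Par.Ulow (h : Par M L T) : M ^ 26 ≤ UG L T M := by
  unfold UG
  have h1 := h.Wlow
  have h2 := h.logTL
  have h3 : M * M ^ 20 ≤ M * (Real.log T / L) := mul_le_mul_of_nonneg_left h2 h.M0.le
  have h4 : 1 * M ^ 20 ≤ M * M ^ 20 := mul_le_mul_of_nonneg_right h.M1 (pow_pos h.M0 20).le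
  have h5 : M ^ 6 * M ^ 20 ≤ WG L M * (M * (Real.log T / L)) :=
    mul_le_mul h1 (by linarith) (pow_pos h.M0 20).le h.W0.le
  have h6 : M ^ 26 = M ^ 6 * M ^ 20 := by ring
  have h7 : 0 < WG L M * (M * (Real.log T / L)) := lt_of_lt_of_le (by
    have := h.M0
    positivity) h5
  nlinarith

lemma Par.Uup (h : Par M L T) : UG L T M ≤ 2 * Real.log T / M ^ 12 := by
  rw [h.Ueq]
  have h1 : (M ^ 6) ^ 2 ≤ WG L M ^ 2 := pow_le_pow_left₀ (pow_pos h.M0 6).le h.Wlow 2
  have h2 : (M ^ 6) ^ 2 = M ^ 12 := by ring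
  rw [h2] at h1
  exact div_le_div_of_nonneg_left (by linarith [h.log0]) (pow_pos h.M0 12) h1

lemma Par.U0 (h : Par M L T) : 0 < UG L T M := lt_of_lt_of_le (pow_pos h.M0 26) h.Ulow

lemma Par.X1 (h : Par M L T) : 1 ≤ XG L T M := by
  unfold XG
  refine Nat.le_floor ?_
  rw [Nat.cast_one]
  exact Real.one_le_exp (by linarith [h.U0])

lemma XG_le : (XG L T M : ℝ) ≤ Real.exp (2 * UG L T M) := Nat.floor_le (Real.exp_pos _).le

lemma Par.Xlog (h : Par M L T) : Real.log (XG L T M) ≤ 2 * UG L T M := by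
  have h1 : 0 < (XG L T M : ℝ) := by exact_mod_cast h.X1
  rw [← Real.log_exp (2 * UG L T M)]
  exact Real.log_le_log h1 XG_le

lemma Par.Xlog1 (_h : Par M L T) : 2 * UG L T M ≤ Real.log (XG L T M + 1) := by
  rw [← Real.log_exp (2 * UG L T M)]
  refine Real.log_le_log (Real.exp_pos _) ?_
  exact (Nat.lt_floor_add_one _).le

lemma Par.Xlow (h : Par M L T) : UG L T M ≤ Real.log (XG L T M) := by
  have h1 : 0 < (XG L T M : ℝ) := by exact_mod_cast h.X1
  have h2 := h.Xlog1
  have h3 : Real.log (XG L T M + 1) ≤ Real.log (2 * XG L T M) := by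
    refine Real.log_le_log (by linarith) ?_
    have : (1 : ℝ) ≤ XG L T M := by exact_mod_cast h.X1
    linarith
  rw [Real.log_mul (by norm_num) h1.ne'] at h3
  have h4 : Real.log 2 ≤ 1 := by
    have := Real.log_two_lt_d9
    linarith
  have h5 : 1 ≤ UG L T M := (one_le_pow₀ h.M1).trans h.Ulow
  linarith

lemma Par.big (h : Par M L T) : (1000000 : ℝ) ≤ Real.log T := by
  have h4 := h.logT
  have h5 : (100 : ℝ) ^ 40 ≤ M ^ 40 := pow_le_pow_left₀ (by norm_num) h.hM 40
  have : (1000000 : ℝ) ≤ 100 ^ 40 := by norm_num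
  linarith

lemma Par.Xup (h : Par M L T) : 1 + Real.log (XG L T M) ≤ Real.log T / 100 := by
  have h1 := h.Xlog
  have h2 := h.Uup
  have h3 := h.big
  have h4 : 2 * Real.log T / M ^ 12 ≤ 2 * Real.log T / 1000 := by
    refine div_le_div_of_nonneg_left (by linarith [h.log0]) (by norm_num) ?_
    have h5 : (100 : ℝ) ^ 12 ≤ M ^ 12 := pow_le_pow_left₀ (by norm_num) h.hM 12
    have : (1000 : ℝ) ≤ 100 ^ 12 := by norm_num
    linarith
  linarith

lemma Par.T0 (h : Par M L T) (hT : 0 < T) : 10 ≤ T := by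
  have h1 := h.big
  have h3 := Real.log_le_sub_one_of_pos hT
  linarith

lemma Par.size (h : Par M L T) (hT : 0 < T) :
    8 * (XG L T M : ℝ) * (1 + Real.log (XG L T M)) ≤ T := by
  have h1 := h.Xup
  have h2 : 0 < (XG L T M : ℝ) := by exact_mod_cast h.X1
  have h0 : 0 ≤ Real.log (XG L T M) := Real.log_nonneg (by exact_mod_cast h.X1)
  have h3 : (XG L T M : ℝ) ≤ Real.exp (Real.log T / 100) := by
    rw [← Real.exp_log h2]
    exact Real.exp_le_exp.2 (by linarith)
  have hl := h.log0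
  have h4 : Real.log T / 100 ≤ Real.exp (Real.log T / 100) := by
    have := Real.add_one_le_exp (Real.log T / 100)
    linarith
  have h5 : 8 ≤ Real.exp (Real.log T / 100) := by
    have h6 := Real.add_one_le_exp (Real.log T / 100)
    have h7 := h.big
    linarith
  have hE : 0 < Real.exp (Real.log T / 100) := Real.exp_pos _
  calc 8 * (XG L T M : ℝ) * (1 + Real.log (XG L T M)) ≤
      Real.exp (Real.log T / 100) * Real.exp (Real.log T / 100) * Real.exp (Real.log T / 100) := by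
        refine mul_le_mul (mul_le_mul h5 h3 h2.le hE.le) (h1.trans h4) (by linarith) (by positivity)
    _ = Real.exp (3 * (Real.log T / 100)) := by
        rw [← Real.exp_add, ← Real.exp_add]
        ring_nf
    _ ≤ Real.exp (Real.log T) := Real.exp_le_exp.2 (by linarith)
    _ = T := Real.exp_log hT

end

end Pool.Agent.Q278.GC
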