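import Pool.Agent.Q278.GC.B

/-!
# The mean error of the prime approximation, all shifts and scales (helper278)
-/

set_option autoImplicit false

namespace Pool.Agent.Q278.GC

open Filter Topology MeasureTheory Complex
open scoped FourierTransform ContDiff ComplexConjugate
open H370 (Zf mult mem_Zf good_zeta zset finsum_Zf)
open Pool.Agent.Q278.MC Pool.Agent.Q278.MX

/-- the prime sum attached to a coordinate -/
noncomputable def YG (g : ℝ → ℝ) (x s L T M t : ℝ) : ℝ :=
  -(DP (cn (fc (sf g x s)) (aP L T) (XG L T M)) (XG L T M) t).re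

lemma YG_cont (g : ℝ → ℝ) (x s L T M : ℝ) : Continuous (YG g x s L T M) :=
  (Complex.continuous_re.comp (DP_cont _ _)).neg

/-- the error, pointwise numbers -/
lemma errs_num {M L s w a ℓ lX : ℝ} (hM : 100 ≤ M) (hw : M ^ 6 ≤ w) (hL : L = M * w ^ 3)
    (ha : M ^ 19 ≤ a) (haL : 2 * Real.pi * a = ℓ / L) (hl : 0 < ℓ) (hX0 : 0 ≤ lX)
    (hX : lX ≤ 4 * ℓ / w ^ 2) (hs1 : 1 / M ≤ s) (hs2 : s ≤ 1) :
    ((s * L * w⁻¹ ^ 4 + w / (s * L)) + (1 / (a / s) +
      Real.exp (-(2 * w * (2 * Real.pi * (a / s)))) + s * L * w⁻¹ ^ 4) +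
      1 / (a / s) * (1 + w⁻¹ ^ 4 * (1 + lX))) ≤ 20 / M ^ 5 := by
  have hM0 : 0 < M := by linarith
  have hM1 : 1 ≤ M := by linarith
  have hs0 : 0 < s := lt_of_lt_of_le (by positivity) hs1
  have p6 : 0 < M ^ 6 := by positivity
  have p5 : 0 < M ^ 5 := by positivity
  have hw0 : 0 < w := by linarith
  have ha0 : 0 < a := lt_of_lt_of_le (by positivity) ha
  have e0 : M ^ 6 = M * M ^ 5 := by ring
  have hL0 : 0 < L := by rw [hL]; positivity
  -- first
  have f1 : s * L * w⁻¹ ^ 4 ≤ 1 / M ^ 5 := by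
    calc s * L * w⁻¹ ^ 4 ≤ 1 * L * w⁻¹ ^ 4 := by gcongr
      _ = M * w⁻¹ := by
          rw [hL]
          field_simp
      _ ≤ M * (M ^ 6)⁻¹ := by gcongr
      _ = 1 / M ^ 5 := by
          rw [e0]
          field_simp
  have f2 : w / (s * L) ≤ 1 / M ^ 5 := by
    have h1 : w / (s * L) ≤ w / (1 / M * L) := by
      gcongr
    have h2 : w / (1 / M * L) = w⁻¹ ^ 2 := by
      rw [hL]
      field_simp
    have h3 : w⁻¹ ^ 2 ≤ (M ^ 6)⁻¹ ^ 2 := by gcongr
    have h4 : (M ^ 6)⁻¹ ^ 2 ≤ 1 / M ^ 5 := by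
      rw [inv_pow, ← one_div, ← pow_mul]
      exact one_div_le_one_div_of_le p5 (pow_le_pow_right₀ hM1 (by norm_num))
    linarith
  have f3 : 1 / (a / s) ≤ 1 / M ^ 5 := by
    rw [one_div_div]
    calc s / a ≤ 1 / M ^ 19 := by gcongr
      _ ≤ 1 / M ^ 5 := one_div_le_one_div_of_le p5 (pow_le_pow_right₀ hM1 (by norm_num))
  have f4 : Real.exp (-(2 * w * (2 * Real.pi * (a / s)))) ≤ 1 / M ^ 5 := by
    rw [Real.exp_neg, ← one_div]
    refine one_div_le_one_div_of_le p5 ?_
    have h1 := Real.add_one_le_exp (2 * w * (2 * Real.pi * (a / s)))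
    refine le_trans ?_ h1
    have h2 : (1 : ℝ) ≤ a / s := by
      rw [le_div_iff₀ hs0]
      have : 1 ≤ M ^ 19 := one_le_pow₀ hM1
      linarith
    have h3 : 1 ≤ 2 * Real.pi * (a / s) := by nlinarith [Real.pi_gt_three]
    have h4 : M ^ 5 ≤ M ^ 6 := pow_le_pow_right₀ hM1 (by norm_num)
    nlinarith
  have f5 : 1 / (a / s) * (1 + w⁻¹ ^ 4 * (1 + lX)) ≤ 3 / M ^ 5 := by
    have h1 : 1 / (a / s) ≤ 1 / a := by
      rw [one_div_div]
      gcongr
    have h2 : 1 / a = 2 * Real.pi * L / ℓ := by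
      have h5 : a = ℓ / L / (2 * Real.pi) := by
        rw [← haL]; field_simp
      rw [h5]
      field_simp
    have h6 : w⁻¹ ^ 4 ≤ 1 := by
      refine pow_le_one₀ (by positivity) (inv_le_one_of_one_le₀ ?_)
      exact (one_le_pow₀ hM1).trans hw
    have h8 : 1 + w⁻¹ ^ 4 * (1 + lX) ≤ 2 + w⁻¹ ^ 4 * (4 * ℓ / w ^ 2) := by
      have h9 : w⁻¹ ^ 4 * lX ≤ w⁻¹ ^ 4 * (4 * ℓ / w ^ 2) :=
        mul_le_mul_of_nonneg_left hX (by positivity)
      nlinarith
    calc 1 / (a / s) * (1 + w⁻¹ ^ 4 * (1 + lX)) ≤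
        1 / a * (2 + w⁻¹ ^ 4 * (4 * ℓ / w ^ 2)) := by
          refine mul_le_mul h1 h8 (by positivity) (by positivity)
      _ = 2 / a + 2 * Real.pi * L / ℓ * (w⁻¹ ^ 4 * (4 * ℓ / w ^ 2)) := by rw [← h2]; ring
      _ = 2 / a + 8 * Real.pi * L * w⁻¹ ^ 6 := by
          congr 1
          field_simp
          ring
      _ = 2 / a + 8 * Real.pi * M * w⁻¹ ^ 3 := by
          rw [hL]
          congr 1
          field_simp
      _ ≤ 2 / M ^ 19 + 32 * M * (M ^ 6)⁻¹ ^ 3 := by
          have := Real.pi_lt_four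
          gcongr
          linarith
      _ ≤ 2 / M ^ 5 + 1 / M ^ 5 := by
          have h9 : 2 / M ^ 19 ≤ 2 / M ^ 5 :=
            div_le_div_of_nonneg_left (by norm_num) p5 (pow_le_pow_right₀ hM1 (by norm_num))
          have h10 : 32 * M * (M ^ 6)⁻¹ ^ 3 ≤ 1 / M ^ 5 := by
            have e : (M ^ 6)⁻¹ ^ 3 = 1 / (M ^ 2 * (M ^ 11 * M ^ 5)) := by
              rw [inv_pow, ← one_div]
              congr 1
              ring
            rw [e, mul_one_div, div_le_div_iff₀ (by positivity) p5, one_mul]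
            have h11 : 32 * M ≤ M ^ 2 := by nlinarith
            have h12 : 1 ≤ M ^ 11 := one_le_pow₀ hM1
            have h13 : M ^ 5 ≤ M ^ 11 * M ^ 5 := by nlinarith
            exact mul_le_mul h11 h13 p5.le (by positivity)
          linarith
      _ = 3 / M ^ 5 := by
          rw [← add_div]
          norm_num
  have h12 : 0 < 1 / M ^ 5 := by positivity
  have e20 : 20 / M ^ 5 = 20 * (1 / M ^ 5) := by ring
  have e3 : 3 / M ^ 5 = 3 * (1 / M ^ 5) := by ring
  rw [e20]
  rw [e3] at f5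
  linarith

/-- the mean error of the prime approximation for all coordinates -/
theorem mean_sf {g : ℝ → ℝ} (hg : CC (fc g)) : ∃ K M0 : ℝ, 0 < K ∧ 100 ≤ M0 ∧
    ∀ M L T : ℝ, M0 ≤ M → Par M L T → 0 < T → ∀ x s : ℝ, |x| ≤ M → 1 / M ≤ s → s ≤ 1 →
      ContinuousOn (fun t => st (sf g x s) L T t) (Set.Icc T (2 * T)) ∧
      ∫ t in (T + 2 * Real.log T)..(2 * T - 2 * Real.log T),
          |st (sf g x s) L T t - YG g x s L T M t| ≤ K * T / M ^ 5 := by
  obtain ⟨K, T0, hK, hT0, h⟩ := mean_err hg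
  refine ⟨K * 20, max 100 T0, by positivity, le_max_left _ _,
    fun M L T hM hP hT x s hx hs1 hs2 => ?_⟩
  have hM0 := hP.M0
  have hM1 := hP.M1
  have hs0 : 0 < s := lt_of_lt_of_le (by positivity) hs1
  have ha0 := hP.a0
  have hl := hP.log0
  have hlT := hP.logT
  have hTT0 : T0 ≤ T := by
    have h1 : T0 ≤ M := (le_max_right _ _).trans hM
    have h2 : M ≤ M ^ 40 := le_self_pow₀ hM1 (by norm_num)
    have h3 := Real.log_le_sub_one_of_pos hT
    linarith
  have hT10 : 10 ≤ T := hT0.trans hTT0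
  have h2l := two_log_le (x := T) (by linarith)
  have h5l : 5 * Real.log T ≤ T := by
    have h3 : 9 ≤ Real.log T := by linarith [hP.big]
    have h6 : Real.exp (Real.log T) = T := Real.exp_log hT
    have h7 := Real.quadratic_le_exp_of_nonneg hl.le
    nlinarith
  obtain ⟨hc, hm⟩ := h T hTT0
  have haL := hP.aeq
  have has : 1 ≤ aP L T / s := by
    rw [le_div_iff₀ hs0]
    have : 1 ≤ M ^ 19 := one_le_pow₀ hM1
    linarith [hP.alow]
  have hW1 : 1 ≤ WG L M := (one_le_pow₀ hM1).trans hP.Wlow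
  have haL' : 2 * Real.pi * (aP L T / s) = Real.log T / (s * L) := by
    rw [← mul_div_assoc, haL, div_div]
    congr 1
    ring
  have hUs : 2 * WG L M * (2 * Real.pi * (aP L T / s)) ≤ UG L T M := by
    rw [haL']
    unfold UG
    have h1 : Real.log T / (s * L) ≤ M * (Real.log T / L) := by
      have hL0 := hP.L0
      rw [div_le_iff₀ (by positivity)]
      have e : M * (Real.log T / L) * (s * L) = (M * s) * Real.log T := by field_simp
      rw [e]
      have h2 : 1 ≤ M * s := by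
        rw [div_le_iff₀ hM0] at hs1
        linarith
      nlinarith
    have := hP.W0
    nlinarith
  have hbig : 16 ≤ 2 * WG L M * (2 * Real.pi * (aP L T / s)) := by
    have h1 : 3 ≤ Real.pi := Real.pi_gt_three.le
    have h2 : (100 : ℝ) ≤ WG L M := by
      have h4 : (100 : ℝ) ^ 6 ≤ M ^ 6 := pow_le_pow_left₀ (by norm_num) hP.hM 6
      have h5 : (100 : ℝ) ≤ 100 ^ 6 := by norm_num
      linarith [hP.Wlow]
    have h3 : 1 ≤ 2 * Real.pi * (aP L T / s) := by nlinarith
    nlinarith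
  have hWL : 4 * WG L M ≤ s * L := by
    have h1 : 1 / M * L ≤ s * L := mul_le_mul_of_nonneg_right hs1 hP.L0.le
    have h2 : 1 / M * L = WG L M ^ 3 := by
      rw [hP.W3]; ring
    have h3 : 4 * WG L M ≤ WG L M ^ 3 := by
      have h4 : 2 ≤ WG L M := by
        have h4 : (100 : ℝ) ^ 6 ≤ M ^ 6 := pow_le_pow_left₀ (by norm_num) hP.hM 6
        have h5 : (100 : ℝ) ≤ 100 ^ 6 := by norm_num
        linarith [hP.Wlow]
      have h5 : 4 ≤ WG L M ^ 2 := by nlinarith
      have h6 : WG L M ^ 3 = WG L M ^ 2 * WG L M := by ring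
      rw [h6]
      exact mul_le_mul_of_nonneg_right h5 (by linarith)
    linarith
  have hmm := hm (s * L) (WG L M) (aP L T / s) (XG L T M) has hW1 (mul_pos hs0 hP.L0) haL' hWL hbig
    (by linarith [hP.Xlog1]) hP.X1 (hP.size hT)
  have hnum := errs_num hP.hM hP.Wlow hP.Leq hP.alow haL hl
    (Real.log_nonneg (by exact_mod_cast hP.X1) : 0 ≤ Real.log (XG L T M)) (by
      have := hP.Xlog
      rw [hP.Ueq] at this
      linarith [this, (by ring : 2 * (2 * Real.log T / WG L M ^ 2) = 4 * Real.log T / WG L M ^ 2)])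
    hs1 hs2
  have hxa1 : |x / aP L T| ≤ 1 := by
    rw [abs_div, abs_of_pos ha0]
    have h1 : |x| / aP L T ≤ M / M ^ 19 := by
      gcongr
      exact hP.alow
    have h2 : M / M ^ 19 ≤ 1 := by
      rw [div_le_one (by positivity)]
      exact le_self_pow₀ hM1 (by norm_num)
    linarith
  have hl1 : 1 ≤ Real.log T := by
    have h3 : (1 : ℝ) ≤ M ^ 40 := one_le_pow₀ hM1
    linarith
  have hxa : |x / aP L T| ≤ Real.log T := hxa1.trans hl1
  have hx1 := (abs_le.1 hxa).1
  have hx2 := (abs_le.1 hxa).2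
  set F : ℝ → ℝ := fun u => |SZ g (aP L T / s) u - s * L * (∫ x, g x) +
    (DP (cn (fc g) (aP L T / s) (XG L T M)) (XG L T M) u).re| with hF
  have hFt : ∀ t, |st (sf g x s) L T t - YG g x s L T M t| = F (t + x / aP L T) := by
    intro t
    rw [hF, st_sf g hs0 ha0]
    unfold st YG
    rw [DP_sf g ha0 hs0, aP_sc, sub_neg_eq_add]
  have hFc : ContinuousOn F (Set.Icc (T - 1) (2 * T + 1)) := by
    have h7 : ContinuousOn (fun t => (DP (cn (fc g) (aP L T / s) (XG L T M)) (XG L T M) t).re)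
        (Set.Icc (T - 1) (2 * T + 1)) := (Complex.continuous_re.comp (DP_cont _ _)).continuousOn
    exact (((hc _ has).sub continuousOn_const).add h7).abs
  refine ⟨?_, ?_⟩
  · have h8 : ContinuousOn (fun t => SZ g (aP L T / s) (t + x / aP L T))
        (Set.Icc T (2 * T)) := by
      refine (hc _ has).comp (by fun_prop) fun t ht => ?_
      have h1 := (abs_le.1 hxa1).1
      have h2 := (abs_le.1 hxa1).2
      exact ⟨by linarith [ht.1], by linarith [ht.2]⟩
    refine (h8.sub (continuousOn_const (c := s * L * ∫ x, g x))).congr fun t _ => ?_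
    show st (sf g x s) L T t = _
    rw [st_sf g hs0 ha0]
    unfold st
    rw [aP_sc]
    rfl
  · have e1 : ∫ t in (T + 2 * Real.log T)..(2 * T - 2 * Real.log T),
          |st (sf g x s) L T t - YG g x s L T M t| =
        ∫ t in (T + 2 * Real.log T)..(2 * T - 2 * Real.log T), F (t + x / aP L T) :=
      intervalIntegral.integral_congr fun t _ => hFt t
    rw [e1, intervalIntegral.integral_comp_add_right]
    have h9 : IntervalIntegrable F volume (T + Real.log T) (2 * T - Real.log T) := by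
      apply ContinuousOn.intervalIntegrable
      rw [Set.uIcc_of_le (by linarith)]
      exact hFc.mono (Set.Icc_subset_Icc (by linarith) (by linarith))
    have h10 : ∫ t in (T + 2 * Real.log T + x / aP L T)..(2 * T - 2 * Real.log T + x / aP L T), F t ≤
        ∫ t in (T + Real.log T)..(2 * T - Real.log T), F t := by
      refine intervalIntegral.integral_mono_interval (by linarith) (by linarith) (by linarith)
        (Eventually.of_forall fun t => abs_nonneg _) h9
    refine h10.trans (hmm.trans ?_)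
    calc K * T * _ ≤ K * T * (20 / M ^ 5) := mul_le_mul_of_nonneg_left hnum (by positivity)
      _ = K * 20 * T / M ^ 5 := by ring

end Pool.Agent.Q278.GC
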