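import Pool.Agent.Q278.GC.Stm
import Pool.Agent.Q278.MX.G
import Pool.Agent.Q278.MX.J
import Pool.Agent.Q241.GC.GC

/-!
# Quantitative multidimensional CLT for Dirichlet polynomials over primes (helper278)
-/

set_option autoImplicit false

namespace Pool.Agent.Q278.GC

open Filter Topology MeasureTheory Complex ProbabilityTheory
open scoped FourierTransform ContDiff ComplexConjugate RealInnerProductSpace
open Pool.Agent.Q278.MC Pool.Agent.Q278.MX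

variable {n : ℕ} {S : Finset ℕ} {N : ℕ}

/-- the random vector of prime sums -/
noncomputable def ZV (S : Finset ℕ) (N : ℕ) (c : Fin n → ℕ → ℂ) (t : ℝ) :
    EuclideanSpace ℝ (Fin n) :=
  WithLp.toLp 2 fun i => (DP (af S (c i)) N t).re

/-- its covariance matrix -/
noncomputable def ZM (S : Finset ℕ) (c : Fin n → ℕ → ℂ) : Matrix (Fin n) (Fin n) ℝ :=
  Matrix.of fun i j => (∑ p ∈ S, (c i p * conj (c j p)).re) / 2

/-- linear combination of the coefficients -/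
noncomputable def cx (c : Fin n → ℕ → ℂ) (ξ : EuclideanSpace ℝ (Fin n)) (p : ℕ) : ℂ :=
  ∑ i, ((ξ i : ℝ) : ℂ) * c i p

lemma ZV_cont (c : Fin n → ℕ → ℂ) : Continuous (ZV S N c) := by
  unfold ZV
  refine (PiLp.continuous_toLp 2 _).comp ?_
  exact continuous_pi fun i => Complex.continuous_re.comp (DP_cont _ _)

lemma inner_ZV (hS : ∀ p ∈ S, p.Prime) (hN : ∀ p ∈ S, p ≤ N) (c : Fin n → ℕ → ℂ)
    (ξ : EuclideanSpace ℝ (Fin n)) (t : ℝ) : ⟪ZV S N c t, ξ⟫ = (DP (af S (cx c ξ)) N t).re := by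
  rw [PiLp.inner_apply, af_DP hS hN]
  have e : ∑ p ∈ S, cx c ξ p * (p : ℂ) ^ (-(t : ℂ) * I) =
      ∑ i, ((ξ i : ℝ) : ℂ) * DP (af S (c i)) N t := by
    have e1 : ∀ i, DP (af S (c i)) N t = ∑ p ∈ S, c i p * (p : ℂ) ^ (-(t : ℂ) * I) :=
      fun i => af_DP hS hN _ _
    simp only [e1]
    unfold cx
    simp only [Finset.sum_mul, Finset.mul_sum]
    rw [Finset.sum_comm]
    refine Finset.sum_congr rfl fun i _ => Finset.sum_congr rfl fun p _ => ?_
    ring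
  rw [e, Complex.re_sum]
  refine Finset.sum_congr rfl fun i _ => ?_
  rw [Complex.re_ofReal_mul]
  simp only [ZV, RCLike.inner_apply, conj_trivial]

lemma quad_ZM (c : Fin n → ℕ → ℂ) (x : Fin n → ℝ) : dotProduct x ((ZM S c).mulVec x) =
    (∑ p ∈ S, ‖∑ i, ((x i : ℝ) : ℂ) * c i p‖ ^ 2) / 2 := by
  unfold dotProduct Matrix.mulVec dotProduct ZM
  simp only [Matrix.of_apply]
  have e1 : ∀ p, ‖∑ i, ((x i : ℝ) : ℂ) * c i p‖ ^ 2 =
      ∑ i, ∑ j, x i * x j * (c i p * conj (c j p)).re := by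
    intro p
    have h1 : ((‖∑ i, ((x i : ℝ) : ℂ) * c i p‖ ^ 2 : ℝ) : ℂ) =
        (∑ i, ((x i : ℝ) : ℂ) * c i p) * conj (∑ i, ((x i : ℝ) : ℂ) * c i p) := by
      rw [Complex.mul_conj, Complex.normSq_eq_norm_sq]
    have h2 : ‖∑ i, ((x i : ℝ) : ℂ) * c i p‖ ^ 2 =
        ((∑ i, ((x i : ℝ) : ℂ) * c i p) * conj (∑ i, ((x i : ℝ) : ℂ) * c i p)).re := by
      rw [← h1, Complex.ofReal_re]
    rw [h2, map_sum, Finset.sum_mul_sum, Complex.re_sum]
    refine Finset.sum_congr rfl fun i _ => ?_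
    rw [Complex.re_sum]
    refine Finset.sum_congr rfl fun j _ => ?_
    rw [map_mul, Complex.conj_ofReal,
      show ((x i : ℝ) : ℂ) * c i p * (((x j : ℝ) : ℂ) * conj (c j p)) =
        ((x i * x j : ℝ) : ℂ) * (c i p * conj (c j p)) by push_cast; ring, Complex.re_ofReal_mul]
  simp only [e1]
  rw [Finset.sum_comm, Finset.sum_div]
  refine Finset.sum_congr rfl fun i _ => ?_
  rw [Finset.sum_comm, Finset.sum_div, Finset.mul_sum]
  refine Finset.sum_congr rfl fun j _ => ?_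
  rw [← Finset.mul_sum]
  ring

lemma ZM_pos (c : Fin n → ℕ → ℂ) : (ZM S c).PosSemidef := by
  refine Matrix.PosSemidef.of_dotProduct_mulVec_nonneg ?_ fun x => ?_
  · ext i j
    simp only [Matrix.conjTranspose_apply, ZM, Matrix.of_apply, star_trivial]
    congr 1
    refine Finset.sum_congr rfl fun p _ => ?_
    rw [← Complex.conj_re, map_mul, Complex.conj_conj, mul_comm]
  · rw [star_trivial, quad_ZM]
    positivity

lemma VV_cx (hS : ∀ p ∈ S, p.Prime) (c : Fin n → ℕ → ℂ) (ξ : EuclideanSpace ℝ (Fin n)) :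
    VV (af S (cx c ξ)) S = 2 * dotProduct ξ.ofLp ((ZM S c).mulVec ξ.ofLp) := by
  rw [af_VV hS, quad_ZM]
  unfold cx
  ring

lemma charFun_ZM (hS : ∀ p ∈ S, p.Prime) (c : Fin n → ℕ → ℂ) (ξ : EuclideanSpace ℝ (Fin n)) :
    charFun (multivariateGaussian 0 (ZM S c)) ξ =
      ((Real.exp (-(VV (af S (cx c ξ)) S / 4)) : ℝ) : ℂ) := by
  rw [charFun_multivariateGaussian (ZM_pos c), inner_zero_right, VV_cx hS]
  push_cast
  congr 1
  ring

/-- Cauchy-Schwarz for the combined coefficient -/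
lemma cx_le (c : Fin n → ℕ → ℂ) (ξ : EuclideanSpace ℝ (Fin n)) (p : ℕ) :
    ‖cx c ξ p‖ ^ 2 ≤ ‖ξ‖ ^ 2 * ∑ i, ‖c i p‖ ^ 2 := by
  have h1 : ‖cx c ξ p‖ ≤ ∑ i, |ξ i| * ‖c i p‖ := by
    unfold cx
    refine (norm_sum_le _ _).trans (Finset.sum_le_sum fun i _ => ?_)
    rw [norm_mul, Complex.norm_real, Real.norm_eq_abs]
  have h2 := Finset.sum_mul_sq_le_sq_mul_sq Finset.univ (fun i => |ξ i|) (fun i => ‖c i p‖)
  have h3 : ‖ξ‖ ^ 2 = ∑ i, |ξ i| ^ 2 := by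
    rw [EuclideanSpace.real_norm_sq_eq]
    exact Finset.sum_congr rfl fun i _ => (sq_abs _).symm
  rw [h3]
  calc ‖cx c ξ p‖ ^ 2 ≤ (∑ i, |ξ i| * ‖c i p‖) ^ 2 := pow_le_pow_left₀ (norm_nonneg _) h1 2
    _ ≤ _ := h2

lemma VV_cx_le (hS : ∀ p ∈ S, p.Prime) (c : Fin n → ℕ → ℂ) {V : ℝ}
    (hV : ∀ i, ∑ p ∈ S, ‖c i p‖ ^ 2 ≤ V) (ξ : EuclideanSpace ℝ (Fin n)) :
    VV (af S (cx c ξ)) S ≤ ‖ξ‖ ^ 2 * (n * V) := by
  rw [af_VV hS]
  calc ∑ p ∈ S, ‖cx c ξ p‖ ^ 2 ≤ ∑ p ∈ S, ‖ξ‖ ^ 2 * ∑ i, ‖c i p‖ ^ 2 :=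
        Finset.sum_le_sum fun p _ => cx_le c ξ p
    _ = ‖ξ‖ ^ 2 * ∑ i, ∑ p ∈ S, ‖c i p‖ ^ 2 := by rw [← Finset.mul_sum, Finset.sum_comm]
    _ ≤ ‖ξ‖ ^ 2 * ∑ _i : Fin n, V := by
        gcongr with i
        exact hV i
    _ = _ := by simp

/-- **quantitative CLT in `n` dimensions for prime sums** -/
theorem vec_clt (hSM : S_SM) (hS : ∀ p ∈ S, p.Prime) (hN : ∀ p ∈ S, p ≤ N) (hN1 : 1 ≤ N)
    (c : Fin n → ℕ → ℂ) {T δ V m ε R Ξ : ℝ} {r : ℕ} (hT : 1 ≤ T) (hV0 : 0 ≤ V)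
    (hV : ∀ i, ∑ p ∈ S, ‖c i p‖ ^ 2 ≤ V) (hm0 : 0 ≤ m) (hm : ∀ i, ∀ p ∈ S, ‖c i p‖ ^ 2 ≤ m)
    (hδ : 8 * ((N ^ (2 * r) : ℕ) : ℝ) * (1 + Real.log ((N ^ (2 * r) : ℕ) : ℝ)) ≤ δ * T)
    (hsz : 8 * (N : ℝ) * (1 + Real.log N) ≤ T)
    (hε : 0 < ε) (hε1 : ε ≤ 1) (hR : 0 < R) (hΞ : 0 ≤ Ξ)
    (φ : EuclideanSpace ℝ (Fin n) → ℝ) (hφ : ∀ x, |φ x| ≤ 1) (hφL : LipschitzWith 1 φ) :
    |∫ t, φ (ZV S N c t) ∂(mu T) - ∫ x, φ x ∂(multivariateGaussian 0 (ZM S c))| ≤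
      4 * ε * Real.sqrt n + (4 * R / ε) ^ n *
        (Real.exp (Ξ ^ 2 * (n * V)) * (δ * (2 * r + 1) + (1 - ta T) + Ξ ^ 2 * (n * m) +
          2 * ((Ξ ^ 2 * (n * V)) ^ r / (r.factorial : ℝ))) + 2 * Real.exp (-(ε * Ξ) ^ 2 / 4)) +
        8 * (2 * n * V + n) / R ^ 2 := by
  haveI := mu_fin T
  obtain ⟨ht0, ht1⟩ := ta_mem hT
  have hT0 : 0 < T := by linarith
  have hδ0 : 0 ≤ δ := by
    have hY1 : (1 : ℝ) ≤ ((N ^ (2 * r) : ℕ) : ℝ) := by
      have : 1 ≤ N ^ (2 * r) := Nat.one_le_pow _ _ hN1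
      exact_mod_cast this
    have hlY := Real.log_nonneg hY1
    have : 0 ≤ δ * T := le_trans (by positivity) hδ
    by_contra hc
    push Not at hc
    nlinarith
  set μ : Measure (EuclideanSpace ℝ (Fin n)) := (mu T).map (ZV S N c) with hμ
  have hmeas : Measurable (ZV S N c) := (ZV_cont c).measurable
  have hfin : IsFiniteMeasure μ := by rw [hμ]; infer_instance
  have hmass : μ.real Set.univ ≤ 1 := by
    rw [hμ, Measure.real, Measure.map_apply hmeas MeasurableSet.univ, Set.preimage_univ]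
    have := mu_univ hT
    rw [Measure.real] at this
    rw [this]
    exact ht1
  -- second moments
  have hsq : ∀ t, ‖ZV S N c t‖ ^ 2 = ∑ i, (DP (af S (c i)) N t).re ^ 2 := fun t =>
    EuclideanSpace.real_norm_sq_eq _
  have hi2 : Integrable (fun x => ‖x‖ ^ 2) μ := by
    rw [hμ, integrable_map_measure (by fun_prop) hmeas.aemeasurable]
    exact mu_cont ((ZV_cont c).norm.pow 2) T
  have hm2 : ∫ x, ‖x‖ ^ 2 ∂μ ≤ 2 * n * V := by
    rw [hμ, integral_map hmeas.aemeasurable (by fun_prop)]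
    have e1 : ∫ t, ‖ZV S N c t‖ ^ 2 ∂(mu T) = ∑ i, ∫ t, (DP (af S (c i)) N t).re ^ 2 ∂(mu T) := by
      simp only [hsq]
      exact integral_finsetSum _ fun i _ => mu_cont (by
        exact (Complex.continuous_re.comp (DP_cont _ _)).pow 2) T
    rw [e1]
    calc ∑ i, ∫ t, (DP (af S (c i)) N t).re ^ 2 ∂(mu T) ≤ ∑ _i : Fin n, 2 * V := by
          refine Finset.sum_le_sum fun i _ => ?_
          have h1 := mom_norm (af_pc hS hN (c i)) hT (δ := 1) 1 (by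
            rw [pow_one, one_mul]
            exact hsz)
          have h2 : ∫ t, (DP (af S (c i)) N t).re ^ 2 ∂(mu T) ≤
              ∫ t, ‖DP (af S (c i)) N t‖ ^ (2 * 1) ∂(mu T) := by
            refine integral_mono (mu_cont ((Complex.continuous_re.comp (DP_cont _ _)).pow 2) T)
              (mu_cont ((DP_cont _ _).norm.pow _) T) fun t => ?_
            show (DP (af S (c i)) N t).re ^ 2 ≤ ‖DP (af S (c i)) N t‖ ^ 2
            rw [← sq_abs]
            exact pow_le_pow_left₀ (abs_nonneg _) (Complex.abs_re_le_norm _) 2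
          have h3 : VV (af S (c i)) S ≤ V := by
            rw [af_VV hS]
            exact hV i
          rw [pow_one, Nat.factorial_one, Nat.cast_one, one_mul] at h1
          linarith
      _ = 2 * n * V := by
          rw [Finset.sum_const, Finset.card_univ, Fintype.card_fin, nsmul_eq_mul]
          ring
  obtain ⟨hg1, hg2⟩ := Pool.Agent.Q241.GC.mg_sq (ZM S c) (ZM_pos c)
  have hg3 : ∫ y, ‖y‖ ^ 2 ∂(multivariateGaussian (0 : EuclideanSpace ℝ (Fin n)) (ZM S c)) ≤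
      2 * n * V := by
    rw [hg2]
    calc ∑ i, ZM S c i i ≤ ∑ _i : Fin n, 2 * V := by
          refine Finset.sum_le_sum fun i _ => ?_
          unfold ZM
          rw [Matrix.of_apply]
          have h1 := hV i
          have h2 : ∑ p ∈ S, (c i p * conj (c i p)).re = ∑ p ∈ S, ‖c i p‖ ^ 2 := by
            refine Finset.sum_congr rfl fun p _ => ?_
            rw [Complex.mul_conj, Complex.ofReal_re, Complex.normSq_eq_norm_sq]
          rw [h2]
          linarith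
      _ = 2 * n * V := by
          rw [Finset.sum_const, Finset.card_univ, Fintype.card_fin, nsmul_eq_mul]
          ring
  set D : ℝ := Real.exp (Ξ ^ 2 * (n * V)) * (δ * (2 * r + 1) + (1 - ta T) + Ξ ^ 2 * (n * m) +
          2 * ((Ξ ^ 2 * (n * V)) ^ r / (r.factorial : ℝ))) with hD
  have hD0 : 0 ≤ D := by
    have : 0 ≤ 1 - ta T := by linarith
    positivity
  have hcf : ∀ ξ, ‖ξ‖ ≤ Ξ → ‖charFun μ ξ - charFun (multivariateGaussian 0 (ZM S c)) ξ‖ ≤ D := by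
    intro ξ hξ
    have hξ2 : ‖ξ‖ ^ 2 ≤ Ξ ^ 2 := pow_le_pow_left₀ (norm_nonneg _) hξ 2
    have e1 : charFun μ ξ = ∫ t, cexp (I * (((DP (af S (cx c ξ)) N t).re : ℝ) : ℂ)) ∂(mu T) := by
      rw [charFun_apply, hμ, integral_map hmeas.aemeasurable (by fun_prop)]
      refine integral_congr_ae (Eventually.of_forall fun t => ?_)
      show cexp (((⟪ZV S N c t, ξ⟫ : ℝ) : ℂ) * I) = _
      rw [inner_ZV hS hN, mul_comm]
    rw [e1, charFun_ZM hS]
    have hVx := VV_cx_le hS c hV ξ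
    have hVx0 := VV_nonneg (af S (cx c ξ)) S
    have hVV : VV (af S (cx c ξ)) S ≤ Ξ ^ 2 * (n * V) :=
      hVx.trans (mul_le_mul_of_nonneg_right hξ2 (by positivity))
    have hmx : ∀ p ∈ S, ‖(af S (cx c ξ)) p‖ ^ 2 ≤ Ξ ^ 2 * (n * m) := by
      intro p hp
      rw [af_apply hS, if_pos hp]
      refine (cx_le c ξ p).trans (mul_le_mul hξ2 ?_ (by positivity) (by positivity))
      calc ∑ i, ‖c i p‖ ^ 2 ≤ ∑ _i : Fin n, m := Finset.sum_le_sum fun i _ => hm i p hp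
        _ = n * m := by simp
    have h1 := char_fun (af_pc hS hN (cx c ξ)) hT hN1 (by positivity) hmx hδ
    refine h1.trans ?_
    rw [hD]
    have : 0 ≤ 1 - ta T := by linarith
    gcongr
  exact hSM n μ _ hfin inferInstance hmass (by simp) φ ε R D Ξ (2 * n * V) hφ hφL hε hε1 hR hΞ hD0
    hi2 hg1 hm2 hg3 hcf |>.trans_eq' (by
      rw [hμ, integral_map hmeas.aemeasurable hφL.continuous.aestronglyMeasurable])

end Pool.Agent.Q278.GC
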