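import Pool.Agent.Q278.GC.C
import Pool.Agent.Q278.GC.D

/-!
# Dropping the small primes; sizes of the coefficients (helper278)
-/

set_option autoImplicit false

namespace Pool.Agent.Q278.GC

open Filter Topology MeasureTheory Complex ProbabilityTheory
open scoped FourierTransform ContDiff ComplexConjugate RealInnerProductSpace
open Pool.Agent.Q278.MC Pool.Agent.Q278.MX

/-- coefficients of the coordinate `(x, s)` -/
noncomputable def cG (g : ℝ → ℝ) (L T M x s : ℝ) (p : ℕ) : ℂ :=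
  -cn (fc (sf g x s)) (aP L T) (XG L T M) p

/-- the primes which are kept -/
noncomputable def SG (L T M : ℝ) : Finset ℕ := PB (M ^ 9) (Real.log (XG L T M))

lemma SG_prime {L T M : ℝ} : ∀ p ∈ SG L T M, p.Prime := PB_prime

lemma SG_le {L T M : ℝ} (h : 1 ≤ XG L T M) : ∀ p ∈ SG L T M, p ≤ XG L T M := by
  intro p hp
  have h1 := PB_le hp
  rw [Real.exp_log (by exact_mod_cast h), Nat.floor_natCast] at h1
  exact h1

lemma four_sf_le {g : ℝ → ℝ} (hg : CC (fc g)) : ∃ K : ℝ, 1 ≤ K ∧ ∀ x s ξ : ℝ, 0 < s → s ≤ 1 →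
    ‖𝓕 (fc (sf g x s)) ξ‖ ≤ K := by
  obtain ⟨K, hK, h⟩ := four_bound hg
  refine ⟨max K 1, le_max_right _ _, fun x s ξ hs hs1 => ?_⟩
  rw [four_sf g hs, norm_mul, norm_mul, Complex.norm_real, Real.norm_of_nonneg hs.le]
  have e1 : ‖cexp (-(2 * Real.pi * x * ξ : ℝ) * I)‖ = 1 := by
    rw [← Complex.ofReal_neg, Complex.norm_exp_ofReal_mul_I]
  rw [e1, mul_one]
  have h1 := h (s * ξ)
  have h2 : K * (1 + (s * ξ) ^ 2)⁻¹ ^ 3 ≤ K * 1 := mul_le_mul_of_nonneg_left (inv_pow_le _) hK.le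
  calc s * ‖𝓕 (fc g) (s * ξ)‖ ≤ 1 * K := mul_le_mul hs1 (by linarith) (norm_nonneg _) zero_le_one
    _ ≤ _ := by rw [one_mul]; exact le_max_left _ _

lemma cn_sq_le {g : ℝ → ℝ} {K : ℝ} {x s : ℝ} (hK : ∀ ξ, ‖𝓕 (fc (sf g x s)) ξ‖ ≤ K) {a : ℝ}
    (ha : 0 < a) (X p : ℕ) (hp : p.Prime) :
    ‖cn (fc (sf g x s)) a X p‖ ^ 2 ≤ K ^ 2 / a ^ 2 * (Real.log p ^ 2 / p) := by
  rw [cn_apply]
  have hp0 : (0 : ℝ) < p := by exact_mod_cast hp.pos
  split_ifs with h
  · rw [norm_mul, mul_pow, Complex.norm_real, Real.norm_eq_abs, sq_abs, mul_pow, mul_pow,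
      sq_inv_sqrt]
    have h1 : ‖𝓕 (fc (sf g x s)) (Real.log p / (2 * Real.pi * a))‖ ^ 2 ≤ K ^ 2 :=
      pow_le_pow_left₀ (norm_nonneg _) (hK _) 2
    have h2 : (1 / (Real.pi * a)) ^ 2 ≤ 1 / a ^ 2 := by
      rw [div_pow, one_pow, mul_pow]
      refine one_div_le_one_div_of_le (by positivity) ?_
      have : 1 ≤ Real.pi ^ 2 := by nlinarith [Real.pi_gt_three]
      nlinarith [sq_nonneg a]
    calc (1 / (Real.pi * a)) ^ 2 * (Real.log p ^ 2 * (1 / p)) * _ ≤
        1 / a ^ 2 * (Real.log p ^ 2 * (1 / p)) * K ^ 2 := by gcongr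
      _ = _ := by ring
  · rw [norm_zero, zero_pow two_ne_zero]
    positivity

/-- the small primes, in mean -/
theorem low_err {g : ℝ → ℝ} (hg : CC (fc g)) : ∃ C : ℝ, 1 ≤ C ∧ ∀ M L T x s : ℝ, Par M L T →
    0 < T → 0 < s → s ≤ 1 →
    ∫ t, |YG g x s L T M t - (DP (af (SG L T M) (cG g L T M x s)) (XG L T M) t).re| ∂(mu T) ≤
      C * M ^ 9 / aP L T := by
  obtain ⟨K, hK1, hK⟩ := four_sf_le hg
  obtain ⟨C, hC1, hC⟩ := sum_sq
  refine ⟨2 * K * C, by nlinarith, fun M L T x s hP hT hs hs1 => ?_⟩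
  have hM0 := hP.M0
  have ha0 := hP.a0
  have hX1 := hP.X1
  have hT1 : 1 ≤ T := by linarith [hP.T0 hT]
  haveI := mu_fin T
  set X := XG L T M with hX
  set a := aP L T with ha
  set S := SG L T M with hS
  set c : ℕ → ℂ := fun p => cn (fc (sf g x s)) a X p with hc
  set S2 := PX X \ S with hS2
  have hS2p : ∀ p ∈ S2, p.Prime := fun p hp => (mem_PX.1 (Finset.mem_sdiff.1 hp).1).1
  have hS2l : ∀ p ∈ S2, p ≤ X := fun p hp => (mem_PX.1 (Finset.mem_sdiff.1 hp).1).2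
  have hPXp : ∀ p ∈ PX X, p.Prime := fun p hp => (mem_PX.1 hp).1
  have hPXl : ∀ p ∈ PX X, p ≤ X := fun p hp => (mem_PX.1 hp).2
  have hSsub : S ⊆ PX X := fun p hp => mem_PX.2 ⟨SG_prime p hp, SG_le hX1 p hp⟩
  have e1 : ∀ t, YG g x s L T M t - (DP (af S (cG g L T M x s)) X t).re =
      -(DP (af S2 c) X t).re := by
    intro t
    unfold YG
    have h1 : DP (cn (fc (sf g x s)) a X) X t = ∑ p ∈ PX X, c p * (p : ℂ) ^ (-(t : ℂ) * I) := by
      rw [← af_DP hPXp hPXl c t]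
      unfold DP
      refine Finset.sum_congr rfl fun n _ => ?_
      rw [af_apply hPXp]
      split_ifs with hn
      · rfl
      · rw [(cn_Pc _ _ _).supp n hn]
    rw [h1, af_DP SG_prime (SG_le hX1), af_DP hS2p hS2l]
    have h2 : ∑ p ∈ S, cG g L T M x s p * (p : ℂ) ^ (-(t : ℂ) * I) =
        -∑ p ∈ S, c p * (p : ℂ) ^ (-(t : ℂ) * I) := by
      rw [← Finset.sum_neg_distrib]
      refine Finset.sum_congr rfl fun p _ => ?_
      unfold cG
      simp only [hc]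
      ring
    rw [h2, Complex.neg_re, hS2, ← Finset.sum_sdiff hSsub, Complex.add_re]
    ring
  have hV : VV (af S2 c) S2 ≤ (K * C * M ^ 9 / a) ^ 2 := by
    rw [af_VV hS2p]
    have h3 : S2 ⊆ PB 0 (M ^ 9) := by
      intro p hp
      have hp1 := hS2p p hp
      have hpl := hS2l p hp
      have hpn := (Finset.mem_sdiff.1 hp).2
      rw [mem_PB]
      have hlp : 0 < Real.log p := Real.log_pos (by exact_mod_cast hp1.one_lt)
      refine ⟨hp1, hlp, ?_⟩
      by_contra hcon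
      push Not at hcon
      apply hpn
      rw [hS]
      unfold SG
      rw [mem_PB]
      refine ⟨hp1, hcon, ?_⟩
      exact Real.log_le_log (by exact_mod_cast hp1.pos) (by exact_mod_cast hpl)
    have hM9 : 1 ≤ M ^ 9 := one_le_pow₀ hP.M1
    calc ∑ p ∈ S2, ‖c p‖ ^ 2 ≤ ∑ p ∈ S2, K ^ 2 / a ^ 2 * (Real.log p ^ 2 / p) :=
          Finset.sum_le_sum fun p hp => cn_sq_le (fun ξ => hK x s ξ hs hs1) ha0 X p (hS2p p hp)
      _ ≤ ∑ p ∈ PB 0 (M ^ 9), K ^ 2 / a ^ 2 * (Real.log p ^ 2 / p) :=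
          Finset.sum_le_sum_of_subset_of_nonneg h3 fun p _ _ => by positivity
      _ = K ^ 2 / a ^ 2 * ∑ p ∈ PB 0 (M ^ 9), Real.log p ^ 2 / p := by rw [Finset.mul_sum]
      _ ≤ K ^ 2 / a ^ 2 * (C * (M ^ 9) ^ 2) := by
          gcongr
          exact hC _ hM9
      _ ≤ K ^ 2 / a ^ 2 * (C ^ 2 * (M ^ 9) ^ 2) := by
          gcongr
          nlinarith
      _ = _ := by ring
  have hmom := mom_norm (af_pc hS2p hS2l c) hT1 (δ := 1) 1 (by
    rw [pow_one, one_mul]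
    exact hP.size hT)
  rw [pow_one, Nat.factorial_one, Nat.cast_one, one_mul, mul_one] at hmom
  have hcont : Continuous (DP (af S2 c) X) := DP_cont _ _
  have hCS : (∫ t, ‖DP (af S2 c) X t‖ ∂(mu T)) ≤ 2 * K * C * M ^ 9 / a := by
    set B : ℝ := K * C * M ^ 9 / a with hB
    have hB0 : 0 < B := by
      rw [hB]
      have : 0 < K := by linarith
      positivity
    have h4 : ∀ t, ‖DP (af S2 c) X t‖ ≤ B / 2 + ‖DP (af S2 c) X t‖ ^ 2 / (2 * B) := by
      intro t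
      have h5 : 0 ≤ (‖DP (af S2 c) X t‖ - B) ^ 2 / (2 * B) := by positivity
      have h6 : (‖DP (af S2 c) X t‖ - B) ^ 2 / (2 * B) =
          ‖DP (af S2 c) X t‖ ^ 2 / (2 * B) - ‖DP (af S2 c) X t‖ + B / 2 := by
        field_simp
        ring
      linarith
    calc (∫ t, ‖DP (af S2 c) X t‖ ∂(mu T)) ≤
        ∫ t, (B / 2 + ‖DP (af S2 c) X t‖ ^ 2 / (2 * B)) ∂(mu T) :=
          integral_mono (mu_cont hcont.norm T) (mu_cont (by fun_prop) T) h4
      _ = ta T * (B / 2) + (∫ t, ‖DP (af S2 c) X t‖ ^ 2 ∂(mu T)) / (2 * B) := by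
          rw [integral_add (mu_cont continuous_const T) (mu_cont (by fun_prop) T), integral_const,
            mu_univ hT1, integral_div, smul_eq_mul]
      _ ≤ 1 * (B / 2) + (2 * B ^ 2) / (2 * B) := by
          refine add_le_add (mul_le_mul_of_nonneg_right (ta_mem hT1).2 (by positivity)) ?_
          gcongr
          linarith
      _ ≤ 2 * B := by
          have : 2 * B ^ 2 / (2 * B) = B := by field_simp
          rw [this]
          linarith
      _ = _ := by rw [hB]; ring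
  refine le_trans ?_ hCS
  refine integral_mono (mu_cont ?_ T) (mu_cont hcont.norm T) fun t => ?_
  · have h7 : Continuous fun t => |-(DP (af S2 c) X t).re| :=
      (Complex.continuous_re.comp hcont).neg.abs
    refine h7.congr fun t => ?_
    rw [e1 t]
  · show |YG g x s L T M t - (DP (af S (cG g L T M x s)) X t).re| ≤ _
    rw [e1 t, abs_neg]
    exact Complex.abs_re_le_norm _

end Pool.Agent.Q278.GC
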