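import Mathlib

/-!
# Numerical estimates (helper278)
-/

set_option autoImplicit false

namespace Pool.Agent.Q278.GC

lemma fac_small {Q y : ℝ} (hQ : 0 ≤ Q) (hy : 8 ≤ y) {r : ℕ} (hr : Q * y ≤ r) (hr1 : 1 ≤ r) :
    Q ^ r / (r.factorial : ℝ) ≤ Real.exp (-r) := by
  have hr0 : (0 : ℝ) < r := by exact_mod_cast hr1
  have h1 : (r : ℝ) ^ r / (r.factorial : ℝ) ≤ Real.exp r :=
    Real.pow_div_factorial_le_exp (r : ℝ) hr0.le r
  have h2 : Q / r ≤ 1 / y := by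
    rw [div_le_div_iff₀ hr0 (by linarith)]
    linarith
  have h3 : 1 / y ≤ Real.exp (-2) := by
    rw [Real.exp_neg, ← one_div]
    refine one_div_le_one_div_of_le (Real.exp_pos _) ?_
    have h4 : Real.exp 2 = Real.exp 1 * Real.exp 1 := by rw [← Real.exp_add]; norm_num
    have h5 := Real.exp_one_lt_d9
    have h6 := Real.exp_pos 1
    rw [h4]
    nlinarith
  have h0 : 0 ≤ Q / r := by positivity
  calc Q ^ r / (r.factorial : ℝ) = (Q / r) ^ r * ((r : ℝ) ^ r / (r.factorial : ℝ)) := by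
        rw [div_pow]
        field_simp
    _ ≤ (Real.exp (-2)) ^ r * Real.exp r := by
        refine mul_le_mul (pow_le_pow_left₀ h0 (h2.trans h3) r) h1 (by positivity) (by positivity)
    _ = Real.exp (-r) := by
        rw [← Real.exp_nat_mul, ← Real.exp_add]
        congr 1
        ring

/-- all the numbers in the smoothing inequality -/
theorem nums : ∀ V K : ℝ, 1 ≤ V → 1 ≤ K → ∃ M0 : ℝ, 100 ≤ M0 ∧ ∀ (M ℓ T τ : ℝ) (n r : ℕ),
    M0 ≤ M → (n : ℝ) ≤ M → M ^ 40 ≤ ℓ → T = Real.exp ℓ → τ = 2 * ℓ / T → M ^ 9 ≤ r →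
    (r : ℝ) ≤ M ^ 9 + 1 →
    4 * (1 / M ^ 2) * Real.sqrt n + (4 * M ^ 2 / (1 / M ^ 2)) ^ n *
        (Real.exp ((M ^ 3) ^ 2 * (n * V)) * (Real.exp (-ℓ / 2) * (2 * r + 1) + τ +
          (M ^ 3) ^ 2 * (n * (K ^ 2 * (16 * Real.exp (-M ^ 9 / 2)))) +
          2 * (((M ^ 3) ^ 2 * (n * V)) ^ r / (r.factorial : ℝ))) +
          2 * Real.exp (-(1 / M ^ 2 * M ^ 3) ^ 2 / 4)) +
        8 * (2 * n * V + n) / (M ^ 2) ^ 2 ≤ 100 * V / M := by
  intro V K hV hK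
  refine ⟨100000 + V + K ^ 2, by nlinarith, fun M ℓ T τ n r hM hn hℓ hT hτ hr1 hr2 => ?_⟩
  have hMb : 100000 ≤ M := by nlinarith
  have hVM : V ≤ M := by nlinarith
  have hKM : K ^ 2 ≤ M := by nlinarith
  have hM0 : 0 < M := by linarith
  have hM1 : 1 ≤ M := by linarith
  have hn0 : (0 : ℝ) ≤ n := Nat.cast_nonneg n
  have hr0 : (0 : ℝ) < r := lt_of_lt_of_le (by positivity) hr1
  have hr1' : 1 ≤ r := by exact_mod_cast hr0
  set Q : ℝ := (M ^ 3) ^ 2 * (n * V) with hQ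
  have hQ0 : 0 ≤ Q := by positivity
  have hQ8 : Q ≤ M ^ 8 := by
    calc Q ≤ (M ^ 3) ^ 2 * (M * M) := by
          rw [hQ]; gcongr
      _ = M ^ 8 := by ring
  have p9 : M ^ 9 = M * M ^ 8 := by ring
  have hM8 : 1 ≤ M ^ 8 := one_le_pow₀ hM1
  have hM9 : 1 ≤ M ^ 9 := one_le_pow₀ hM1
  have hQr : Q * M ≤ r := by
    calc Q * M ≤ M ^ 8 * M := by gcongr
      _ = M ^ 9 := by ring
      _ ≤ r := hr1
  have g4 : Q ^ r / (r.factorial : ℝ) ≤ Real.exp (-M ^ 9) :=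
    (fac_small hQ0 (by linarith) hQr hr1').trans (Real.exp_le_exp.2 (by linarith))
  have h40 : 4 * M ^ 9 ≤ M ^ 40 := by
    have : M ^ 40 = M ^ 31 * M ^ 9 := by ring
    rw [this]
    have h31 : 4 ≤ M ^ 31 := by
      calc (4 : ℝ) ≤ M := by linarith
        _ ≤ M ^ 31 := le_self_pow₀ hM1 (by norm_num)
    nlinarith
  have hl9 : 4 * M ^ 9 ≤ ℓ := h40.trans hℓ
  have h10 : 16 * M ^ 9 ≤ ℓ := by
    have h11 : 16 * M ^ 9 ≤ M ^ 40 := by
      have : M ^ 40 = M ^ 31 * M ^ 9 := by ring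
      rw [this]
      have h31 : 16 ≤ M ^ 31 := by
        calc (16 : ℝ) ≤ M := by linarith
          _ ≤ M ^ 31 := le_self_pow₀ hM1 (by norm_num)
      nlinarith
    linarith
  have g1 : Real.exp (-ℓ / 2) * (2 * r + 1) ≤ Real.exp (-M ^ 9) := by
    have h1 : (2 * r + 1 : ℝ) ≤ Real.exp (4 * M ^ 9) := by
      have := Real.add_one_le_exp (4 * M ^ 9)
      nlinarith
    calc Real.exp (-ℓ / 2) * (2 * r + 1) ≤ Real.exp (-ℓ / 2) * Real.exp (4 * M ^ 9) := by gcongr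
      _ = Real.exp (-ℓ / 2 + 4 * M ^ 9) := by rw [Real.exp_add]
      _ ≤ _ := Real.exp_le_exp.2 (by linarith)
  have g2 : τ ≤ Real.exp (-M ^ 9) := by
    have hT0 : 0 < T := by rw [hT]; exact Real.exp_pos _
    have h1 : 2 * ℓ ≤ Real.exp (ℓ / 2) * 4 := by
      have := Real.add_one_le_exp (ℓ / 2)
      linarith
    have h2 : (4 : ℝ) ≤ Real.exp (M ^ 9) := by
      have := Real.add_one_le_exp (M ^ 9)
      nlinarith
    rw [hτ, hT, div_le_iff₀ (Real.exp_pos _)]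
    calc 2 * ℓ ≤ Real.exp (ℓ / 2) * 4 := h1
      _ ≤ Real.exp (ℓ / 2) * Real.exp (M ^ 9) := by gcongr
      _ = Real.exp (ℓ / 2 + M ^ 9) := by rw [Real.exp_add]
      _ ≤ Real.exp (-M ^ 9 + ℓ) := Real.exp_le_exp.2 (by linarith)
      _ = _ := Real.exp_add _ _
  have g3 : (M ^ 3) ^ 2 * (n * (K ^ 2 * (16 * Real.exp (-M ^ 9 / 2)))) ≤ Real.exp (-M ^ 9 / 4) := by
    have h1 : (M ^ 3) ^ 2 * (n * (K ^ 2 * 16)) ≤ Real.exp (M ^ 9 / 4) := by
      calc (M ^ 3) ^ 2 * (n * (K ^ 2 * 16)) ≤ (M ^ 3) ^ 2 * (M * (M * 16)) := by gcongr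
        _ = 16 * M ^ 8 := by ring
        _ ≤ M ^ 9 / 4 := by nlinarith
        _ ≤ _ := by
            have := Real.add_one_le_exp (M ^ 9 / 4)
            linarith
    calc (M ^ 3) ^ 2 * (n * (K ^ 2 * (16 * Real.exp (-M ^ 9 / 2)))) =
        ((M ^ 3) ^ 2 * (n * (K ^ 2 * 16))) * Real.exp (-M ^ 9 / 2) := by ring
      _ ≤ Real.exp (M ^ 9 / 4) * Real.exp (-M ^ 9 / 2) := by gcongr
      _ = _ := by
          rw [← Real.exp_add]
          congr 1
          ring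
  have gD : Real.exp Q * (Real.exp (-ℓ / 2) * (2 * r + 1) + τ +
          (M ^ 3) ^ 2 * (n * (K ^ 2 * (16 * Real.exp (-M ^ 9 / 2)))) +
          2 * (Q ^ r / (r.factorial : ℝ))) ≤ 5 * Real.exp (-M ^ 8) := by
    have h1 : Real.exp (-M ^ 9) ≤ Real.exp (-M ^ 9 / 4) := Real.exp_le_exp.2 (by linarith)
    have hℓ0 : 0 ≤ ℓ := by linarith
    have hτ0 : 0 ≤ τ := by
      rw [hτ, hT]
      positivity
    have hsum : Real.exp (-ℓ / 2) * (2 * r + 1) + τ +
          (M ^ 3) ^ 2 * (n * (K ^ 2 * (16 * Real.exp (-M ^ 9 / 2)))) +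
          2 * (Q ^ r / (r.factorial : ℝ)) ≤ 5 * Real.exp (-M ^ 9 / 4) := by linarith
    calc _ ≤ Real.exp (M ^ 8) * (5 * Real.exp (-M ^ 9 / 4)) :=
          mul_le_mul (Real.exp_le_exp.2 hQ8) hsum (by positivity) (Real.exp_pos _).le
      _ = 5 * Real.exp (M ^ 8 + -M ^ 9 / 4) := by rw [Real.exp_add]; ring
      _ ≤ 5 * Real.exp (-M ^ 8) := by
          gcongr
          nlinarith
  -- the volume factor
  have gv : (4 * M ^ 2 / (1 / M ^ 2)) ^ n ≤ Real.exp (M ^ 2 / 8) := by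
    have h1 : 4 * M ^ 2 / (1 / M ^ 2) = 4 * M ^ 4 := by field_simp
    rw [h1]
    have h2 : 4 * M ^ 4 ≤ Real.exp (M / 8) := by
      have h3 := Real.pow_div_factorial_le_exp (M / 8) (by positivity) 6
      have h4 : (M / 8) ^ 6 / (Nat.factorial 6 : ℝ) = M ^ 2 * M ^ 4 / 188743680 := by
        rw [show Nat.factorial 6 = 720 by rfl]
        push_cast
        ring
      rw [h4] at h3
      have h5 : (100000 : ℝ) ^ 2 ≤ M ^ 2 := pow_le_pow_left₀ (by norm_num) hMb 2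
      have h6 : 0 < M ^ 4 := by positivity
      have h7 : 4 * M ^ 4 ≤ M ^ 2 * M ^ 4 / 188743680 := by
        rw [le_div_iff₀ (by norm_num)]
        nlinarith
      linarith
    calc (4 * M ^ 4) ^ n ≤ (Real.exp (M / 8)) ^ n := pow_le_pow_left₀ (by positivity) h2 n
      _ = Real.exp (n * (M / 8)) := by rw [Real.exp_nat_mul]
      _ ≤ Real.exp (M ^ 2 / 8) := by
          refine Real.exp_le_exp.2 ?_
          nlinarith
  have ge : (1 / M ^ 2 * M ^ 3) = M := by field_simp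
  rw [ge]
  have gM : Real.exp (-M ^ 8) ≤ Real.exp (-M ^ 2 / 4) := by
    refine Real.exp_le_exp.2 ?_
    have h1 : M ^ 2 ≤ M ^ 8 := pow_le_pow_right₀ hM1 (by norm_num)
    have h2 : 0 ≤ M ^ 2 := by positivity
    linarith
  have gf : (4 * M ^ 2 / (1 / M ^ 2)) ^ n * (5 * Real.exp (-M ^ 8) + 2 * Real.exp (-M ^ 2 / 4)) ≤
      7 / M := by
    calc _ ≤ Real.exp (M ^ 2 / 8) * (7 * Real.exp (-M ^ 2 / 4)) := by
          gcongr
          linarith
      _ = 7 * Real.exp (-(M ^ 2 / 8)) := by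
          rw [show -M ^ 2 / 4 = -(M ^ 2 / 8) + -(M ^ 2 / 8) by ring, Real.exp_add]
          have : Real.exp (M ^ 2 / 8) * Real.exp (-(M ^ 2 / 8)) = 1 := by
            rw [← Real.exp_add]; simp
          linear_combination 7 * Real.exp (-(M ^ 2 / 8)) * this
      _ ≤ 7 * (1 / M) := by
          gcongr
          rw [Real.exp_neg, ← one_div]
          refine one_div_le_one_div_of_le hM0 ?_
          have := Real.add_one_le_exp (M ^ 2 / 8)
          nlinarith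
      _ = 7 / M := by ring
  have g5 : 4 * (1 / M ^ 2) * Real.sqrt n ≤ 4 / M := by
    have h1 : Real.sqrt n ≤ M := by
      rw [Real.sqrt_le_left hM0.le]
      nlinarith
    calc 4 * (1 / M ^ 2) * Real.sqrt n ≤ 4 * (1 / M ^ 2) * M := by gcongr
      _ = 4 / M := by field_simp
  have g6 : 8 * (2 * n * V + n) / (M ^ 2) ^ 2 ≤ 24 * V / M := by
    rw [div_le_div_iff₀ (by positivity) hM0]
    have h1 : 2 * n * V + n ≤ 3 * (M * V) := by nlinarith
    have h2 : M ^ 2 ≤ (M ^ 2) ^ 2 := by nlinarith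
    calc 8 * (2 * n * V + n) * M ≤ 8 * (3 * (M * V)) * M := by gcongr
      _ = 24 * V * M ^ 2 := by ring
      _ ≤ _ := by gcongr
  have e1 : -(M : ℝ) ^ 2 / 4 = -M ^ 2 / 4 := rfl
  calc _ ≤ 4 / M + (4 * M ^ 2 / (1 / M ^ 2)) ^ n * (5 * Real.exp (-M ^ 8) +
        2 * Real.exp (-M ^ 2 / 4)) + 24 * V / M := by
        gcongr
    _ ≤ 4 / M + 7 / M + 24 * V / M := by gcongr
    _ ≤ 100 * V / M := by
        rw [← add_div, ← add_div]
        gcongr
        linarith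

end Pool.Agent.Q278.GC
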