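import Pool.Agent.Q278.GC.E
import Pool.Agent.Q278.GC.F
import Pool.Agent.Q278.MC.R

/-!
# The Gaussian coupling: assembly (helper278)
-/

set_option autoImplicit false

namespace Pool.Agent.Q278.GC

open Filter Topology MeasureTheory Complex ProbabilityTheory
open scoped FourierTransform ContDiff ComplexConjugate RealInnerProductSpace
open Pool.Agent.Q278.MC Pool.Agent.Q278.MX

variable {n : ℕ}

lemma norm_le_sum (u : EuclideanSpace ℝ (Fin n)) : ‖u‖ ≤ ∑ i, |u i| := by
  have h1 : ‖u‖ ^ 2 = ∑ i, u i ^ 2 := EuclideanSpace.real_norm_sq_eq u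
  have h2 : ∑ i, u i ^ 2 ≤ (∑ i, |u i|) ^ 2 := by
    rw [sq, Finset.sum_mul]
    refine Finset.sum_le_sum fun i _ => ?_
    rw [← sq_abs, sq]
    refine mul_le_mul_of_nonneg_left ?_ (abs_nonneg _)
    exact Finset.single_le_sum (f := fun i => |u i|) (fun j _ => abs_nonneg _) (Finset.mem_univ i)
  have h4 : 0 ≤ ∑ i, |u i| := Finset.sum_nonneg fun i _ => abs_nonneg _
  nlinarith [norm_nonneg u]

lemma phi_diff {φ : EuclideanSpace ℝ (Fin n) → ℝ} (hφL : LipschitzWith 1 φ)
    (u v : EuclideanSpace ℝ (Fin n)) : |φ u - φ v| ≤ ∑ i, |u i - v i| := by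
  have h1 := hφL.dist_le_mul u v
  rw [Real.dist_eq, dist_eq_norm, NNReal.coe_one, one_mul] at h1
  exact h1.trans (norm_le_sum (u - v))

/-- the vector of prime approximations -/
noncomputable def YV (g : ℝ → ℝ) (x s : Fin n → ℝ) (L T M t : ℝ) : EuclideanSpace ℝ (Fin n) :=
  WithLp.toLp 2 fun i => YG g (x i) (s i) L T M t

lemma YV_cont (g : ℝ → ℝ) (x s : Fin n → ℝ) (L T M : ℝ) : Continuous (YV g x s L T M) := by
  unfold YV
  refine (PiLp.continuous_toLp 2 _).comp ?_
  exact continuous_pi fun i => YG_cont _ _ _ _ _ _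

/-- the system of test functions -/
noncomputable def fG (g : ℝ → ℝ) (x s : Fin n → ℝ) (i : Fin n) : ℝ → ℝ := sf g (x i) (s i)

/-- steps (1)-(3): from the zeros to the prime sums -/
theorem step_zero {g : ℝ → ℝ} (hg : CC (fc g)) : ∃ K M0 : ℝ, 0 < K ∧ 100 ≤ M0 ∧
    ∀ M L T : ℝ, M0 ≤ M → Par M L T → 0 < T → ∀ (n : ℕ) (x s : Fin n → ℝ), (n : ℝ) ≤ M →
      (∀ i, |x i| ≤ M ∧ 1 / M ≤ s i ∧ s i ≤ 1) →
      ∀ φ : EuclideanSpace ℝ (Fin n) → ℝ, (∀ y, |φ y| ≤ 1) → LipschitzWith 1 φ →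
      |1 / T * (∫ t in T..(2 * T), φ (vc (fG g x s) L T t)) - ∫ t, φ (YV g x s L T M t) ∂(mu T)| ≤
        K / M := by
  obtain ⟨K, M0, hK, hM0, h⟩ := mean_sf hg
  refine ⟨K + 10, M0, by positivity, hM0, fun M L T hM hP hT n x s hn hxs φ hφ hφL => ?_⟩
  have hMp := hP.M0
  have hM1 := hP.M1
  have hT10 := hP.T0 hT
  have hT1 : 1 ≤ T := by linarith
  have hbig := hP.big
  set ℓ := Real.log T with hℓ
  have hl0 : 0 < ℓ := by linarith
  have hTe : Real.exp ℓ = T := Real.exp_log hT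
  have h5l : 5 * ℓ ≤ T := by
    have h7 := Real.quadratic_le_exp_of_nonneg hl0.le
    nlinarith
  have hlM : ℓ / T ≤ 1 / M := by
    rw [div_le_div_iff₀ hT hMp, one_mul]
    have h1 : M ≤ ℓ := by
      have h2 : M ≤ M ^ 40 := le_self_pow₀ hM1 (by norm_num)
      linarith [hP.logT]
    have h7 := Real.pow_div_factorial_le_exp ℓ hl0.le 3
    have h8 : (Nat.factorial 3 : ℝ) = 6 := by norm_num [Nat.factorial]
    rw [h8, hTe] at h7
    have h9 : ℓ * M ≤ ℓ * ℓ := mul_le_mul_of_nonneg_left h1 hl0.le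
    have h10 : ℓ * ℓ ≤ ℓ ^ 3 / 6 := by
      rw [le_div_iff₀ (by norm_num)]
      nlinarith [mul_pos hl0 hl0]
    linarith
  have hb : ∀ y, ‖φ y‖ ≤ 1 := hφ
  have hφc := hφL.continuous
  -- continuity of the statistics
  have hvc : ContinuousOn (fun t => φ (vc (fG g x s) L T t)) (Set.Icc T (2 * T)) := by
    refine hφc.comp_continuousOn ?_
    unfold vc
    refine (PiLp.continuous_toLp 2 _).comp_continuousOn ?_
    exact continuousOn_pi.2 fun i =>
      (h M L T hM hP hT (x i) (s i) (hxs i).1 (hxs i).2.1 (hxs i).2.2).1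
  have hYc : Continuous fun t => φ (YV g x s L T M t) := hφc.comp (YV_cont _ _ _ _ _ _)
  have hci : ∀ u v : ℝ, T ≤ u → u ≤ v → v ≤ 2 * T →
      IntervalIntegrable (fun t => φ (vc (fG g x s) L T t)) volume u v := by
    intro u v hu huv hv
    apply ContinuousOn.intervalIntegrable
    rw [Set.uIcc_of_le huv]
    exact hvc.mono (Set.Icc_subset_Icc hu hv)
  have hsm : ∀ (F : ℝ → ℝ), (∀ t, ‖F t‖ ≤ 1) → ∀ u v : ℝ, u ≤ v → |∫ t in u..v, F t| ≤ v - u := by
    intro F hF u v huv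
    have := intervalIntegral.norm_integral_le_of_norm_le_const (a := u) (b := v) (C := 1)
      (f := F) (fun t _ => hF t)
    rwa [one_mul, abs_of_nonneg (by linarith)] at this
  set F : ℝ → ℝ := fun t => φ (vc (fG g x s) L T t) with hF
  set G : ℝ → ℝ := fun t => φ (YV g x s L T M t) with hG
  have hF1 : ∀ t, ‖F t‖ ≤ 1 := fun t => hb _
  have hG1 : ∀ t, ‖G t‖ ≤ 1 := fun t => hb _
  have s1 := intervalIntegral.integral_add_adjacent_intervals
    (hci T (T + 2 * ℓ) le_rfl (by linarith) (by linarith))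
    (hci (T + 2 * ℓ) (2 * T - 2 * ℓ) (by linarith) (by linarith) (by linarith))
  have s2 := intervalIntegral.integral_add_adjacent_intervals
    (hci T (2 * T - 2 * ℓ) le_rfl (by linarith) (by linarith))
    (hci (2 * T - 2 * ℓ) (2 * T) (by linarith) (by linarith) le_rfl)
  have s3 := intervalIntegral.integral_add_adjacent_intervals
    (hYc.intervalIntegrable (μ := volume) (T + ℓ) (T + 2 * ℓ))
    (hYc.intervalIntegrable (μ := volume) (T + 2 * ℓ) (2 * T - 2 * ℓ))
  have s4 := intervalIntegral.integral_add_adjacent_intervals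
    (hYc.intervalIntegrable (μ := volume) (T + ℓ) (2 * T - 2 * ℓ))
    (hYc.intervalIntegrable (μ := volume) (2 * T - 2 * ℓ) (2 * T - ℓ))
  have b1 := hsm F hF1 T (T + 2 * ℓ) (by linarith)
  have b2 := hsm F hF1 (2 * T - 2 * ℓ) (2 * T) (by linarith)
  have b3 := hsm G hG1 (T + ℓ) (T + 2 * ℓ) (by linarith)
  have b4 := hsm G hG1 (2 * T - 2 * ℓ) (2 * T - ℓ) (by linarith)
  -- the middle
  have hmid : |(∫ t in (T + 2 * ℓ)..(2 * T - 2 * ℓ), F t) -
      ∫ t in (T + 2 * ℓ)..(2 * T - 2 * ℓ), G t| ≤ K * T / M ^ 4 := by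
    rw [← intervalIntegral.integral_sub
      (hci (T + 2 * ℓ) (2 * T - 2 * ℓ) (by linarith) (by linarith) (by linarith))
      (hYc.intervalIntegrable _ _)]
    have hcoord : ∀ i : Fin n, IntervalIntegrable
        (fun t => |st (sf g (x i) (s i)) L T t - YG g (x i) (s i) L T M t|) volume
        (T + 2 * ℓ) (2 * T - 2 * ℓ) := by
      intro i
      apply ContinuousOn.intervalIntegrable
      rw [Set.uIcc_of_le (by linarith)]
      have h6 := (h M L T hM hP hT (x i) (s i) (hxs i).1 (hxs i).2.1 (hxs i).2.2).1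
      exact ((h6.mono (Set.Icc_subset_Icc (by linarith) (by linarith))).sub
        (YG_cont _ _ _ _ _ _).continuousOn).abs
    have hsumi : IntervalIntegrable
        (fun t => ∑ i, |st (sf g (x i) (s i)) L T t - YG g (x i) (s i) L T M t|) volume
        (T + 2 * ℓ) (2 * T - 2 * ℓ) := by
      have := IntervalIntegrable.sum (μ := volume) (a := T + 2 * ℓ) (b := 2 * T - 2 * ℓ)
        (Finset.univ : Finset (Fin n)) (f := fun i t =>
          |st (sf g (x i) (s i)) L T t - YG g (x i) (s i) L T M t|) (fun i _ => hcoord i)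
      refine this.congr fun t _ => ?_
      simp only [Finset.sum_apply]
    have h7 := intervalIntegral.norm_integral_le_of_norm_le (μ := volume) (a := T + 2 * ℓ)
      (b := 2 * T - 2 * ℓ) (f := fun t => F t - G t)
      (g := fun t => ∑ i, |st (sf g (x i) (s i)) L T t - YG g (x i) (s i) L T M t|) (by linarith)
      (Eventually.of_forall fun t _ => phi_diff hφL _ _) hsumi
    rw [Real.norm_eq_abs] at h7
    refine h7.trans ?_
    rw [intervalIntegral.integral_finsetSum fun i _ => hcoord i]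
    calc ∑ i : Fin n, ∫ t in (T + 2 * ℓ)..(2 * T - 2 * ℓ),
          |st (sf g (x i) (s i)) L T t - YG g (x i) (s i) L T M t| ≤
        ∑ _i : Fin n, K * T / M ^ 5 := Finset.sum_le_sum fun i _ =>
          (h M L T hM hP hT (x i) (s i) (hxs i).1 (hxs i).2.1 (hxs i).2.2).2
      _ = n * (K * T / M ^ 5) := by simp
      _ ≤ M * (K * T / M ^ 5) := by gcongr
      _ = K * T / M ^ 4 := by field_simp
  have hfinal : |(∫ t in T..(2 * T), F t) - ∫ t in (T + ℓ)..(2 * T - ℓ), G t| ≤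
      6 * ℓ + K * T / M ^ 4 := by
    rw [← s2, ← s1, ← s4, ← s3]
    rw [abs_le] at b1 b2 b3 b4 hmid ⊢
    constructor <;> linarith [b1.1, b1.2, b2.1, b2.2, b3.1, b3.2, b4.1, b4.2, hmid.1, hmid.2]
  rw [mu_int hT1, smul_eq_mul, ← mul_sub, abs_mul, abs_of_pos (by positivity : 0 < 1 / T)]
  have hM4 : 1 / M ^ 4 ≤ 1 / M := one_div_le_one_div_of_le hMp (le_self_pow₀ hM1 (by norm_num))
  calc 1 / T * |(∫ t in T..(2 * T), F t) - ∫ t in (T + ℓ)..(2 * T - ℓ), G t| ≤
      1 / T * (6 * ℓ + K * T / M ^ 4) := by gcongr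
    _ = 6 * (ℓ / T) + K * (1 / M ^ 4) := by field_simp
    _ ≤ 6 * (1 / M) + K * (1 / M) := by gcongr
    _ ≤ (K + 10) / M := by
        have h1 : (K + 10) / M = (K + 10) * (1 / M) := by ring
        have h2 : 0 < 1 / M := by positivity
        rw [h1]
        nlinarith

/-- step (4): dropping the small primes -/
theorem step_low {g : ℝ → ℝ} (hg : CC (fc g)) : ∃ C : ℝ, 1 ≤ C ∧
    ∀ M L T : ℝ, Par M L T → 0 < T → ∀ (n : ℕ) (x s : Fin n → ℝ), (n : ℝ) ≤ M →
      (∀ i, |x i| ≤ M ∧ 1 / M ≤ s i ∧ s i ≤ 1) →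
      ∀ φ : EuclideanSpace ℝ (Fin n) → ℝ, (∀ y, |φ y| ≤ 1) → LipschitzWith 1 φ →
      |∫ t, φ (YV g x s L T M t) ∂(mu T) -
        ∫ t, φ (ZV (SG L T M) (XG L T M) (fun i => cG g L T M (x i) (s i)) t) ∂(mu T)| ≤ C / M := by
  obtain ⟨C, hC, h⟩ := low_err hg
  refine ⟨C, hC, fun M L T hP hT n x s hn hxs φ hφ hφL => ?_⟩
  have hMp := hP.M0
  have hM1 := hP.M1
  have hφc := hφL.continuous
  haveI := mu_fin T
  set Z : ℝ → EuclideanSpace ℝ (Fin n) :=
    ZV (SG L T M) (XG L T M) (fun i => cG g L T M (x i) (s i)) with hZ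
  have c1 : Continuous fun t => φ (YV g x s L T M t) := hφc.comp (YV_cont _ _ _ _ _ _)
  have c2 : Continuous fun t => φ (Z t) := hφc.comp (ZV_cont _)
  have c3 : ∀ i : Fin n, Continuous fun t => |YG g (x i) (s i) L T M t -
      (DP (af (SG L T M) (cG g L T M (x i) (s i))) (XG L T M) t).re| := fun i =>
    ((YG_cont _ _ _ _ _ _).sub (Complex.continuous_re.comp (DP_cont _ _))).abs
  rw [← integral_sub (mu_cont c1 T) (mu_cont c2 T)]
  calc |∫ t, (φ (YV g x s L T M t) - φ (Z t)) ∂(mu T)| ≤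
      ∫ t, |φ (YV g x s L T M t) - φ (Z t)| ∂(mu T) := abs_integral_le_integral_abs
    _ ≤ ∫ t, ∑ i, |YG g (x i) (s i) L T M t -
        (DP (af (SG L T M) (cG g L T M (x i) (s i))) (XG L T M) t).re| ∂(mu T) :=
        integral_mono (mu_cont (c1.sub c2).abs T)
          (mu_cont (continuous_finsetSum _ fun i _ => c3 i) T) fun t => phi_diff hφL _ _
    _ = ∑ i, ∫ t, |YG g (x i) (s i) L T M t -
        (DP (af (SG L T M) (cG g L T M (x i) (s i))) (XG L T M) t).re| ∂(mu T) :=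
        integral_finsetSum _ fun i _ => mu_cont (c3 i) T
    _ ≤ ∑ _i : Fin n, C * M ^ 9 / aP L T := by
        refine Finset.sum_le_sum fun i _ => ?_
        have hs0 : 0 < s i := lt_of_lt_of_le (by positivity) (hxs i).2.1
        exact h M L T (x i) (s i) hP hT hs0 (hxs i).2.2
    _ = n * (C * M ^ 9 / aP L T) := by simp
    _ ≤ M * (C * M ^ 9 / M ^ 19) := by
        have h1 := hP.alow
        have h2 := hP.a0
        have h3 : 0 < C := by linarith
        refine mul_le_mul hn ?_ (by positivity) hMp.le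
        gcongr
    _ = C / M ^ 9 := by field_simp
    _ ≤ C / M := by
        gcongr
        exact le_self_pow₀ hM1 (by norm_num)

end Pool.Agent.Q278.GC
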