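import Pool.Agent.Q278.GC.G

/-!
# The Gaussian coupling: prime sums and the Gaussian law (helper278)
-/

set_option autoImplicit false

namespace Pool.Agent.Q278.GC

open Filter Topology MeasureTheory Complex ProbabilityTheory
open scoped FourierTransform ContDiff ComplexConjugate RealInnerProductSpace
open Pool.Agent.Q278.MC Pool.Agent.Q278.MX

lemma cv_sf_self (g : ℝ → ℝ) {s : ℝ} (hs : 0 < s) (x : ℝ) :
    cv (sf g x s) (sf g x s) = vr (fc g) := by
  rw [cv_self]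
  unfold vr
  have e1 : ∀ ξ : ℝ, |ξ| * ‖𝓕 (fc (sf g x s)) ξ‖ ^ 2 =
      s * ((fun u : ℝ => |u| * ‖𝓕 (fc g) u‖ ^ 2) (s * ξ)) := by
    intro ξ
    rw [four_sf g hs, norm_mul, norm_mul, Complex.norm_real, Real.norm_of_nonneg hs.le]
    have e2 : ‖cexp (-(2 * Real.pi * x * ξ : ℝ) * I)‖ = 1 := by
      rw [← Complex.ofReal_neg, Complex.norm_exp_ofReal_mul_I]
    rw [e2, mul_one]
    show _ = s * (|s * ξ| * ‖𝓕 (fc g) (s * ξ)‖ ^ 2)
    rw [abs_mul, abs_of_pos hs]
    ring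
  have e3 := Measure.integral_comp_mul_left (fun u : ℝ => |u| * ‖𝓕 (fc g) u‖ ^ 2) s
  rw [integral_congr_ae (Eventually.of_forall e1), integral_const_mul, e3, abs_of_pos (inv_pos.2 hs),
    smul_eq_mul, ← mul_assoc, mul_inv_cancel₀ hs.ne', one_mul]

lemma sq_div_le {p : ℕ} (hp : p.Prime) {β : ℝ} (hβ : β ≤ Real.log p) (hβ0 : 0 ≤ β) :
    Real.log p ^ 2 / p ≤ 16 * Real.exp (-β / 2) := by
  have hp0 : (0 : ℝ) < p := by exact_mod_cast hp.pos
  set y := Real.log p with hy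
  have hpe : (p : ℝ) = Real.exp y := (Real.exp_log hp0).symm
  have h1 := Real.add_one_le_exp (y / 4)
  have hy0 : 0 ≤ y := hβ0.trans hβ
  have h2 : y ^ 2 ≤ 16 * Real.exp (y / 2) := by
    have h3 : Real.exp (y / 2) = Real.exp (y / 4) * Real.exp (y / 4) := by
      rw [← Real.exp_add]; congr 1; ring
    rw [h3]
    nlinarith
  rw [hpe, div_le_iff₀ (Real.exp_pos _)]
  calc y ^ 2 ≤ 16 * Real.exp (y / 2) := h2
    _ ≤ 16 * Real.exp (-β / 2 + y) := by
        gcongr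
        linarith
    _ = _ := by rw [Real.exp_add]; ring

/-- the size condition for the moments -/
lemma Par.size_r {M L T : ℝ} (h : Par M L T) (hT : 0 < T) {r : ℕ} (hr : (r : ℝ) ≤ M ^ 9 + 1) :
    8 * ((XG L T M ^ (2 * r) : ℕ) : ℝ) * (1 + Real.log ((XG L T M ^ (2 * r) : ℕ) : ℝ)) ≤
      Real.exp (-Real.log T / 2) * T := by
  have hM1 := h.M1
  have hM0 := h.M0
  have hbig := h.big
  set ℓ := Real.log T with hℓ
  have hX0 : 0 < (XG L T M : ℝ) := by exact_mod_cast h.X1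
  have hlX0 : 0 ≤ Real.log (XG L T M) := Real.log_nonneg (by exact_mod_cast h.X1)
  have hlX : Real.log (XG L T M) ≤ 4 * ℓ / M ^ 12 := by
    have h1 := h.Xlog
    have h2 := h.Uup
    have h3 : 2 * (2 * ℓ / M ^ 12) = 4 * ℓ / M ^ 12 := by ring
    linarith
  push_cast
  rw [Real.log_pow]
  push_cast
  have hM9 : 1 ≤ M ^ 9 := one_le_pow₀ hM1
  have h4 : 2 * (r : ℝ) * Real.log (XG L T M) ≤ ℓ / 100 := by
    have h5 : 2 * (r : ℝ) ≤ 4 * M ^ 9 := by linarith
    have h6 : (100 : ℝ) ^ 3 ≤ M ^ 3 := pow_le_pow_left₀ (by norm_num) h.hM 3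
    calc 2 * (r : ℝ) * Real.log (XG L T M) ≤ 4 * M ^ 9 * (4 * ℓ / M ^ 12) :=
          mul_le_mul h5 hlX hlX0 (by positivity)
      _ = 16 * ℓ / M ^ 3 := by
          have : M ^ 12 = M ^ 9 * M ^ 3 := by ring
          rw [this]
          field_simp
          ring
      _ ≤ 16 * ℓ / (100 : ℝ) ^ 3 := by
          have : 0 ≤ 16 * ℓ := by linarith
          gcongr
      _ ≤ ℓ / 100 := by linarith
  have h7 : (XG L T M : ℝ) ^ (2 * r) ≤ Real.exp (ℓ / 100) := by
    have h8 : (XG L T M : ℝ) ^ (2 * r) = Real.exp (2 * r * Real.log (XG L T M)) := by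
      rw [← Real.exp_log hX0, ← Real.exp_nat_mul, Real.log_exp]
      push_cast
      ring_nf
    rw [h8]
    exact Real.exp_le_exp.2 h4
  have h9 : 8 ≤ Real.exp (ℓ / 100) := by
    have := Real.add_one_le_exp (ℓ / 100)
    linarith
  have h10 : 1 + 2 * (r : ℝ) * Real.log (XG L T M) ≤ Real.exp (ℓ / 100) := by
    have := Real.add_one_le_exp (ℓ / 100)
    linarith
  have hE := Real.exp_pos (ℓ / 100)
  calc 8 * (XG L T M : ℝ) ^ (2 * r) * (1 + 2 * (r : ℝ) * Real.log (XG L T M)) ≤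
      Real.exp (ℓ / 100) * Real.exp (ℓ / 100) * Real.exp (ℓ / 100) :=
        mul_le_mul (mul_le_mul h9 h7 (by positivity) hE.le) h10 (by positivity) (by positivity)
    _ = Real.exp (3 * (ℓ / 100)) := by
        rw [← Real.exp_add, ← Real.exp_add]
        ring_nf
    _ ≤ Real.exp (-ℓ / 2 + ℓ) := Real.exp_le_exp.2 (by linarith)
    _ = _ := by rw [Real.exp_add, Real.exp_log hT]

/-- steps (5), (6): from the prime sums to the Gaussian law -/
theorem step_clt (hSM : S_SM) (hCV : S_CV) {g : ℝ → ℝ} (hg : CC (fc g)) : ∃ C M0 : ℝ, 0 < C ∧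
    100 ≤ M0 ∧ ∀ M L T : ℝ, M0 ≤ M → Par M L T → 0 < T → ∀ (n : ℕ) (x s : Fin n → ℝ), (n : ℝ) ≤ M →
      (∀ i, |x i| ≤ M ∧ 1 / M ≤ s i ∧ s i ≤ 1) →
      ∀ φ : EuclideanSpace ℝ (Fin n) → ℝ, (∀ y, |φ y| ≤ 1) → LipschitzWith 1 φ →
      |∫ t, φ (ZV (SG L T M) (XG L T M) (fun i => cG g L T M (x i) (s i)) t) ∂(mu T) -
        ∫ y, φ y ∂(multivariateGaussian 0 (cm (fG g x s)))| ≤ C / M := by
  obtain ⟨C0, hC0, hcv⟩ := hCV g hg
  obtain ⟨K, hK1, hK⟩ := four_sf_le hg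
  have hv0 : 0 ≤ vr (fc g) := integral_nonneg fun ξ => by positivity
  set V : ℝ := 2 * vr (fc g) + 3 * C0 with hV
  have hV1 : 1 ≤ V := by linarith
  obtain ⟨M0, hM0, hnum⟩ := nums V K hV1 hK1
  refine ⟨100 * V + 3 * Real.sqrt (2 * C0), M0, by positivity, hM0,
    fun M L T hM hP hT n x s hn hxs φ hφ hφL => ?_⟩
  have hMp := hP.M0
  have hM1 := hP.M1
  have hT10 := hP.T0 hT
  have hT1 : 1 ≤ T := by linarith
  have ha0 := hP.a0
  have ha19 := hP.alow
  have ha1 : 1 ≤ aP L T := (one_le_pow₀ hM1).trans ha19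
  have hM9 : 1 ≤ M ^ 9 := one_le_pow₀ hM1
  have hXlow := hP.Xlow
  have hUlow := hP.Ulow
  have hβX : M ^ 9 ≤ Real.log (XG L T M) := by
    have : M ^ 9 ≤ M ^ 26 := pow_le_pow_right₀ hM1 (by norm_num)
    linarith
  set a := aP L T with ha
  set X := XG L T M with hX
  set S := SG L T M with hS
  set c : Fin n → ℕ → ℂ := fun i => cG g L T M (x i) (s i) with hc
  have hs0 : ∀ i, 0 < s i := fun i => lt_of_lt_of_le (by positivity) (hxs i).2.1
  -- covariances
  have hη : C0 * M ^ 4 * ((M ^ 9) ^ 2 / a ^ 2 + 1 / a + 1 / (Real.log X / (2 * Real.pi * a)) ^ 2) ≤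
      3 * C0 / M ^ 10 := by
    have hY : 2 * M ^ 7 ≤ Real.log X / (2 * Real.pi * a) := by
      have h1 : 2 * Real.pi * a = Real.log T / L := hP.aeq
      have h2 : 0 < 2 * Real.pi * a := by positivity
      rw [le_div_iff₀ h2]
      have h3 : UG L T M = 2 * WG L M * (M * (2 * Real.pi * a)) := by
        unfold UG
        rw [h1]
      have h4 := hP.Wlow
      have h5 : 2 * M ^ 7 * (2 * Real.pi * a) ≤ UG L T M := by
        rw [h3]
        calc 2 * M ^ 7 * (2 * Real.pi * a) = 2 * M ^ 6 * (M * (2 * Real.pi * a)) := by ring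
          _ ≤ 2 * WG L M * (M * (2 * Real.pi * a)) := by gcongr
      linarith
    have t1 : (M ^ 9) ^ 2 / a ^ 2 ≤ 1 / M ^ 14 := by
      calc (M ^ 9) ^ 2 / a ^ 2 ≤ (M ^ 9) ^ 2 / (M ^ 19) ^ 2 := by gcongr
        _ = 1 / M ^ 20 := by
            have : (M ^ 19) ^ 2 = (M ^ 9) ^ 2 * M ^ 20 := by ring
            rw [this]
            field_simp
        _ ≤ 1 / M ^ 14 :=
            one_div_le_one_div_of_le (by positivity) (pow_le_pow_right₀ hM1 (by norm_num))
    have t2 : 1 / a ≤ 1 / M ^ 14 :=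
      one_div_le_one_div_of_le (by positivity)
        ((pow_le_pow_right₀ hM1 (by norm_num : 14 ≤ 19)).trans ha19)
    have t3 : 1 / (Real.log X / (2 * Real.pi * a)) ^ 2 ≤ 1 / M ^ 14 := by
      refine one_div_le_one_div_of_le (by positivity) ?_
      have h6 : M ^ 7 ≤ Real.log X / (2 * Real.pi * a) := by
        have : 0 < M ^ 7 := by positivity
        linarith
      calc M ^ 14 = (M ^ 7) ^ 2 := by ring
        _ ≤ _ := pow_le_pow_left₀ (by positivity) h6 2
    have hC00 : 0 < C0 := by linarith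
    calc _ ≤ C0 * M ^ 4 * (1 / M ^ 14 + 1 / M ^ 14 + 1 / M ^ 14) := by gcongr
      _ = 3 * C0 / M ^ 10 := by
          have : M ^ 14 = M ^ 4 * M ^ 10 := by ring
          rw [this]
          field_simp
          ring
  have hcov : ∀ i j, |(∑ p ∈ S, (c i p * conj (c j p)).re) -
      2 * cv (fG g x s i) (fG g x s j)| ≤ 3 * C0 / M ^ 10 := by
    intro i j
    have h1 := hcv M a (M ^ 9) X (x i) (x j) (s i) (s j) hM1 ha1 hM9 hβX (hxs i).1 (hxs j).1
      (hxs i).2.1 (hxs i).2.2 (hxs j).2.1 (hxs j).2.2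
    refine le_trans (le_of_eq ?_) (h1.trans hη)
    congr 2
    refine Finset.sum_congr rfl fun p _ => ?_
    simp only [hc, cG]
    rw [map_neg, neg_mul_neg]
  have hC00 : 0 < C0 := by linarith
  have h10 : 3 * C0 / M ^ 10 ≤ 3 * C0 := by
    rw [div_le_iff₀ (by positivity)]
    have : 1 ≤ M ^ 10 := one_le_pow₀ hM1
    nlinarith
  have hVi : ∀ i, ∑ p ∈ S, ‖c i p‖ ^ 2 ≤ V := by
    intro i
    have h1 := (abs_le.1 (hcov i i)).2
    have h2 : ∑ p ∈ S, (c i p * conj (c i p)).re = ∑ p ∈ S, ‖c i p‖ ^ 2 := by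
      refine Finset.sum_congr rfl fun p _ => ?_
      rw [Complex.mul_conj, Complex.ofReal_re, Complex.normSq_eq_norm_sq]
    have h3 : cv (fG g x s i) (fG g x s i) = vr (fc g) := cv_sf_self g (hs0 i) (x i)
    rw [h2, h3] at h1
    linarith
  have hmi : ∀ i, ∀ p ∈ S, ‖c i p‖ ^ 2 ≤ K ^ 2 * (16 * Real.exp (-M ^ 9 / 2)) := by
    intro i p hp
    have hpp := SG_prime p hp
    have hpl : M ^ 9 < Real.log p := by
      rw [hS] at hp
      unfold SG at hp
      exact (mem_PB.1 hp).2.1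
    have h1 : ‖c i p‖ ^ 2 = ‖cn (fc (sf g (x i) (s i))) a X p‖ ^ 2 := by
      simp only [hc, cG, norm_neg]
      rfl
    rw [h1]
    refine (cn_sq_le (fun ξ => hK (x i) (s i) ξ (hs0 i) (hxs i).2.2) ha0 X p hpp).trans ?_
    have h2 := sq_div_le hpp hpl.le (by positivity)
    have h3 : K ^ 2 / a ^ 2 ≤ K ^ 2 := div_le_self (by positivity) (one_le_pow₀ ha1)
    exact mul_le_mul h3 h2 (by positivity) (by positivity)
  have hr1 : M ^ 9 ≤ (⌈M ^ 9⌉₊ : ℝ) := Nat.le_ceil _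
  have hr2 : (⌈M ^ 9⌉₊ : ℝ) ≤ M ^ 9 + 1 := (Nat.ceil_lt_add_one (by positivity)).le
  set r := ⌈M ^ 9⌉₊ with hr
  have hvec := vec_clt (n := n) hSM (SG_prime (L := L) (T := T) (M := M)) (SG_le hP.X1) hP.X1 c
    (δ := Real.exp (-Real.log T / 2)) (V := V) (m := K ^ 2 * (16 * Real.exp (-M ^ 9 / 2)))
    (ε := 1 / M ^ 2) (R := M ^ 2) (Ξ := M ^ 3) (r := r) hT1 (by linarith) hVi (by positivity) hmi
    (hP.size_r hT hr2) (hP.size hT) (by positivity) (by
      rw [div_le_one (by positivity)]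
      exact one_le_pow₀ hM1) (by positivity) (by positivity) φ hφ hφL
  have hta : 1 - ta T = 2 * Real.log T / T := by
    unfold ta
    field_simp
    ring
  have hnn := hnum M (Real.log T) T (1 - ta T) n r hM hn hP.logT (Real.exp_log hT).symm hta hr1 hr2
  have hgc := Pool.Agent.Q241.GC.t_GC n (ZM S c) (cm (fG g x s)) (ZM_pos c)
    (cm_pos fun j => sf_CC hg (hs0 j) (x j)) φ (2 * C0 / M ^ 10) hφ hφL (by
      intro i j
      have h1 := hcov i j
      have h2 : ZM S c i j - cm (fG g x s) i j = ((∑ p ∈ S, (c i p * conj (c j p)).re) -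
          2 * cv (fG g x s i) (fG g x s j)) / 2 := by
        simp only [ZM, cm, Matrix.of_apply]
        ring
      rw [h2, abs_div, abs_of_pos (by norm_num : (0 : ℝ) < 2)]
      have h3 : 3 * C0 / M ^ 10 / 2 ≤ 2 * C0 / M ^ 10 := by
        rw [div_div, mul_comm (M ^ 10) 2, ← div_div]
        gcongr
        linarith
      linarith)
  have hsq : 3 * (n : ℝ) * Real.sqrt (2 * C0 / M ^ 10) ≤ 3 * Real.sqrt (2 * C0) / M := by
    have h1 : Real.sqrt (2 * C0 / M ^ 10) = Real.sqrt (2 * C0) / M ^ 5 := by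
      rw [Real.sqrt_div (by positivity)]
      congr 1
      rw [show M ^ 10 = (M ^ 5) ^ 2 by ring, Real.sqrt_sq (by positivity)]
    rw [h1]
    calc 3 * (n : ℝ) * (Real.sqrt (2 * C0) / M ^ 5) ≤ 3 * M * (Real.sqrt (2 * C0) / M ^ 5) := by
          gcongr
      _ = 3 * Real.sqrt (2 * C0) / M ^ 4 := by field_simp
      _ ≤ 3 * Real.sqrt (2 * C0) / M := by
          gcongr
          exact le_self_pow₀ hM1 (by norm_num)
  have htri : ∀ u v w : ℝ, |u - w| ≤ |u - v| + |v - w| := fun u v w => abs_sub_le u v w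
  refine (htri _ (∫ y, φ y ∂(multivariateGaussian 0 (ZM S c))) _).trans ?_
  have h3 := hvec.trans hnn
  have h4 := hgc.trans hsq
  calc _ ≤ 100 * V / M + 3 * Real.sqrt (2 * C0) / M := add_le_add h3 h4
    _ = _ := by rw [← add_div]

/-- **the Gaussian coupling** -/
theorem coupling (hSM : S_SM) (hCV : S_CV) {g : ℝ → ℝ} (hg : CC (fc g)) : ∃ C : ℝ, 0 < C ∧
    ∀ M L T : ℝ, 1 ≤ M → M ^ 20 ≤ L → M ^ 20 * L ≤ Real.log T → 0 < T →
      ∀ (n : ℕ) (x s : Fin n → ℝ), (n : ℝ) ≤ M → (∀ i, |x i| ≤ M ∧ 1 / M ≤ s i ∧ s i ≤ 1) →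
      ∀ φ : EuclideanSpace ℝ (Fin n) → ℝ, (∀ y, |φ y| ≤ 1) → LipschitzWith 1 φ →
      |1 / T * (∫ t in T..(2 * T), φ (vc (fG g x s) L T t)) -
        ∫ y, φ y ∂(multivariateGaussian 0 (cm (fG g x s)))| ≤ C / M := by
  obtain ⟨K1, M1, hK1, hM1, h1⟩ := step_zero hg
  obtain ⟨K2, hK2, h2⟩ := step_low hg
  obtain ⟨K3, M3, hK3, hM3, h3⟩ := step_clt hSM hCV hg
  refine ⟨K1 + K2 + K3 + 2 * (M1 + M3), by positivity,
    fun M L T hM hL hLT hT n x s hn hxs φ hφ hφL => ?_⟩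
  have hMp : 0 < M := by linarith
  have hb : ∀ y, ‖φ y‖ ≤ 1 := hφ
  by_cases hbig : M1 + M3 ≤ M
  · have hP : Par M L T := ⟨by linarith, hL, hLT⟩
    have a1 := h1 M L T (by linarith) hP hT n x s hn hxs φ hφ hφL
    have a2 := h2 M L T hP hT n x s hn hxs φ hφ hφL
    have a3 := h3 M L T (by linarith) hP hT n x s hn hxs φ hφ hφL
    set A := 1 / T * (∫ t in T..(2 * T), φ (vc (fG g x s) L T t)) with hA
    set B := ∫ t, φ (YV g x s L T M t) ∂(mu T) with hB
    set D := ∫ t, φ (ZV (SG L T M) (XG L T M) (fun i => cG g L T M (x i) (s i)) t) ∂(mu T) with hD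
    set E := ∫ y, φ y ∂(multivariateGaussian 0 (cm (fG g x s))) with hE
    have h4 : |A - E| ≤ |A - B| + |B - D| + |D - E| := by
      have := abs_sub_le A B E
      have := abs_sub_le B D E
      linarith
    have h5 : 0 ≤ 2 * (M1 + M3) / M := by positivity
    calc |A - E| ≤ K1 / M + K2 / M + K3 / M := by linarith
      _ ≤ K1 / M + K2 / M + K3 / M + 2 * (M1 + M3) / M := by linarith
      _ = _ := by rw [← add_div, ← add_div, ← add_div]
  · push Not at hbig
    have e1 : |1 / T * (∫ t in T..(2 * T), φ (vc (fG g x s) L T t))| ≤ 1 := by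
      have := intervalIntegral.norm_integral_le_of_norm_le_const (a := T) (b := 2 * T) (C := 1)
        (f := fun t => φ (vc (fG g x s) L T t)) (fun t _ => hb _)
      rw [one_mul, abs_of_nonneg (by linarith), Real.norm_eq_abs] at this
      rw [abs_mul, abs_of_pos (by positivity)]
      calc 1 / T * |∫ t in T..(2 * T), φ (vc (fG g x s) L T t)| ≤ 1 / T * (2 * T - T) := by gcongr
        _ = 1 := by field_simp; ring
    have e2 : |∫ y, φ y ∂(multivariateGaussian 0 (cm (fG g x s)))| ≤ 1 := by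
      have := norm_integral_le_of_norm_le_const
        (μ := multivariateGaussian (0 : EuclideanSpace ℝ (Fin n)) (cm (fG g x s))) (f := φ) (C := 1)
        (Eventually.of_forall hb)
      simpa using this
    have e3 : 2 ≤ (K1 + K2 + K3 + 2 * (M1 + M3)) / M := by
      rw [le_div_iff₀ hMp]
      nlinarith
    have e4 := abs_sub (1 / T * (∫ t in T..(2 * T), φ (vc (fG g x s) L T t)))
      (∫ y, φ y ∂(multivariateGaussian 0 (cm (fG g x s))))
    linarith

end Pool.Agent.Q278.GC
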