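import Pool.Agent.Q278.GC.Stm

/-!
Second part of the statements (lemma jobs) of project GC: Gaussian multiplicative chaos of the zeros.
Each `S_X` is a proposition with a complete paper proof in its docstring.
-/

open MeasureTheory Filter Topology ProbabilityTheory Complex
open scoped ComplexConjugate RealInnerProductSpace ContDiff FourierTransform
open Pool.Agent.Q278.MC Pool.Agent.Q278.MX

namespace Pool.Agent.Q278.GC

/-- a smooth step -/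
structure Step (H : ℝ → ℝ) : Prop where
  cd : ContDiff ℝ ∞ H
  lo : ∀ v, v ≤ -1 → H v = 0
  hi : ∀ v, 1 ≤ v → H v = 1

/-- `fj H J x v = H(2^J (v-x)) - H(v-x)`: a step at `x`, smoothed at scale `2^(-J)`, minus the step
smoothed at scale `1` -/
noncomputable def fj (H : ℝ → ℝ) (J : ℕ) (x v : ℝ) : ℝ := H (2 ^ J * (v - x)) - H (v - x)

/-- the wavelet: `fj H J x = ∑ m < J, sf (wg H) x (1/2^m)` -/
noncomputable def wg (H : ℝ → ℝ) (v : ℝ) : ℝ := H (2 * v) - H v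

/-- the covariance kernel `cv f h = ∫ |ξ| Re(𝓕 f conj(𝓕 h))` (file MC/P) of the functions `fj` -/
noncomputable def kj (H : ℝ → ℝ) (J J' : ℕ) (x y : ℝ) : ℝ := cv (fj H J x) (fj H J' y)

/-- JOB K1 (decay of the covariance of wavelets at different places and scales). `sf g x s v = g((v-x)/s)`,
`CC (fc g)`: `g` real valued, smooth, of compact support.

PROOF. `𝓕 (fc (sf g x s)) ξ = s exp(-2πi x ξ) 𝓕(fc g)(s ξ)` (this is `four_sf` in Q278/GC/A.lean, on main).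
So for `s = 2^-m`, `r = 2^-m'`: `cv (sf g x s) (sf g y r) = s r ∫ |ξ| Re(exp(-2πi (x-y) ξ) ĝ(sξ) conj ĝ(rξ)) dξ`.
`cv` is symmetric, so let `m ≤ m'`; `u = s ξ`, `ρ = r/s = 2^-(m'-m) ≤ 1`, `z = (x-y)/s = 2^m (x-y)`:
`cv = ρ ∫ |u| Re(exp(-2πi z u) A(u)) du`, `A(u) = ĝ(u) conj ĝ(ρ u)`. With `|ĝ|, |ĝ'| ≤ K (1+u²)^(-3)`
(MC/K `four_bound` for `g` and for `v ↦ v g(v)`; derivative: MC/D `four_deriv`):
`|A| ≤ K² (1+u²)^(-3)`, `|A'| ≤ 2K² (1+u²)^(-3)`.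
Hence `|cv| ≤ C ρ`, and integrating by parts on `(0,∞)` and on `(-∞,0)` (the boundary terms vanish because of
the factor `|u|`) `|∫ |u| exp(-2πi z u) A| ≤ (2π|z|)^(-1) ∫ (|A| + |u A'|) ≤ C/|z|`: together the first bound.
Second bound: `|exp(-2πi z u) - exp(-2πi z' u)| ≤ 2π |z-z'| |u|`, so the difference is at most
`ρ * 2π 2^m |x-x'| ∫ u² |A| ≤ C ρ 2^m |x - x'|`. (If `m' < m` use `u = r ξ` instead; for the second bound the
phase is then `(x-y)/r`, `2^m' = 2^(min m m')`.) QED -/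
def S_K1 : Prop :=
  ∀ g : ℝ → ℝ, CC (fc g) → ∃ C : ℝ, 1 ≤ C ∧ ∀ (m m' : ℕ) (x x' y : ℝ),
    |cv (sf g x (1 / 2 ^ m)) (sf g y (1 / 2 ^ m'))| ≤
      C * (1 / 2) ^ (max m m' - min m m') / (1 + 2 ^ (min m m') * |x - y|) ∧
    |cv (sf g x (1 / 2 ^ m)) (sf g y (1 / 2 ^ m')) - cv (sf g x' (1 / 2 ^ m)) (sf g y (1 / 2 ^ m'))| ≤
      C * (1 / 2) ^ (max m m' - min m m') * 2 ^ (min m m') * |x - x'|

/-- JOB K2 (the variance, sharp constant).

PROOF. Let `h = H'` (smooth, support in `[-1,1]`, `∫ h = 1`), `f = fj H J 0` (smooth, compact support in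
`[-1,1]`), `f'(v) = 2^J h(2^J v) - h(v)`, so `2πiξ 𝓕 f(ξ) = ĥ(2^-J ξ) - ĥ(ξ)` and
`cv f f = ∫ |ξ| |𝓕 f|² = 2 ∫_0^∞ |ĥ(2^-J ξ) - ĥ(ξ)|²/(4π² ξ) dξ` (`cv_self`, MC/P; the integrand is even since
`f` is real, or treat both half lines). There is `C` with `|ĥ(η) - 1| ≤ C|η|`, `|ĥ(η)| ≤ C/|η|`, `|ĥ| ≤ C`.
On `(0,1]`: integrand `≤ (2Cξ)²/(4π²ξ)`, integral `O(1)`. On `[1,2^J]`:
`|ĥ(2^-J ξ) - ĥ(ξ)|² ≤ (1 + C 2^-J ξ + C/ξ)² ≤ 1 + C'(2^-J ξ + 1/ξ)` as `2^-J ξ ≤ 1`, `1/ξ ≤ 1`; so the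
integral of `·/(4π²ξ)` is `≤ (J log 2 + 2C')/(4π²)`. On `[2^J,∞)`: `≤ (2C 2^J/ξ)²/(4π² ξ)`, integral `O(1)`.
Total `cv f f ≤ J log 2/(2π²) + C`. QED -/
def S_K2 : Prop :=
  ∀ H : ℝ → ℝ, Step H → ∃ C : ℝ, 1 ≤ C ∧ ∀ J : ℕ,
    kj H J J 0 0 ≤ J * Real.log 2 / (2 * Real.pi ^ 2) + C

/-- bounds for a family of kernels -/
structure KerB (K : ℕ → ℕ → ℝ → ℝ → ℝ) (κ C : ℝ) : Prop where
  C1 : 1 ≤ C
  κ0 : 0 ≤ κ
  psd : ∀ (n : ℕ) (J : Fin n → ℕ) (x : Fin n → ℝ),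
    (Matrix.of fun i j => K (J i) (J j) (x i) (x j)).PosSemidef
  sup : ∀ (J J' : ℕ) (x y : ℝ), |K J J' x y| ≤ C * (1 + min J J')
  lip : ∀ (J J' : ℕ) (x x' y y' : ℝ),
    |K J J' x y - K J J' x' y'| ≤ C * 2 ^ (min J J') * (|x - x'| + |y - y'|)
  log : ∀ (J J' : ℕ) (x y : ℝ), x ≠ y → |x - y| ≤ 1 → K J J' x y ≤ κ * Real.log (1 / |x - y|) + C
  lim : ∃ Ki : ℝ → ℝ → ℝ, ∀ x y : ℝ, x ≠ y →
    Tendsto (fun p : ℕ × ℕ => K p.1 p.2 x y) atTop (𝓝 (Ki x y))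

/-- JOB K3 (the kernel of the smoothed counting field is logarithmic with the sharp constant).

PROOF (from K1, K2). `g = wg H` is smooth with compact support, `fj H J x = ∑ m < J, sf g x (1/2^m)`
(telescoping), and `cv` is bilinear on smooth functions of compact support (`cv_int` in MC/P gives the
integrability), so `kj H J J' x y = ∑_{m<J} ∑_{m'<J'} Γ(m,m')`, `Γ(m,m') = cv (sf g x 2^-m) (sf g y 2^-m')`.
psd: `cm_pos` in MC/R (with `f i = fj H (J i) (x i)`).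
sup: if `J ≤ J'`: `∑_{m<J} ∑_{m'} C 2^-|m-m'| ≤ 3 C J`; symmetric otherwise.
lip: move first `x` to `x'`, then (symmetry of `cv`) `y` to `y'`; for `J ≤ J'`,
`∑_{m<J} ∑_{m'} 2^(min(m,m') - |m-m'|) ≤ ∑_{m<J} 3 * 2^m ≤ 3 * 2^J`, and similarly for `J' ≤ J` (sum over
`m'` outside).
log: let `I = min(J, J', ⌊log₂(1/|x-y|)⌋)`. Split the double sum into `m, m' < I` and the rest. The rest is at
most `8 C` from the pairs with `min(m,m') < I ≤ max(m,m')` (`∑ d 2^-d`), plus, only if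
`I = ⌊log₂(1/|x-y|)⌋`, the pairs with `m, m' ≥ I`:
`∑_{k≥I} ∑_{d≥0} 2 C 2^-d/(2^k |x-y|) ≤ 8 C/(2^I |x-y|) ≤ 16 C`. The first part is
`kj H I I x y ≤ kj H I I 0 0` (Cauchy-Schwarz: psd for the two points, and translation invariance of `cv`:
`𝓕` of a translate gets a phase, or both variances are equal by `four_sf`), hence
`≤ I log 2/(2π²) + C ≤ log(1/|x-y|)/(2π²) + C` by K2.
lim: for `x ≠ y` the double series converges absolutely by K1
(`∑ C 2^-|m-m'|/(1 + 2^min |x-y|) < ∞`), so the partial sums over rectangles converge. QED -/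
def S_K3 : Prop :=
  S_K1 → S_K2 → ∀ H : ℝ → ℝ, Step H → ∃ C : ℝ, KerB (kj H) (1 / (2 * Real.pi ^ 2)) C

/-- JOB EX (exponential moments of a centred Gaussian vector, complex exponents).

PROOF. `w ↦ (w i, w j)`; for real `a, b` it is the moment generating function of the Gaussian variable
`a w i + b w j` with variance `a² S i i + 2ab S i j + b² S j j`. For complex `α, β` one can use: the real
part of `α w i + β w j` and its imaginary part are jointly Gaussian; or analytic continuation in `(α, β)`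
(`complexMGF`, `ProbabilityTheory.complexMGF_gaussianReal`): by `IsGaussian` every real linear functional has
a `gaussianReal` law; write `E exp(z X) = exp(z² v/2)` for complex `z` and a centred Gaussian `X` of
variance `v`; the two-variable case: `F(α) = E exp(α w i + β w j)` is entire in `α` for fixed real `β`
(and then in `β` for fixed complex `α`). The file Q278/KA/J.lean (`gauss_exp`) has a related computation.
Alternatively diagonalise: `(w i, w j)` has the law of `(a Z1, b Z1 + c Z2)` with independent standard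
normal `Z1, Z2` and integrate twice with `integral_cexp...`. QED -/
def S_EX : Prop :=
  ∀ (n : ℕ) (S : Matrix (Fin n) (Fin n) ℝ), S.PosSemidef → ∀ (i j : Fin n) (α β : ℂ),
    Integrable (fun w : EuclideanSpace ℝ (Fin n) => cexp (α * (w i : ℝ) + β * (w j : ℝ)))
      (multivariateGaussian 0 S) ∧
    ∫ w, cexp (α * (w i : ℝ) + β * (w j : ℝ)) ∂(multivariateGaussian (0 : EuclideanSpace ℝ (Fin n)) S) =
      cexp ((α ^ 2 * (S i i : ℝ) + 2 * α * β * (S i j : ℝ) + β ^ 2 * (S j j : ℝ)) / 2)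

/-- JOB LIN (linear images of centred Gaussian laws).

PROOF. Both sides are finite measures; compare `charFun` (`Measure.ext_of_charFun`,
`charFun_multivariateGaussian`, `charFun_map...` or directly `integral_map`): at `ξ` both are
`exp(-(Aᵀξ)ᵀ S (Aᵀξ)/2)`; `A S Aᵀ` is positive semidefinite (`Matrix.PosSemidef.mul_mul_conjTranspose_same`). QED -/
def S_LIN : Prop :=
  ∀ (n k : ℕ) (S : Matrix (Fin n) (Fin n) ℝ) (A : Matrix (Fin k) (Fin n) ℝ), S.PosSemidef →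
    (multivariateGaussian (0 : EuclideanSpace ℝ (Fin n)) S).map
      (fun w => (WithLp.toLp 2 (A.mulVec w.ofLp) : EuclideanSpace ℝ (Fin k))) =
    multivariateGaussian (0 : EuclideanSpace ℝ (Fin k)) (A * S * A.transpose)

/-- the mass of `φ` on the `k`-th of `n` intervals of `[0,1]` -/
noncomputable def ph (φ : ℝ → ℂ) (n k : ℕ) : ℂ := ∫ x in ((k : ℝ) / n)..(((k : ℝ) + 1) / n), φ x

/-- the double sum which is the second moment of the approximate chaos -/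
noncomputable def RR (K : ℕ → ℕ → ℝ → ℝ → ℝ) (b : ℝ) (φ : ℝ → ℂ) (J n J' n' : ℕ) : ℂ :=
  ∑ k ∈ Finset.range n, ∑ l ∈ Finset.range n',
    ph φ n k * conj (ph φ n' l) * ((Real.exp (b * K J J' ((k : ℝ) / n) ((l : ℝ) / n')) : ℝ) : ℂ)

/-- JOB DC (convergence of the second moments; pure analysis).

PROOF. Let `|φ| ≤ P` on `[0,1]` (continuity), `I(J,J') = ∫_0^1 ∫_0^1 φ(x) conj(φ(y)) exp(b K J J' x y) dx dy`.
(1) `|RR K b φ J n J' n' - I(J,J')| ≤ P² sup |exp(b K J J' x y) - exp(b K J J' (k/n) (l/n'))|` over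
`x ∈ [k/n,(k+1)/n]`, `y ∈ [l/n',(l+1)/n']`, at most
`P² exp(b C (1+μ)) * b * C * 2^μ * (1/n + 1/n')` with `μ = min J J'` (sup, lip; `|e^u - e^v| ≤ e^max |u-v|`), and
`1/n + 1/n' ≤ 2 exp(-A μ)` if `n ≥ exp(A J)`, `n' ≥ exp(A J')`. With `A = b C + 2` this is
`≤ 2 P² b C exp(b C) exp(-μ)` (`2 ≤ e`), which tends to `0` as `min J J' → ∞`.
(2) `I(J,J') → I = ∫∫ φ conj φ exp(b Ki)` as `(J,J') → ∞` by dominated convergence
(`tendsto_integral_filter_of_dominated_convergence`, filter `atTop` on `ℕ × ℕ`, off the diagonal, a null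
set): the dominating function is `P² exp(b C) |x-y|^(-bκ)`, integrable on `[0,1]²` because `bκ < 1`. QED -/
def S_DC : Prop :=
  ∀ (K : ℕ → ℕ → ℝ → ℝ → ℝ) (κ C b : ℝ), KerB K κ C → 0 ≤ b → b * κ < 1 →
    ∀ φ : ℝ → ℂ, Continuous φ → ∃ I : ℂ, ∀ δ : ℝ, 0 < δ → ∃ J0 : ℕ, ∀ J J' n n' : ℕ, J0 ≤ J → J0 ≤ J' →
      Real.exp ((b * C + 2) * J) ≤ n → Real.exp ((b * C + 2) * J') ≤ n' →
      ‖RR K b φ J n J' n' - I‖ ≤ δ

/-- covariance matrix on the grid -/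
noncomputable def KM (K : ℕ → ℕ → ℝ → ℝ → ℝ) (J n : ℕ) : Matrix (Fin n) (Fin n) ℝ :=
  Matrix.of fun k l => K J J ((k : ℝ) / n) ((l : ℝ) / n)

/-- approximate chaos on the grid of mesh `1/n` -/
noncomputable def Ch (K : ℕ → ℕ → ℝ → ℝ → ℝ) (α : ℂ) (φ : ℝ → ℂ) (J n : ℕ)
    (w : EuclideanSpace ℝ (Fin n)) : ℂ :=
  ∑ k : Fin n, ph φ n k * cexp (α * (w k : ℝ) -
    α ^ 2 / 2 * (K J J ((k : ℝ) / n) ((k : ℝ) / n) : ℝ))

/-- JOB CH (the approximate chaos is a Cauchy sequence in the bounded Lipschitz distance).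

PROOF (from EX, LIN, DC). `b = ‖α‖^2`. Given `(J,n)`, `(J',n')` let `N = n + n'`, and consider the Gaussian
vector `W` on `Fin N` with the psd matrix `(K (J_i) (J_j) (x_i) (x_j))`, where `J_i = J`, `x_i = i/n` for
`i < n` and `J_i = J'`, `x_i = (i-n)/n'` for `i ≥ n`. By LIN (with the coordinate projections) its first `n`
coordinates have the law `N(0, KM K J n)` and the last `n'` coordinates the law `N(0, KM K J' n')`. So the
left side of (i) is `|E Φ(X) - E Φ(Y)| ≤ E |X - Y| ≤ (E |X - Y|²)^(1/2)` with `X, Y` the two chaos sums as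
functions of `W`. By EX (for `conj(cexp(α w)) = cexp(conj α w)`), with `v_i` the variances,
`E exp(α W_i - α² v_i/2) conj(exp(α W_j - α² v_j/2)) = exp(‖α‖² Cov(W_i,W_j))`, so
`E|X|² = RR K b φ J n J n`, `E|Y|² = RR K b φ J' n' J' n'`, `E X conj(Y) = RR K b φ J n J' n'`, and
`E|X-Y|² = E|X|² + E|Y|² - 2 Re E X conj Y`; by DC each of the three terms is within `δ²/4` of `I`, for
`J, J' ≥ J0`. (ii) follows from `E|X|² = RR K b φ J n J n` and DC with `δ = 1`: `B = ‖I‖ + 1`. (iii): EX with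
`β = 0` and `∑ k < n, ph φ n k = ∫_0^1 φ`. QED -/
def S_CH : Prop :=
  S_EX → S_LIN → S_DC → ∀ (K : ℕ → ℕ → ℝ → ℝ → ℝ) (κ C : ℝ) (α : ℂ), KerB K κ C → ‖α‖ ^ 2 * κ < 1 →
    ∀ φ : ℝ → ℂ, Continuous φ →
      (∀ δ : ℝ, 0 < δ → ∃ J0 : ℕ, ∀ J J' n n' : ℕ, J0 ≤ J → J0 ≤ J' →
        Real.exp ((‖α‖ ^ 2 * C + 2) * J) ≤ n → Real.exp ((‖α‖ ^ 2 * C + 2) * J') ≤ n' →
        ∀ Φ : ℂ → ℝ, (∀ z, |Φ z| ≤ 1) → LipschitzWith 1 Φ →
        |∫ w, Φ (Ch K α φ J n w) ∂(multivariateGaussian 0 (KM K J n)) -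
          ∫ w, Φ (Ch K α φ J' n' w) ∂(multivariateGaussian 0 (KM K J' n'))| ≤ δ) ∧
      (∃ (B : ℝ) (J0 : ℕ), ∀ J n : ℕ, J0 ≤ J → Real.exp ((‖α‖ ^ 2 * C + 2) * J) ≤ n →
        Integrable (fun w => ‖Ch K α φ J n w‖ ^ 2) (multivariateGaussian 0 (KM K J n)) ∧
        ∫ w, ‖Ch K α φ J n w‖ ^ 2 ∂(multivariateGaussian 0 (KM K J n)) ≤ B) ∧
      (∀ J n : ℕ, 1 ≤ n → Integrable (fun w => Ch K α φ J n w) (multivariateGaussian 0 (KM K J n)) ∧
        ∫ w, Ch K α φ J n w ∂(multivariateGaussian 0 (KM K J n)) = ∫ x in (0 : ℝ)..1, φ x)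

/-- JOB PR (completeness; Prokhorov).

PROOF. The set of the `μ i` is tight (Markov: `μ i {‖z‖ > R} ≤ B/R²`, closed balls of `ℂ` are compact), so by
Prokhorov (`Mathlib.MeasureTheory.Measure.Prokhorov`) its closure in `ProbabilityMeasure ℂ` is compact and the
sequence has a cluster point `ν`. For bounded Lipschitz `Φ` the real sequence `∫ Φ dμ i` is Cauchy; its limit
is `∫ Φ dν`, because `μ ↦ ∫ Φ dμ` is continuous and `ν` is a cluster point. Let `j → ∞` in the Cauchy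
estimate, uniform in `Φ`. Last claim: `|∫ z dμ i - ∫ z dν|`: `∫ ‖z‖² dν ≤ B` (test with `min(‖z‖², R)`, which is
bounded and Lipschitz up to a factor, let `R → ∞`), and `∫ z dν = c` by truncating `z` at radius `R`:
the truncation (1-Lipschitz retraction on the ball) changes both integrals by at most `B/R`, and real and
imaginary part of the truncation divided by `R` are bounded by `1` and Lipschitz. QED -/
def S_PR : Prop :=
  ∀ (μ : ℕ → Measure ℂ) (B : ℝ) (c : ℂ), (∀ i, IsProbabilityMeasure (μ i)) →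
    (∀ i, Integrable (fun z => ‖z‖ ^ 2) (μ i) ∧ ∫ z, ‖z‖ ^ 2 ∂(μ i) ≤ B) →
    (∀ i, ∫ z, z ∂(μ i) = c) →
    (∀ δ : ℝ, 0 < δ → ∃ N : ℕ, ∀ i j : ℕ, N ≤ i → N ≤ j → ∀ Φ : ℂ → ℝ, (∀ z, |Φ z| ≤ 1) →
      LipschitzWith 1 Φ → |∫ z, Φ z ∂(μ i) - ∫ z, Φ z ∂(μ j)| ≤ δ) →
    ∃ ν : Measure ℂ, IsProbabilityMeasure ν ∧ Integrable (fun z => ‖z‖ ^ 2) ν ∧ ∫ z, ‖z‖ ^ 2 ∂ν ≤ B ∧
      ∫ z, z ∂ν = c ∧
      ∀ δ : ℝ, 0 < δ → ∃ N : ℕ, ∀ i : ℕ, N ≤ i → ∀ Φ : ℂ → ℝ, (∀ z, |Φ z| ≤ 1) →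
        LipschitzWith 1 Φ → |∫ z, Φ z ∂(μ i) - ∫ z, Φ z ∂ν| ≤ δ

end Pool.Agent.Q278.GC
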