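import Pool.Agent.Q278.GC.H
import Pool.Agent.Q278.GC.Stm2

/-!
# Smoothed counting functions at many points (helper278)
-/

set_option autoImplicit false

namespace Pool.Agent.Q278.GC

open Filter Topology MeasureTheory Complex ProbabilityTheory
open scoped FourierTransform ContDiff ComplexConjugate RealInnerProductSpace
open H370 (Zf mult mem_Zf good_zeta zset finsum_Zf)
open Pool.Agent.Q278.MC Pool.Agent.Q278.MX

variable {H : ℝ → ℝ}

lemma CC_of {f : ℝ → ℝ} (hf : ContDiff ℝ ∞ f) {R : ℝ} (hR : ∀ v, R < |v| → f v = 0) :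
    CC (fc f) := by
  constructor
  · exact Complex.ofRealCLM.contDiff.comp hf
  · refine HasCompactSupport.intro (isCompact_closedBall (0 : ℝ) R) fun v hv => ?_
    rw [Metric.mem_closedBall, dist_zero_right, Real.norm_eq_abs, not_le] at hv
    unfold fc
    rw [hR v hv, Complex.ofReal_zero]

lemma wg_supp (hH : Step H) {v : ℝ} (hv : 1 < |v|) : wg H v = 0 := by
  unfold wg
  rcases lt_abs.1 hv with h | h
  · rw [hH.hi _ (by linarith), hH.hi _ (by linarith), sub_self]
  · rw [hH.lo _ (by linarith), hH.lo _ (by linarith), sub_self]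

lemma wg_CC (hH : Step H) : CC (fc (wg H)) :=
  CC_of ((hH.cd.comp (contDiff_const.mul contDiff_id)).sub hH.cd) fun _ hv => wg_supp hH hv

lemma fj_supp (hH : Step H) (J : ℕ) {x v : ℝ} (hv : 1 < |v - x|) : fj H J x v = 0 := by
  unfold fj
  have h2 : (1 : ℝ) ≤ 2 ^ J := one_le_pow₀ (by norm_num)
  rcases lt_abs.1 hv with h | h
  · rw [hH.hi _ (by nlinarith), hH.hi _ (by linarith), sub_self]
  · rw [hH.lo _ (by nlinarith), hH.lo _ (by linarith), sub_self]

lemma fj_supp' (hH : Step H) (J : ℕ) {x v : ℝ} (hv : 1 + |x| < |v|) : fj H J x v = 0 := by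
  refine fj_supp hH J ?_
  have := abs_sub_abs_le_abs_sub v x
  linarith

lemma fj_cd (hH : Step H) (J : ℕ) (x : ℝ) : ContDiff ℝ ∞ (fj H J x) :=
  (hH.cd.comp (contDiff_const.mul (contDiff_id.sub contDiff_const))).sub
    (hH.cd.comp (contDiff_id.sub contDiff_const))

lemma fj_CC (hH : Step H) (J : ℕ) (x : ℝ) : CC (fc (fj H J x)) :=
  CC_of (fj_cd hH J x) fun _ hv => fj_supp' hH J hv

lemma fj_sum (H : ℝ → ℝ) (J : ℕ) (x v : ℝ) :
    fj H J x v = ∑ m ∈ Finset.range J, sf (wg H) x (1 / 2 ^ m) v := by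
  induction J with
  | zero => simp [fj]
  | succ J ih =>
    rw [Finset.sum_range_succ, ← ih]
    unfold fj sf wg
    have e1 : (v - x) / (1 / 2 ^ J) = 2 ^ J * (v - x) := by
      field_simp
    rw [e1, show 2 * (2 ^ J * (v - x)) = 2 ^ (J + 1) * (v - x) by ring]
    ring

lemma sf_supp {g : ℝ → ℝ} (hg : ∀ v, 1 < |v| → g v = 0) {x s v : ℝ} (hs : 0 < s) (hs1 : s ≤ 1)
    (hv : 1 + |x| < |v|) : sf g x s v = 0 := by
  unfold sf
  apply hg
  rw [abs_div, abs_of_pos hs, lt_div_iff₀ hs]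
  have := abs_sub_abs_le_abs_sub v x
  linarith

/-- additivity of the statistic over a finite sum of test functions -/
lemma st_sum {ι : Type*} (A : Finset ι) (f : ι → ℝ → ℝ) {R : ℝ} (hR0 : 0 ≤ R)
    (hR : ∀ i ∈ A, ∀ v, R < |v| → f i v = 0) (hf : ∀ i ∈ A, CC (fc (f i))) {L T t : ℝ}
    (ha : 1 ≤ aP L T) (ht : R + 3 ≤ t) :
    st (fun v => ∑ i ∈ A, f i v) L T t = ∑ i ∈ A, st (f i) L T t := by
  have hlc : ∀ x, R < |x| → (fun v => ∑ i ∈ A, f i v) x = 0 := by
    intro x hx
    exact Finset.sum_eq_zero fun i hi => hR i hi x hx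
  unfold st
  rw [SZ_eq (A := t - R - 1) (B := t + R) hlc ha (by linarith) (by linarith) le_rfl]
  have e1 : ∀ i ∈ A, SZ (f i) (aP L T) t - L * ∫ x, f i x =
      (∑ s ∈ Zf riemannZeta (t - R - 1) (t + R), mz s * f i (aP L T * (s.im - t))) -
        L * ∫ x, f i x := fun i hi => by
    rw [SZ_eq (A := t - R - 1) (B := t + R) (hR i hi) ha (by linarith) (by linarith) le_rfl]
  rw [Finset.sum_congr rfl e1, Finset.sum_sub_distrib, integral_finsetSum, Finset.mul_sum,
    Finset.sum_comm]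
  · congr 1
    refine Finset.sum_congr rfl fun s _ => ?_
    rw [Finset.mul_sum]
  · intro i hi
    exact (hf i hi).int.re

lemma cv_sumL {ι : Type*} (A : Finset ι) (f : ι → ℝ → ℝ) (hf : ∀ i ∈ A, CC (fc (f i))) {h : ℝ → ℝ}
    (hh : CC (fc h)) : cv (fun v => ∑ i ∈ A, f i v) h = ∑ i ∈ A, cv (f i) h := by
  have e1 : ∀ ξ, 𝓕 (fc (fun v => ∑ i ∈ A, f i v)) ξ = ∑ i ∈ A, 𝓕 (fc (f i)) ξ := by
    intro ξ
    have e2 : fc (fun v => ∑ i ∈ A, f i v) = fun v => ∑ i ∈ A, fc (f i) v := by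
      funext v
      unfold fc
      push_cast
      rfl
    rw [e2]
    simp only [Real.fourier_eq']
    rw [← integral_finsetSum]
    · refine integral_congr_ae (Eventually.of_forall fun v => ?_)
      simp only [Finset.smul_sum]
    · intro i hi
      have h1 := (hf i hi).int
      have h2 : Continuous fun v : ℝ => cexp (((-2 * Real.pi * inner ℝ v ξ : ℝ) : ℂ) * I) := by
        fun_prop
      refine (h1.norm).mono' (h2.aestronglyMeasurable.smul h1.aestronglyMeasurable)
        (Eventually.of_forall fun v => ?_)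
      rw [norm_smul, Complex.norm_exp_ofReal_mul_I, one_mul]
  unfold cv
  have e3 : ∀ ξ : ℝ, |ξ| * (𝓕 (fc (fun v => ∑ i ∈ A, f i v)) ξ * conj (𝓕 (fc h) ξ)).re =
      ∑ i ∈ A, |ξ| * (𝓕 (fc (f i)) ξ * conj (𝓕 (fc h) ξ)).re := by
    intro ξ
    rw [e1, Finset.sum_mul, Complex.re_sum, Finset.mul_sum]
  rw [integral_congr_ae (Eventually.of_forall e3), integral_finsetSum]
  intro i hi
  exact cv_int (hf i hi) hh

lemma cv_sumR {ι : Type*} (A : Finset ι) (f : ι → ℝ → ℝ) (hf : ∀ i ∈ A, CC (fc (f i))) {h : ℝ → ℝ}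
    (hh : CC (fc h)) : cv h (fun v => ∑ i ∈ A, f i v) = ∑ i ∈ A, cv h (f i) := by
  rw [cv_symm, cv_sumL A f hf hh]
  exact Finset.sum_congr rfl fun i _ => cv_symm _ _

lemma sf_wg_CC (hH : Step H) (x : ℝ) (m : ℕ) : CC (fc (sf (wg H) x (1 / 2 ^ m))) :=
  sf_CC (wg_CC hH) (by positivity) x

lemma fj_eq (H : ℝ → ℝ) (J : ℕ) (x : ℝ) :
    fj H J x = fun v => ∑ m ∈ Finset.range J, sf (wg H) x (1 / 2 ^ m) v := funext (fj_sum H J x)

lemma kj_sum (hH : Step H) (J J' : ℕ) (x y : ℝ) : kj H J J' x y =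
    ∑ m ∈ Finset.range J, ∑ m' ∈ Finset.range J',
      cv (sf (wg H) x (1 / 2 ^ m)) (sf (wg H) y (1 / 2 ^ m')) := by
  unfold kj
  rw [fj_eq H J x, cv_sumL _ _ (fun m _ => sf_wg_CC hH x m) (fj_CC hH J' y)]
  refine Finset.sum_congr rfl fun m _ => ?_
  rw [fj_eq H J' y, cv_sumR _ _ (fun m' _ => sf_wg_CC hH y m') (sf_wg_CC hH x m)]

lemma st_fj (hH : Step H) (J : ℕ) {x L T t : ℝ} (ha : 1 ≤ aP L T) (ht : |x| + 4 ≤ t) :
    st (fj H J x) L T t = ∑ m ∈ Finset.range J, st (sf (wg H) x (1 / 2 ^ m)) L T t := by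
  rw [fj_eq H J x]
  refine st_sum _ _ (R := 1 + |x|) (by positivity) (fun m _ v hv => ?_)
    (fun m _ => sf_wg_CC hH x m) ha (by linarith)
  exact sf_supp (fun v hv => wg_supp hH hv) (by positivity) (by
    rw [div_le_one (by positivity)]
    exact one_le_pow₀ (by norm_num)) hv

/-- **the coupling for the smoothed counting field at many points** -/
theorem coupling_fj (hSM : S_SM) (hCV : S_CV) (hLIN : S_LIN) (hH : Step H) : ∃ C : ℝ, 0 < C ∧
    ∀ M L T : ℝ, 100 ≤ M → M ^ 20 ≤ L → M ^ 20 * L ≤ Real.log T → 0 < T →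
      ∀ (n J : ℕ) (z : Fin n → ℝ), 1 ≤ J → ((n * J : ℕ) : ℝ) ≤ M → 2 ^ J ≤ M → (∀ k, |z k| ≤ M) →
      ∀ (φ : EuclideanSpace ℝ (Fin n) → ℝ) (lam : ℝ), (∀ y, |φ y| ≤ 1) → 1 ≤ lam →
      (∀ u v, |φ u - φ v| ≤ lam * ‖u - v‖) →
      |1 / T * (∫ t in T..(2 * T), φ (vc (fun k => fj H J (z k)) L T t)) -
        ∫ y, φ y ∂(multivariateGaussian 0 (cm fun k => fj H J (z k)))| ≤ C * lam * J / M := by
  obtain ⟨C, hC, h⟩ := coupling hSM hCV (wg_CC hH)
  refine ⟨C, hC, fun M L T hM hL hLT hT n J z hJ hnJ h2J hz φ lam hφ hlam hLip => ?_⟩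
  have hP : Par M L T := ⟨hM, hL, hLT⟩
  have hMp := hP.M0
  have hM1 := hP.M1
  have ha1 : 1 ≤ aP L T := (one_le_pow₀ hM1).trans hP.alow
  have hJ0 : (0 : ℝ) < J := by exact_mod_cast hJ
  have hJ1 : (1 : ℝ) ≤ J := by exact_mod_cast hJ
  set e : Fin n × Fin J ≃ Fin (n * J) := finProdFinEquiv with he
  set x : Fin (n * J) → ℝ := fun i => z (e.symm i).1 with hx
  set s : Fin (n * J) → ℝ := fun i => 1 / 2 ^ ((e.symm i).2 : ℕ) with hs
  have hxs : ∀ i, |x i| ≤ M ∧ 1 / M ≤ s i ∧ s i ≤ 1 := by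
    intro i
    refine ⟨hz _, ?_, ?_⟩
    · simp only [hs]
      refine one_div_le_one_div_of_le (by positivity) (le_trans ?_ h2J)
      exact pow_le_pow_right₀ (by norm_num) (e.symm i).2.2.le
    · simp only [hs]
      rw [div_le_one (by positivity)]
      exact one_le_pow₀ (by norm_num)
  -- the linear map
  set A : Matrix (Fin n) (Fin (n * J)) ℝ := Matrix.of fun k i => if (e.symm i).1 = k then 1 else 0
    with hA
  have hAv : ∀ (w : Fin (n * J) → ℝ) (k : Fin n), A.mulVec w k = ∑ m : Fin J, w (e (k, m)) := by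
    intro w k
    unfold Matrix.mulVec dotProduct
    rw [← e.sum_comp, Fintype.sum_prod_type]
    simp only [hA, Matrix.of_apply, Equiv.symm_apply_apply, ite_mul, one_mul, zero_mul]
    rw [Finset.sum_eq_single k]
    · exact Finset.sum_congr rfl fun m _ => by rw [if_pos rfl]
    · intro b _ hb
      exact Finset.sum_eq_zero fun m _ => by rw [if_neg hb]
    · intro h; exact absurd (Finset.mem_univ k) h
  set B : EuclideanSpace ℝ (Fin (n * J)) → EuclideanSpace ℝ (Fin n) :=
    fun w => WithLp.toLp 2 (A.mulVec w.ofLp) with hB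
  have hBn : ∀ u v, ‖B u - B v‖ ≤ Real.sqrt J * ‖u - v‖ := by
    intro u v
    have e1 : ‖B u - B v‖ ^ 2 = ∑ k, (∑ m : Fin J, (u - v) (e (k, m))) ^ 2 := by
      rw [EuclideanSpace.real_norm_sq_eq]
      refine Finset.sum_congr rfl fun k _ => ?_
      have : (B u - B v) k = A.mulVec u.ofLp k - A.mulVec v.ofLp k := rfl
      rw [this, hAv, hAv, ← Finset.sum_sub_distrib]
      rfl
    have e2 : ∑ k, (∑ m : Fin J, (u - v) (e (k, m))) ^ 2 ≤ J * ‖u - v‖ ^ 2 := by
      rw [EuclideanSpace.real_norm_sq_eq, ← e.sum_comp (fun i => ((u - v) i) ^ 2),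
        Fintype.sum_prod_type, Finset.mul_sum]
      refine Finset.sum_le_sum fun k _ => ?_
      have := sq_sum_le_card_mul_sum_sq (s := Finset.univ) (f := fun m : Fin J => (u - v) (e (k, m)))
      simpa using this
    have e3 : ‖B u - B v‖ ^ 2 ≤ (Real.sqrt J * ‖u - v‖) ^ 2 := by
      rw [mul_pow, Real.sq_sqrt hJ0.le, e1]
      exact e2
    exact le_of_sq_le_sq e3 (by positivity)
  have hsJ : Real.sqrt J ≤ J := by
    rw [Real.sqrt_le_left hJ0.le]
    nlinarith
  have hsJ0 : 0 < Real.sqrt J := Real.sqrt_pos.2 hJ0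
  have hsJ1 : 1 ≤ Real.sqrt J := Real.one_le_sqrt.2 hJ1
  set κ : ℝ := lam * Real.sqrt J with hκ
  have hκ1 : 1 ≤ κ := by
    rw [hκ]
    nlinarith
  have hκ0 : 0 < κ := by linarith
  set ψ : EuclideanSpace ℝ (Fin (n * J)) → ℝ := fun w => φ (B w) / κ with hψ
  have hψ1 : ∀ w, |ψ w| ≤ 1 := by
    intro w
    simp only [hψ]
    rw [abs_div, abs_of_pos hκ0, div_le_one hκ0]
    exact (hφ _).trans hκ1
  have hψL : LipschitzWith 1 ψ := by
    refine LipschitzWith.of_dist_le_mul fun u v => ?_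
    rw [Real.dist_eq, dist_eq_norm, NNReal.coe_one, one_mul]
    simp only [hψ]
    rw [← sub_div, abs_div, abs_of_pos hκ0, div_le_iff₀ hκ0]
    calc |φ (B u) - φ (B v)| ≤ lam * ‖B u - B v‖ := hLip _ _
      _ ≤ lam * (Real.sqrt J * ‖u - v‖) := mul_le_mul_of_nonneg_left (hBn u v) (by linarith)
      _ = ‖u - v‖ * κ := by rw [hκ]; ring
  have hmain := h M L T hM1 hL hLT hT (n * J) x s (by exact_mod_cast hnJ) hxs ψ hψ1 hψL
  -- zeros side
  have hz1 : ∀ t ∈ Set.uIcc T (2 * T), B (vc (fG (wg H) x s) L T t) =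
      vc (fun k => fj H J (z k)) L T t := by
    intro t ht
    rw [Set.uIcc_of_le (by linarith)] at ht
    ext k
    have e1 : (B (vc (fG (wg H) x s) L T t)) k = A.mulVec (vc (fG (wg H) x s) L T t).ofLp k := rfl
    rw [e1, hAv]
    have e2 : (vc (fun k => fj H J (z k)) L T t) k = st (fj H J (z k)) L T t := rfl
    have hTM : M + 4 ≤ T := by
      have h1 := hP.logT
      have h2 := Real.log_le_sub_one_of_pos hT
      have h3 : M ^ 2 ≤ M ^ 40 := pow_le_pow_right₀ hM1 (by norm_num)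
      nlinarith
    rw [e2, st_fj hH J ha1 (by linarith [hz k, ht.1]), Finset.sum_range]
    refine Finset.sum_congr rfl fun m _ => ?_
    show st (fG (wg H) x s (e (k, m))) L T t = _
    simp only [fG, hx, hs, Equiv.symm_apply_apply]
  have hz2 : (∫ t in T..(2 * T), ψ (vc (fG (wg H) x s) L T t)) =
      (∫ t in T..(2 * T), φ (vc (fun k => fj H J (z k)) L T t)) / κ := by
    rw [← intervalIntegral.integral_div]
    refine intervalIntegral.integral_congr fun t ht => ?_
    simp only [hψ]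
    rw [hz1 t ht]
  -- Gaussian side
  have hpsd : (cm (fG (wg H) x s)).PosSemidef := cm_pos fun i =>
    sf_CC (wg_CC hH) (lt_of_lt_of_le (by positivity) (hxs i).2.1) _
  have hmat : A * cm (fG (wg H) x s) * A.transpose = cm fun k => fj H J (z k) := by
    ext k l
    have e1 : (A * cm (fG (wg H) x s) * A.transpose) k l =
        A.mulVec (fun i => A.mulVec (fun j => cm (fG (wg H) x s) i j) l) k := by
      rw [Matrix.mul_apply]
      unfold Matrix.mulVec dotProduct
      simp only [Matrix.mul_apply, Matrix.transpose_apply, Finset.sum_mul, Finset.mul_sum]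
      rw [Finset.sum_comm]
      refine Finset.sum_congr rfl fun i _ => Finset.sum_congr rfl fun j _ => ?_
      ring
    rw [e1, hAv]
    simp only [hAv]
    have e2 : (cm fun k => fj H J (z k)) k l = kj H J J (z k) (z l) := rfl
    rw [e2, kj_sum hH, Finset.sum_range]
    refine Finset.sum_congr rfl fun m _ => ?_
    rw [Finset.sum_range]
    refine Finset.sum_congr rfl fun m' _ => ?_
    simp only [cm, Matrix.of_apply, fG, hx, hs, Equiv.symm_apply_apply]
  have hg1 : ∫ y, ψ y ∂(multivariateGaussian 0 (cm (fG (wg H) x s))) =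
      (∫ y, φ y ∂(multivariateGaussian 0 (cm fun k => fj H J (z k)))) / κ := by
    have e1 := hLIN (n * J) n (cm (fG (wg H) x s)) A hpsd
    rw [hmat] at e1
    rw [← e1, integral_map]
    · rw [← integral_div]
    · have : Continuous B := by
        have hLB : LipschitzWith (Real.sqrt J).toNNReal B := by
          refine LipschitzWith.of_dist_le_mul fun u v => ?_
          rw [dist_eq_norm, dist_eq_norm, Real.coe_toNNReal _ hsJ0.le]
          exact hBn u v
        exact hLB.continuous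
      exact this.measurable.aemeasurable
    · have hφc : Continuous φ := by
        have hLφ : LipschitzWith lam.toNNReal φ := by
          refine LipschitzWith.of_dist_le_mul fun u v => ?_
          rw [Real.dist_eq, dist_eq_norm, Real.coe_toNNReal _ (by linarith)]
          exact hLip u v
        exact hLφ.continuous
      exact hφc.aestronglyMeasurable
  rw [hz2, hg1, ← mul_div_assoc, ← sub_div, abs_div, abs_of_pos hκ0, div_le_iff₀ hκ0] at hmain
  refine hmain.trans ?_
  calc C / M * κ = C * lam * Real.sqrt J / M := by rw [hκ]; ring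
    _ ≤ C * lam * J / M := by gcongr

end Pool.Agent.Q278.GC
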