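import Pool.Agent.Q278.GC.H

/-!
# First absolute moments of the statistics, uniformly (helper278)
-/

set_option autoImplicit false

namespace Pool.Agent.Q278.GC

open Filter Topology MeasureTheory Complex ProbabilityTheory
open scoped FourierTransform ContDiff ComplexConjugate RealInnerProductSpace
open Pool.Agent.Q278.MC Pool.Agent.Q278.MX

/-- the numbers in the covariance asymptotics -/
lemma eta_le {M L T C0 : ℝ} (hP : Par M L T) (hC0 : 0 < C0) :
    C0 * M ^ 4 * ((M ^ 9) ^ 2 / aP L T ^ 2 + 1 / aP L T +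
      1 / (Real.log (XG L T M) / (2 * Real.pi * aP L T)) ^ 2) ≤ 3 * C0 / M ^ 10 := by
  have hMp := hP.M0
  have hM1 := hP.M1
  have ha0 := hP.a0
  have ha19 := hP.alow
  have hXlow := hP.Xlow
  set a := aP L T with ha
  set X := XG L T M with hX
  have hY : 2 * M ^ 7 ≤ Real.log X / (2 * Real.pi * a) := by
    have h1 : 2 * Real.pi * a = Real.log T / L := hP.aeq
    have h2 : 0 < 2 * Real.pi * a := by positivity
    rw [le_div_iff₀ h2]
    have h3 : UG L T M = 2 * WG L M * (M * (2 * Real.pi * a)) := by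
      unfold UG
      rw [h1]
    have h4 := hP.Wlow
    have h5 : 2 * M ^ 7 * (2 * Real.pi * a) ≤ UG L T M := by
      rw [h3]
      calc 2 * M ^ 7 * (2 * Real.pi * a) = 2 * M ^ 6 * (M * (2 * Real.pi * a)) := by ring
        _ ≤ 2 * WG L M * (M * (2 * Real.pi * a)) := by gcongr
    linarith
  have t1 : (M ^ 9) ^ 2 / a ^ 2 ≤ 1 / M ^ 14 := by
    calc (M ^ 9) ^ 2 / a ^ 2 ≤ (M ^ 9) ^ 2 / (M ^ 19) ^ 2 := by gcongr
      _ = 1 / M ^ 20 := by
          have : (M ^ 19) ^ 2 = (M ^ 9) ^ 2 * M ^ 20 := by ring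
          rw [this]
          field_simp
      _ ≤ 1 / M ^ 14 :=
          one_div_le_one_div_of_le (by positivity) (pow_le_pow_right₀ hM1 (by norm_num))
  have t2 : 1 / a ≤ 1 / M ^ 14 :=
    one_div_le_one_div_of_le (by positivity)
      ((pow_le_pow_right₀ hM1 (by norm_num : 14 ≤ 19)).trans ha19)
  have t3 : 1 / (Real.log X / (2 * Real.pi * a)) ^ 2 ≤ 1 / M ^ 14 := by
    refine one_div_le_one_div_of_le (by positivity) ?_
    have h6 : M ^ 7 ≤ Real.log X / (2 * Real.pi * a) := by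
      have : 0 < M ^ 7 := by positivity
      linarith
    calc M ^ 14 = (M ^ 7) ^ 2 := by ring
      _ ≤ _ := pow_le_pow_left₀ (by positivity) h6 2
  calc _ ≤ C0 * M ^ 4 * (1 / M ^ 14 + 1 / M ^ 14 + 1 / M ^ 14) := by gcongr
    _ = 3 * C0 / M ^ 10 := by
        have : M ^ 14 = M ^ 4 * M ^ 10 := by ring
        rw [this]
        field_simp
        ring

/-- the variance of the kept primes is bounded -/
theorem var_kept (hCV : S_CV) {g : ℝ → ℝ} (hg : CC (fc g)) : ∃ V : ℝ, 1 ≤ V ∧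
    ∀ M L T x s : ℝ, Par M L T → |x| ≤ M → 1 / M ≤ s → s ≤ 1 →
      ∑ p ∈ SG L T M, ‖cG g L T M x s p‖ ^ 2 ≤ V := by
  obtain ⟨C0, hC0, hcv⟩ := hCV g hg
  have hv0 : 0 ≤ vr (fc g) := integral_nonneg fun ξ => by positivity
  refine ⟨2 * vr (fc g) + 3 * C0, by linarith, fun M L T x s hP hx hs1 hs2 => ?_⟩
  have hMp := hP.M0
  have hM1 := hP.M1
  have hs0 : 0 < s := lt_of_lt_of_le (by positivity) hs1
  have ha1 : 1 ≤ aP L T := (one_le_pow₀ hM1).trans hP.alow
  have hM9 : 1 ≤ M ^ 9 := one_le_pow₀ hM1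
  have hβX : M ^ 9 ≤ Real.log (XG L T M) := by
    have : M ^ 9 ≤ M ^ 26 := pow_le_pow_right₀ hM1 (by norm_num)
    linarith [hP.Xlow, hP.Ulow]
  have h1 := hcv M (aP L T) (M ^ 9) (XG L T M) x x s s hM1 ha1 hM9 hβX hx hx hs1 hs2 hs1 hs2
  have h2 := h1.trans (eta_le hP (by linarith))
  have h3 : 3 * C0 / M ^ 10 ≤ 3 * C0 := by
    rw [div_le_iff₀ (by positivity)]
    have : 1 ≤ M ^ 10 := one_le_pow₀ hM1
    nlinarith
  rw [cv_sf_self g hs0 x] at h2
  have h4 := (abs_le.1 h2).2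
  have h5 : ∑ p ∈ SG L T M, ‖cG g L T M x s p‖ ^ 2 =
      ∑ p ∈ PB (M ^ 9) (Real.log (XG L T M)), (cn (fc (sf g x s)) (aP L T) (XG L T M) p *
        conj (cn (fc (sf g x s)) (aP L T) (XG L T M) p)).re := by
    refine Finset.sum_congr rfl fun p _ => ?_
    rw [Complex.mul_conj, Complex.ofReal_re, Complex.normSq_eq_norm_sq]
    unfold cG
    rw [norm_neg]
  rw [h5]
  linarith

/-- first moment from second moment for `mu` -/
lemma mean_of_sq {F : ℝ → ℝ} (hF : Continuous F) {T B : ℝ} (hT : 1 ≤ T) (hB : 0 < B)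
    (h : ∫ t, F t ^ 2 ∂(mu T) ≤ B ^ 2) : ∫ t, |F t| ∂(mu T) ≤ B := by
  have h4 : ∀ t, |F t| ≤ B / 2 + F t ^ 2 / (2 * B) := by
    intro t
    have h5 : 0 ≤ (|F t| - B) ^ 2 / (2 * B) := by positivity
    have h6 : (|F t| - B) ^ 2 / (2 * B) = F t ^ 2 / (2 * B) - |F t| + B / 2 := by
      have : |F t| ^ 2 = F t ^ 2 := sq_abs _
      field_simp
      nlinarith
    linarith
  haveI := mu_fin T
  calc (∫ t, |F t| ∂(mu T)) ≤ ∫ t, (B / 2 + F t ^ 2 / (2 * B)) ∂(mu T) :=
        integral_mono (mu_cont hF.abs T) (mu_cont (by fun_prop) T) h4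
    _ = ta T * (B / 2) + (∫ t, F t ^ 2 ∂(mu T)) / (2 * B) := by
        rw [integral_add (mu_cont continuous_const T) (mu_cont (by fun_prop) T), integral_const,
          mu_univ hT, integral_div, smul_eq_mul]
    _ ≤ 1 * (B / 2) + B ^ 2 / (2 * B) := by
        refine add_le_add (mul_le_mul_of_nonneg_right (ta_mem hT).2 (by positivity)) ?_
        gcongr
    _ = B := by field_simp; ring

/-- **the mean absolute value of the statistics is bounded** -/
theorem mean_st (hCV : S_CV) {g : ℝ → ℝ} (hg : CC (fc g)) : ∃ C M0 : ℝ, 0 < C ∧ 100 ≤ M0 ∧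
    ∀ M L T : ℝ, M0 ≤ M → Par M L T → 0 < T → ∀ x s : ℝ, |x| ≤ M → 1 / M ≤ s → s ≤ 1 →
      ∫ t in (T + 2 * Real.log T)..(2 * T - 2 * Real.log T), |st (sf g x s) L T t| ≤ C * T := by
  obtain ⟨K, M0, hK, hM0, h⟩ := mean_sf hg
  obtain ⟨C1, hC1, h1⟩ := low_err hg
  obtain ⟨V, hV, h2⟩ := var_kept hCV hg
  refine ⟨K + C1 + 2 * V, M0, by positivity, hM0, fun M L T hM hP hT x s hx hs1 hs2 => ?_⟩
  have hMp := hP.M0
  have hM1 := hP.M1
  have hT1 : 1 ≤ T := by linarith [hP.T0 hT]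
  have hs0 : 0 < s := lt_of_lt_of_le (by positivity) hs1
  have hbig := hP.big
  haveI := mu_fin T
  obtain ⟨hc, hm⟩ := h M L T hM hP hT x s hx hs1 hs2
  have hl := h1 M L T x s hP hT hs0 hs2
  have hv := h2 M L T x s hP hx hs1 hs2
  set ℓ := Real.log T with hℓ
  have h5l : 5 * ℓ ≤ T := by
    have h6 : Real.exp ℓ = T := Real.exp_log hT
    have h7 := Real.quadratic_le_exp_of_nonneg (by linarith : 0 ≤ ℓ)
    nlinarith
  set Z : ℝ → ℝ := fun t => (DP (af (SG L T M) (cG g L T M x s)) (XG L T M) t).re with hZ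
  have hZc : Continuous Z := Complex.continuous_re.comp (DP_cont _ _)
  have hYc := YG_cont g x s L T M
  have hZm : ∫ t, |Z t| ∂(mu T) ≤ 2 * V := by
    refine mean_of_sq hZc hT1 (by positivity) ?_
    have h3 := mom_norm (af_pc SG_prime (SG_le hP.X1) (cG g L T M x s)) hT1 (δ := 1) 1 (by
      rw [pow_one, one_mul]
      exact hP.size hT)
    rw [pow_one, Nat.factorial_one, Nat.cast_one, one_mul, mul_one, af_VV SG_prime] at h3
    have h4 : ∫ t, Z t ^ 2 ∂(mu T) ≤
        ∫ t, ‖DP (af (SG L T M) (cG g L T M x s)) (XG L T M) t‖ ^ 2 ∂(mu T) := by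
      refine integral_mono (mu_cont (hZc.pow 2) T) (mu_cont ((DP_cont _ _).norm.pow _) T)
        fun t => ?_
      show Z t ^ 2 ≤ ‖DP (af (SG L T M) (cG g L T M x s)) (XG L T M) t‖ ^ 2
      rw [← sq_abs]
      exact pow_le_pow_left₀ (abs_nonneg _) (Complex.abs_re_le_norm _) 2
    nlinarith
  have hYm : ∫ t, |YG g x s L T M t| ∂(mu T) ≤ C1 + 2 * V := by
    have k1 : Continuous fun t => |YG g x s L T M t - Z t| := (hYc.sub hZc).abs
    have k2 : Continuous fun t => |Z t| := hZc.abs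
    have h5 : ∫ t, |YG g x s L T M t| ∂(mu T) ≤
        ∫ t, (|YG g x s L T M t - Z t| + |Z t|) ∂(mu T) := by
      refine integral_mono (mu_cont hYc.abs T) (mu_cont (k1.add k2) T)
        fun t => ?_
      have := abs_add_le (YG g x s L T M t - Z t) (Z t)
      rw [sub_add_cancel] at this
      exact this
    rw [integral_add (mu_cont k1 T) (mu_cont k2 T)] at h5
    have h6 : C1 * M ^ 9 / aP L T ≤ C1 := by
      rw [div_le_iff₀ hP.a0]
      have h7 : M ^ 9 ≤ aP L T := (pow_le_pow_right₀ hM1 (by norm_num : 9 ≤ 19)).trans hP.alow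
      nlinarith
    linarith
  rw [mu_int hT1, smul_eq_mul] at hYm
  have hYi : IntervalIntegrable (fun t => |YG g x s L T M t|) volume (T + 2 * ℓ) (2 * T - 2 * ℓ) :=
    hYc.abs.intervalIntegrable _ _
  have hYi2 : IntervalIntegrable (fun t => |YG g x s L T M t|) volume (T + ℓ) (2 * T - ℓ) :=
    hYc.abs.intervalIntegrable _ _
  have hle : ∫ t in (T + 2 * ℓ)..(2 * T - 2 * ℓ), |YG g x s L T M t| ≤
      ∫ t in (T + ℓ)..(2 * T - ℓ), |YG g x s L T M t| :=
    intervalIntegral.integral_mono_interval (by linarith) (by linarith) (by linarith)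
      (Eventually.of_forall fun t => abs_nonneg _) hYi2
  have hcc : ContinuousOn (fun t => st (sf g x s) L T t) (Set.Icc (T + 2 * ℓ) (2 * T - 2 * ℓ)) :=
    hc.mono (Set.Icc_subset_Icc (by linarith) (by linarith))
  have i1 : IntervalIntegrable (fun t => |st (sf g x s) L T t|) volume (T + 2 * ℓ)
      (2 * T - 2 * ℓ) := by
    apply ContinuousOn.intervalIntegrable
    rw [Set.uIcc_of_le (by linarith)]
    exact hcc.abs
  have i2 : IntervalIntegrable (fun t => |st (sf g x s) L T t - YG g x s L T M t|) volume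
      (T + 2 * ℓ) (2 * T - 2 * ℓ) := by
    apply ContinuousOn.intervalIntegrable
    rw [Set.uIcc_of_le (by linarith)]
    exact (hcc.sub hYc.continuousOn).abs
  have h8 : ∫ t in (T + 2 * ℓ)..(2 * T - 2 * ℓ), |st (sf g x s) L T t| ≤
      ∫ t in (T + 2 * ℓ)..(2 * T - 2 * ℓ),
        (|st (sf g x s) L T t - YG g x s L T M t| + |YG g x s L T M t|) := by
    refine intervalIntegral.integral_mono_on (by linarith) i1 (i2.add hYi) fun t _ => ?_
    have := abs_add_le (st (sf g x s) L T t - YG g x s L T M t) (YG g x s L T M t)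
    rw [sub_add_cancel] at this
    exact this
  rw [intervalIntegral.integral_add i2 hYi] at h8
  have h9 : K * T / M ^ 5 ≤ K * T := div_le_self (by positivity) (one_le_pow₀ hM1)
  have h10 : ∫ t in (T + ℓ)..(2 * T - ℓ), |YG g x s L T M t| ≤ (C1 + 2 * V) * T := by
    rw [one_div, inv_mul_le_iff₀ hT] at hYm
    linarith
  nlinarith

end Pool.Agent.Q278.GC
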