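import Pool.Agent.Q278.GC.I
import Pool.Agent.Q278.GC.J

/-!
# Oscillation of the smoothed counting field (helper278)
-/

set_option autoImplicit false

namespace Pool.Agent.Q278.GC

open Filter Topology MeasureTheory Complex ProbabilityTheory
open scoped FourierTransform ContDiff ComplexConjugate RealInnerProductSpace
open H370 (Zf mult mem_Zf good_zeta zset finsum_Zf)
open Pool.Agent.Q278.MC Pool.Agent.Q278.MX

variable {H : ℝ → ℝ}

/-- the derivatives in `x` -/
noncomputable def dj (H : ℝ → ℝ) (J : ℕ) (x v : ℝ) : ℝ :=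
  2 ^ J * deriv H (2 ^ J * (v - x)) - deriv H (v - x)

noncomputable def ej (H : ℝ → ℝ) (J : ℕ) (x v : ℝ) : ℝ :=
  4 ^ J * deriv (deriv H) (2 ^ J * (v - x)) - deriv (deriv H) (v - x)

lemma cd_deriv {f : ℝ → ℝ} (hf : ContDiff ℝ ∞ f) : ContDiff ℝ ∞ (deriv f) :=
  (contDiff_infty_iff_deriv.1 hf).2

lemma supp_deriv {f : ℝ → ℝ} {c1 c2 : ℝ} (h1 : ∀ v, v < -1 → f v = c1) (h2 : ∀ v, 1 < v → f v = c2) :
    ∀ v, 1 < |v| → deriv f v = 0 := by
  intro v hv
  rcases lt_abs.1 hv with h | h
  · have e : f =ᶠ[𝓝 v] fun _ => c2 := by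
      filter_upwards [lt_mem_nhds h] with u hu
      exact h2 u hu
    rw [e.deriv_eq, deriv_const]
  · have e : f =ᶠ[𝓝 v] fun _ => c1 := by
      filter_upwards [gt_mem_nhds (by linarith : v < -1)] with u hu
      exact h1 u hu
    rw [e.deriv_eq, deriv_const]

lemma h_supp (hH : Step H) : ∀ v, 1 < |v| → deriv H v = 0 :=
  supp_deriv (fun v hv => hH.lo v hv.le) (fun v hv => hH.hi v hv.le)

lemma h2_supp (hH : Step H) : ∀ v, 1 < |v| → deriv (deriv H) v = 0 :=
  supp_deriv (c1 := 0) (c2 := 0) (fun v hv => h_supp hH v (by rw [abs_of_neg (by linarith)]; linarith))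
    (fun v hv => h_supp hH v (by rw [abs_of_pos (by linarith)]; exact hv))

lemma h_CC (hH : Step H) : CC (fc (deriv H)) := CC_of (cd_deriv hH.cd) (h_supp hH)

lemma h2_CC (hH : Step H) : CC (fc (deriv (deriv H))) :=
  CC_of (cd_deriv (cd_deriv hH.cd)) (h2_supp hH)

lemma CC.realInt {f : ℝ → ℝ} (hf : CC (fc f)) : Integrable f := hf.int.re

lemma h2_int (hH : Step H) : ∫ v, deriv (deriv H) v = 0 := by
  refine integral_eq_zero_of_hasDerivAt_of_integrable (f := deriv H) (fun v => ?_)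
    (CC.realInt (h2_CC hH)) (CC.realInt (h_CC hH))
  have h1 := cd_deriv hH.cd
  exact (h1.differentiable (by simp) v).hasDerivAt

lemma hasDeriv_comp {f : ℝ → ℝ} (hf : ContDiff ℝ ∞ f) (c v x : ℝ) :
    HasDerivAt (fun x => f (c * (v - x))) (-(c * deriv f (c * (v - x)))) x := by
  have h1 : HasDerivAt f (deriv f (c * (v - x))) (c * (v - x)) :=
    (hf.differentiable (by simp) _).hasDerivAt
  have h2 : HasDerivAt (fun x => c * (v - x)) (-c) x := by
    have := ((hasDerivAt_id x).const_sub v).const_mul c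
    simpa using this
  have h3 := h1.comp x h2
  have e : deriv f (c * (v - x)) * -c = -(c * deriv f (c * (v - x))) := by ring
  rw [e] at h3
  exact h3

lemma fj_deriv (hH : Step H) (J : ℕ) (v x : ℝ) :
    HasDerivAt (fun x => fj H J x v) (-dj H J x v) x := by
  have h1 := hasDeriv_comp hH.cd (2 ^ J) v x
  have h2 := hasDeriv_comp hH.cd 1 v x
  have h3 := h1.sub h2
  simp only [one_mul] at h3
  have e : -dj H J x v = -(2 ^ J * deriv H (2 ^ J * (v - x))) - -(deriv H (v - x)) := by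
    unfold dj; ring
  rw [e]
  exact h3

lemma dj_deriv (hH : Step H) (J : ℕ) (v x : ℝ) :
    HasDerivAt (fun x => dj H J x v) (-ej H J x v) x := by
  have h1 := (hasDeriv_comp (cd_deriv hH.cd) (2 ^ J) v x).const_mul (2 ^ J)
  have h2 := hasDeriv_comp (cd_deriv hH.cd) 1 v x
  have h3 := h1.sub h2
  simp only [one_mul] at h3
  have e : -ej H J x v = 2 ^ J * -(2 ^ J * deriv (deriv H) (2 ^ J * (v - x))) -
      -(deriv (deriv H) (v - x)) := by
    unfold ej
    rw [show (4 : ℝ) ^ J = 2 ^ J * 2 ^ J by rw [← mul_pow]; norm_num]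
    ring
  rw [e]
  exact h3

/-- finite sums over the zeros -/
noncomputable def FS (q : ℝ → ℝ → ℝ) (a T x t : ℝ) : ℝ :=
  ∑ s ∈ Zf riemannZeta (T - 4) (2 * T + 3), mz s * q x (a * (s.im - t))

lemma FS_deriv {q r : ℝ → ℝ → ℝ} (h : ∀ v x, HasDerivAt (fun x => q x v) (-r x v) x) (a T x t : ℝ) :
    HasDerivAt (fun x => FS q a T x t) (-FS r a T x t) x := by
  unfold FS
  have h1 : ∀ s ∈ Zf riemannZeta (T - 4) (2 * T + 3),
      HasDerivAt (fun x => mz s * q x (a * (s.im - t))) (mz s * -r x (a * (s.im - t))) x :=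
    fun s _ => (h _ x).const_mul _
  have h2 := HasDerivAt.fun_sum h1
  rw [← Finset.sum_neg_distrib]
  refine h2.congr_deriv (Finset.sum_congr rfl fun s _ => ?_)
  ring

lemma FS_cont {q : ℝ → ℝ → ℝ} (h : Continuous fun p : ℝ × ℝ => q p.1 p.2) (a T : ℝ) :
    Continuous fun p : ℝ × ℝ => FS q a T p.1 p.2 := by
  unfold FS
  refine continuous_finsetSum _ fun s _ => continuous_const.mul ?_
  exact h.comp (by fun_prop : Continuous fun p : ℝ × ℝ => (p.1, a * (s.im - p.2)))

lemma dj_cont (hH : Step H) (J : ℕ) : Continuous fun p : ℝ × ℝ => dj H J p.1 p.2 := by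
  have h1 := (cd_deriv hH.cd).continuous
  unfold dj
  fun_prop

lemma ej_cont (hH : Step H) (J : ℕ) : Continuous fun p : ℝ × ℝ => ej H J p.1 p.2 := by
  have h1 := (cd_deriv (cd_deriv hH.cd)).continuous
  unfold ej
  fun_prop

/-- `SZ` through the fixed finite set -/
lemma SZ_FS {q : ℝ → ℝ → ℝ} {x : ℝ} (hq : ∀ v, 3 < |v| → q x v = 0) {a T t : ℝ} (ha : 1 ≤ a)
    (hT : 10 ≤ T) (h1 : T ≤ t) (h2 : t ≤ 2 * T) : SZ (q x) a t = FS q a T x t :=
  SZ_eq (A := T - 4) (B := 2 * T + 3) hq ha (by linarith) (by linarith) (by linarith)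

lemma st_dj (hH : Step H) (J : ℕ) {x L T t : ℝ} (hx : |x| ≤ 1) (ha : 1 ≤ aP L T) (hT : 10 ≤ T)
    (h1 : T ≤ t) (h2 : t ≤ 2 * T) : FS (dj H J) (aP L T) T x t =
      2 ^ J * st (sf (deriv H) x (1 / 2 ^ J)) L T t - st (sf (deriv H) x 1) L T t := by
  have hs : (0 : ℝ) < 1 / 2 ^ J := by positivity
  have hs1 : (1 : ℝ) / 2 ^ J ≤ 1 := by
    rw [div_le_one (by positivity)]
    exact one_le_pow₀ (by norm_num)
  unfold st
  rw [SZ_FS (q := fun x => sf (deriv H) x (1 / 2 ^ J))
      (fun v hv => sf_supp (h_supp hH) hs hs1 (by linarith)) ha hT h1 h2,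
    SZ_FS (q := fun x => sf (deriv H) x 1)
      (fun v hv => sf_supp (h_supp hH) one_pos le_rfl (by linarith)) ha hT h1 h2,
    sf_int _ hs, sf_int _ one_pos]
  have e1 : FS (dj H J) (aP L T) T x t = 2 ^ J * FS (fun x => sf (deriv H) x (1 / 2 ^ J)) (aP L T) T x t -
      FS (fun x => sf (deriv H) x 1) (aP L T) T x t := by
    unfold FS
    rw [Finset.mul_sum, ← Finset.sum_sub_distrib]
    refine Finset.sum_congr rfl fun s _ => ?_
    have e2 : (aP L T * (s.im - t) - x) / (1 / 2 ^ J) = 2 ^ J * (aP L T * (s.im - t) - x) := by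
      field_simp
    show mz s * (2 ^ J * deriv H (2 ^ J * (aP L T * (s.im - t) - x)) -
      deriv H (aP L T * (s.im - t) - x)) =
      2 ^ J * (mz s * deriv H ((aP L T * (s.im - t) - x) / (1 / 2 ^ J))) -
        mz s * deriv H ((aP L T * (s.im - t) - x) / 1)
    rw [e2, div_one]
    ring
  rw [e1]
  field_simp
  ring

lemma st_ej (hH : Step H) (J : ℕ) {x L T t : ℝ} (hx : |x| ≤ 1) (ha : 1 ≤ aP L T) (hT : 10 ≤ T)
    (h1 : T ≤ t) (h2 : t ≤ 2 * T) : FS (ej H J) (aP L T) T x t =
      4 ^ J * st (sf (deriv (deriv H)) x (1 / 2 ^ J)) L T t - st (sf (deriv (deriv H)) x 1) L T t := by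
  have hs : (0 : ℝ) < 1 / 2 ^ J := by positivity
  have hs1 : (1 : ℝ) / 2 ^ J ≤ 1 := by
    rw [div_le_one (by positivity)]
    exact one_le_pow₀ (by norm_num)
  unfold st
  rw [SZ_FS (q := fun x => sf (deriv (deriv H)) x (1 / 2 ^ J))
      (fun v hv => sf_supp (h2_supp hH) hs hs1 (by linarith)) ha hT h1 h2,
    SZ_FS (q := fun x => sf (deriv (deriv H)) x 1)
      (fun v hv => sf_supp (h2_supp hH) one_pos le_rfl (by linarith)) ha hT h1 h2,
    sf_int _ hs, sf_int _ one_pos, h2_int hH]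
  have e1 : FS (ej H J) (aP L T) T x t =
      4 ^ J * FS (fun x => sf (deriv (deriv H)) x (1 / 2 ^ J)) (aP L T) T x t -
      FS (fun x => sf (deriv (deriv H)) x 1) (aP L T) T x t := by
    unfold FS
    rw [Finset.mul_sum, ← Finset.sum_sub_distrib]
    refine Finset.sum_congr rfl fun s _ => ?_
    have e2 : (aP L T * (s.im - t) - x) / (1 / 2 ^ J) = 2 ^ J * (aP L T * (s.im - t) - x) := by
      field_simp
    show mz s * (4 ^ J * deriv (deriv H) (2 ^ J * (aP L T * (s.im - t) - x)) -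
      deriv (deriv H) (aP L T * (s.im - t) - x)) =
      4 ^ J * (mz s * deriv (deriv H) ((aP L T * (s.im - t) - x) / (1 / 2 ^ J))) -
        mz s * deriv (deriv H) ((aP L T * (s.im - t) - x) / 1)
    rw [e2, div_one]
    ring
  rw [e1]
  ring

/-- the modulus of continuity -/
noncomputable def Sc (H : ℝ → ℝ) (J : ℕ) (a T t : ℝ) : ℝ :=
  (∫ x in (0 : ℝ)..1, |FS (dj H J) a T x t|) + ∫ x in (0 : ℝ)..1, |FS (ej H J) a T x t|

lemma slice {F : ℝ × ℝ → ℝ} (hF : Continuous F) (t : ℝ) : Continuous fun x => F (x, t) :=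
  hF.comp (by fun_prop)

lemma Sc_nonneg (H : ℝ → ℝ) (J : ℕ) (a T t : ℝ) : 0 ≤ Sc H J a T t :=
  add_nonneg (intervalIntegral.integral_nonneg zero_le_one fun _ _ => abs_nonneg _)
    (intervalIntegral.integral_nonneg zero_le_one fun _ _ => abs_nonneg _)

lemma dj_sup (hH : Step H) (J : ℕ) (a T t : ℝ) {x : ℝ} (hx : x ∈ Set.Icc (0 : ℝ) 1) :
    |FS (dj H J) a T x t| ≤ Sc H J a T t := by
  have c1 : Continuous fun x => FS (dj H J) a T x t := slice (FS_cont (dj_cont hH J) a T) t
  have c2 : Continuous fun x => FS (ej H J) a T x t := slice (FS_cont (ej_cont hH J) a T) t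
  have key : ∀ y ∈ Set.Icc (0 : ℝ) 1, |FS (dj H J) a T x t| ≤
      |FS (dj H J) a T y t| + ∫ u in (0 : ℝ)..1, |FS (ej H J) a T u t| := by
    intro y hy
    have h1 : ∫ u in y..x, -FS (ej H J) a T u t = FS (dj H J) a T x t - FS (dj H J) a T y t :=
      intervalIntegral.integral_eq_sub_of_hasDerivAt (fun u _ => FS_deriv (dj_deriv hH J) a T u t)
        (c2.neg.intervalIntegrable _ _)
    have h2 : |∫ u in y..x, -FS (ej H J) a T u t| ≤ ∫ u in (0 : ℝ)..1, |FS (ej H J) a T u t| := by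
      have h3 := intervalIntegral.abs_integral_mono_interval (a := y) (b := x) (c := (0 : ℝ)) (d := 1)
        (f := fun u => |FS (ej H J) a T u t|) (μ := volume) (by
          rw [Set.uIoc_of_le zero_le_one]
          rcases le_total y x with h | h
          · rw [Set.uIoc_of_le h]
            exact Set.Ioc_subset_Ioc hy.1 hx.2
          · rw [Set.uIoc_of_ge h]
            exact Set.Ioc_subset_Ioc hx.1 hy.2) (Eventually.of_forall fun u => abs_nonneg _)
          (c2.abs.intervalIntegrable _ _)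
      have h4 : |∫ u in y..x, -FS (ej H J) a T u t| ≤
          abs (∫ u in y..x, |FS (ej H J) a T u t|) := by
        have := intervalIntegral.norm_integral_le_abs_integral_norm (a := y) (b := x)
          (f := fun u => -FS (ej H J) a T u t) (μ := volume)
        simpa only [Real.norm_eq_abs, abs_neg] using this
      refine h4.trans (h3.trans ?_)
      rw [abs_of_nonneg (intervalIntegral.integral_nonneg zero_le_one fun _ _ => abs_nonneg _)]
    have h5 : FS (dj H J) a T x t = FS (dj H J) a T y t + ∫ u in y..x, -FS (ej H J) a T u t := by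
      rw [h1]; ring
    rw [h5]
    exact (abs_add_le _ _).trans (by linarith)
  have h6 := intervalIntegral.integral_mono_on (a := (0 : ℝ)) (b := 1) zero_le_one
    (f := fun _ => |FS (dj H J) a T x t|)
    (g := fun y => |FS (dj H J) a T y t| + ∫ u in (0 : ℝ)..1, |FS (ej H J) a T u t|) (μ := volume)
    (continuous_const.intervalIntegrable _ _)
    ((c1.abs.add continuous_const).intervalIntegrable _ _) key
  rw [intervalIntegral.integral_const, intervalIntegral.integral_add (c1.abs.intervalIntegrable _ _)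
    (continuous_const.intervalIntegrable _ _), intervalIntegral.integral_const] at h6
  simp only [sub_zero, one_smul] at h6
  exact h6

/-- Lipschitz bound of the field in `x` -/
lemma fj_lip (hH : Step H) (J : ℕ) {L T t x y : ℝ} (ha : 1 ≤ aP L T) (hT : 10 ≤ T)
    (h1 : T ≤ t) (h2 : t ≤ 2 * T) (hx : x ∈ Set.Icc (0 : ℝ) 1) (hy : y ∈ Set.Icc (0 : ℝ) 1) :
    |st (fj H J x) L T t - st (fj H J y) L T t| ≤ Sc H J (aP L T) T t * |x - y| := by
  have hc : ∀ x : ℝ, ∫ v, fj H J x v = ∫ v, fj H J 0 v := by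
    intro x
    have : ∀ v, fj H J x v = fj H J 0 (v - x) := by
      intro v; unfold fj; rw [sub_zero]
    simp only [this]
    exact integral_sub_right_eq_self (fun v => fj H J 0 v) x
  have hs : ∀ x ∈ Set.Icc (0 : ℝ) 1, st (fj H J x) L T t =
      FS (fj H J) (aP L T) T x t - L * ∫ v, fj H J 0 v := by
    intro x hx
    unfold st
    rw [hc x, SZ_FS (q := fj H J) (fun v hv => fj_supp' hH J (by
      rw [abs_of_nonneg hx.1]; linarith [hx.2])) ha hT h1 h2]
  rw [hs x hx, hs y hy, sub_sub_sub_cancel_right]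
  have h3 := Convex.norm_image_sub_le_of_norm_hasDerivWithin_le
    (f := fun x => FS (fj H J) (aP L T) T x t) (f' := fun x => -FS (dj H J) (aP L T) T x t)
    (s := Set.Icc (0 : ℝ) 1) (C := Sc H J (aP L T) T t) (x := y) (y := x)
    (fun u _ => (FS_deriv (fj_deriv hH J) (aP L T) T u t).hasDerivWithinAt) (fun u hu => by
      rw [norm_neg, Real.norm_eq_abs]
      exact dj_sup hH J _ _ _ hu) (convex_Icc 0 1) hy hx
  simpa only [Real.norm_eq_abs] using h3

lemma swap_int {F : ℝ × ℝ → ℝ} (hF : Continuous F) {u v : ℝ} (huv : u ≤ v) :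
    ∫ t in u..v, ∫ x in (0 : ℝ)..1, F (x, t) = ∫ x in (0 : ℝ)..1, ∫ t in u..v, F (x, t) := by
  simp only [intervalIntegral.integral_of_le zero_le_one, intervalIntegral.integral_of_le huv]
  refine integral_integral_swap (f := fun t x => F (x, t)) ?_
  have h1 : Continuous (Function.uncurry fun t x => F (x, t)) := hF.comp (by fun_prop)
  rw [Measure.prod_restrict]
  exact (h1.continuousOn.integrableOn_compact (isCompact_Icc.prod isCompact_Icc)).mono_set
    (Set.prod_mono Set.Ioc_subset_Icc_self Set.Ioc_subset_Icc_self)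

/-- **the oscillation is not large on average** -/
theorem osc (hCV : S_CV) (hH : Step H) : ∃ C M0 : ℝ, 0 < C ∧ 100 ≤ M0 ∧
    ∀ M L T : ℝ, M0 ≤ M → Par M L T → 0 < T → ∀ J : ℕ, 2 ^ J ≤ M →
      (Continuous fun t => Sc H J (aP L T) T t) ∧
      ∫ t in (T + 2 * Real.log T)..(2 * T - 2 * Real.log T), Sc H J (aP L T) T t ≤ C * 4 ^ J * T := by
  obtain ⟨C1, M1, hC1, hM1, h1⟩ := mean_st hCV (h_CC hH)
  obtain ⟨C2, M2, hC2, hM2, h2⟩ := mean_st hCV (h2_CC hH)
  refine ⟨2 * C1 + 2 * C2, max M1 M2, by positivity, hM1.trans (le_max_left _ _),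
    fun M L T hM hP hT J hJ => ?_⟩
  have hMp := hP.M0
  have hMone := hP.M1
  have hT10 := hP.T0 hT
  have ha1 : 1 ≤ aP L T := (one_le_pow₀ hMone).trans hP.alow
  have hbig := hP.big
  set ℓ := Real.log T with hℓ
  have h5l : 5 * ℓ ≤ T := by
    have h6 : Real.exp ℓ = T := Real.exp_log hT
    have h7 := Real.quadratic_le_exp_of_nonneg (by linarith : 0 ≤ ℓ)
    nlinarith
  have huv : T + 2 * ℓ ≤ 2 * T - 2 * ℓ := by linarith
  set a := aP L T with ha
  have F1 : Continuous fun p : ℝ × ℝ => |FS (dj H J) a T p.1 p.2| := (FS_cont (dj_cont hH J) a T).abs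
  have F2 : Continuous fun p : ℝ × ℝ => |FS (ej H J) a T p.1 p.2| := (FS_cont (ej_cont hH J) a T).abs
  have hpc : ∀ {F : ℝ × ℝ → ℝ}, Continuous F → Continuous fun t => ∫ x in (0 : ℝ)..1, F (x, t) := by
    intro F hF
    exact intervalIntegral.continuous_parametric_intervalIntegral_of_continuous'
      (f := fun t x => F (x, t)) (hF.comp (by fun_prop)) 0 1
  have hc1 := hpc F1
  have hc2 := hpc F2
  refine ⟨hc1.add hc2, ?_⟩
  unfold Sc
  rw [intervalIntegral.integral_add (hc1.intervalIntegrable _ _) (hc2.intervalIntegrable _ _),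
    swap_int F1 huv, swap_int F2 huv]
  have hs1 : (1 : ℝ) / M ≤ 1 / 2 ^ J := one_div_le_one_div_of_le (by positivity) hJ
  have hs2 : (1 : ℝ) / 2 ^ J ≤ 1 := by
    rw [div_le_one (by positivity)]
    exact one_le_pow₀ (by norm_num)
  have hM1' : 1 / M ≤ 1 := by
    rw [div_le_one hMp]
    exact hMone
  have b1 : ∀ x ∈ Set.Icc (0 : ℝ) 1, ∫ t in (T + 2 * ℓ)..(2 * T - 2 * ℓ), |FS (dj H J) a T x t| ≤
      2 * C1 * 4 ^ J * T := by
    intro x hx
    have hx1 : |x| ≤ 1 := by rw [abs_of_nonneg hx.1]; exact hx.2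
    have k1 := h1 M L T ((le_max_left _ _).trans hM) hP hT x (1 / 2 ^ J) (hx1.trans hMone) hs1 hs2
    have k2 := h1 M L T ((le_max_left _ _).trans hM) hP hT x 1 (hx1.trans hMone) hM1' le_rfl
    have hfs : ∀ g : ℝ → ℝ, CC (fc g) → (∀ v, 1 < |v| → g v = 0) → ∀ s : ℝ, 0 < s → s ≤ 1 →
        ContinuousOn (fun t => st (sf g x s) L T t) (Set.Icc (T + 2 * ℓ) (2 * T - 2 * ℓ)) := by
      intro g hg hgs s hs hs'
      have e : ∀ t ∈ Set.Icc (T + 2 * ℓ) (2 * T - 2 * ℓ), st (sf g x s) L T t =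
          FS (fun x => sf g x s) a T x t - L * ∫ v, sf g x s v := by
        intro t ht
        unfold st
        rw [SZ_FS (q := fun x => sf g x s) (fun v hv => sf_supp hgs hs hs' (by linarith)) ha1 hT10
          (by linarith [ht.1]) (by linarith [ht.2])]
      have hc : Continuous fun t => FS (fun x => sf g x s) a T x t - L * ∫ v, sf g x s v := by
        unfold FS sf
        have hgc := fc_cont hg
        fun_prop
      exact hc.continuousOn.congr e
    have c1 := hfs (deriv H) (h_CC hH) (h_supp hH) (1 / 2 ^ J) (by positivity) hs2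
    have c2 := hfs (deriv H) (h_CC hH) (h_supp hH) 1 one_pos le_rfl
    have i1 : IntervalIntegrable (fun t => 2 ^ J * |st (sf (deriv H) x (1 / 2 ^ J)) L T t|) volume
        (T + 2 * ℓ) (2 * T - 2 * ℓ) := by
      apply ContinuousOn.intervalIntegrable
      rw [Set.uIcc_of_le huv]
      exact continuousOn_const.mul c1.abs
    have i2 : IntervalIntegrable (fun t => |st (sf (deriv H) x 1) L T t|) volume
        (T + 2 * ℓ) (2 * T - 2 * ℓ) := by
      apply ContinuousOn.intervalIntegrable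
      rw [Set.uIcc_of_le huv]
      exact c2.abs
    have i3 : IntervalIntegrable (fun t => |FS (dj H J) a T x t|) volume
        (T + 2 * ℓ) (2 * T - 2 * ℓ) :=
      (F1.comp (by fun_prop : Continuous fun t : ℝ => (x, t))).intervalIntegrable _ _
    have h3 : ∫ t in (T + 2 * ℓ)..(2 * T - 2 * ℓ), |FS (dj H J) a T x t| ≤
        ∫ t in (T + 2 * ℓ)..(2 * T - 2 * ℓ), (2 ^ J * |st (sf (deriv H) x (1 / 2 ^ J)) L T t| +
          |st (sf (deriv H) x 1) L T t|) := by
      refine intervalIntegral.integral_mono_on huv i3 (i1.add i2) fun t ht => ?_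
      rw [st_dj hH J hx1 ha1 hT10 (by linarith [ht.1]) (by linarith [ht.2])]
      refine (abs_sub _ _).trans (le_of_eq ?_)
      rw [abs_mul, abs_of_pos (by positivity : (0 : ℝ) < 2 ^ J)]
    rw [intervalIntegral.integral_add i1 i2, intervalIntegral.integral_const_mul] at h3
    have h24 : (2 : ℝ) ^ J ≤ 4 ^ J := pow_le_pow_left₀ (by norm_num) (by norm_num) J
    have h14 : (1 : ℝ) ≤ 4 ^ J := one_le_pow₀ (by norm_num)
    have h4 : 2 ^ J * (∫ t in (T + 2 * ℓ)..(2 * T - 2 * ℓ), |st (sf (deriv H) x (1 / 2 ^ J)) L T t|) ≤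
        4 ^ J * (C1 * T) := mul_le_mul h24 k1
          (intervalIntegral.integral_nonneg huv fun _ _ => abs_nonneg _) (by positivity)
    have h5 : C1 * T ≤ 4 ^ J * (C1 * T) := le_mul_of_one_le_left (by positivity) h14
    linarith
  have b2 : ∀ x ∈ Set.Icc (0 : ℝ) 1, ∫ t in (T + 2 * ℓ)..(2 * T - 2 * ℓ), |FS (ej H J) a T x t| ≤
      2 * C2 * 4 ^ J * T := by
    intro x hx
    have hx1 : |x| ≤ 1 := by rw [abs_of_nonneg hx.1]; exact hx.2
    have k1 := h2 M L T ((le_max_right _ _).trans hM) hP hT x (1 / 2 ^ J) (hx1.trans hMone) hs1 hs2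
    have k2 := h2 M L T ((le_max_right _ _).trans hM) hP hT x 1 (hx1.trans hMone) hM1' le_rfl
    have hfs : ∀ g : ℝ → ℝ, CC (fc g) → (∀ v, 1 < |v| → g v = 0) → ∀ s : ℝ, 0 < s → s ≤ 1 →
        ContinuousOn (fun t => st (sf g x s) L T t) (Set.Icc (T + 2 * ℓ) (2 * T - 2 * ℓ)) := by
      intro g hg hgs s hs hs'
      have e : ∀ t ∈ Set.Icc (T + 2 * ℓ) (2 * T - 2 * ℓ), st (sf g x s) L T t =
          FS (fun x => sf g x s) a T x t - L * ∫ v, sf g x s v := by
        intro t ht
        unfold st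
        rw [SZ_FS (q := fun x => sf g x s) (fun v hv => sf_supp hgs hs hs' (by linarith)) ha1 hT10
          (by linarith [ht.1]) (by linarith [ht.2])]
      have hc : Continuous fun t => FS (fun x => sf g x s) a T x t - L * ∫ v, sf g x s v := by
        unfold FS sf
        have hgc := fc_cont hg
        fun_prop
      exact hc.continuousOn.congr e
    have c1 := hfs (deriv (deriv H)) (h2_CC hH) (h2_supp hH) (1 / 2 ^ J) (by positivity) hs2
    have c2 := hfs (deriv (deriv H)) (h2_CC hH) (h2_supp hH) 1 one_pos le_rfl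
    have i1 : IntervalIntegrable (fun t => 4 ^ J * |st (sf (deriv (deriv H)) x (1 / 2 ^ J)) L T t|)
        volume (T + 2 * ℓ) (2 * T - 2 * ℓ) := by
      apply ContinuousOn.intervalIntegrable
      rw [Set.uIcc_of_le huv]
      exact continuousOn_const.mul c1.abs
    have i2 : IntervalIntegrable (fun t => |st (sf (deriv (deriv H)) x 1) L T t|) volume
        (T + 2 * ℓ) (2 * T - 2 * ℓ) := by
      apply ContinuousOn.intervalIntegrable
      rw [Set.uIcc_of_le huv]
      exact c2.abs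
    have i3 : IntervalIntegrable (fun t => |FS (ej H J) a T x t|) volume
        (T + 2 * ℓ) (2 * T - 2 * ℓ) :=
      (F2.comp (by fun_prop : Continuous fun t : ℝ => (x, t))).intervalIntegrable _ _
    have h3 : ∫ t in (T + 2 * ℓ)..(2 * T - 2 * ℓ), |FS (ej H J) a T x t| ≤
        ∫ t in (T + 2 * ℓ)..(2 * T - 2 * ℓ), (4 ^ J * |st (sf (deriv (deriv H)) x (1 / 2 ^ J)) L T t| +
          |st (sf (deriv (deriv H)) x 1) L T t|) := by
      refine intervalIntegral.integral_mono_on huv i3 (i1.add i2) fun t ht => ?_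
      rw [st_ej hH J hx1 ha1 hT10 (by linarith [ht.1]) (by linarith [ht.2])]
      refine (abs_sub _ _).trans (le_of_eq ?_)
      rw [abs_mul, abs_of_pos (by positivity : (0 : ℝ) < 4 ^ J)]
    rw [intervalIntegral.integral_add i1 i2, intervalIntegral.integral_const_mul] at h3
    have h14 : (1 : ℝ) ≤ 4 ^ J := one_le_pow₀ (by norm_num)
    have h4 : 4 ^ J * (∫ t in (T + 2 * ℓ)..(2 * T - 2 * ℓ),
        |st (sf (deriv (deriv H)) x (1 / 2 ^ J)) L T t|) ≤ 4 ^ J * (C2 * T) :=
      mul_le_mul_of_nonneg_left k1 (by positivity)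
    have h5 : C2 * T ≤ 4 ^ J * (C2 * T) := le_mul_of_one_le_left (by positivity) h14
    linarith
  have g1 : ∫ x in (0 : ℝ)..1, ∫ t in (T + 2 * ℓ)..(2 * T - 2 * ℓ), |FS (dj H J) a T x t| ≤
      2 * C1 * 4 ^ J * T := by
    have hcx : Continuous fun x => ∫ t in (T + 2 * ℓ)..(2 * T - 2 * ℓ), |FS (dj H J) a T x t| :=
      intervalIntegral.continuous_parametric_intervalIntegral_of_continuous'
        (f := fun x t => |FS (dj H J) a T x t|) F1 _ _
    have := intervalIntegral.integral_mono_on (a := (0 : ℝ)) (b := 1) (μ := volume) zero_le_one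
      (hcx.intervalIntegrable _ _) (g := fun _ => 2 * C1 * 4 ^ J * T) (continuous_const.intervalIntegrable _ _) b1
    rw [intervalIntegral.integral_const, sub_zero, one_smul] at this
    exact this
  have g2 : ∫ x in (0 : ℝ)..1, ∫ t in (T + 2 * ℓ)..(2 * T - 2 * ℓ), |FS (ej H J) a T x t| ≤
      2 * C2 * 4 ^ J * T := by
    have hcx : Continuous fun x => ∫ t in (T + 2 * ℓ)..(2 * T - 2 * ℓ), |FS (ej H J) a T x t| :=
      intervalIntegral.continuous_parametric_intervalIntegral_of_continuous'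
        (f := fun x t => |FS (ej H J) a T x t|) F2 _ _
    have := intervalIntegral.integral_mono_on (a := (0 : ℝ)) (b := 1) (μ := volume) zero_le_one
      (hcx.intervalIntegrable _ _) (g := fun _ => 2 * C2 * 4 ^ J * T) (continuous_const.intervalIntegrable _ _) b2
    rw [intervalIntegral.integral_const, sub_zero, one_smul] at this
    exact this
  calc _ ≤ 2 * C1 * 4 ^ J * T + 2 * C2 * 4 ^ J * T := add_le_add g1 g2
    _ = _ := by ring

end Pool.Agent.Q278.GC
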