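import Pool.Agent.Q278.GC.Stm2

/-!
# The chaos functional: truncation, Lipschitz bounds, Gaussian tails (helper278)
-/

set_option autoImplicit false

namespace Pool.Agent.Q278.GC

open Filter Topology MeasureTheory Complex ProbabilityTheory
open scoped FourierTransform ContDiff ComplexConjugate RealInnerProductSpace
open Pool.Agent.Q278.MC Pool.Agent.Q278.MX

variable {n : ℕ}

lemma exp_diff {z w : ℂ} {r : ℝ} (hz : ‖z‖ ≤ r) (hw : ‖w‖ ≤ r) :
    ‖cexp z - cexp w‖ ≤ Real.exp r * ‖z - w‖ := by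
  have h := Convex.norm_image_sub_le_of_norm_hasDerivWithin_le (f := cexp) (f' := cexp)
    (s := Metric.closedBall (0 : ℂ) r) (C := Real.exp r) (x := w) (y := z)
    (fun u _ => (Complex.hasDerivAt_exp u).hasDerivWithinAt) (fun u hu => by
      rw [Complex.norm_exp]
      refine Real.exp_le_exp.2 ((Complex.re_le_norm u).trans ?_)
      simpa using hu) (convex_closedBall 0 r) (by simpa using hw) (by simpa using hz)
  exact h

/-- truncation at height `B` -/
noncomputable def clip (B y : ℝ) : ℝ := max (-B) (min B y)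

lemma clip_abs {B : ℝ} (hB : 0 ≤ B) (y : ℝ) : |clip B y| ≤ B := by
  unfold clip
  rw [abs_le]
  exact ⟨le_max_left _ _, max_le (by linarith) (min_le_left _ _)⟩

lemma clip_eq {B y : ℝ} (h : |y| ≤ B) : clip B y = y := by
  unfold clip
  obtain ⟨h1, h2⟩ := abs_le.1 h
  rw [min_eq_right h2, max_eq_right h1]

lemma clip_lip (B x y : ℝ) : |clip B x - clip B y| ≤ |x - y| := by
  unfold clip
  refine (abs_max_sub_max_le_max _ _ _ _).trans ?_
  rw [sub_self, abs_zero]
  refine max_le (abs_nonneg _) ((abs_min_sub_min_le_max _ _ _ _).trans ?_)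
  rw [sub_self, abs_zero]
  exact max_le (abs_nonneg _) le_rfl

lemma ph_le {φ : ℝ → ℂ} {P : ℝ} (hP : ∀ x ∈ Set.Icc (0 : ℝ) 1, ‖φ x‖ ≤ P) {k : ℕ} (hk : k < n) :
    ‖ph φ n k‖ ≤ P / n := by
  have hn : (0 : ℝ) < n := by exact_mod_cast (by omega : 0 < n)
  have h1 : (k : ℝ) / n ≤ ((k : ℝ) + 1) / n := by gcongr; linarith
  have h0 : 0 ≤ (k : ℝ) / n := by positivity
  have h2 : ((k : ℝ) + 1) / n ≤ 1 := by
    rw [div_le_one hn]
    exact_mod_cast hk
  unfold ph
  have := intervalIntegral.norm_integral_le_of_norm_le_const (a := (k : ℝ) / n)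
    (b := ((k : ℝ) + 1) / n) (C := P) (f := φ) (fun x hx => by
      rw [Set.uIoc_of_le h1] at hx
      exact hP x ⟨h0.trans hx.1.le, hx.2.trans h2⟩)
  refine this.trans (le_of_eq ?_)
  rw [abs_of_nonneg (by linarith)]
  field_simp
  ring

variable {K : ℕ → ℕ → ℝ → ℝ → ℝ} {α : ℂ} {φ : ℝ → ℂ} {P v : ℝ}

/-- the truncated vector -/
noncomputable def clipV (B : ℝ) (w : EuclideanSpace ℝ (Fin n)) : EuclideanSpace ℝ (Fin n) :=
  WithLp.toLp 2 fun k => clip B (w k)

lemma arg_le {J : ℕ} {x y B : ℝ} (hv : |K J J x x| ≤ v) (hy : |y| ≤ B) :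
    ‖α * (y : ℂ) - α ^ 2 / 2 * (K J J x x : ℝ)‖ ≤ ‖α‖ * B + ‖α‖ ^ 2 * v / 2 := by
  refine (norm_sub_le _ _).trans ?_
  rw [norm_mul, norm_mul, norm_div, norm_pow, Complex.norm_real, Complex.norm_real,
    Complex.norm_ofNat, Real.norm_eq_abs, Real.norm_eq_abs]
  have h1 : ‖α‖ * |y| ≤ ‖α‖ * B := mul_le_mul_of_nonneg_left hy (norm_nonneg _)
  have h2 : ‖α‖ ^ 2 / 2 * |K J J x x| ≤ ‖α‖ ^ 2 / 2 * v := mul_le_mul_of_nonneg_left hv (by positivity)
  linarith

lemma Ch_diff {J : ℕ} (hP : ∀ x ∈ Set.Icc (0 : ℝ) 1, ‖φ x‖ ≤ P) (hP0 : 0 ≤ P)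
    (hv : ∀ x, |K J J x x| ≤ v) {B : ℝ} {u w : EuclideanSpace ℝ (Fin n)} (hu : ∀ k, |u k| ≤ B)
    (hw : ∀ k, |w k| ≤ B) : ‖Ch K α φ J n u - Ch K α φ J n w‖ ≤
      P * ‖α‖ * Real.exp (‖α‖ * B + ‖α‖ ^ 2 * v / 2) * ‖u - w‖ := by
  unfold Ch
  rw [← Finset.sum_sub_distrib]
  have h1 : ∀ k : Fin n, ‖ph φ n k * cexp (α * (u k : ℝ) -
      α ^ 2 / 2 * (K J J ((k : ℝ) / n) ((k : ℝ) / n) : ℝ)) - ph φ n k * cexp (α * (w k : ℝ) -
      α ^ 2 / 2 * (K J J ((k : ℝ) / n) ((k : ℝ) / n) : ℝ))‖ ≤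
      P / n * (Real.exp (‖α‖ * B + ‖α‖ ^ 2 * v / 2) * (‖α‖ * ‖u - w‖)) := by
    intro k
    rw [← mul_sub, norm_mul]
    refine mul_le_mul (ph_le hP k.2) ?_ (norm_nonneg _) (by positivity)
    refine (exp_diff (arg_le (hv _) (hu k)) (arg_le (hv _) (hw k))).trans ?_
    refine mul_le_mul_of_nonneg_left ?_ (Real.exp_pos _).le
    rw [sub_sub_sub_cancel_right, ← mul_sub, norm_mul, ← Complex.ofReal_sub, Complex.norm_real]
    refine mul_le_mul_of_nonneg_left ?_ (norm_nonneg _)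
    exact PiLp.norm_apply_le (u - w) k
  refine (norm_sum_le _ _).trans ((Finset.sum_le_sum fun k _ => h1 k).trans ?_)
  rw [Finset.sum_const, Finset.card_univ, Fintype.card_fin, nsmul_eq_mul]
  rcases Nat.eq_zero_or_pos n with h0 | h0
  · subst h0
    simp only [Nat.cast_zero, zero_mul]
    positivity
  · have hn : (0 : ℝ) < n := by exact_mod_cast h0
    refine le_of_eq ?_
    field_simp

/-- the truncated functional is Lipschitz -/
lemma clip_func {J : ℕ} (hP : ∀ x ∈ Set.Icc (0 : ℝ) 1, ‖φ x‖ ≤ P) (hP0 : 0 ≤ P)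
    (hv : ∀ x, |K J J x x| ≤ v) {B : ℝ} (hB : 0 ≤ B) {Φ : ℂ → ℝ} (hΦ : LipschitzWith 1 Φ)
    (u w : EuclideanSpace ℝ (Fin n)) :
    |Φ (Ch K α φ J n (clipV B u)) - Φ (Ch K α φ J n (clipV B w))| ≤
      P * ‖α‖ * Real.exp (‖α‖ * B + ‖α‖ ^ 2 * v / 2) * ‖u - w‖ := by
  have h1 := hΦ.dist_le_mul (Ch K α φ J n (clipV B u)) (Ch K α φ J n (clipV B w))
  rw [Real.dist_eq, dist_eq_norm, NNReal.coe_one, one_mul] at h1
  refine h1.trans ((Ch_diff (J := J) hP hP0 hv (B := B) (fun k => clip_abs hB _)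
    (fun k => clip_abs hB _)).trans ?_)
  refine mul_le_mul_of_nonneg_left ?_ (by positivity)
  rw [EuclideanSpace.norm_eq, EuclideanSpace.norm_eq]
  refine Real.sqrt_le_sqrt (Finset.sum_le_sum fun k _ => ?_)
  refine pow_le_pow_left₀ (norm_nonneg _) ?_ 2
  exact clip_lip B (u k) (w k)

/-- a Lipschitz bound for the indicator of large values -/
noncomputable def chi (B : ℝ) (w : EuclideanSpace ℝ (Fin n)) : ℝ :=
  min 1 (max 0 (‖w.ofLp‖ - (B - 1)))

lemma chi_nonneg (B : ℝ) (w : EuclideanSpace ℝ (Fin n)) : 0 ≤ chi B w :=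
  le_min zero_le_one (le_max_left _ _)

lemma chi_le (B : ℝ) (w : EuclideanSpace ℝ (Fin n)) : chi B w ≤ 1 := min_le_left _ _

lemma chi_lip (B : ℝ) (u w : EuclideanSpace ℝ (Fin n)) : |chi B u - chi B w| ≤ 1 * ‖u - w‖ := by
  unfold chi
  refine (abs_min_sub_min_le_max _ _ _ _).trans ?_
  rw [sub_self, abs_zero, one_mul]
  refine max_le (norm_nonneg _) ((abs_max_sub_max_le_max _ _ _ _).trans ?_)
  rw [sub_self, abs_zero]
  refine max_le (norm_nonneg _) ?_
  rw [sub_sub_sub_cancel_right]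
  refine (abs_norm_sub_norm_le _ _).trans ?_
  rw [pi_norm_le_iff_of_nonneg (norm_nonneg _)]
  intro k
  exact PiLp.norm_apply_le (u - w) k

lemma chi_one {B : ℝ} {w : EuclideanSpace ℝ (Fin n)} (h : ∃ k, B < |w k|) : chi B w = 1 := by
  obtain ⟨k, hk⟩ := h
  have h1 : |w k| ≤ ‖w.ofLp‖ := norm_le_pi_norm w.ofLp k
  unfold chi
  exact min_eq_left (le_max_of_le_right (by linarith))

/-- comparison of the functional and its truncation -/
lemma clip_err {J : ℕ} {B : ℝ} {Φ : ℂ → ℝ} (hΦ1 : ∀ z, |Φ z| ≤ 1) (w : EuclideanSpace ℝ (Fin n)) :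
    |Φ (Ch K α φ J n w) - Φ (Ch K α φ J n (clipV B w))| ≤ 2 * chi B w := by
  by_cases h : ∃ k, B < |w k|
  · rw [chi_one h]
    have h1 := hΦ1 (Ch K α φ J n w)
    have h2 := hΦ1 (Ch K α φ J n (clipV B w))
    have h3 := abs_sub (Φ (Ch K α φ J n w)) (Φ (Ch K α φ J n (clipV B w)))
    linarith
  · push Not at h
    have e : clipV B w = w := by
      ext k
      exact clip_eq (h k)
    rw [e, sub_self, abs_zero]
    have := chi_nonneg B w
    linarith

/-- Gaussian tail of the maximum -/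
theorem chi_gauss {S : Matrix (Fin n) (Fin n) ℝ} (hS : S.PosSemidef) (hv : ∀ k, S k k ≤ v)
    {B θ : ℝ} (hθ : 0 ≤ θ) (hB : 1 ≤ B) :
    ∫ w, chi B w ∂(multivariateGaussian (0 : EuclideanSpace ℝ (Fin n)) S) ≤
      2 * n * Real.exp (-θ * (B - 1) + θ ^ 2 * v / 2) := by
  set G := multivariateGaussian (0 : EuclideanSpace ℝ (Fin n)) S with hG
  have hS0 : ∀ k, 0 ≤ S k k := fun k => hS.diag_nonneg
  have hmap : ∀ k, G.map (fun x => x k) = gaussianReal 0 (S k k).toNNReal := fun k =>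
    (measurePreserving_eval_multivariateGaussian (μ := (0 : EuclideanSpace ℝ (Fin n))) hS
      (i := k)).map_eq
  have hint : ∀ (k : Fin n) (a : ℝ), Integrable (fun w : EuclideanSpace ℝ (Fin n) =>
      Real.exp (a * w k)) G := by
    intro k a
    have h1 : Integrable (fun y : ℝ => Real.exp (a * y)) (G.map (fun x => x k)) := by
      rw [hmap k]
      exact integrable_exp_mul_gaussianReal a
    rw [integrable_map_measure (by fun_prop) (by fun_prop)] at h1
    exact h1
  have hval : ∀ (k : Fin n) (a : ℝ), ∫ w, Real.exp (a * w k) ∂G = Real.exp (a ^ 2 * S k k / 2) := by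
    intro k a
    have h1 : ∫ w, Real.exp (a * w k) ∂G = ∫ y, Real.exp (a * y) ∂(G.map (fun x => x k)) := by
      rw [integral_map (by fun_prop) (by fun_prop)]
    rw [h1, hmap k]
    have h2 := congrFun (mgf_id_gaussianReal (μ := 0) (v := (S k k).toNNReal)) a
    unfold mgf at h2
    simp only [id] at h2
    rw [h2, Real.coe_toNNReal _ (hS0 k)]
    congr 1
    ring
  have hpt : ∀ w : EuclideanSpace ℝ (Fin n), chi B w ≤
      ∑ k, Real.exp (-θ * (B - 1)) * (Real.exp (θ * w k) + Real.exp (-θ * w k)) := by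
    intro w
    have hpos : 0 ≤ ∑ k, Real.exp (-θ * (B - 1)) * (Real.exp (θ * w k) + Real.exp (-θ * w k)) :=
      Finset.sum_nonneg fun k _ => by positivity
    by_cases h : ∃ k, B - 1 < |w k|
    · obtain ⟨k, hk⟩ := h
      refine (chi_le B w).trans ?_
      refine le_trans ?_ (Finset.single_le_sum (f := fun k => Real.exp (-θ * (B - 1)) *
        (Real.exp (θ * w k) + Real.exp (-θ * w k))) (fun j _ => by positivity) (Finset.mem_univ k))
      have h3 : Real.exp (θ * (B - 1)) ≤ Real.exp (θ * w k) + Real.exp (-θ * w k) := by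
        rcases lt_abs.1 hk with h4 | h4
        · have h5 : Real.exp (θ * (B - 1)) ≤ Real.exp (θ * w k) :=
            Real.exp_le_exp.2 (mul_le_mul_of_nonneg_left h4.le hθ)
          linarith [Real.exp_pos (-θ * w k)]
        · have h5 : Real.exp (θ * (B - 1)) ≤ Real.exp (-θ * w k) := by
            refine Real.exp_le_exp.2 ?_
            have := mul_le_mul_of_nonneg_left h4.le hθ
            linarith
          linarith [Real.exp_pos (θ * w k)]
      calc (1 : ℝ) = Real.exp (-θ * (B - 1)) * Real.exp (θ * (B - 1)) := by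
            rw [← Real.exp_add]; simp
        _ ≤ _ := mul_le_mul_of_nonneg_left h3 (Real.exp_pos _).le
    · push Not at h
      have h6 : ‖w.ofLp‖ ≤ B - 1 := by
        rw [pi_norm_le_iff_of_nonneg (by linarith)]
        exact h
      have h7 : chi B w = 0 := by
        unfold chi
        rw [max_eq_left (by linarith), min_eq_right zero_le_one]
      rw [h7]
      exact hpos
  have hchi : Integrable (fun w => chi B w) G := by
    have hc : Continuous (fun w : EuclideanSpace ℝ (Fin n) => chi B w) := by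
      have : LipschitzWith 1 (fun w : EuclideanSpace ℝ (Fin n) => chi B w) := by
        refine LipschitzWith.of_dist_le_mul fun u w => ?_
        rw [Real.dist_eq, dist_eq_norm, NNReal.coe_one]
        exact chi_lip B u w
      exact this.continuous
    refine (integrable_const (1 : ℝ)).mono hc.aestronglyMeasurable (Eventually.of_forall fun w => ?_)
    rw [Real.norm_of_nonneg (chi_nonneg B w), norm_one]
    exact chi_le B w
  have hi : ∀ k : Fin n, Integrable (fun w : EuclideanSpace ℝ (Fin n) =>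
      Real.exp (-θ * (B - 1)) * (Real.exp (θ * w k) + Real.exp (-θ * w k))) G := fun k =>
    ((hint k θ).add (hint k (-θ))).const_mul _
  calc ∫ w, chi B w ∂G ≤
      ∫ w, ∑ k, Real.exp (-θ * (B - 1)) * (Real.exp (θ * w k) + Real.exp (-θ * w k)) ∂G :=
        integral_mono hchi (integrable_finsetSum _ fun k _ => hi k) hpt
    _ = ∑ k, Real.exp (-θ * (B - 1)) * (2 * Real.exp (θ ^ 2 * S k k / 2)) := by
        rw [integral_finsetSum _ fun k _ => hi k]
        refine Finset.sum_congr rfl fun k _ => ?_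
        rw [integral_const_mul, integral_add (hint k θ) (hint k (-θ)), hval, hval, neg_sq]
        ring
    _ ≤ ∑ _k : Fin n, Real.exp (-θ * (B - 1)) * (2 * Real.exp (θ ^ 2 * v / 2)) := by
        gcongr with k
        exact hv k
    _ = _ := by
        rw [Finset.sum_const, Finset.card_univ, Fintype.card_fin, nsmul_eq_mul, Real.exp_add]
        ring

end Pool.Agent.Q278.GC
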