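import Pool.Agent.Q278.GC.K
import Pool.Agent.Q278.GC.L

/-!
# The chaos of the zeros and its discretisation (helper278)
-/

set_option autoImplicit false

namespace Pool.Agent.Q278.GC

open Filter Topology MeasureTheory Complex ProbabilityTheory
open scoped FourierTransform ContDiff ComplexConjugate RealInnerProductSpace
open H370 (Zf mult mem_Zf good_zeta zset finsum_Zf)
open Pool.Agent.Q278.MC Pool.Agent.Q278.MX

variable {H : ℝ → ℝ} {n : ℕ}

lemma fj_shift (H : ℝ → ℝ) (J : ℕ) (x : ℝ) : fj H J x = sf (fj H J 0) x 1 := by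
  funext v
  show H (2 ^ J * (v - x)) - H (v - x) =
    H (2 ^ J * ((v - x) / 1 - 0)) - H ((v - x) / 1 - 0)
  rw [div_one, sub_zero]

lemma kj_diag (H : ℝ → ℝ) (J : ℕ) (x : ℝ) : kj H J J x x = kj H J J 0 0 := by
  unfold kj
  rw [fj_shift H J x, cv_sf_self _ one_pos, ← cv_self]

/-- the exponential of the field, integrated against `φ` -/
noncomputable def Mz (H : ℝ → ℝ) (α : ℂ) (φ : ℝ → ℂ) (J : ℕ) (L T t : ℝ) : ℂ :=
  ∫ x in (0 : ℝ)..1, φ x * cexp (α * (st (fj H J x) L T t : ℝ) - α ^ 2 / 2 * (kj H J J x x : ℝ))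

/-- the grid -/
noncomputable def gr (H : ℝ → ℝ) (J n : ℕ) (k : Fin n) : ℝ → ℝ := fj H J ((k : ℝ) / n)

lemma KM_cm (H : ℝ → ℝ) (J n : ℕ) : KM (kj H) J n = cm (gr H J n) := rfl

lemma grid_mem {k : ℕ} (hk : k < n) : (k : ℝ) / n ∈ Set.Icc (0 : ℝ) 1 := by
  have hn : (0 : ℝ) < n := by exact_mod_cast (by omega : 0 < n)
  refine ⟨by positivity, ?_⟩
  rw [div_le_one hn]
  exact_mod_cast hk.le

lemma st_contx (hH : Step H) (J : ℕ) {L T t : ℝ} (ha : 1 ≤ aP L T) (hT : 10 ≤ T)
    (h1 : T ≤ t) (h2 : t ≤ 2 * T) : ContinuousOn (fun x => st (fj H J x) L T t) (Set.Icc 0 1) := by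
  refine (LipschitzOnWith.of_dist_le_mul (K := (Sc H J (aP L T) T t).toNNReal)
    fun x hx y hy => ?_).continuousOn
  rw [Real.dist_eq, Real.dist_eq, Real.coe_toNNReal _ (Sc_nonneg _ _ _ _ _)]
  exact fj_lip hH J ha hT h1 h2 hx hy

/-- discretisation in `x` for one `t` -/
lemma Mz_diff (hH : Step H) {α : ℂ} {φ : ℝ → ℂ} (hφ : Continuous φ) {P v : ℝ}
    (hP : ∀ x ∈ Set.Icc (0 : ℝ) 1, ‖φ x‖ ≤ P) (hP0 : 0 ≤ P) {J : ℕ} (hv : |kj H J J 0 0| ≤ v)
    {L T t B : ℝ} (ha : 1 ≤ aP L T) (hT : 10 ≤ T) (h1 : T ≤ t) (h2 : t ≤ 2 * T) (hn : 1 ≤ n)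
    (hS : Sc H J (aP L T) T t ≤ n) (hB : ∀ k : Fin n, |vc (gr H J n) L T t k| ≤ B) :
    ‖Mz H α φ J L T t - Ch (kj H) α φ J n (vc (gr H J n) L T t)‖ ≤
      P * ‖α‖ * Real.exp (‖α‖ * (B + 1) + ‖α‖ ^ 2 * v / 2) * (Sc H J (aP L T) T t / n) := by
  have hn0 : (0 : ℝ) < n := by exact_mod_cast hn
  set S := Sc H J (aP L T) T t with hSd
  have hS0 : 0 ≤ S := Sc_nonneg _ _ _ _ _
  set F : ℝ → ℂ := fun x => cexp (α * (st (fj H J x) L T t : ℝ) - α ^ 2 / 2 * (kj H J J x x : ℝ))
    with hF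
  have hFc : ContinuousOn F (Set.Icc 0 1) := by
    have e : F = fun x => cexp (α * (st (fj H J x) L T t : ℝ) - α ^ 2 / 2 * (kj H J J 0 0 : ℝ)) := by
      funext x
      simp only [hF]
      rw [kj_diag]
    rw [e]
    have := st_contx hH J ha hT h1 h2
    exact Complex.continuous_exp.comp_continuousOn
      ((continuousOn_const.mul (Complex.continuous_ofReal.comp_continuousOn this)).sub
        continuousOn_const)
  have hsub : ∀ k : ℕ, k < n → Set.Icc ((k : ℝ) / n) (((k : ℝ) + 1) / n) ⊆ Set.Icc (0 : ℝ) 1 := by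
    intro k hk
    refine Set.Icc_subset_Icc (grid_mem hk).1 ?_
    rw [div_le_one hn0]
    exact_mod_cast hk
  have hle : ∀ k : ℕ, (k : ℝ) / n ≤ ((k : ℝ) + 1) / n := fun k => by gcongr; linarith
  have hint : ∀ k : ℕ, k < n → IntervalIntegrable (fun x => φ x * F x) volume ((k : ℝ) / n)
      (((k : ℝ) + 1) / n) := by
    intro k hk
    apply ContinuousOn.intervalIntegrable
    rw [Set.uIcc_of_le (hle k)]
    exact hφ.continuousOn.mul (hFc.mono (hsub k hk))
  have hsum : Mz H α φ J L T t =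
      ∑ k ∈ Finset.range n, ∫ x in ((k : ℝ) / n)..(((k : ℝ) + 1) / n), φ x * F x := by
    have h3 := intervalIntegral.sum_integral_adjacent_intervals (μ := volume)
      (f := fun x => φ x * F x) (a := fun k : ℕ => (k : ℝ) / n) (n := n) (fun k hk => by
        have := hint k hk
        simpa using this)
    simp only [Nat.cast_zero, zero_div] at h3
    rw [div_self hn0.ne'] at h3
    unfold Mz
    rw [← h3]
    refine Finset.sum_congr rfl fun k _ => ?_
    push_cast
    rfl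
  have hCh : Ch (kj H) α φ J n (vc (gr H J n) L T t) =
      ∑ k ∈ Finset.range n, ph φ n k * F ((k : ℝ) / n) := by
    unfold Ch
    rw [Finset.sum_range]
    rfl
  rw [hsum, hCh, ← Finset.sum_sub_distrib]
  have hterm : ∀ k ∈ Finset.range n, ‖(∫ x in ((k : ℝ) / n)..(((k : ℝ) + 1) / n), φ x * F x) -
      ph φ n k * F ((k : ℝ) / n)‖ ≤ P * ‖α‖ * Real.exp (‖α‖ * (B + 1) + ‖α‖ ^ 2 * v / 2) * (S / n) *
        (1 / n) := by
    intro k hk
    have hk' : k < n := Finset.mem_range.1 hk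
    have e1 : ph φ n k * F ((k : ℝ) / n) =
        ∫ x in ((k : ℝ) / n)..(((k : ℝ) + 1) / n), φ x * F ((k : ℝ) / n) := by
      unfold ph
      rw [intervalIntegral.integral_mul_const]
    have hci : Continuous fun x => φ x * F ((k : ℝ) / n) := hφ.mul continuous_const
    rw [e1, ← intervalIntegral.integral_sub (hint k hk') (hci.intervalIntegrable _ _)]
    have h4 := intervalIntegral.norm_integral_le_of_norm_le_const (a := (k : ℝ) / n)
      (b := ((k : ℝ) + 1) / n)
      (C := P * (Real.exp (‖α‖ * (B + 1) + ‖α‖ ^ 2 * v / 2) * (‖α‖ * (S / n))))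
      (f := fun x => φ x * F x - φ x * F ((k : ℝ) / n)) (fun x hx => by
        rw [Set.uIoc_of_le (hle k)] at hx
        have hx' : x ∈ Set.Icc (0 : ℝ) 1 := hsub k hk' ⟨hx.1.le, hx.2⟩
        have hxk : |x - (k : ℝ) / n| ≤ 1 / n := by
          rw [abs_of_nonneg (by linarith [hx.1])]
          have : ((k : ℝ) + 1) / n = (k : ℝ) / n + 1 / n := by ring
          linarith [hx.2]
        have hl := fj_lip hH J ha hT h1 h2 hx' (grid_mem hk')
        have hl2 : |st (fj H J x) L T t - st (fj H J ((k : ℝ) / n)) L T t| ≤ S / n := by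
          refine hl.trans ?_
          calc S * |x - (k : ℝ) / n| ≤ S * (1 / n) := mul_le_mul_of_nonneg_left hxk hS0
            _ = S / n := by ring
        have hB1 : |st (fj H J ((k : ℝ) / n)) L T t| ≤ B := hB ⟨k, hk'⟩
        have hSn : S / n ≤ 1 := by
          rw [div_le_one hn0]; exact hS
        have hB2 : |st (fj H J x) L T t| ≤ B + 1 := by
          have := abs_sub_abs_le_abs_sub (st (fj H J x) L T t) (st (fj H J ((k : ℝ) / n)) L T t)
          linarith
        rw [← mul_sub, norm_mul]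
        refine mul_le_mul (hP x hx') ?_ (norm_nonneg _) hP0
        have a1 : ‖α * (st (fj H J x) L T t : ℝ) - α ^ 2 / 2 * (kj H J J x x : ℝ)‖ ≤
            ‖α‖ * (B + 1) + ‖α‖ ^ 2 * v / 2 :=
          arg_le (K := kj H) (by rw [kj_diag]; exact hv) hB2
        have a2 : ‖α * (st (fj H J ((k : ℝ) / n)) L T t : ℝ) -
            α ^ 2 / 2 * (kj H J J ((k : ℝ) / n) ((k : ℝ) / n) : ℝ)‖ ≤
            ‖α‖ * (B + 1) + ‖α‖ ^ 2 * v / 2 :=
          arg_le (K := kj H) (by rw [kj_diag]; exact hv) (by linarith)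
        refine (exp_diff a1 a2).trans ?_
        refine mul_le_mul_of_nonneg_left ?_ (Real.exp_pos _).le
        rw [kj_diag H J x, kj_diag H J ((k : ℝ) / n), sub_sub_sub_cancel_right, ← mul_sub, norm_mul,
          ← Complex.ofReal_sub, Complex.norm_real]
        exact mul_le_mul_of_nonneg_left hl2 (norm_nonneg _))
    refine h4.trans (le_of_eq ?_)
    rw [abs_of_nonneg (by linarith [hle k])]
    have : ((k : ℝ) + 1) / n - (k : ℝ) / n = 1 / n := by ring
    rw [this]
    ring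
  refine (norm_sum_le _ _).trans ((Finset.sum_le_sum hterm).trans (le_of_eq ?_))
  rw [Finset.sum_const, Finset.card_range, nsmul_eq_mul]
  field_simp

/-- continuity in `t` -/
lemma Mz_cont (hH : Step H) {α : ℂ} {φ : ℝ → ℂ} (hφ : Continuous φ) (J : ℕ) {L T : ℝ}
    (ha : 1 ≤ aP L T) (hT : 10 ≤ T) : ContinuousOn (Mz H α φ J L T) (Set.Icc T (2 * T)) := by
  have hc : ∀ x : ℝ, ∫ v, fj H J x v = ∫ v, fj H J 0 v := by
    intro x
    have : ∀ v, fj H J x v = fj H J 0 (v - x) := by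
      intro v; unfold fj; rw [sub_zero]
    simp only [this]
    exact integral_sub_right_eq_self (fun v => fj H J 0 v) x
  have hfc : Continuous fun p : ℝ × ℝ => fj H J p.1 p.2 := by
    have h1 := hH.cd.continuous
    unfold fj
    fun_prop
  have hFS : Continuous fun p : ℝ × ℝ => FS (fj H J) (aP L T) T p.1 p.2 := FS_cont hfc _ _
  have hG : Continuous (Function.uncurry fun t x => φ x * cexp (α * ((FS (fj H J) (aP L T) T x t -
      L * ∫ v, fj H J 0 v : ℝ) : ℂ) - α ^ 2 / 2 * (kj H J J 0 0 : ℝ))) := by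
    have h3 : Continuous fun p : ℝ × ℝ => FS (fj H J) (aP L T) T p.2 p.1 :=
      hFS.comp (by fun_prop : Continuous fun p : ℝ × ℝ => (p.2, p.1))
    have h4 : Continuous fun p : ℝ × ℝ => φ p.2 := hφ.comp continuous_snd
    exact h4.mul (Complex.continuous_exp.comp ((continuous_const.mul
      (Complex.continuous_ofReal.comp (h3.sub continuous_const))).sub continuous_const))
  have h5 := intervalIntegral.continuous_parametric_intervalIntegral_of_continuous' (μ := volume)
    hG 0 1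
  refine h5.continuousOn.congr fun t ht => ?_
  unfold Mz
  refine intervalIntegral.integral_congr fun x hx => ?_
  rw [Set.uIcc_of_le zero_le_one] at hx
  show φ x * cexp (α * (st (fj H J x) L T t : ℝ) - α ^ 2 / 2 * (kj H J J x x : ℝ)) = _
  have e1 : st (fj H J x) L T t = FS (fj H J) (aP L T) T x t - L * ∫ v, fj H J 0 v := by
    unfold st
    rw [hc x, SZ_FS (q := fj H J) (fun v hv => fj_supp' hH J (by
      rw [abs_of_nonneg hx.1]; linarith [hx.2])) ha hT ht.1 ht.2]
  rw [e1, kj_diag H J x]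

end Pool.Agent.Q278.GC
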