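import Pool.Agent.Q278.GC.I
import Pool.Agent.Q129.GC.SM
import Pool.Agent.Q129.GC.CV

/-!
# The Gaussian coupling, final form (helper278)
-/

set_option autoImplicit false

namespace Pool.Agent.Q278.GC

open Filter Topology MeasureTheory Complex ProbabilityTheory
open scoped FourierTransform ContDiff ComplexConjugate RealInnerProductSpace
open Pool.Agent.Q278.MC Pool.Agent.Q278.MX

/-- the coupling for one test function at many places and scales, no conditions left -/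
theorem coupling1 {g : ℝ → ℝ} (hg : CC (fc g)) : ∃ C : ℝ, 0 < C ∧
    ∀ M L T : ℝ, 1 ≤ M → M ^ 20 ≤ L → M ^ 20 * L ≤ Real.log T → 0 < T →
      ∀ (n : ℕ) (x s : Fin n → ℝ), (n : ℝ) ≤ M → (∀ i, |x i| ≤ M ∧ 1 / M ≤ s i ∧ s i ≤ 1) →
      ∀ φ : EuclideanSpace ℝ (Fin n) → ℝ, (∀ y, |φ y| ≤ 1) → LipschitzWith 1 φ →
      |1 / T * (∫ t in T..(2 * T), φ (vc (fG g x s) L T t)) -
        ∫ y, φ y ∂(multivariateGaussian 0 (cm (fG g x s)))| ≤ C / M :=
  coupling Pool.Agent.Q129.GC.t_SM Pool.Agent.Q129.GC.t_CV hg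

/-- the matrix `cm` in the coupling is positive semidefinite -/
lemma cm_fG_pos {g : ℝ → ℝ} (hg : CC (fc g)) {n : ℕ} {x s : Fin n → ℝ} (hs : ∀ i, 0 < s i) :
    (cm (fG g x s)).PosSemidef := cm_pos fun i => sf_CC hg (hs i) _

lemma phi_le {n : ℕ} {f : Fin n → ℝ → ℝ} {L T : ℝ} (hT : 0 < T)
    (φ : EuclideanSpace ℝ (Fin n) → ℝ) (hφ : ∀ y, |φ y| ≤ 1) (S : Matrix (Fin n) (Fin n) ℝ) :
    |1 / T * (∫ t in T..(2 * T), φ (vc f L T t)) - ∫ y, φ y ∂(multivariateGaussian 0 S)| ≤ 2 := by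
  have hb : ∀ y, ‖φ y‖ ≤ 1 := hφ
  have e1 : |1 / T * (∫ t in T..(2 * T), φ (vc f L T t))| ≤ 1 := by
    have := intervalIntegral.norm_integral_le_of_norm_le_const (a := T) (b := 2 * T) (C := 1)
      (f := fun t => φ (vc f L T t)) (fun t _ => hb _)
    rw [one_mul, abs_of_nonneg (by linarith), Real.norm_eq_abs] at this
    rw [abs_mul, abs_of_pos (by positivity)]
    calc 1 / T * |∫ t in T..(2 * T), φ (vc f L T t)| ≤ 1 / T * (2 * T - T) := by gcongr
      _ = 1 := by field_simp; ring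
  have e2 : |∫ y, φ y ∂(multivariateGaussian 0 S)| ≤ 1 := by
    have := norm_integral_le_of_norm_le_const
      (μ := multivariateGaussian (0 : EuclideanSpace ℝ (Fin n)) S) (f := φ) (C := 1)
      (Eventually.of_forall hb)
    simpa using this
  have e4 := abs_sub (1 / T * (∫ t in T..(2 * T), φ (vc f L T t)))
    (∫ y, φ y ∂(multivariateGaussian 0 S))
  linarith

end Pool.Agent.Q278.GC
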