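import Pool.Agent.Q278.GC.Stm4
import Pool.Agent.Q162.GC.DCcore

/-!
# Second moment of the chaos against the first two terms of the exponential series (helper278)
-/

set_option autoImplicit false

open MeasureTheory Filter Topology Set
open scoped ComplexConjugate

namespace Pool.Agent.Q278.GC

/-- quadratic forms of entrywise powers -/
lemma quad_pow {n : ℕ} {S : Matrix (Fin n) (Fin n) ℝ} (hS : S.PosSemidef) (u : Fin n → ℝ) (m : ℕ) :
    0 ≤ ∑ k, ∑ l, u k * u l * S k l ^ m := by
  have hp : (Matrix.of fun k l => S k l ^ m : Matrix (Fin n) (Fin n) ℝ).PosSemidef := by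
    induction m with
    | zero =>
      refine Matrix.PosSemidef.of_dotProduct_mulVec_nonneg ?_ fun x => ?_
      · ext i j
        simp
      · have e : star x ⬝ᵥ ((Matrix.of fun k l => S k l ^ 0 : Matrix (Fin n) (Fin n) ℝ).mulVec x) =
            (∑ k, x k) ^ 2 := by
          simp [dotProduct, Matrix.mulVec, sq, Finset.sum_mul]
        rw [e]
        positivity
    | succ m ih =>
      have h := ih.hadamard hS
      have e : (Matrix.of fun k l => S k l ^ (m + 1) : Matrix (Fin n) (Fin n) ℝ) =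
          Matrix.hadamard (Matrix.of fun k l => S k l ^ m) S := by
        ext i j
        simp [Matrix.hadamard, pow_succ]
      rw [e]
      exact h
  have h := hp.dotProduct_mulVec_nonneg u
  have e : star u ⬝ᵥ ((Matrix.of fun k l => S k l ^ m : Matrix (Fin n) (Fin n) ℝ).mulVec u) =
      ∑ k, ∑ l, u k * u l * S k l ^ m := by
    simp only [dotProduct, Matrix.mulVec, Matrix.of_apply, Pi.star_apply, star_trivial, Finset.mul_sum]
    refine Finset.sum_congr rfl fun k _ => Finset.sum_congr rfl fun l _ => by ring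
  rw [e] at h
  exact h

/-- the exponential against its first two terms, real vectors -/
lemma quad_exp {n : ℕ} {S : Matrix (Fin n) (Fin n) ℝ} (hS : S.PosSemidef) (u : Fin n → ℝ) {b : ℝ} (hb : 0 ≤ b) :
    (∑ k, ∑ l, u k * u l) + b * (∑ k, ∑ l, u k * u l * S k l) ≤
      ∑ k, ∑ l, u k * u l * Real.exp (b * S k l) := by
  have hs : HasSum (fun m : ℕ => b ^ m / m.factorial * ∑ k, ∑ l, u k * u l * S k l ^ m)
      (∑ k, ∑ l, u k * u l * Real.exp (b * S k l)) := by
    have h1 : ∀ k l, HasSum (fun m : ℕ => u k * u l * ((b * S k l) ^ m / m.factorial))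
        (u k * u l * Real.exp (b * S k l)) := by
      intro k l
      have h2 := NormedSpace.expSeries_div_hasSum_exp (b * S k l)
      rw [← Real.exp_eq_exp_ℝ] at h2
      exact h2.mul_left _
    have h3 := hasSum_sum (s := Finset.univ) fun k _ => hasSum_sum (s := Finset.univ) fun l _ => h1 k l
    have e : (fun m : ℕ => b ^ m / m.factorial * ∑ k, ∑ l, u k * u l * S k l ^ m) =
        fun m : ℕ => ∑ k, ∑ l, u k * u l * ((b * S k l) ^ m / m.factorial) := by
      funext m
      simp only [Finset.mul_sum]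
      refine Finset.sum_congr rfl fun k _ => Finset.sum_congr rfl fun l _ => by
        rw [mul_pow]
        ring
    rw [e]
    exact h3
  have h4 := sum_le_hasSum (Finset.range 2) (fun m _ => by
    have := quad_pow hS u m
    positivity) hs
  simpa [Finset.sum_range_succ] using h4

/-- complex vectors -/
lemma quad_cexp {n : ℕ} {S : Matrix (Fin n) (Fin n) ℝ} (hS : S.PosSemidef) (p : Fin n → ℂ) {b : ℝ} (hb : 0 ≤ b) :
    ‖∑ k, p k‖ ^ 2 + b * (∑ k, ∑ l, p k * conj (p l) * ((S k l : ℝ) : ℂ)).re ≤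
      (∑ k, ∑ l, p k * conj (p l) * ((Real.exp (b * S k l) : ℝ) : ℂ)).re := by
  have key : ∀ f : Fin n → Fin n → ℝ, (∑ k, ∑ l, p k * conj (p l) * ((f k l : ℝ) : ℂ)).re =
      (∑ k, ∑ l, (p k).re * (p l).re * f k l) + ∑ k, ∑ l, (p k).im * (p l).im * f k l := by
    intro f
    simp only [Complex.re_sum]
    rw [← Finset.sum_add_distrib]
    refine Finset.sum_congr rfl fun k _ => ?_
    rw [← Finset.sum_add_distrib]
    refine Finset.sum_congr rfl fun l _ => ?_
    rw [Complex.re_mul_ofReal]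
    simp
    ring
  rw [key fun k l => S k l, key fun k l => Real.exp (b * S k l)]
  have e1 : ‖∑ k, p k‖ ^ 2 = (∑ k, ∑ l, (p k).re * (p l).re) + ∑ k, ∑ l, (p k).im * (p l).im := by
    rw [Complex.sq_norm, Complex.normSq_apply, Complex.re_sum, Complex.im_sum]
    simp only [Finset.sum_mul, Finset.mul_sum]
    congr 1 <;> exact Finset.sum_congr rfl fun k _ => Finset.sum_congr rfl fun l _ => mul_comm _ _
  rw [e1]
  have h1 := quad_exp hS (fun k => (p k).re) hb
  have h2 := quad_exp hS (fun k => (p k).im) hb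
  linarith

open Pool.Agent.Q162.GC

/-- Riemann sums of the double integral -/
lemma riem_lim {Kf : ℝ → ℝ → ℝ} {L M b : ℝ} (hL : ∀ x x' y y', |Kf x y - Kf x' y'| ≤ L * (|x - x'| + |y - y'|))
    (hM : ∀ x y, Kf x y ≤ M) (hb : 0 ≤ b) {φ : ℝ → ℂ} (hφ : Continuous φ) :
    Tendsto (fun n : ℕ => ∑ k ∈ Finset.range n, ∑ l ∈ Finset.range n,
      ph' φ n k * conj (ph' φ n l) * ((Real.exp (b * Kf ((k : ℝ) / n) ((l : ℝ) / n)) : ℝ) : ℂ)) atTop
      (𝓝 (∫ x in (0 : ℝ)..1, ∫ y in (0 : ℝ)..1, φ x * conj (φ y) * ((Real.exp (b * Kf x y) : ℝ) : ℂ))) := by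
  have hL0 : 0 ≤ L := by
    have := hL 0 1 0 0
    have h2 := abs_nonneg (Kf 0 0 - Kf 1 0)
    norm_num at this
    linarith
  have hKc : Continuous fun z : ℝ × ℝ => Kf z.1 z.2 := by
    have hLip : LipschitzWith (2 * L).toNNReal fun z : ℝ × ℝ => Kf z.1 z.2 := by
      refine LipschitzWith.of_dist_le_mul fun z w => ?_
      rw [Real.coe_toNNReal _ (by positivity), Real.dist_eq]
      refine (hL z.1 w.1 z.2 w.2).trans ?_
      have h1 : |z.1 - w.1| ≤ dist z w := by rw [← Real.dist_eq]; exact le_max_left _ _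
      have h2 : |z.2 - w.2| ≤ dist z w := by rw [← Real.dist_eq]; exact le_max_right _ _
      nlinarith
    exact hLip.continuous
  obtain ⟨P, hP⟩ : ∃ P : ℝ, ∀ x ∈ Icc (0 : ℝ) 1, ‖φ x‖ ≤ P := by
    obtain ⟨P, hP⟩ := isCompact_Icc.exists_bound_of_continuousOn (f := φ) (s := Icc (0 : ℝ) 1) hφ.continuousOn
    exact ⟨P, hP⟩
  rw [tendsto_iff_norm_sub_tendsto_zero]
  have hlim : Tendsto (fun n : ℕ => P ^ 2 * (Real.exp (b * M) * (b * (L * (2 * (1 / (n : ℝ))))))) atTop (𝓝 0) := by
    have h1 : Tendsto (fun n : ℕ => 1 / (n : ℝ)) atTop (𝓝 0) := tendsto_one_div_atTop_nhds_zero_nat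
    have h2 := ((((h1.const_mul 2).const_mul L).const_mul b).const_mul (Real.exp (b * M))).const_mul (P ^ 2)
    simpa using h2
  refine squeeze_zero' (Eventually.of_forall fun n => norm_nonneg _) ?_ hlim
  filter_upwards [eventually_ge_atTop 1] with n hn
  have hn0 : (0 : ℝ) < n := by exact_mod_cast hn
  have h := riemann hKc b hφ hP (ε := Real.exp (b * M) * (b * (L * (2 * (1 / (n : ℝ)))))) (by positivity)
    (n := n) (n' := n) hn hn ?_
  · rw [FF_iter hKc b hφ] at h
    exact h
  · intro k l x y hx1 hx2 hy1 hy2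
    refine (exp_sub_le _ _ (b * M) (mul_le_mul_of_nonneg_left (hM _ _) hb)
      (mul_le_mul_of_nonneg_left (hM _ _) hb)).trans ?_
    refine mul_le_mul_of_nonneg_left ?_ (Real.exp_pos _).le
    rw [← mul_sub, abs_mul, abs_of_nonneg hb]
    refine mul_le_mul_of_nonneg_left ((hL _ _ _ _).trans (mul_le_mul_of_nonneg_left ?_ hL0)) hb
    have ha : ∀ (j : ℕ) (z : ℝ), (j : ℝ) / n ≤ z → z ≤ ((j : ℝ) + 1) / n → |(j : ℝ) / n - z| ≤ 1 / n := by
      intro j z h1 h2
      rw [add_div] at h2
      rw [abs_le]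
      constructor <;> linarith [show 0 < 1 / (n : ℝ) by positivity]
    have h1 := ha k x hx1 hx2
    have h2 := ha l y hy1 hy2
    linarith

/-- **ND1** -/
theorem t_ND1 : S_ND1 := by
  intro K κ C b hK hb φ hφ J
  have hC0 : 0 ≤ C := by linarith [hK.C1]
  set M : ℝ := C * (1 + J) with hM
  have hM0 : 0 ≤ M := by positivity
  have hsup : ∀ x y, |K J J x y| ≤ M := fun x y => by
    have := hK.sup J J x y
    simpa [hM] using this
  have hlip : ∀ x x' y y', |K J J x y - K J J x' y'| ≤ C * 2 ^ J * (|x - x'| + |y - y'|) := fun x x' y y' => by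
    have := hK.lip J J x x' y y'
    simpa using this
  -- the two limits
  have l1 := riem_lim (Kf := fun x y => K J J x y) hlip (fun x y => (le_abs_self _).trans (hsup x y)) hb hφ
  have hge : ∀ x y, 1 ≤ K J J x y + (M + 1) := fun x y => by linarith [neg_abs_le (K J J x y), hsup x y]
  have l2 := riem_lim (Kf := fun x y => Real.log (K J J x y + (M + 1))) (L := C * 2 ^ J) (M := 2 * M + 1) (b := 1)
    ?_ ?_ zero_le_one hφ
  rotate_left
  · intro x x' y y'
    refine le_trans ?_ (hlip x x' y y')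
    have hlog : ∀ u v : ℝ, 1 ≤ u → 1 ≤ v → |Real.log u - Real.log v| ≤ |u - v| := by
      have key : ∀ u v : ℝ, 1 ≤ u → u ≤ v → |Real.log u - Real.log v| ≤ |u - v| := by
        intro u v hu huv
        have hu0 : 0 < u := by linarith
        have hv0 : 0 < v := by linarith
        have h1 : Real.log u ≤ Real.log v := Real.log_le_log hu0 huv
        rw [abs_of_nonpos (by linarith), abs_of_nonpos (by linarith)]
        have h2 : Real.log v - Real.log u = Real.log (v / u) := by rw [Real.log_div hv0.ne' hu0.ne']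
        have h3 : Real.log (v / u) ≤ v / u - 1 := Real.log_le_sub_one_of_pos (by positivity)
        have h4 : v / u - 1 ≤ v - u := by
          rw [div_sub_one hu0.ne', div_le_iff₀ hu0]
          nlinarith
        linarith
      intro u v hu hv
      rcases le_total u v with h | h
      · exact key u v hu h
      · rw [abs_sub_comm, abs_sub_comm u v]
        exact key v u hv h
    have := hlog _ _ (hge x y) (hge x' y')
    rwa [add_sub_add_right_eq_sub] at this
  · intro x y
    have h1 := hge x y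
    have h2 := Real.log_le_sub_one_of_pos (show 0 < K J J x y + (M + 1) by linarith)
    have h3 := (le_abs_self _).trans (hsup x y)
    show Real.log (K J J x y + (M + 1)) ≤ 2 * M + 1
    linarith
  simp only [one_mul] at l2
  have hexp : ∀ x y, Real.exp (Real.log (K J J x y + (M + 1))) = K J J x y + (M + 1) := fun x y =>
    Real.exp_log (by linarith [hge x y])
  simp only [hexp] at l2
  have l1r := (Complex.continuous_re.tendsto _).comp l1
  have l2r := (Complex.continuous_re.tendsto _).comp l2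
  -- the sum of the masses
  have hsum : ∀ n : ℕ, 1 ≤ n → ∑ k ∈ Finset.range n, ph' φ n k = ∫ x in (0 : ℝ)..1, φ x := fun n hn =>
    (split_int hn hφ).symm
  -- inequality for every n
  have hn : ∀ n : ℕ, 1 ≤ n → ‖∫ x in (0 : ℝ)..1, φ x‖ ^ 2 + b *
      ((∑ k ∈ Finset.range n, ∑ l ∈ Finset.range n,
        ph' φ n k * conj (ph' φ n l) * ((K J J ((k : ℝ) / n) ((l : ℝ) / n) + (M + 1) : ℝ) : ℂ)).re -
        (M + 1) * ‖∫ x in (0 : ℝ)..1, φ x‖ ^ 2) ≤
      (∑ k ∈ Finset.range n, ∑ l ∈ Finset.range n,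
        ph' φ n k * conj (ph' φ n l) * ((Real.exp (b * K J J ((k : ℝ) / n) ((l : ℝ) / n)) : ℝ) : ℂ)).re := by
    intro n hn
    have hpsd := hK.psd n (fun _ => J) (fun i => (i : ℝ) / n)
    have h1 := quad_cexp hpsd (fun k : Fin n => ph' φ n k) hb
    simp only [Matrix.of_apply] at h1
    have e1 : ∑ k : Fin n, ph' φ n k = ∫ x in (0 : ℝ)..1, φ x := by
      rw [Fin.sum_univ_eq_sum_range (fun k => ph' φ n k)]
      exact hsum n hn
    have e2 : ∀ g : ℕ → ℕ → ℂ, ∑ k : Fin n, ∑ l : Fin n, g k l =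
        ∑ k ∈ Finset.range n, ∑ l ∈ Finset.range n, g k l := by
      intro g
      rw [Fin.sum_univ_eq_sum_range (fun k => ∑ l : Fin n, g k l)]
      refine Finset.sum_congr rfl fun k _ => ?_
      rw [Fin.sum_univ_eq_sum_range (fun l => g k l)]
    rw [e1, e2 (fun k l => ph' φ n k * conj (ph' φ n l) * ((K J J ((k : ℝ) / n) ((l : ℝ) / n) : ℝ) : ℂ)),
      e2 (fun k l => ph' φ n k * conj (ph' φ n l) *
        ((Real.exp (b * K J J ((k : ℝ) / n) ((l : ℝ) / n)) : ℝ) : ℂ))] at h1
    have e3 : (∑ k ∈ Finset.range n, ∑ l ∈ Finset.range n,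
        ph' φ n k * conj (ph' φ n l) * ((K J J ((k : ℝ) / n) ((l : ℝ) / n) + (M + 1) : ℝ) : ℂ)) =
        (∑ k ∈ Finset.range n, ∑ l ∈ Finset.range n,
        ph' φ n k * conj (ph' φ n l) * ((K J J ((k : ℝ) / n) ((l : ℝ) / n) : ℝ) : ℂ)) +
        ((M + 1 : ℝ) : ℂ) * ((∑ k ∈ Finset.range n, ph' φ n k) * conj (∑ k ∈ Finset.range n, ph' φ n k)) := by
      rw [map_sum, Finset.sum_mul_sum, Finset.mul_sum, ← Finset.sum_add_distrib]
      refine Finset.sum_congr rfl fun k _ => ?_
      rw [Finset.mul_sum, ← Finset.sum_add_distrib]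
      refine Finset.sum_congr rfl fun l _ => ?_
      push_cast
      ring
    have e4 : (((M + 1 : ℝ) : ℂ) * ((∑ k ∈ Finset.range n, ph' φ n k) *
        conj (∑ k ∈ Finset.range n, ph' φ n k))).re = (M + 1) * ‖∫ x in (0 : ℝ)..1, φ x‖ ^ 2 := by
      rw [hsum n hn, Complex.mul_conj, ← Complex.ofReal_mul, Complex.ofReal_re, Complex.normSq_eq_norm_sq]
    rw [e3, Complex.add_re, e4]
    have e5 : ∀ z : ℝ, z + (M + 1) * ‖∫ x in (0 : ℝ)..1, φ x‖ ^ 2 - (M + 1) * ‖∫ x in (0 : ℝ)..1, φ x‖ ^ 2 = z :=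
      fun z => by ring
    rw [e5]
    exact h1
  have l3 := ((l2r.sub_const ((M + 1) * ‖∫ x in (0 : ℝ)..1, φ x‖ ^ 2)).const_mul b).const_add
    (‖∫ x in (0 : ℝ)..1, φ x‖ ^ 2)
  have l4 := le_of_tendsto_of_tendsto l3 l1r (by
    filter_upwards [eventually_ge_atTop 1] with n h
    exact hn n h)
  -- the constant part of the integral
  have hKc : Continuous fun z : ℝ × ℝ => K J J z.1 z.2 := by
    have hLip : LipschitzWith (2 * (C * 2 ^ J)).toNNReal fun z : ℝ × ℝ => K J J z.1 z.2 := by
      refine LipschitzWith.of_dist_le_mul fun z w => ?_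
      rw [Real.coe_toNNReal _ (by positivity), Real.dist_eq]
      refine (hlip z.1 w.1 z.2 w.2).trans ?_
      have h1 : |z.1 - w.1| ≤ dist z w := by rw [← Real.dist_eq]; exact le_max_left _ _
      have h2 : |z.2 - w.2| ≤ dist z w := by rw [← Real.dist_eq]; exact le_max_right _ _
      have h3 : 0 ≤ C * 2 ^ J := by positivity
      nlinarith
    exact hLip.continuous
  have e6 : (∫ x in (0 : ℝ)..1, ∫ y in (0 : ℝ)..1, φ x * conj (φ y) * ((K J J x y + (M + 1) : ℝ) : ℂ)) =
      (∫ x in (0 : ℝ)..1, ∫ y in (0 : ℝ)..1, φ x * conj (φ y) * ((K J J x y : ℝ) : ℂ)) +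
      ((M + 1 : ℝ) : ℂ) * ((∫ x in (0 : ℝ)..1, φ x) * conj (∫ x in (0 : ℝ)..1, φ x)) := by
    have hconj : conj (∫ y in (0 : ℝ)..1, φ y) = ∫ y in (0 : ℝ)..1, conj (φ y) := by
      simp only [intervalIntegral, map_sub, integral_conj]
    have hFc : Continuous fun z : ℝ × ℝ => φ z.1 * conj (φ z.2) * ((K J J z.1 z.2 : ℝ) : ℂ) :=
      ((hφ.comp continuous_fst).mul (Complex.continuous_conj.comp (hφ.comp continuous_snd))).mul
        (Complex.continuous_ofReal.comp hKc)
    have hcj : Continuous fun y => conj (φ y) := Complex.continuous_conj.comp hφ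
    have h1 : ∀ x, ∫ y in (0 : ℝ)..1, φ x * conj (φ y) * ((K J J x y + (M + 1) : ℝ) : ℂ) =
        (∫ y in (0 : ℝ)..1, φ x * conj (φ y) * ((K J J x y : ℝ) : ℂ)) +
        φ x * ((∫ y in (0 : ℝ)..1, conj (φ y)) * ((M + 1 : ℝ) : ℂ)) := by
      intro x
      rw [← intervalIntegral.integral_mul_const, ← intervalIntegral.integral_const_mul,
        ← intervalIntegral.integral_add]
      · refine intervalIntegral.integral_congr fun y _ => ?_
        push_cast
        ring
      · exact (hFc.comp (show Continuous fun y : ℝ => ((x, y) : ℝ × ℝ) by fun_prop)).intervalIntegrable _ _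
      · exact (continuous_const.mul (hcj.mul continuous_const)).intervalIntegrable _ _
    simp only [h1]
    rw [intervalIntegral.integral_add, intervalIntegral.integral_mul_const, hconj]
    · ring
    · exact (intervalIntegral.continuous_parametric_intervalIntegral_of_continuous'
        (f := fun x y => φ x * conj (φ y) * ((K J J x y : ℝ) : ℂ)) (by exact hFc) _ _).intervalIntegrable _ _
    · exact (hφ.mul continuous_const).intervalIntegrable _ _
  have e7 : (((M + 1 : ℝ) : ℂ) * ((∫ x in (0 : ℝ)..1, φ x) * conj (∫ x in (0 : ℝ)..1, φ x))).re =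
      (M + 1) * ‖∫ x in (0 : ℝ)..1, φ x‖ ^ 2 := by
    rw [Complex.mul_conj, ← Complex.ofReal_mul, Complex.ofReal_re, Complex.normSq_eq_norm_sq]
  simp only [e6, Complex.add_re, e7] at l4
  rw [add_sub_cancel_right] at l4
  exact l4

end Pool.Agent.Q278.GC
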