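import Pool.Agent.Q278.GC.Stm4
import Pool.Agent.Q162.GC.DCcore
import Pool.Agent.Q128.GC.K2
import Pool.Agent.Q278.GC.I

/-!
# The variance of the field against a continuous function (helper278)
-/

set_option autoImplicit false

open MeasureTheory Filter Topology Set Complex
open scoped ComplexConjugate FourierTransform ContDiff

namespace Pool.Agent.Q278.GC

open Pool.Agent.Q278.MC Pool.Agent.Q162.GC

/-- the transform of a continuous function on the unit interval as an entire function -/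
noncomputable def PT (φ : ℝ → ℂ) (z : ℂ) : ℂ := ∫ x in (0 : ℝ)..1, φ x * cexp (-(2 * Real.pi * I * x) * z)

lemma PT_deriv {φ : ℝ → ℂ} (hφ : Continuous φ) (z : ℂ) : DifferentiableAt ℂ (PT φ) z := by
  obtain ⟨P, hP⟩ := isCompact_Icc.exists_bound_of_continuousOn (f := φ) (s := Icc (0 : ℝ) 1) hφ.continuousOn
  have hP0 : 0 ≤ P := (norm_nonneg _).trans (hP 0 ⟨le_rfl, zero_le_one⟩)
  have hF : ∀ z : ℂ, Continuous fun x : ℝ => φ x * cexp (-(2 * Real.pi * I * x) * z) := fun z =>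
    hφ.mul (Complex.continuous_exp.comp (by fun_prop))
  have hF' : ∀ z : ℂ, Continuous fun x : ℝ =>
      φ x * (cexp (-(2 * Real.pi * I * x) * z) * -(2 * Real.pi * I * x)) := fun z =>
    hφ.mul ((Complex.continuous_exp.comp (by fun_prop)).mul (by fun_prop))
  have h := intervalIntegral.hasDerivAt_integral_of_dominated_loc_of_deriv_le (μ := volume) (a := (0 : ℝ)) (b := 1)
    (F := fun (z : ℂ) (x : ℝ) => φ x * cexp (-(2 * Real.pi * I * x) * z))
    (F' := fun (z : ℂ) (x : ℝ) => φ x * (cexp (-(2 * Real.pi * I * x) * z) * -(2 * Real.pi * I * x)))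
    (x₀ := z) (s := Metric.ball z 1) (bound := fun _ => P * (Real.exp (2 * Real.pi * (‖z‖ + 1)) * (2 * Real.pi)))
    (Metric.ball_mem_nhds z one_pos) (Eventually.of_forall fun w => (hF w).aestronglyMeasurable)
    ((hF z).intervalIntegrable _ _) (hF' z).aestronglyMeasurable
    (Eventually.of_forall fun x hx w hw => ?_) intervalIntegrable_const
    (Eventually.of_forall fun x hx w hw => ?_)
  · exact h.2.differentiableAt
  · rw [uIoc_of_le zero_le_one] at hx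
    rw [norm_mul, norm_mul, Complex.norm_exp]
    have hw1 : ‖w‖ ≤ ‖z‖ + 1 := by
      rw [mem_ball_iff_norm] at hw
      have := norm_le_norm_add_norm_sub' w z
      linarith
    have hn : ‖(2 * Real.pi * I * x : ℂ)‖ ≤ 2 * Real.pi := by
      rw [norm_mul, norm_mul, norm_mul, Complex.norm_I, Complex.norm_real, Complex.norm_real,
        Real.norm_eq_abs, Real.norm_eq_abs, abs_of_pos Real.pi_pos, abs_of_pos hx.1]
      have := Real.pi_pos
      have h2 : ‖(2 : ℂ)‖ = 2 := by norm_num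
      rw [h2]
      nlinarith [hx.2]
    have h1 : (-(2 * Real.pi * I * x) * w : ℂ).re ≤ 2 * Real.pi * (‖z‖ + 1) := by
      refine (Complex.re_le_norm _).trans ?_
      rw [norm_mul, norm_neg]
      have := Real.pi_pos
      exact mul_le_mul hn hw1 (norm_nonneg _) (by positivity)
    refine mul_le_mul (hP x ⟨hx.1.le, hx.2⟩) ?_ (by positivity) hP0
    refine mul_le_mul (Real.exp_le_exp.2 h1) ?_ (norm_nonneg _) (Real.exp_pos _).le
    rw [norm_neg]
    exact hn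
  · have h2 : HasDerivAt (fun w : ℂ => -(2 * Real.pi * I * x) * w) (-(2 * Real.pi * I * x)) w := by
      simpa using (hasDerivAt_id w).const_mul (-(2 * Real.pi * I * x : ℂ))
    exact h2.cexp.const_mul (φ x)

lemma PT_cont {φ : ℝ → ℂ} (hφ : Continuous φ) : Continuous (PT φ) :=
  (show Differentiable ℂ (PT φ) from fun z => PT_deriv hφ z).continuous

/-- the transform does not vanish on a half line -/
lemma PT_ne {φ : ℝ → ℂ} (hφ : Continuous φ) (h0 : ∃ x ∈ Icc (0 : ℝ) 1, φ x ≠ 0) (X : ℝ) :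
    ∃ ξ : ℝ, X < ξ ∧ PT φ ξ ≠ 0 := by
  by_contra hcon
  push Not at hcon
  have han : AnalyticOnNhd ℂ (PT φ) univ := fun z _ =>
    (show Differentiable ℂ (PT φ) from fun z => PT_deriv hφ z).analyticAt z
  have hz : EqOn (PT φ) 0 univ := by
    refine han.eqOn_zero_of_preconnected_of_frequently_eq_zero isPreconnected_univ
      (mem_univ ((X : ℝ) : ℂ)) ?_
    have ht : Tendsto (fun t : ℝ => ((X + t : ℝ) : ℂ)) (𝓝[>] 0) (𝓝[≠] ((X : ℝ) : ℂ)) := by
      rw [tendsto_nhdsWithin_iff]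
      constructor
      · have h1 : Tendsto (fun t : ℝ => ((X + t : ℝ) : ℂ)) (𝓝 0) (𝓝 (((X + 0 : ℝ)) : ℂ)) :=
          (Complex.continuous_ofReal.comp (continuous_const.add continuous_id)).tendsto 0
        rw [add_zero] at h1
        exact h1.mono_left nhdsWithin_le_nhds
      · filter_upwards [self_mem_nhdsWithin] with t ht
        simp only [mem_compl_iff, mem_singleton_iff, Complex.ofReal_inj]
        have : (0 : ℝ) < t := ht
        linarith
    refine ht.frequently (Eventually.frequently ?_)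
    filter_upwards [self_mem_nhdsWithin] with t ht
    exact hcon _ (by have : (0 : ℝ) < t := ht; linarith)
  set ψ : ℝ → ℂ := (Ioc (0 : ℝ) 1).indicator φ with hψ
  have hint : Integrable ψ := by
    rw [hψ, integrable_indicator_iff measurableSet_Ioc]
    exact (hφ.continuousOn.integrableOn_compact isCompact_Icc).mono_set Ioc_subset_Icc_self
  have hF : 𝓕 ψ = fun _ => 0 := by
    funext ξ
    rw [Real.fourier_real_eq_integral_exp_smul]
    have h1 := hz (mem_univ ((ξ : ℝ) : ℂ))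
    simp only [Pi.zero_apply] at h1
    rw [← h1]
    unfold PT
    rw [intervalIntegral.integral_of_le zero_le_one, ← integral_indicator measurableSet_Ioc]
    refine integral_congr_ae (Eventually.of_forall fun x => ?_)
    change _ • ψ x = _
    by_cases hx : x ∈ Ioc (0 : ℝ) 1
    · rw [hψ, indicator_of_mem hx, indicator_of_mem hx, smul_eq_mul, mul_comm]
      congr 2
      push_cast
      ring
    · rw [hψ, indicator_of_notMem hx, indicator_of_notMem hx, smul_zero]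
  have hFi : Integrable (𝓕 ψ) := by
    rw [hF]
    exact integrable_zero _ _ _
  have hin : ∀ x ∈ Ioo (0 : ℝ) 1, φ x = 0 := by
    intro x hx
    have hev : ψ =ᶠ[𝓝 x] φ := by
      filter_upwards [Ioo_mem_nhds hx.1 hx.2] with y hy
      exact indicator_of_mem (show y ∈ Ioc (0 : ℝ) 1 from ⟨hy.1, hy.2.le⟩) _
    have h1 := hint.fourierInv_fourier_eq hFi (v := x) (hφ.continuousAt.congr hev.symm)
    rw [hF] at h1
    rw [← hev.eq_of_nhds, ← h1, Real.fourierInv_eq]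
    simp
  obtain ⟨x, hx, hx0⟩ := h0
  apply hx0
  have hcl : x ∈ closure (Ioo (0 : ℝ) 1) := by
    rw [closure_Ioo (by norm_num)]
    exact hx
  have hc : IsClosed {x : ℝ | φ x = 0} := isClosed_eq hφ continuous_const
  exact closure_minimal (fun y hy => hin y hy) hc hcl

variable {H : ℝ → ℝ}

/-- the transform of the translate -/
lemma four_fjx (H : ℝ → ℝ) (J : ℕ) (x ξ : ℝ) :
    𝓕 (fc (fj H J x)) ξ = cexp (-(2 * Real.pi * x * ξ : ℝ) * I) * 𝓕 (fc (fj H J 0)) ξ := by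
  have h := four_sf (fj H J 0) (s := 1) one_pos x ξ
  have e : sf (fj H J 0) x 1 = fj H J x := by
    funext v
    unfold sf fj
    simp
  rw [e] at h
  rw [h]
  simp

/-- the weight -/
noncomputable def wt (H : ℝ → ℝ) (J : ℕ) (ξ : ℝ) : ℝ := |ξ| * ‖𝓕 (fc (fj H J 0)) ξ‖ ^ 2

lemma wt_nonneg (H : ℝ → ℝ) (J : ℕ) (ξ : ℝ) : 0 ≤ wt H J ξ := by unfold wt; positivity

lemma wt_int (hH : Step H) (J : ℕ) : Integrable (wt H J) := by
  have h := cv_int (fj_CC hH J 0) (fj_CC hH J 0)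
  refine h.congr (Eventually.of_forall fun ξ => ?_)
  show |ξ| * (𝓕 (fc (fj H J 0)) ξ * conj (𝓕 (fc (fj H J 0)) ξ)).re = _
  rw [Complex.mul_conj, Complex.ofReal_re, Complex.normSq_eq_norm_sq]
  rfl

/-- the phase -/
noncomputable def EE (ξ x : ℝ) : ℂ := cexp (-(2 * Real.pi * I * x) * ξ)

lemma EE_conj (ξ x : ℝ) : conj (EE ξ x) = EE (-ξ) x := by
  unfold EE
  rw [← Complex.exp_conj]
  congr 1
  simp only [map_mul, map_neg, Complex.conj_I, Complex.conj_ofReal, Complex.ofReal_neg]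
  rw [show conj (2 : ℂ) = 2 from Complex.conj_ofReal 2]
  ring

lemma EE_norm (ξ x : ℝ) : ‖EE ξ x‖ = 1 := by
  have : EE ξ x = cexp (((-(2 * Real.pi * x * ξ) : ℝ) : ℂ) * I) := by
    unfold EE
    congr 1
    push_cast
    ring
  rw [this, Complex.norm_exp_ofReal_mul_I]

lemma kj_eq (J : ℕ) (x y : ℝ) : kj H J J x y = ∫ ξ : ℝ, wt H J ξ * (EE ξ x * conj (EE ξ y)).re := by
  unfold kj cv
  refine integral_congr_ae (Eventually.of_forall fun ξ => ?_)
  show |ξ| * (𝓕 (fc (fj H J x)) ξ * conj (𝓕 (fc (fj H J y)) ξ)).re = _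
  have e : ∀ x : ℝ, cexp (-(2 * Real.pi * x * ξ : ℝ) * I) = EE ξ x := by
    intro x
    unfold EE
    congr 1
    push_cast
    ring
  rw [four_fjx H J x ξ, four_fjx H J y ξ, e, e, map_mul]
  have e2 : EE ξ x * 𝓕 (fc (fj H J 0)) ξ * (conj (EE ξ y) * conj (𝓕 (fc (fj H J 0)) ξ)) =
      ((‖𝓕 (fc (fj H J 0)) ξ‖ ^ 2 : ℝ) : ℂ) * (EE ξ x * conj (EE ξ y)) := by
    rw [← Complex.normSq_eq_norm_sq, ← Complex.mul_conj]
    ring
  rw [e2, Complex.re_ofReal_mul]
  unfold wt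
  ring

/-- the double integral as an integral over the frequencies -/
lemma kj_double (hH : Step H) {φ : ℝ → ℂ} (hφ : Continuous φ) (J : ℕ) :
    Integrable (fun ξ : ℝ => wt H J ξ * ((‖PT φ ξ‖ ^ 2 + ‖PT φ (-ξ : ℝ)‖ ^ 2) / 2)) ∧
    (∫ x in (0 : ℝ)..1, ∫ y in (0 : ℝ)..1, φ x * conj (φ y) * ((kj H J J x y : ℝ) : ℂ)).re =
      ∫ ξ : ℝ, wt H J ξ * ((‖PT φ ξ‖ ^ 2 + ‖PT φ (-ξ : ℝ)‖ ^ 2) / 2) := by
  obtain ⟨P, hP⟩ := isCompact_Icc.exists_bound_of_continuousOn (f := φ) (s := Icc (0 : ℝ) 1) hφ.continuousOn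
  have hP0 : 0 ≤ P := (norm_nonneg _).trans (hP 0 ⟨le_rfl, zero_le_one⟩)
  have hw := wt_int hH J
  have hwc : Continuous (wt H J) := by
    unfold wt
    exact continuous_abs.mul ((four_contR (fj_CC hH J 0)).norm.pow 2)
  have hEc : Continuous fun p : ℝ × ℝ => EE p.1 p.2 := by
    unfold EE
    exact Complex.continuous_exp.comp (by fun_prop)
  set g : (ℝ × ℝ) × ℝ → ℂ := fun p => φ p.1.1 * conj (φ p.1.2) *
    ((wt H J p.2 * (EE p.2 p.1.1 * conj (EE p.2 p.1.2)).re : ℝ) : ℂ) with hg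
  have hgc : Continuous g := by
    rw [hg]
    refine ((hφ.comp (continuous_fst.comp continuous_fst)).mul
      (Complex.continuous_conj.comp (hφ.comp (continuous_snd.comp continuous_fst)))).mul
      (Complex.continuous_ofReal.comp ((hwc.comp continuous_snd).mul (Complex.continuous_re.comp ?_)))
    exact (hEc.comp (show Continuous fun p : (ℝ × ℝ) × ℝ => (p.2, p.1.1) by fun_prop)).mul
      (Complex.continuous_conj.comp
        (hEc.comp (show Continuous fun p : (ℝ × ℝ) × ℝ => (p.2, p.1.2) by fun_prop)))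
  have hre : ∀ ξ x y : ℝ, |(EE ξ x * conj (EE ξ y)).re| ≤ 1 := fun ξ x y => by
    refine (Complex.abs_re_le_norm _).trans ?_
    rw [norm_mul, RCLike.norm_conj, EE_norm, EE_norm, one_mul]
  have hgi : Integrable g (MM.prod volume) := by
    have h1 : Integrable (fun p : (ℝ × ℝ) × ℝ => P ^ 2 * wt H J p.2) (MM.prod volume) :=
      (integrable_const (P ^ 2)).mul_prod hw
    refine h1.mono' hgc.aestronglyMeasurable ?_
    have h2 : ∀ᵐ p : (ℝ × ℝ) × ℝ ∂(MM.prod volume), p.1.1 ∈ UI ∧ p.1.2 ∈ UI := by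
      have := ae_sq
      exact Measure.quasiMeasurePreserving_fst.ae this
    filter_upwards [h2] with p hp
    rw [hg]
    simp only [norm_mul, RCLike.norm_conj, Complex.norm_real, Real.norm_eq_abs]
    rw [abs_of_nonneg (wt_nonneg H J p.2)]
    have h3 : ‖φ p.1.1‖ * ‖φ p.1.2‖ ≤ P ^ 2 := by
      rw [sq]
      exact mul_le_mul (hP _ ⟨hp.1.1.le, hp.1.2⟩) (hP _ ⟨hp.2.1.le, hp.2.2⟩) (norm_nonneg _) hP0
    refine mul_le_mul h3 ?_ (by have := wt_nonneg H J p.2; positivity) (by positivity)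
    have := hre p.2 p.1.1 p.1.2
    have h4 := wt_nonneg H J p.2
    nlinarith
  -- the inner integral over the frequencies
  have e1 : ∀ z : ℝ × ℝ, ∫ ξ, g (z, ξ) = φ z.1 * conj (φ z.2) * ((kj H J J z.1 z.2 : ℝ) : ℂ) := by
    intro z
    rw [kj_eq, ← integral_complex_ofReal, ← integral_const_mul]
  -- the inner integral over the places
  have hUI : ∀ f : ℝ → ℂ, Continuous f → Integrable f (volume.restrict UI) := fun f hf =>
    (hf.continuousOn.integrableOn_compact isCompact_Icc).mono_set Ioc_subset_Icc_self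
  have hPT : ∀ ξ : ℝ, ∫ x in UI, φ x * EE ξ x = PT φ ξ := by
    intro ξ
    unfold PT
    rw [intervalIntegral.integral_of_le zero_le_one]
    rfl
  have hEx : ∀ ξ : ℝ, Continuous fun x => φ x * EE ξ x := fun ξ =>
    hφ.mul (hEc.comp (show Continuous fun x : ℝ => (ξ, x) by fun_prop))
  have e2 : ∀ ξ : ℝ, ∫ z, g (z, ξ) ∂MM = ((wt H J ξ * ((‖PT φ ξ‖ ^ 2 + ‖PT φ (-ξ : ℝ)‖ ^ 2) / 2) : ℝ) : ℂ) := by
    intro ξ
    have h1 : ∀ z : ℝ × ℝ, g (z, ξ) =
        ((wt H J ξ / 2 : ℝ) : ℂ) * ((φ z.1 * EE ξ z.1) * conj (φ z.2 * EE ξ z.2)) +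
        ((wt H J ξ / 2 : ℝ) : ℂ) * ((φ z.1 * EE (-ξ) z.1) * conj (φ z.2 * EE (-ξ) z.2)) := by
      intro z
      have h2 : (((EE ξ z.1 * conj (EE ξ z.2)).re : ℝ) : ℂ) =
          (EE ξ z.1 * conj (EE ξ z.2) + conj (EE ξ z.1) * EE ξ z.2) / 2 := by
        rw [Complex.re_eq_add_conj, map_mul, Complex.conj_conj]
      rw [hg]
      simp only
      rw [Complex.ofReal_mul, h2, ← EE_conj, ← EE_conj, map_mul, map_mul, Complex.conj_conj]
      push_cast
      ring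
    have hi : ∀ ζ : ℝ, Integrable (fun z : ℝ × ℝ => (φ z.1 * EE ζ z.1) * conj (φ z.2 * EE ζ z.2)) MM :=
      fun ζ => (hUI _ (hEx ζ)).mul_prod (hUI _ (Complex.continuous_conj.comp (hEx ζ)))
    have h3 : ∀ ζ : ℝ, ∫ z : ℝ × ℝ, (φ z.1 * EE ζ z.1) * conj (φ z.2 * EE ζ z.2) ∂MM =
        ((‖PT φ ζ‖ ^ 2 : ℝ) : ℂ) := by
      intro ζ
      have h4 := integral_prod_mul (μ := volume.restrict UI) (ν := volume.restrict UI)
        (fun x => φ x * EE ζ x) (fun y => conj (φ y * EE ζ y))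
      refine h4.trans ?_
      rw [integral_conj, hPT, Complex.mul_conj, Complex.normSq_eq_norm_sq]
    simp only [h1]
    rw [integral_add ((hi ξ).const_mul _) ((hi (-ξ)).const_mul _), integral_const_mul, integral_const_mul,
      h3, h3]
    push_cast
    ring
  have hswap := integral_integral_swap (μ := MM) (ν := volume) (f := fun z ξ => g (z, ξ)) (by exact hgi)
  simp only [e1, e2] at hswap
  have hG : Integrable (fun z : ℝ × ℝ => φ z.1 * conj (φ z.2) * ((kj H J J z.1 z.2 : ℝ) : ℂ)) MM := by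
    have h1 := hgi.integral_prod_left
    simp only [e1] at h1
    exact h1
  have hR : Integrable (fun ξ : ℝ => ((wt H J ξ * ((‖PT φ ξ‖ ^ 2 + ‖PT φ (-ξ : ℝ)‖ ^ 2) / 2) : ℝ) : ℂ)) := by
    have h1 := hgi.integral_prod_right
    simp only [e2] at h1
    exact h1
  refine ⟨?_, ?_⟩
  · have := hR.re
    refine this.congr (Eventually.of_forall fun ξ => ?_)
    exact Complex.ofReal_re _
  · have h1 : ∫ x in (0 : ℝ)..1, ∫ y in (0 : ℝ)..1, φ x * conj (φ y) * ((kj H J J x y : ℝ) : ℂ) =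
        ∫ z, φ z.1 * conj (φ z.2) * ((kj H J J z.1 z.2 : ℝ) : ℂ) ∂MM := by
      rw [integral_prod _ hG, intervalIntegral.integral_of_le zero_le_one]
      refine integral_congr_ae (Eventually.of_forall fun x => ?_)
      change ∫ y in (0 : ℝ)..1, φ x * conj (φ y) * ((kj H J J x y : ℝ) : ℂ) = _
      rw [intervalIntegral.integral_of_le zero_le_one]
    rw [h1, hswap, integral_complex_ofReal, Complex.ofReal_re]

/-- **ND2** -/
theorem t_ND2 : S_ND2 := by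
  intro H hH φ hφ h0
  have hπ := Real.pi_pos
  -- the transform of the derivative of the step
  set F : ℝ → ℂ := 𝓕 (fc (deriv H)) with hF
  have hFc : Continuous F := four_contR (Q128.GC2.h_cc hH)
  have hF0 : F 0 = 1 := Q128.GC2.h_int hH
  obtain ⟨η, hη, hη1⟩ : ∃ η : ℝ, 0 < η ∧ ∀ ζ : ℝ, |ζ| < η → ‖F ζ - 1‖ ≤ 1 / 4 := by
    have h1 := Metric.continuous_iff.1 hFc 0 (1 / 4) (by norm_num)
    obtain ⟨η, hη, h2⟩ := h1
    refine ⟨η, hη, fun ζ hζ => ?_⟩
    have h3 := h2 ζ (by rw [Real.dist_eq, sub_zero]; exact hζ)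
    rw [dist_eq_norm, hF0] at h3
    exact h3.le
  obtain ⟨X, hX1, hX⟩ : ∃ X : ℝ, 1 ≤ X ∧ ∀ ζ : ℝ, X ≤ ζ → ‖F ζ‖ ≤ 1 / 4 := by
    have h1 := (Real.zero_at_infty_fourier (fc (deriv H))).mono_left
      (show (atTop : Filter ℝ) ≤ cocompact ℝ from _root_.atTop_le_cocompact)
    have h2 := (h1.norm).eventually_le_const (show ‖(0 : ℂ)‖ < 1 / 4 by norm_num)
    rw [eventually_atTop] at h2
    obtain ⟨X, hX⟩ := h2
    exact ⟨max X 1, le_max_right _ _, fun ζ hζ => hX ζ ((le_max_left _ _).trans hζ)⟩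
  obtain ⟨ξ1, hξ1, hne⟩ := PT_ne hφ h0 X
  set c : ℝ := ‖PT φ ξ1‖ with hc
  have hc0 : 0 < c := norm_pos_iff.2 hne
  have hPc : Continuous fun ξ : ℝ => ‖PT φ ξ‖ := ((PT_cont hφ).comp Complex.continuous_ofReal).norm
  obtain ⟨r, hr, hr1⟩ : ∃ r : ℝ, 0 < r ∧ ∀ ξ : ℝ, |ξ - ξ1| < r → c / 2 ≤ ‖PT φ ξ‖ := by
    obtain ⟨r, hr, h2⟩ := Metric.continuous_iff.1 hPc ξ1 (c / 2) (by positivity)
    refine ⟨r, hr, fun ξ hξ => ?_⟩
    have h3 := h2 ξ (by rw [Real.dist_eq]; exact hξ)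
    rw [Real.dist_eq, abs_lt] at h3
    linarith [h3.1]
  set v : ℝ := ξ1 + r / 2 with hv
  have hv0 : 0 < v := by linarith
  obtain ⟨J0, hJ0⟩ : ∃ J0 : ℕ, v / 2 ^ J0 < η := by
    obtain ⟨n, hn⟩ := exists_pow_lt_of_lt_one (show 0 < η / v by positivity) (show (1 / 2 : ℝ) < 1 by norm_num)
    refine ⟨n, ?_⟩
    rw [lt_div_iff₀ hv0] at hn
    calc v / 2 ^ n = (1 / 2) ^ n * v := by rw [one_div, inv_pow]; ring
      _ < η := hn
  set δ : ℝ := r / 2 * ((1 / 2) ^ 2 / (4 * Real.pi ^ 2 * v) * ((c / 2) ^ 2 / 2)) with hδ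
  refine ⟨δ, J0, by positivity, fun J hJ => ?_⟩
  obtain ⟨hint, heq⟩ := kj_double hH hφ J
  rw [heq]
  have hnn : ∀ ξ : ℝ, 0 ≤ wt H J ξ * ((‖PT φ ξ‖ ^ 2 + ‖PT φ (-ξ : ℝ)‖ ^ 2) / 2) := fun ξ =>
    mul_nonneg (wt_nonneg H J ξ) (by positivity)
  have hlow : ∀ ξ ∈ Icc ξ1 v, (1 / 2) ^ 2 / (4 * Real.pi ^ 2 * v) * ((c / 2) ^ 2 / 2) ≤
      wt H J ξ * ((‖PT φ ξ‖ ^ 2 + ‖PT φ (-ξ : ℝ)‖ ^ 2) / 2) := by
    intro ξ hξ
    have hξ0 : 0 < ξ := by linarith [hξ.1]
    have hξX : X ≤ ξ := by linarith [hξ.1]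
    have h1 : ‖F ξ‖ ≤ 1 / 4 := hX ξ hξX
    have h2 : ‖F (1 / 2 ^ J * ξ) - 1‖ ≤ 1 / 4 := by
      apply hη1
      rw [abs_of_pos (by positivity)]
      refine lt_of_le_of_lt ?_ hJ0
      rw [one_div_mul_eq_div]
      exact div_le_div₀ hv0.le hξ.2 (by positivity) (pow_le_pow_right₀ (by norm_num) hJ)
    have h3 : 1 / 2 ≤ ‖F (1 / 2 ^ J * ξ) - F ξ‖ := by
      have h4 : (1 : ℂ) = (F (1 / 2 ^ J * ξ) - F ξ) + F ξ - (F (1 / 2 ^ J * ξ) - 1) := by ring
      have h5 : ‖(1 : ℂ)‖ ≤ ‖F (1 / 2 ^ J * ξ) - F ξ‖ + ‖F ξ‖ + ‖F (1 / 2 ^ J * ξ) - 1‖ := by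
        calc ‖(1 : ℂ)‖ = ‖(F (1 / 2 ^ J * ξ) - F ξ) + F ξ - (F (1 / 2 ^ J * ξ) - 1)‖ := by rw [← h4]
          _ ≤ _ := (norm_sub_le _ _).trans (add_le_add_left (norm_add_le _ _) _)
      rw [norm_one] at h5
      linarith
    have h6 : (1 / 2) ^ 2 / (4 * Real.pi ^ 2 * v) ≤ wt H J ξ := by
      unfold wt
      rw [Q128.GC2.pt hH J hξ0.ne', abs_of_pos hξ0]
      have h7 : (1 / 2 : ℝ) ^ 2 ≤ ‖F (1 / 2 ^ J * ξ) - F ξ‖ ^ 2 := pow_le_pow_left₀ (by norm_num) h3 2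
      refine div_le_div₀ (by positivity) h7 (by positivity) ?_
      exact mul_le_mul_of_nonneg_left hξ.2 (by positivity)
    have h8 : (c / 2) ^ 2 / 2 ≤ (‖PT φ ξ‖ ^ 2 + ‖PT φ (-ξ : ℝ)‖ ^ 2) / 2 := by
      have h9 : c / 2 ≤ ‖PT φ ξ‖ := by
        apply hr1
        rw [abs_of_nonneg (by linarith [hξ.1])]
        linarith [hξ.2]
      have h10 : (c / 2) ^ 2 ≤ ‖PT φ ξ‖ ^ 2 := pow_le_pow_left₀ (by positivity) h9 2
      have h11 : 0 ≤ ‖PT φ (-ξ : ℝ)‖ ^ 2 := by positivity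
      linarith
    exact mul_le_mul h6 h8 (by positivity) (wt_nonneg H J ξ)
  calc δ = ∫ _ξ in Icc ξ1 v, (1 / 2) ^ 2 / (4 * Real.pi ^ 2 * v) * ((c / 2) ^ 2 / 2) := by
        rw [setIntegral_const, Real.volume_real_Icc_of_le (by linarith), smul_eq_mul, hδ, hv]
        ring
    _ ≤ ∫ ξ in Icc ξ1 v, wt H J ξ * ((‖PT φ ξ‖ ^ 2 + ‖PT φ (-ξ : ℝ)‖ ^ 2) / 2) :=
        setIntegral_mono_on (integrableOn_const (by simp)) hint.integrableOn measurableSet_Icc hlow
    _ ≤ ∫ ξ, wt H J ξ * ((‖PT φ ξ‖ ^ 2 + ‖PT φ (-ξ : ℝ)‖ ^ 2) / 2) :=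
        setIntegral_le_integral hint (Eventually.of_forall hnn)

end Pool.Agent.Q278.GC
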