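import Pool.Agent.Q278.GC.M
import Pool.Agent.Q278.GC.N

/-!
# The chaos of the zeros against the Gaussian chaos (helper278)
-/

set_option autoImplicit false

namespace Pool.Agent.Q278.GC

open Filter Topology MeasureTheory Complex ProbabilityTheory
open scoped FourierTransform ContDiff ComplexConjugate RealInnerProductSpace
open H370 (Zf mult mem_Zf good_zeta zset finsum_Zf)
open Pool.Agent.Q278.MC Pool.Agent.Q278.MX

variable {H : ℝ → ℝ} {n : ℕ}

lemma W_cont (hH : Step H) (J : ℕ) {L T : ℝ} (ha : 1 ≤ aP L T) (hT : 10 ≤ T) :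
    ContinuousOn (fun t => vc (gr H J n) L T t) (Set.Icc T (2 * T)) := by
  unfold vc
  refine (PiLp.continuous_toLp 2 _).comp_continuousOn ?_
  refine continuousOn_pi.2 fun k => ?_
  have hfc : Continuous fun p : ℝ × ℝ => fj H J p.1 p.2 := by
    have h1 := hH.cd.continuous
    unfold fj
    fun_prop
  have hFS : Continuous fun p : ℝ × ℝ => FS (fj H J) (aP L T) T p.1 p.2 := FS_cont hfc _ _
  have h3 : Continuous fun t : ℝ => FS (fj H J) (aP L T) T ((k : ℝ) / n) t -
      L * ∫ v, fj H J ((k : ℝ) / n) v :=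
    (hFS.comp (by fun_prop : Continuous fun t : ℝ => ((k : ℝ) / n, t))).sub continuous_const
  refine h3.continuousOn.congr fun t ht => ?_
  show st (fj H J ((k : ℝ) / n)) L T t = _
  unfold st
  rw [SZ_FS (q := fj H J) (fun v hv => fj_supp' hH J (by
    have h4 := grid_mem (n := n) k.2
    rw [abs_of_nonneg h4.1]; linarith [h4.2])) ha hT ht.1 ht.2]

/-- pointwise comparison at time `t` -/
lemma pt_comp (hH : Step H) {α : ℂ} {φ : ℝ → ℂ} (hφ : Continuous φ) {P v : ℝ}
    (hP : ∀ x ∈ Set.Icc (0 : ℝ) 1, ‖φ x‖ ≤ P) (hP0 : 0 ≤ P) {J : ℕ} (hv : |kj H J J 0 0| ≤ v)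
    {L T t B lam : ℝ} (ha : 1 ≤ aP L T) (hT : 10 ≤ T) (h1 : T ≤ t) (h2 : t ≤ 2 * T) (hn : 1 ≤ n)
    (hl0 : 0 < lam) (hl : lam ≤ n) {Φ : ℂ → ℝ} (hΦ1 : ∀ z, |Φ z| ≤ 1) (hΦ : LipschitzWith 1 Φ) :
    |Φ (Mz H α φ J L T t) - Φ (Ch (kj H) α φ J n (vc (gr H J n) L T t))| ≤
      P * ‖α‖ * Real.exp (‖α‖ * (B + 1) + ‖α‖ ^ 2 * v / 2) * (lam / n) +
        2 * chi B (vc (gr H J n) L T t) + 2 / lam * Sc H J (aP L T) T t := by
  have hn0 : (0 : ℝ) < n := by exact_mod_cast hn
  have hS0 : 0 ≤ Sc H J (aP L T) T t := Sc_nonneg _ _ _ _ _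
  have hχ0 := chi_nonneg B (vc (gr H J n) L T t)
  have hE0 : 0 ≤ P * ‖α‖ * Real.exp (‖α‖ * (B + 1) + ‖α‖ ^ 2 * v / 2) * (lam / n) := by positivity
  have hS1 : 0 ≤ 2 / lam * Sc H J (aP L T) T t := by positivity
  have hle2 : |Φ (Mz H α φ J L T t) - Φ (Ch (kj H) α φ J n (vc (gr H J n) L T t))| ≤ 2 := by
    have e1 := hΦ1 (Mz H α φ J L T t)
    have e2 := hΦ1 (Ch (kj H) α φ J n (vc (gr H J n) L T t))
    have e3 := abs_sub (Φ (Mz H α φ J L T t)) (Φ (Ch (kj H) α φ J n (vc (gr H J n) L T t)))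
    linarith
  by_cases hS : Sc H J (aP L T) T t ≤ lam
  · by_cases hB : ∃ k, B < |(vc (gr H J n) L T t) k|
    · rw [chi_one hB]
      linarith
    · push Not at hB
      have h3 := hΦ.dist_le_mul (Mz H α φ J L T t) (Ch (kj H) α φ J n (vc (gr H J n) L T t))
      rw [Real.dist_eq, dist_eq_norm, NNReal.coe_one, one_mul] at h3
      have h4 := Mz_diff hH (α := α) hφ hP hP0 hv ha hT h1 h2 hn (hS.trans hl) hB
      have h5 : P * ‖α‖ * Real.exp (‖α‖ * (B + 1) + ‖α‖ ^ 2 * v / 2) * (Sc H J (aP L T) T t / n) ≤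
          P * ‖α‖ * Real.exp (‖α‖ * (B + 1) + ‖α‖ ^ 2 * v / 2) * (lam / n) := by
        gcongr
      linarith
  · push Not at hS
    have h6 : 2 ≤ 2 / lam * Sc H J (aP L T) T t := by
      rw [div_mul_eq_mul_div, le_div_iff₀ hl0]
      linarith
    linarith

/-- **the comparison with explicit errors** -/
theorem comp_err (hLIN : S_LIN) (hH : Step H) : ∃ C M0 : ℝ, 0 < C ∧ 100 ≤ M0 ∧
    ∀ M L T : ℝ, M0 ≤ M → M ^ 20 ≤ L → M ^ 20 * L ≤ Real.log T → 0 < T →
    ∀ (α : ℂ) (φ : ℝ → ℂ) (P v B lam θ : ℝ) (J n : ℕ), Continuous φ →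
      (∀ x ∈ Set.Icc (0 : ℝ) 1, ‖φ x‖ ≤ P) → 0 ≤ P → |kj H J J 0 0| ≤ v → 1 ≤ B → 0 ≤ θ →
      0 < lam → lam ≤ n → 1 ≤ J → 1 ≤ n → ((n * J : ℕ) : ℝ) ≤ M → 2 ^ J ≤ M →
      ∀ Φ : ℂ → ℝ, (∀ z, |Φ z| ≤ 1) → LipschitzWith 1 Φ →
      |1 / T * (∫ t in T..(2 * T), Φ (Mz H α φ J L T t)) -
        ∫ w, Φ (Ch (kj H) α φ J n w) ∂(multivariateGaussian 0 (KM (kj H) J n))| ≤
        P * ‖α‖ * Real.exp (‖α‖ * (B + 1) + ‖α‖ ^ 2 * v / 2) * (lam / n) + C * 4 ^ J / lam + 8 / M +
        6 * (2 * n * Real.exp (-θ * (B - 1) + θ ^ 2 * v / 2)) + C * J / M +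
        C * (1 + P * ‖α‖ * Real.exp (‖α‖ * B + ‖α‖ ^ 2 * v / 2)) * J / M := by
  obtain ⟨C1, hC1, h1⟩ := coupling_fj Pool.Agent.Q129.GC.t_SM Pool.Agent.Q129.GC.t_CV hLIN hH
  obtain ⟨C2, M2, hC2, hM2, h2⟩ := osc Pool.Agent.Q129.GC.t_CV hH
  refine ⟨4 * C1 + 2 * C2, M2, by positivity, hM2, fun M L T hM hL hLT hT α φ P v B lam θ J n hφ hP
    hP0 hv hB hθ hl0 hln hJ hn hnJ h2J Φ hΦ1 hΦ => ?_⟩
  have hPar : Par M L T := ⟨by linarith, hL, hLT⟩
  have hMp := hPar.M0
  have hM1 := hPar.M1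
  have hT10 := hPar.T0 hT
  have hbig := hPar.big
  have ha1 : 1 ≤ aP L T := (one_le_pow₀ hM1).trans hPar.alow
  have hn0 : (0 : ℝ) < n := by exact_mod_cast hn
  have hJ0 : (0 : ℝ) < J := by exact_mod_cast hJ
  set ℓ := Real.log T with hℓ
  have hl0' : 0 < ℓ := by linarith
  have hTe : Real.exp ℓ = T := Real.exp_log hT
  have h5l : 5 * ℓ ≤ T := by
    have h7 := Real.quadratic_le_exp_of_nonneg hl0'.le
    nlinarith
  have hlM : ℓ / T ≤ 1 / M := by
    rw [div_le_div_iff₀ hT hMp, one_mul]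
    have h1 : M ≤ ℓ := by
      have h2 : M ≤ M ^ 40 := le_self_pow₀ hM1 (by norm_num)
      linarith [hPar.logT]
    have h7 := Real.pow_div_factorial_le_exp ℓ hl0'.le 3
    have h8 : (Nat.factorial 3 : ℝ) = 6 := by norm_num [Nat.factorial]
    rw [h8, hTe] at h7
    have h9 : ℓ * M ≤ ℓ * ℓ := mul_le_mul_of_nonneg_left h1 hl0'.le
    have h10 : ℓ * ℓ ≤ ℓ ^ 3 / 6 := by
      rw [le_div_iff₀ (by norm_num)]
      nlinarith [mul_pos hl0' hl0']
    linarith
  obtain ⟨hSc, hSm⟩ := h2 M L T hM hPar hT J h2J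
  have hgrid : ∀ k : Fin n, |((k : ℝ) / n)| ≤ M := by
    intro k
    have h4 := grid_mem (n := n) k.2
    rw [abs_of_nonneg h4.1]
    linarith [h4.2]
  -- names
  set W : ℝ → EuclideanSpace ℝ (Fin n) := fun t => vc (gr H J n) L T t with hW
  set G := multivariateGaussian (0 : EuclideanSpace ℝ (Fin n)) (KM (kj H) J n) with hG
  have hWc : ContinuousOn W (Set.Icc T (2 * T)) := W_cont hH J ha1 hT10
  have hvx : ∀ x, |kj H J J x x| ≤ v := fun x => by rw [kj_diag]; exact hv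
  have hpsd : (KM (kj H) J n).PosSemidef := cm_pos fun k => fj_CC hH J _
  have hdiag : ∀ k, (KM (kj H) J n) k k ≤ v := fun k => (le_abs_self _).trans (hvx _)
  have hB0 : 0 ≤ B := by linarith
  -- the functionals
  set F0 : EuclideanSpace ℝ (Fin n) → ℝ := fun w => Φ (Ch (kj H) α φ J n w) with hF0
  set F1 : EuclideanSpace ℝ (Fin n) → ℝ := fun w => Φ (Ch (kj H) α φ J n (clipV B w)) with hF1
  set κ : ℝ := 1 + P * ‖α‖ * Real.exp (‖α‖ * B + ‖α‖ ^ 2 * v / 2) with hκ
  have hκ1 : 1 ≤ κ := by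
    rw [hκ]
    have : 0 ≤ P * ‖α‖ * Real.exp (‖α‖ * B + ‖α‖ ^ 2 * v / 2) := by positivity
    linarith
  have hF1L : ∀ u w, |F1 u - F1 w| ≤ κ * ‖u - w‖ := by
    intro u w
    refine (clip_func hP hP0 hvx hB0 hΦ u w).trans ?_
    refine mul_le_mul_of_nonneg_right ?_ (norm_nonneg _)
    rw [hκ]
    linarith
  have hΦc := hΦ.continuous
  have hF0c : Continuous F0 := by
    refine hΦc.comp ?_
    unfold Ch
    fun_prop
  have lipc : ∀ {F : EuclideanSpace ℝ (Fin n) → ℝ} {c : ℝ}, 0 ≤ c →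
      (∀ u w, |F u - F w| ≤ c * ‖u - w‖) → Continuous F := by
    intro F c hc h
    have : LipschitzWith c.toNNReal F := by
      refine LipschitzWith.of_dist_le_mul fun u w => ?_
      rw [Real.dist_eq, dist_eq_norm, Real.coe_toNNReal _ hc]
      exact h u w
    exact this.continuous
  have hF1c : Continuous F1 := lipc (by linarith) hF1L
  have hχc : Continuous fun w : EuclideanSpace ℝ (Fin n) => chi B w := lipc zero_le_one (chi_lip B)
  have hF0b : ∀ w, |F0 w| ≤ 1 := fun w => hΦ1 _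
  have hF1b : ∀ w, |F1 w| ≤ 1 := fun w => hΦ1 _
  have hbi : ∀ {F : EuclideanSpace ℝ (Fin n) → ℝ}, Continuous F → (∀ w, |F w| ≤ 1) →
      Integrable F G := by
    intro F hF hb
    exact (integrable_const (1 : ℝ)).mono hF.aestronglyMeasurable
      (Eventually.of_forall fun w => by simpa using hb w)
  have hχb : ∀ w : EuclideanSpace ℝ (Fin n), |chi B w| ≤ 1 := fun w => by
    rw [abs_of_nonneg (chi_nonneg B w)]; exact chi_le B w
  have hTi : ∀ {F : EuclideanSpace ℝ (Fin n) → ℝ}, Continuous F →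
      IntervalIntegrable (fun t => F (W t)) volume T (2 * T) := by
    intro F hF
    apply ContinuousOn.intervalIntegrable
    rw [Set.uIcc_of_le (by linarith)]
    exact hF.comp_continuousOn hWc
  -- D5
  have D5 : 1 / T * (∫ t in T..(2 * T), chi B (W t)) ≤ (∫ w, chi B w ∂G) + C1 * J / M := by
    have h3 := h1 M L T (by linarith) hL hLT hT n J (fun k => (k : ℝ) / n) hJ hnJ h2J hgrid
      (fun w => chi B w) 1 hχb le_rfl (chi_lip B)
    have h4 := (abs_le.1 h3).2
    have e : (multivariateGaussian (0 : EuclideanSpace ℝ (Fin n))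
      (cm fun k : Fin n => fj H J ((k : ℝ) / n))) = G := rfl
    rw [e, mul_one] at h4
    have e2 : (fun t => chi B (vc (fun k : Fin n => fj H J ((k : ℝ) / n)) L T t)) =
      fun t => chi B (W t) := rfl
    rw [e2] at h4
    linarith
  have D3 : |1 / T * (∫ t in T..(2 * T), F1 (W t)) - ∫ w, F1 w ∂G| ≤ C1 * κ * J / M :=
    h1 M L T (by linarith) hL hLT hT n J (fun k => (k : ℝ) / n) hJ hnJ h2J hgrid F1 κ hF1b hκ1 hF1L
  have D4 : |(∫ w, F0 w ∂G) - ∫ w, F1 w ∂G| ≤ 2 * ∫ w, chi B w ∂G := by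
    rw [← integral_sub (hbi hF0c hF0b) (hbi hF1c hF1b), ← integral_const_mul]
    refine abs_integral_le_integral_abs.trans (integral_mono ?_ ?_ fun w => ?_)
    · exact ((hbi hF0c hF0b).sub (hbi hF1c hF1b)).abs
    · exact (hbi hχc hχb).const_mul 2
    · exact clip_err hΦ1 w
  have hTinv : 0 < 1 / T := by positivity
  have D2 : |1 / T * (∫ t in T..(2 * T), F0 (W t)) - 1 / T * (∫ t in T..(2 * T), F1 (W t))| ≤
      2 * (1 / T * ∫ t in T..(2 * T), chi B (W t)) := by
    rw [← mul_sub, ← intervalIntegral.integral_sub (hTi hF0c) (hTi hF1c), abs_mul,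
      abs_of_pos hTinv]
    have h3 : |∫ t in T..(2 * T), (F0 (W t) - F1 (W t))| ≤ ∫ t in T..(2 * T), 2 * chi B (W t) := by
      have := intervalIntegral.norm_integral_le_of_norm_le (μ := volume) (a := T) (b := 2 * T)
        (f := fun t => F0 (W t) - F1 (W t)) (g := fun t => 2 * chi B (W t)) (by linarith)
        (Eventually.of_forall fun t _ => clip_err hΦ1 (W t)) ((hTi hχc).const_mul 2)
      simpa only [Real.norm_eq_abs] using this
    rw [intervalIntegral.integral_const_mul] at h3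
    calc 1 / T * |∫ t in T..(2 * T), (F0 (W t) - F1 (W t))| ≤
        1 / T * (2 * ∫ t in T..(2 * T), chi B (W t)) := by gcongr
      _ = _ := by ring
  -- D1
  set Mf : ℝ → ℝ := fun t => Φ (Mz H α φ J L T t) with hMf
  have hMc : ContinuousOn Mf (Set.Icc T (2 * T)) :=
    hΦc.comp_continuousOn (Mz_cont hH hφ J ha1 hT10)
  have hMi : IntervalIntegrable Mf volume T (2 * T) := by
    apply ContinuousOn.intervalIntegrable
    rw [Set.uIcc_of_le (by linarith)]
    exact hMc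
  set E1 : ℝ := P * ‖α‖ * Real.exp (‖α‖ * (B + 1) + ‖α‖ ^ 2 * v / 2) * (lam / n) with hE1
  have hE10 : 0 ≤ E1 := by rw [hE1]; positivity
  have D1 : |1 / T * (∫ t in T..(2 * T), Mf t) - 1 / T * (∫ t in T..(2 * T), F0 (W t))| ≤
      E1 + 2 * C2 * 4 ^ J / lam + 8 / M + 2 * (1 / T * ∫ t in T..(2 * T), chi B (W t)) := by
    rw [← mul_sub, ← intervalIntegral.integral_sub hMi (hTi hF0c), abs_mul, abs_of_pos hTinv]
    set D : ℝ → ℝ := fun t => |Mf t - F0 (W t)| with hD
    have hDc : ContinuousOn D (Set.Icc T (2 * T)) := (hMc.sub (hF0c.comp_continuousOn hWc)).abs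
    have hDi : ∀ u w : ℝ, T ≤ u → u ≤ w → w ≤ 2 * T → IntervalIntegrable D volume u w := by
      intro u w hu huw hw
      apply ContinuousOn.intervalIntegrable
      rw [Set.uIcc_of_le huw]
      exact hDc.mono (Set.Icc_subset_Icc hu hw)
    have hD2 : ∀ t, D t ≤ 2 := by
      intro t
      have e1 : |Mf t| ≤ 1 := hΦ1 _
      have e2 := hF0b (W t)
      have e3 := abs_sub (Mf t) (F0 (W t))
      simp only [hD]
      linarith
    have s1 := intervalIntegral.integral_add_adjacent_intervals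
      (hDi T (T + 2 * ℓ) le_rfl (by linarith) (by linarith))
      (hDi (T + 2 * ℓ) (2 * T - 2 * ℓ) (by linarith) (by linarith) (by linarith))
    have s2 := intervalIntegral.integral_add_adjacent_intervals
      (hDi T (2 * T - 2 * ℓ) le_rfl (by linarith) (by linarith))
      (hDi (2 * T - 2 * ℓ) (2 * T) (by linarith) (by linarith) le_rfl)
    have b1 : ∫ t in T..(T + 2 * ℓ), D t ≤ 2 * (2 * ℓ) := by
      have := intervalIntegral.integral_mono_on (μ := volume) (by linarith)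
        (hDi T (T + 2 * ℓ) le_rfl (by linarith) (by linarith)) (g := fun _ => (2 : ℝ))
        (continuous_const.intervalIntegrable _ _) fun t _ => hD2 t
      rw [intervalIntegral.integral_const, smul_eq_mul] at this
      linarith
    have b2 : ∫ t in (2 * T - 2 * ℓ)..(2 * T), D t ≤ 2 * (2 * ℓ) := by
      have := intervalIntegral.integral_mono_on (μ := volume) (by linarith)
        (hDi (2 * T - 2 * ℓ) (2 * T) (by linarith) (by linarith) le_rfl) (g := fun _ => (2 : ℝ))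
        (continuous_const.intervalIntegrable _ _) fun t _ => hD2 t
      rw [intervalIntegral.integral_const, smul_eq_mul] at this
      linarith
    have hχi : IntervalIntegrable (fun t => chi B (W t)) volume (T + 2 * ℓ) (2 * T - 2 * ℓ) := by
      apply ContinuousOn.intervalIntegrable
      rw [Set.uIcc_of_le (by linarith)]
      exact hχc.comp_continuousOn (hWc.mono (Set.Icc_subset_Icc (by linarith) (by linarith)))
    have hSi : IntervalIntegrable (fun t => 2 / lam * Sc H J (aP L T) T t) volume (T + 2 * ℓ)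
        (2 * T - 2 * ℓ) := (continuous_const.mul hSc).intervalIntegrable _ _
    have hci : IntervalIntegrable (fun _ : ℝ => E1) volume (T + 2 * ℓ) (2 * T - 2 * ℓ) :=
      continuous_const.intervalIntegrable _ _
    have b3 : ∫ t in (T + 2 * ℓ)..(2 * T - 2 * ℓ), D t ≤
        ∫ t in (T + 2 * ℓ)..(2 * T - 2 * ℓ), (E1 + 2 * chi B (W t) +
          2 / lam * Sc H J (aP L T) T t) := by
      refine intervalIntegral.integral_mono_on (by linarith)
        (hDi (T + 2 * ℓ) (2 * T - 2 * ℓ) (by linarith) (by linarith) (by linarith))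
        ((hci.add (hχi.const_mul 2)).add hSi) fun t ht => ?_
      exact pt_comp hH hφ hP hP0 hv ha1 hT10 (by linarith [ht.1]) (by linarith [ht.2]) hn hl0 hln
        hΦ1 hΦ
    rw [intervalIntegral.integral_add (hci.add (hχi.const_mul 2)) hSi,
      intervalIntegral.integral_add hci (hχi.const_mul 2), intervalIntegral.integral_const,
      smul_eq_mul, intervalIntegral.integral_const_mul, intervalIntegral.integral_const_mul] at b3
    have b4 : ∫ t in (T + 2 * ℓ)..(2 * T - 2 * ℓ), chi B (W t) ≤ ∫ t in T..(2 * T), chi B (W t) :=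
      intervalIntegral.integral_mono_interval (by linarith) (by linarith) (by linarith)
        (Eventually.of_forall fun t => chi_nonneg B _) (hTi hχc)
    have b5 : (2 * T - 2 * ℓ - (T + 2 * ℓ)) * E1 ≤ T * E1 :=
      mul_le_mul_of_nonneg_right (by linarith) hE10
    have b6 : 2 / lam * (∫ t in (T + 2 * ℓ)..(2 * T - 2 * ℓ), Sc H J (aP L T) T t) ≤
        2 / lam * (C2 * 4 ^ J * T) := mul_le_mul_of_nonneg_left hSm (by positivity)
    have b7 : |∫ t in T..(2 * T), (Mf t - F0 (W t))| ≤ ∫ t in T..(2 * T), D t := by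
      have := intervalIntegral.abs_integral_le_integral_abs (μ := volume) (a := T) (b := 2 * T)
        (f := fun t => Mf t - F0 (W t)) (by linarith)
      exact this
    have b8 : ∫ t in T..(2 * T), D t ≤ 8 * ℓ + (T * E1 + 2 * (∫ t in T..(2 * T), chi B (W t)) +
        2 / lam * (C2 * 4 ^ J * T)) := by linarith
    calc 1 / T * |∫ t in T..(2 * T), (Mf t - F0 (W t))| ≤
        1 / T * (8 * ℓ + (T * E1 + 2 * (∫ t in T..(2 * T), chi B (W t)) +
        2 / lam * (C2 * 4 ^ J * T))) := by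
          gcongr
          exact b7.trans b8
      _ = 8 * (ℓ / T) + E1 + 2 * (1 / T * ∫ t in T..(2 * T), chi B (W t)) +
          2 * C2 * 4 ^ J / lam := by
          field_simp
          ring
      _ ≤ 8 * (1 / M) + E1 + 2 * (1 / T * ∫ t in T..(2 * T), chi B (W t)) +
          2 * C2 * 4 ^ J / lam := by gcongr
      _ = _ := by ring
  have DG := chi_gauss hpsd hdiag hθ hB
  set X := ∫ w, chi B w ∂G with hX
  set Y := 1 / T * ∫ t in T..(2 * T), chi B (W t) with hY
  set Z := 2 * (n : ℝ) * Real.exp (-θ * (B - 1) + θ ^ 2 * v / 2) with hZ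
  set m1 := 1 / T * ∫ t in T..(2 * T), Mf t with hm1
  set m2 := 1 / T * ∫ t in T..(2 * T), F0 (W t) with hm2
  set m3 := 1 / T * ∫ t in T..(2 * T), F1 (W t) with hm3
  set g1 := ∫ w, F1 w ∂G with hg1
  set g0 := ∫ w, F0 w ∂G with hg0
  have t1 : |m1 - g0| ≤ |m1 - m2| + |m2 - m3| + |m3 - g1| + |g0 - g1| := by
    have q1 := abs_sub_le m1 m2 g0
    have q2 := abs_sub_le m2 m3 g0
    have q3 := abs_sub_le m3 g1 g0
    rw [abs_sub_comm g1 g0] at q3
    linarith
  have q0 : C1 * J / M ≥ 0 := by positivity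
  have q1 : C1 * κ * J / M ≤ (4 * C1 + 2 * C2) * κ * J / M := by gcongr; linarith
  have q2 : 4 * (C1 * J / M) ≤ (4 * C1 + 2 * C2) * J / M := by
    have : 4 * (C1 * J / M) = (4 * C1) * J / M := by ring
    rw [this]
    gcongr
    linarith
  have q3 : 2 * C2 * 4 ^ J / lam ≤ (4 * C1 + 2 * C2) * 4 ^ J / lam := by gcongr; linarith
  linarith

end Pool.Agent.Q278.GC
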