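import Pool.Agent.Q278.GC.P

/-!
# The comparison of the two chaoses with exponential parameters (helper278)
-/

set_option autoImplicit false

namespace Pool.Agent.Q278.GC

open Filter Topology MeasureTheory Complex ProbabilityTheory
open scoped FourierTransform ContDiff ComplexConjugate RealInnerProductSpace
open Pool.Agent.Q278.MC Pool.Agent.Q278.MX

variable {H : ℝ → ℝ}

/-- the exponent of the number of grid points -/
noncomputable def A1f (b c C0 : ℝ) : ℝ := c + b * ((8 * b + 2 * c + 16) * C0) + 3 / 2 * (b ^ 2 * C0) + 6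

lemma A1f_ge {b c C0 : ℝ} (hb : 0 ≤ b) (hc : 0 ≤ c) (hC0 : 1 ≤ C0) : b ^ 2 * C0 + 2 ≤ A1f b c C0 := by
  unfold A1f
  have h1 : 0 ≤ b * ((8 * b + 2 * c + 16) * C0) := by positivity
  have h2 : 0 ≤ b ^ 2 * C0 := by positivity
  linarith

lemma A1f_six {b c C0 : ℝ} (hb : 0 ≤ b) (hc : 0 ≤ c) (hC0 : 1 ≤ C0) : 6 ≤ A1f b c C0 := by
  unfold A1f
  have h1 : 0 ≤ b * ((8 * b + 2 * c + 16) * C0) := by positivity
  have h2 : 0 ≤ b ^ 2 * C0 := by positivity
  linarith

lemma exp_mono' {x y : ℝ} (h : x ≤ y) : Real.exp x ≤ Real.exp y := Real.exp_le_exp.2 h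

lemma chaos_triv {α : ℂ} {φ : ℝ → ℂ} {J n : ℕ} {L T : ℝ} (hT : 0 < T) {Φ : ℂ → ℝ}
    (hΦ1 : ∀ z, |Φ z| ≤ 1) (S : Matrix (Fin n) (Fin n) ℝ) :
    |1 / T * (∫ t in T..(2 * T), Φ (Mz H α φ J L T t)) -
        ∫ w, Φ (Ch (kj H) α φ J n w) ∂(multivariateGaussian 0 S)| ≤ 2 := by
  have hb : ∀ y, ‖Φ y‖ ≤ 1 := hΦ1
  have e1 : |1 / T * (∫ t in T..(2 * T), Φ (Mz H α φ J L T t))| ≤ 1 := by
    have := intervalIntegral.norm_integral_le_of_norm_le_const (a := T) (b := 2 * T) (C := 1)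
      (f := fun t => Φ (Mz H α φ J L T t)) (fun t _ => hb _)
    rw [one_mul, abs_of_nonneg (by linarith), Real.norm_eq_abs] at this
    rw [abs_mul, abs_of_pos (by positivity)]
    calc 1 / T * |∫ t in T..(2 * T), Φ (Mz H α φ J L T t)| ≤ 1 / T * (2 * T - T) := by gcongr
      _ = 1 := by field_simp; ring
  have e2 : |∫ w, Φ (Ch (kj H) α φ J n w) ∂(multivariateGaussian 0 S)| ≤ 1 := by
    have := norm_integral_le_of_norm_le_const
      (μ := multivariateGaussian (0 : EuclideanSpace ℝ (Fin n)) S) (C := 1)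
      (f := fun w => Φ (Ch (kj H) α φ J n w)) (Eventually.of_forall fun w => hb _)
    rw [measureReal_def, measure_univ, ENNReal.toReal_one, mul_one, Real.norm_eq_abs] at this
    exact this
  have e3 := abs_sub (1 / T * (∫ t in T..(2 * T), Φ (Mz H α φ J L T t)))
    (∫ w, Φ (Ch (kj H) α φ J n w) ∂(multivariateGaussian 0 S))
  linarith

/-- all errors of `comp_err` at once for exponential parameters -/
theorem comp_exp (hLIN : S_LIN) (hH : Step H) {C0 : ℝ} (hC0 : 1 ≤ C0)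
    (hsup : ∀ J : ℕ, |kj H J J 0 0| ≤ C0 * (1 + J)) {b c : ℝ} (hb0 : 0 ≤ b) (hc0 : 0 ≤ c) :
    ∃ K : ℝ, 0 < K ∧ ∀ J : ℕ, 1 ≤ J → ∀ L T : ℝ,
      Real.exp (20 * (2 * A1f b c C0 + 3) * J) ≤ L →
      Real.exp (20 * (2 * A1f b c C0 + 3) * J) * L ≤ Real.log T → 0 < T →
      ∀ n : ℕ, Real.exp (A1f b c C0 * J) ≤ n → (n : ℝ) ≤ Real.exp (2 * A1f b c C0 * J) →
      ∀ (α : ℂ) (φ : ℝ → ℂ), ‖α‖ ≤ b → Continuous φ →
      (∀ x ∈ Set.Icc (0 : ℝ) 1, ‖φ x‖ ≤ Real.exp (c * J)) →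
      ∀ Φ : ℂ → ℝ, (∀ z, |Φ z| ≤ 1) → LipschitzWith 1 Φ →
      |1 / T * (∫ t in T..(2 * T), Φ (Mz H α φ J L T t)) -
        ∫ w, Φ (Ch (kj H) α φ J n w) ∂(multivariateGaussian 0 (KM (kj H) J n))| ≤
          K * Real.exp (-J) := by
  obtain ⟨C, M0, hC, hM0, h⟩ := comp_err hLIN hH
  set A : ℝ := A1f b c C0 with hA
  set θ : ℝ := 8 * b + 2 * c + 16 with hθ
  have hA' : A = c + b * (θ * C0) + 3 / 2 * (b ^ 2 * C0) + 6 := rfl
  have hθ0 : 0 ≤ θ := by positivity
  have hC00 : 0 ≤ C0 := by linarith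
  have hbβ : 0 ≤ b * (θ * C0) := by positivity
  have hb2 : 0 ≤ b ^ 2 * C0 := by positivity
  have hA6 : 6 ≤ A := by rw [hA']; linarith
  set E : ℝ := b * (θ * C0) + b ^ 2 * C0 / 2 with hE
  set K : ℝ := b * Real.exp (b + E) + C + 8 + 12 * Real.exp θ + C + C * (1 + b * Real.exp E) with hK
  have hK0 : 0 < K := by positivity
  refine ⟨K + 2 * M0, by positivity, fun J hJ1 L T hL hT hT0 n hn1 hn2 α φ hα hφ hP Φ hΦ1 hΦ => ?_⟩
  have hj1 : (1 : ℝ) ≤ J := by exact_mod_cast hJ1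
  have hj0 : (0 : ℝ) ≤ J := by linarith
  set j : ℝ := (J : ℝ) with hj
  rcases lt_or_ge (Real.exp j) M0 with hM0j | hM0j
  · refine (chaos_triv hT0 hΦ1 _).trans ?_
    have e1 : 1 ≤ M0 * Real.exp (-j) := by
      rw [Real.exp_neg, ← div_eq_mul_inv, le_div_iff₀ (Real.exp_pos _)]
      linarith
    have e2 : 0 ≤ K * Real.exp (-j) := by positivity
    linarith
  have hAj0 : 0 ≤ A * j := by positivity
  have hn3 : (1 : ℝ) ≤ n := (Real.one_le_exp hAj0).trans hn1
  have hn4 : 1 ≤ n := by exact_mod_cast hn3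
  have hP0 : 0 ≤ Real.exp (c * j) := (Real.exp_pos _).le
  set M : ℝ := Real.exp ((2 * A + 3) * j) with hM
  have hM20 : M ^ 20 = Real.exp (20 * (2 * A + 3) * J) := by
    rw [hM, ← Real.exp_nat_mul]
    congr 1
    push_cast
    ring
  have hjej : j ≤ Real.exp j := by
    have := Real.add_one_le_exp j
    linarith
  have h2e : (2 : ℝ) ≤ Real.exp 1 := by
    have := Real.exp_one_gt_d9
    linarith
  have h2J : (2 : ℝ) ^ J ≤ Real.exp j := by
    calc (2 : ℝ) ^ J ≤ (Real.exp 1) ^ J := by gcongr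
      _ = Real.exp j := by rw [← Real.exp_nat_mul, mul_one]
  have h4J : (4 : ℝ) ^ J ≤ Real.exp (2 * j) := by
    have e1 : (4 : ℝ) ^ J = (2 ^ J) ^ 2 := by
      rw [← pow_mul, mul_comm, pow_mul]; norm_num
    have e2 : Real.exp (2 * j) = (Real.exp j) ^ 2 := by
      rw [← Real.exp_nat_mul]; norm_num
    rw [e1, e2]
    gcongr
  have key := h M L T (hM0j.trans (exp_mono' (by nlinarith))) (by rw [hM20]; exact hL)
    (by rw [hM20]; exact hT) hT0 α φ (Real.exp (c * j)) (C0 * (1 + j)) (θ * C0 * (1 + j))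
    (Real.exp (3 * j)) θ J n hφ hP hP0 (hsup J) (by
      have e1 : 1 ≤ θ * C0 := by nlinarith
      nlinarith) hθ0 (Real.exp_pos _)
    ((exp_mono' (by nlinarith)).trans hn1) hJ1 hn4 (by
      push_cast
      calc (n : ℝ) * J ≤ Real.exp (2 * A * j) * Real.exp j := by
            refine mul_le_mul hn2 hjej hj0 (by positivity)
        _ = Real.exp (2 * A * j + j) := by rw [Real.exp_add]
        _ ≤ M := exp_mono' (by nlinarith))
    (h2J.trans (exp_mono' (by nlinarith))) Φ hΦ1 hΦ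
  refine key.trans ?_
  have hMpos : 0 < M := Real.exp_pos _
  have hMinv : 1 / M = Real.exp (-((2 * A + 3) * j)) := by
    rw [hM, Real.exp_neg, one_div]
  have hjM' : j / M ≤ Real.exp (j + -((2 * A + 3) * j)) := by
    calc j / M = j * (1 / M) := by ring
      _ ≤ Real.exp j * Real.exp (-((2 * A + 3) * j)) := by
          rw [hMinv]; gcongr
      _ = _ := by rw [Real.exp_add]
  have hjM : j / M ≤ Real.exp (-j) := hjM'.trans (exp_mono' (by nlinarith))
  have hM1 : 1 / M ≤ Real.exp (-j) := by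
    rw [hMinv]
    exact exp_mono' (by nlinarith)
  have hα0 : 0 ≤ ‖α‖ := norm_nonneg _
  have hα2 : ‖α‖ ^ 2 ≤ b ^ 2 := by gcongr
  have hcj : 0 ≤ c * j := by positivity
  have hX : ∀ y : ℝ, 0 ≤ y → ‖α‖ * y + ‖α‖ ^ 2 * (C0 * (1 + j)) / 2 ≤
      b * y + b ^ 2 * (C0 * (1 + j)) / 2 := by
    intro y hy
    gcongr
  have hβ0 : 0 ≤ θ * C0 * (1 + j) := by positivity
  have hbj : 0 ≤ b ^ 2 * C0 * j := by positivity
  have hbθj : 0 ≤ b * (θ * C0) * j := by positivity
  -- E1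
  have E1 : Real.exp (c * j) * ‖α‖ * Real.exp (‖α‖ * (θ * C0 * (1 + j) + 1) +
      ‖α‖ ^ 2 * (C0 * (1 + j)) / 2) * (Real.exp (3 * j) / n) ≤
      b * Real.exp (b + E) * Real.exp (-j) := by
    have e1 : Real.exp (3 * j) / n ≤ Real.exp (3 * j + -(A * j)) := by
      rw [Real.exp_add, Real.exp_neg, div_eq_mul_inv]
      gcongr
    calc Real.exp (c * j) * ‖α‖ * Real.exp (‖α‖ * (θ * C0 * (1 + j) + 1) +
          ‖α‖ ^ 2 * (C0 * (1 + j)) / 2) * (Real.exp (3 * j) / n)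
        ≤ Real.exp (c * j) * b * Real.exp (b * (θ * C0 * (1 + j) + 1) +
          b ^ 2 * (C0 * (1 + j)) / 2) * Real.exp (3 * j + -(A * j)) := by
          have := exp_mono' (hX (θ * C0 * (1 + j) + 1) (by linarith))
          gcongr
      _ = b * Real.exp (c * j + (b * (θ * C0 * (1 + j) + 1) + b ^ 2 * (C0 * (1 + j)) / 2 +
          (3 * j + -(A * j)))) := by
          rw [Real.exp_add (c * j), Real.exp_add (b * _ + _)]
          ring
      _ ≤ b * Real.exp (b + E + -j) := by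
          refine mul_le_mul_of_nonneg_left (exp_mono' ?_) (by positivity)
          rw [hE, hA']
          nlinarith
      _ = _ := by rw [Real.exp_add (b + E), ← mul_assoc]
  have E2 : C * 4 ^ J / Real.exp (3 * j) ≤ C * Real.exp (-j) := by
    calc C * 4 ^ J / Real.exp (3 * j) ≤ C * Real.exp (2 * j) / Real.exp (3 * j) := by gcongr
      _ = C * Real.exp (2 * j - 3 * j) := by rw [Real.exp_sub]; ring
      _ = _ := by
          congr 2
          linarith
  have E3 : 8 / M ≤ 8 * Real.exp (-j) := by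
    calc 8 / M = 8 * (1 / M) := by ring
      _ ≤ _ := by gcongr
  have E4 : 6 * (2 * (n : ℝ) * Real.exp (-θ * (θ * C0 * (1 + j) - 1) + θ ^ 2 * (C0 * (1 + j)) / 2)) ≤
      12 * Real.exp θ * Real.exp (-j) := by
    calc 6 * (2 * (n : ℝ) * Real.exp (-θ * (θ * C0 * (1 + j) - 1) + θ ^ 2 * (C0 * (1 + j)) / 2))
        ≤ 6 * (2 * Real.exp (2 * A * j) *
          Real.exp (-θ * (θ * C0 * (1 + j) - 1) + θ ^ 2 * (C0 * (1 + j)) / 2)) := by gcongr
      _ = 12 * Real.exp (2 * A * j +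
          (-θ * (θ * C0 * (1 + j) - 1) + θ ^ 2 * (C0 * (1 + j)) / 2)) := by
          rw [Real.exp_add (2 * A * j)]; ring
      _ ≤ 12 * Real.exp (θ + -j) := by
          refine mul_le_mul_of_nonneg_left (exp_mono' ?_) (by norm_num)
          have e1 : θ ^ 2 * C0 / 2 ≥ 2 * A + 1 := by
            have f1 : 0 ≤ b * C0 := by positivity
            have f2 : 0 ≤ c * C0 := by positivity
            have f3 : 0 ≤ c ^ 2 * C0 := by positivity
            have f4 : 0 ≤ b * c * C0 := by positivity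
            have f5 : 0 ≤ c * (C0 - 1) := mul_nonneg hc0 (by linarith)
            rw [hA', hθ]
            nlinarith
          have e2 : θ ^ 2 * C0 / 2 * (1 + j) ≥ (2 * A + 1) * j := by nlinarith
          nlinarith
      _ = _ := by rw [Real.exp_add θ]; ring
  have E5 : C * j / M ≤ C * Real.exp (-j) := by
    calc C * j / M = C * (j / M) := by ring
      _ ≤ _ := by gcongr
  have E6 : C * (1 + Real.exp (c * j) * ‖α‖ * Real.exp (‖α‖ * (θ * C0 * (1 + j)) +
      ‖α‖ ^ 2 * (C0 * (1 + j)) / 2)) * j / M ≤ C * (1 + b * Real.exp E) * Real.exp (-j) := by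
    have e1 : Real.exp (c * j) * Real.exp (‖α‖ * (θ * C0 * (1 + j)) +
        ‖α‖ ^ 2 * (C0 * (1 + j)) / 2) * (j / M) ≤ Real.exp E * Real.exp (-j) := by
      calc Real.exp (c * j) * Real.exp (‖α‖ * (θ * C0 * (1 + j)) +
            ‖α‖ ^ 2 * (C0 * (1 + j)) / 2) * (j / M)
          ≤ Real.exp (c * j) * Real.exp (b * (θ * C0 * (1 + j)) + b ^ 2 * (C0 * (1 + j)) / 2) *
            Real.exp (j + -((2 * A + 3) * j)) := by
            have := exp_mono' (hX (θ * C0 * (1 + j)) hβ0)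
            gcongr
        _ = Real.exp (c * j + (b * (θ * C0 * (1 + j)) + b ^ 2 * (C0 * (1 + j)) / 2) +
            (j + -((2 * A + 3) * j))) := by
            rw [Real.exp_add _ (j + _), Real.exp_add (c * j)]
        _ ≤ Real.exp (E + -j) := by
            apply exp_mono'
            rw [hE, hA']
            nlinarith
        _ = _ := Real.exp_add _ _
    calc C * (1 + Real.exp (c * j) * ‖α‖ * Real.exp (‖α‖ * (θ * C0 * (1 + j)) +
          ‖α‖ ^ 2 * (C0 * (1 + j)) / 2)) * j / M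
        = C * (j / M + ‖α‖ * (Real.exp (c * j) * Real.exp (‖α‖ * (θ * C0 * (1 + j)) +
          ‖α‖ ^ 2 * (C0 * (1 + j)) / 2) * (j / M))) := by ring
      _ ≤ C * (Real.exp (-j) + b * (Real.exp E * Real.exp (-j))) := by gcongr
      _ = _ := by ring
  have := add_le_add (add_le_add (add_le_add (add_le_add (add_le_add E1 E2) E3) E4) E5) E6
  refine this.trans ?_
  have e2 : 0 ≤ 2 * M0 * Real.exp (-j) := by positivity
  have e3 : (K + 2 * M0) * Real.exp (-j) = (b * Real.exp (b + E) * Real.exp (-j) + C * Real.exp (-j) +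
      8 * Real.exp (-j) + 12 * Real.exp θ * Real.exp (-j) + C * Real.exp (-j) +
      C * (1 + b * Real.exp E) * Real.exp (-j)) + 2 * M0 * Real.exp (-j) := by
    rw [hK]; ring
  linarith

end Pool.Agent.Q278.GC
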