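import Pool.Agent.Q278.GC.Q
import Pool.Agent.Q150.GC.CH
import Pool.Agent.Q150.GC.EX
import Pool.Agent.Q162.GC.DCcore
import Pool.Agent.Q162.GC.DC
import Pool.Agent.Q162.GC.PR
import Pool.Agent.Q65.GC.K3
import Pool.Agent.Q128.GC.K1
import Pool.Agent.Q128.GC.K2

/-!
# The limit of the Gaussian chaos: second moments (helper278, after helper162 and helper150)
-/

set_option autoImplicit false

open MeasureTheory Filter Topology Set
open scoped ComplexConjugate

namespace Pool.Agent.Q278.GC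

open Pool.Agent.Q162.GC (UI MM exp_sub_le int_abs_rpow int_sq FF FF_cont ae_sq ae_ne FF_int FF_iter ph' split_int riemann RR')

/-- helper162's theorem `dc` with the value of the limit -/
theorem dc2 (K : ℕ → ℕ → ℝ → ℝ → ℝ) (κ C b : ℝ) (hC1 : 1 ≤ C) (hκ0 : 0 ≤ κ)
    (hsup : ∀ (J J' : ℕ) (x y : ℝ), |K J J' x y| ≤ C * (1 + min J J'))
    (hlip : ∀ (J J' : ℕ) (x x' y y' : ℝ),
      |K J J' x y - K J J' x' y'| ≤ C * 2 ^ (min J J') * (|x - x'| + |y - y'|))
    (hlog : ∀ (J J' : ℕ) (x y : ℝ), x ≠ y → |x - y| ≤ 1 → K J J' x y ≤ κ * Real.log (1 / |x - y|) + C)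
    (hlim : ∃ Ki : ℝ → ℝ → ℝ, ∀ x y : ℝ, x ≠ y →
      Tendsto (fun p : ℕ × ℕ => K p.1 p.2 x y) atTop (𝓝 (Ki x y)))
    (hb : 0 ≤ b) (hbκ : b * κ < 1) (φ : ℝ → ℂ) (hφ : Continuous φ) :
    ∃ I : ℂ, Tendsto (fun J : ℕ => ∫ x in (0 : ℝ)..1, ∫ y in (0 : ℝ)..1,
        φ x * conj (φ y) * ((Real.exp (b * K J J x y) : ℝ) : ℂ)) atTop (𝓝 I) ∧
      ∀ δ : ℝ, 0 < δ → ∃ J0 : ℕ, ∀ J J' n n' : ℕ, J0 ≤ J → J0 ≤ J' →
      Real.exp ((b * C + 2) * J) ≤ n → Real.exp ((b * C + 2) * J') ≤ n' →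
      ‖RR' K b φ J n J' n' - I‖ ≤ δ := by
  obtain ⟨Ki, hKi⟩ := hlim
  -- bound of `φ`
  obtain ⟨P, hP⟩ : ∃ P : ℝ, ∀ x ∈ Icc (0 : ℝ) 1, ‖φ x‖ ≤ P := by
    obtain ⟨P, hP⟩ := isCompact_Icc.exists_bound_of_continuousOn (f := φ) (s := Icc (0 : ℝ) 1) hφ.continuousOn
    exact ⟨P, hP⟩
  have hP0 : 0 ≤ P := (norm_nonneg _).trans (hP 0 ⟨le_rfl, zero_le_one⟩)
  have hC0 : 0 ≤ C := by linarith
  -- continuity of the kernels
  have hKc : ∀ J J' : ℕ, Continuous fun z : ℝ × ℝ => K J J' z.1 z.2 := by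
    intro J J'
    have hL : LipschitzWith (2 * (C * 2 ^ (min J J'))).toNNReal fun z : ℝ × ℝ => K J J' z.1 z.2 := by
      refine LipschitzWith.of_dist_le_mul fun z w => ?_
      rw [Real.coe_toNNReal _ (by positivity), Real.dist_eq]
      refine (hlip J J' z.1 w.1 z.2 w.2).trans ?_
      have h1 : |z.1 - w.1| ≤ dist z w := by rw [← Real.dist_eq]; exact le_max_left _ _
      have h2 : |z.2 - w.2| ≤ dist z w := by rw [← Real.dist_eq]; exact le_max_right _ _
      have h3 : 0 ≤ C * 2 ^ (min J J') := by positivity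
      nlinarith
    exact hL.continuous
  set F : ℕ × ℕ → ℝ × ℝ → ℂ := fun p => FF (K p.1 p.2) b φ with hF
  set I : ℂ := ∫ z, FF Ki b φ z ∂MM with hI
  -- dominated convergence
  have hconv : Tendsto (fun p : ℕ × ℕ => ∫ z, F p z ∂MM) atTop (𝓝 I) := by
    refine tendsto_integral_filter_of_dominated_convergence
      (fun z : ℝ × ℝ => P ^ 2 * Real.exp (b * C) * |z.1 - z.2| ^ (-(b * κ))) ?_ ?_ ?_ ?_
    · exact Eventually.of_forall fun p => (FF_cont (hKc p.1 p.2) b hφ).aestronglyMeasurable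
    · refine Eventually.of_forall fun p => ?_
      filter_upwards [ae_sq, ae_ne] with z hz hne
      have h0 : 0 < |z.1 - z.2| := abs_pos.2 (sub_ne_zero.2 hne)
      have h1 : |z.1 - z.2| ≤ 1 := by
        rw [abs_le]
        constructor <;> linarith [hz.1.1, hz.1.2, hz.2.1, hz.2.2]
      change ‖φ z.1 * conj (φ z.2) * ((Real.exp (b * K p.1 p.2 z.1 z.2) : ℝ) : ℂ)‖ ≤ _
      rw [norm_mul, norm_mul, RCLike.norm_conj, Complex.norm_real, Real.norm_of_nonneg (Real.exp_pos _).le]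
      have h2 : ‖φ z.1‖ * ‖φ z.2‖ ≤ P ^ 2 := by
        rw [sq]
        exact mul_le_mul (hP _ ⟨hz.1.1.le, hz.1.2⟩) (hP _ ⟨hz.2.1.le, hz.2.2⟩) (norm_nonneg _) hP0
      have h3 : Real.exp (b * K p.1 p.2 z.1 z.2) ≤ Real.exp (b * C) * |z.1 - z.2| ^ (-(b * κ)) := by
        rw [Real.rpow_def_of_pos h0, ← Real.exp_add, Real.exp_le_exp]
        have h4 := mul_le_mul_of_nonneg_left (hlog p.1 p.2 z.1 z.2 hne h1) hb
        rw [one_div, Real.log_inv] at h4
        linarith
      calc ‖φ z.1‖ * ‖φ z.2‖ * Real.exp (b * K p.1 p.2 z.1 z.2)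
          ≤ P ^ 2 * (Real.exp (b * C) * |z.1 - z.2| ^ (-(b * κ))) :=
            mul_le_mul h2 h3 (Real.exp_pos _).le (by positivity)
        _ = P ^ 2 * Real.exp (b * C) * |z.1 - z.2| ^ (-(b * κ)) := by ring
    · exact (int_sq hbκ).const_mul _
    · filter_upwards [ae_ne] with z hne
      have h1 := hKi z.1 z.2 hne
      change Tendsto (fun p : ℕ × ℕ => φ z.1 * conj (φ z.2) * ((Real.exp (b * K p.1 p.2 z.1 z.2) : ℝ) : ℂ)) atTop
        (𝓝 (φ z.1 * conj (φ z.2) * ((Real.exp (b * Ki z.1 z.2) : ℝ) : ℂ)))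
      exact Tendsto.const_mul _ ((Complex.continuous_ofReal.tendsto _).comp
        ((Real.continuous_exp.tendsto _).comp (h1.const_mul b)))
  have hdiag : Tendsto (fun J : ℕ => ∫ x in (0 : ℝ)..1, ∫ y in (0 : ℝ)..1,
      φ x * conj (φ y) * ((Real.exp (b * K J J x y) : ℝ) : ℂ)) atTop (𝓝 I) := by
    have h1 : Tendsto (fun J : ℕ => (J, J)) atTop (atTop : Filter (ℕ × ℕ)) := by
      rw [← prod_atTop_atTop_eq]
      exact tendsto_id.prodMk tendsto_id
    refine (hconv.comp h1).congr fun J => ?_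
    exact FF_iter (hKc J J) b hφ
  refine ⟨I, hdiag, fun δ hδ => ?_⟩
  have hev := (Metric.tendsto_atTop.1 hconv) (δ / 2) (by positivity)
  obtain ⟨⟨N1, N2⟩, hN⟩ := hev
  -- the size of the error of the Riemann sums
  set D : ℝ := P ^ 2 * (2 * b * C * Real.exp (b * C)) with hD
  have hD0 : 0 ≤ D := by positivity
  obtain ⟨N3, hN3⟩ : ∃ N3 : ℕ, ∀ m : ℕ, N3 ≤ m → D * Real.exp (-(m : ℝ)) ≤ δ / 2 := by
    have h1 : Tendsto (fun m : ℕ => D * Real.exp (-(m : ℝ))) atTop (𝓝 (D * 0)) :=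
      ((Real.tendsto_exp_neg_atTop_nhds_zero.comp tendsto_natCast_atTop_atTop)).const_mul D
    rw [mul_zero] at h1
    have h2 := h1.eventually_le_const (show (0 : ℝ) < δ / 2 by positivity)
    rw [eventually_atTop] at h2
    exact h2
  refine ⟨max (max N1 N2) N3, fun J J' n n' hJ hJ' hn hn' => ?_⟩
  have hJ1 : N1 ≤ J := (le_max_left _ _).trans ((le_max_left _ _).trans hJ)
  have hJ2 : N2 ≤ J' := (le_max_right _ _).trans ((le_max_left _ _).trans hJ')
  set m := min J J' with hm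
  have hm3 : N3 ≤ m := le_min ((le_max_right _ _).trans hJ) ((le_max_right _ _).trans hJ')
  have hnpos : 0 < n := by
    have := (Real.exp_pos ((b * C + 2) * J)).trans_le hn
    exact_mod_cast this
  have hnpos' : 0 < n' := by
    have := (Real.exp_pos ((b * C + 2) * J')).trans_le hn'
    exact_mod_cast this
  have hn0 : (0 : ℝ) < n := by exact_mod_cast hnpos
  have hn0' : (0 : ℝ) < n' := by exact_mod_cast hnpos'
  set A : ℝ := b * C + 2 with hA
  have hA0 : 0 < A := by positivity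
  have hinv : ∀ (j q : ℕ), m ≤ j → Real.exp (A * j) ≤ q → 1 / (q : ℝ) ≤ Real.exp (-(A * m)) := by
    intro j q hj hq
    have h1 : Real.exp (A * m) ≤ q := by
      refine le_trans ?_ hq
      rw [Real.exp_le_exp]
      exact mul_le_mul_of_nonneg_left (by exact_mod_cast hj) hA0.le
    rw [Real.exp_neg, one_div]
    exact inv_anti₀ (Real.exp_pos _) h1
  have hi1 := hinv J n (min_le_left _ _) hn
  have hi2 := hinv J' n' (min_le_right _ _) hn'
  set ε : ℝ := Real.exp (b * (C * (1 + m))) * (b * (C * 2 ^ m * (2 * Real.exp (-(A * m))))) with hε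
  have hε0 : 0 ≤ ε := by positivity
  have hR := riemann (hKc J J') b hφ hP hε0 hnpos hnpos' ?_
  · have hε2 : P ^ 2 * ε ≤ D * Real.exp (-(m : ℝ)) := by
      have h2m : (2 : ℝ) ^ m ≤ Real.exp m := by
        have h1 : (2 : ℝ) ≤ Real.exp 1 := by
          have := Real.exp_one_gt_d9
          linarith
        calc (2 : ℝ) ^ m ≤ (Real.exp 1) ^ m := pow_le_pow_left₀ (by norm_num) h1 m
          _ = Real.exp m := by rw [← Real.exp_nat_mul, mul_one]
      have h3 : ε ≤ 2 * b * C * Real.exp (b * C) * Real.exp (-(m : ℝ)) := by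
        calc ε = 2 * b * C * (Real.exp (b * (C * (1 + m))) * Real.exp (-(A * m))) * 2 ^ m := by rw [hε]; ring
          _ ≤ 2 * b * C * (Real.exp (b * (C * (1 + m))) * Real.exp (-(A * m))) * Real.exp m := by gcongr
          _ = 2 * b * C * (Real.exp (b * (C * (1 + m))) * Real.exp (-(A * m)) * Real.exp m) := by ring
          _ = 2 * b * C * (Real.exp (b * C) * Real.exp (-(m : ℝ))) := by
              rw [← Real.exp_add, ← Real.exp_add, ← Real.exp_add]
              congr 2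
              rw [hA]
              ring
          _ = 2 * b * C * Real.exp (b * C) * Real.exp (-(m : ℝ)) := by ring
      calc P ^ 2 * ε ≤ P ^ 2 * (2 * b * C * Real.exp (b * C) * Real.exp (-(m : ℝ))) := by gcongr
        _ = D * Real.exp (-(m : ℝ)) := by rw [hD]; ring
    have h5 : ‖∫ z, FF (K J J') b φ z ∂MM - I‖ ≤ δ / 2 := by
      have := hN (J, J') ⟨hJ1, hJ2⟩
      rw [dist_eq_norm] at this
      exact this.le
    have h6 : RR' K b φ J n J' n' - I = (RR' K b φ J n J' n' - ∫ z, FF (K J J') b φ z ∂MM) +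
        (∫ z, FF (K J J') b φ z ∂MM - I) := by ring
    rw [h6]
    refine (norm_add_le _ _).trans ?_
    have h7 : ‖RR' K b φ J n J' n' - ∫ z, FF (K J J') b φ z ∂MM‖ ≤ δ / 2 := by
      refine le_trans ?_ (hN3 m hm3)
      exact hR.trans hε2
    linarith
  · intro k l x y hx1 hx2 hy1 hy2
    have hs : ∀ u v : ℝ, b * K J J' u v ≤ b * (C * (1 + m)) := fun u v =>
      mul_le_mul_of_nonneg_left ((le_abs_self _).trans (by
        have := hsup J J' u v
        rw [← hm] at this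
        exact_mod_cast this)) hb
    refine (exp_sub_le _ _ (b * (C * (1 + m))) (hs _ _) (hs _ _)).trans ?_
    rw [hε]
    refine mul_le_mul_of_nonneg_left ?_ (Real.exp_pos _).le
    rw [← mul_sub, abs_mul, abs_of_nonneg hb]
    refine mul_le_mul_of_nonneg_left ?_ hb
    refine (hlip J J' _ _ _ _).trans ?_
    rw [← hm]
    refine mul_le_mul_of_nonneg_left ?_ (by positivity)
    have e1 : |(k : ℝ) / n - x| ≤ 1 / n := by
      rw [abs_le]
      have : ((k : ℝ) + 1) / n = k / n + 1 / n := add_div _ _ _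
      have h0 : 0 ≤ 1 / (n : ℝ) := by positivity
      constructor <;> linarith
    have e2 : |(l : ℝ) / n' - y| ≤ 1 / n' := by
      rw [abs_le]
      have : ((l : ℝ) + 1) / n' = l / n' + 1 / n' := add_div _ _ _
      have h0 : 0 ≤ 1 / (n' : ℝ) := by positivity
      constructor <;> linarith
    linarith

end Pool.Agent.Q278.GC
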