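import Pool.Agent.Q278.GC.R0

/-!
# Uniform integrability of the squares of the Gaussian chaos, second moments of the limit (helper278)
-/

set_option autoImplicit false

namespace Pool.Agent.Q278.GC

open Filter Topology MeasureTheory Complex ProbabilityTheory
open scoped ComplexConjugate
open Pool.Agent.Q150.GC

/-- the part of `‖z‖²` above `R` -/
noncomputable def tau (R : ℝ) (z : ℂ) : ℝ := max 0 (‖z‖ ^ 2 - R)

lemma tau_cont (R : ℝ) : Continuous (tau R) := by unfold tau; fun_prop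

lemma tau_nonneg (R : ℝ) (z : ℂ) : 0 ≤ tau R z := le_max_left _ _

lemma tau_le_sq {R : ℝ} (hR : 0 ≤ R) (z : ℂ) : tau R z ≤ ‖z‖ ^ 2 := by
  unfold tau
  exact max_le (by positivity) (by linarith)

lemma tau_anti {R R' : ℝ} (h : R ≤ R') (z : ℂ) : tau R' z ≤ tau R z := by
  unfold tau
  exact max_le_max le_rfl (by linarith)

lemma norm_sq_le (z w : ℂ) : ‖z‖ ^ 2 ≤ 2 * ‖z - w‖ ^ 2 + 2 * ‖w‖ ^ 2 := by
  have h1 : ‖z‖ ≤ ‖z - w‖ + ‖w‖ := by
    have := norm_add_le (z - w) w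
    rwa [sub_add_cancel] at this
  have h2 : 0 ≤ ‖z - w‖ := norm_nonneg _
  have h3 : 0 ≤ ‖w‖ := norm_nonneg _
  have h4 : 0 ≤ ‖z‖ := norm_nonneg _
  nlinarith [sq_nonneg (‖z - w‖ - ‖w‖)]

lemma tau_le (R : ℝ) (z w : ℂ) : tau R z ≤ 2 * ‖z - w‖ ^ 2 + 2 * tau (R / 2) w := by
  unfold tau
  have h := norm_sq_le z w
  refine max_le ?_ ?_
  · have : 0 ≤ max 0 (‖w‖ ^ 2 - R / 2) := le_max_left _ _
    positivity
  · have : ‖w‖ ^ 2 - R / 2 ≤ max 0 (‖w‖ ^ 2 - R / 2) := le_max_right _ _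
    linarith

/-- for a fixed law the tails of the second moment tend to zero -/
lemma tau_tendsto {Ω : Type*} [MeasurableSpace Ω] (μ : Measure Ω) (X : Ω → ℂ)
    (hX : AEStronglyMeasurable X μ) (hi : Integrable (fun w => ‖X w‖ ^ 2) μ) :
    Tendsto (fun k : ℕ => ∫ w, tau k (X w) ∂μ) atTop (𝓝 0) := by
  have h0 : (0 : ℝ) = ∫ w, (0 : ℝ) ∂μ := by simp
  rw [h0]
  refine tendsto_integral_of_dominated_convergence (fun w => ‖X w‖ ^ 2) ?_ hi ?_ ?_
  · intro k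
    exact (tau_cont _).comp_aestronglyMeasurable hX
  · intro k
    refine Eventually.of_forall fun w => ?_
    rw [Real.norm_of_nonneg (tau_nonneg _ _)]
    exact tau_le_sq (Nat.cast_nonneg k) _
  · refine Eventually.of_forall fun w => ?_
    refine tendsto_const_nhds.congr' ?_
    obtain ⟨N, hN⟩ := exists_nat_ge (‖X w‖ ^ 2)
    filter_upwards [eventually_ge_atTop N] with k hk
    unfold tau
    rw [max_eq_left]
    have : (N : ℝ) ≤ k := by exact_mod_cast hk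
    linarith

/-- second moments converge when the squares are uniformly integrable -/
lemma second_moment {μ : ℕ → Measure ℂ} {ν : Measure ℂ} (hμ : ∀ i, IsProbabilityMeasure (μ i))
    (hν : IsProbabilityMeasure ν) (hμi : ∀ i, Integrable (fun z : ℂ => ‖z‖ ^ 2) (μ i))
    (hνi : Integrable (fun z : ℂ => ‖z‖ ^ 2) ν)
    (hui : ∀ ε : ℝ, 0 < ε → ∃ (R : ℝ) (N : ℕ), 0 ≤ R ∧ ∀ i, N ≤ i → ∫ z, tau R z ∂(μ i) ≤ ε)
    (hconv : ∀ δ : ℝ, 0 < δ → ∃ N : ℕ, ∀ i : ℕ, N ≤ i → ∀ Φ : ℂ → ℝ, (∀ z, |Φ z| ≤ 1) →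
        LipschitzWith 1 Φ → |∫ z, Φ z ∂(μ i) - ∫ z, Φ z ∂ν| ≤ δ) :
    Tendsto (fun i => ∫ z, ‖z‖ ^ 2 ∂(μ i)) atTop (𝓝 (∫ z, ‖z‖ ^ 2 ∂ν)) := by
  rw [Metric.tendsto_atTop]
  intro ε hε
  obtain ⟨R1, N1, hR1, h1⟩ := hui (ε / 4) (by positivity)
  have h2 := (tau_tendsto ν (fun z : ℂ => z) measurable_id.aestronglyMeasurable hνi).eventually_le_const
    (show (0 : ℝ) < ε / 4 by positivity)
  obtain ⟨k, hk1, hk2⟩ := (h2.and (eventually_ge_atTop ⌈R1⌉₊)).exists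
  set R : ℝ := (k : ℝ) with hR
  have hRR1 : R1 ≤ R := (Nat.le_ceil _).trans (Nat.cast_le.2 hk2)
  have hR0 : 0 ≤ R := hR1.trans hRR1
  set s : ℝ := Real.sqrt R with hs
  have hs0 : 0 ≤ s := Real.sqrt_nonneg _
  have hs2 : s ^ 2 = R := Real.sq_sqrt hR0
  set D : ℝ := R + 2 * s + 1 with hD
  have hD0 : 0 < D := by positivity
  set m : ℂ → ℝ := fun z => min ‖z‖ s ^ 2 with hm
  have hmt : ∀ z, ‖z‖ ^ 2 = m z + tau R z := by
    intro z
    simp only [hm, tau]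
    rcases le_total ‖z‖ s with h | h
    · rw [min_eq_left h, max_eq_left, add_zero]
      rw [← hs2]
      have := pow_le_pow_left₀ (norm_nonneg z) h 2
      linarith
    · rw [min_eq_right h, max_eq_right, hs2]
      · ring
      · rw [← hs2]
        have := pow_le_pow_left₀ hs0 h 2
        linarith
  have hmc : Continuous m := by simp only [hm]; fun_prop
  have hm0 : ∀ z, 0 ≤ m z := fun z => by positivity
  have hmR : ∀ z, m z ≤ R := by
    intro z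
    rw [← hs2]
    simp only [hm]
    exact pow_le_pow_left₀ (le_min (norm_nonneg _) hs0) (min_le_right _ _) 2
  obtain ⟨N2, hN2⟩ := hconv (ε / (4 * D)) (by positivity)
  refine ⟨max N1 N2, fun i hi => ?_⟩
  have hi1 : N1 ≤ i := (le_max_left _ _).trans hi
  have hi2 : N2 ≤ i := (le_max_right _ _).trans hi
  have hΦ := hN2 i hi2 (fun z => m z / D) (fun z => by
    rw [abs_of_nonneg (div_nonneg (hm0 z) hD0.le), div_le_one hD0]
    have := hmR z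
    linarith) (by
    refine LipschitzWith.of_dist_le_mul fun z w => ?_
    rw [Real.dist_eq, NNReal.coe_one, one_mul, ← sub_div, abs_div, abs_of_pos hD0, div_le_iff₀ hD0]
    have e1 : |min ‖z‖ s - min ‖w‖ s| ≤ dist z w := by
      have f1 : |min ‖z‖ s - min ‖w‖ s| ≤ |‖z‖ - ‖w‖| := by
        have := abs_inf_sub_inf_le_abs ‖z‖ ‖w‖ s
        exact this
      exact f1.trans ((abs_norm_sub_norm_le z w).trans_eq (dist_eq_norm z w).symm)
    have e2 : m z - m w = (min ‖z‖ s - min ‖w‖ s) * (min ‖z‖ s + min ‖w‖ s) := by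
      simp only [hm]; ring
    rw [e2, abs_mul]
    have e3 : |min ‖z‖ s + min ‖w‖ s| ≤ 2 * s := by
      have g1 : 0 ≤ min ‖z‖ s := le_min (norm_nonneg _) hs0
      have g2 : 0 ≤ min ‖w‖ s := le_min (norm_nonneg _) hs0
      have g3 : min ‖z‖ s ≤ s := min_le_right _ _
      have g4 : min ‖w‖ s ≤ s := min_le_right _ _
      rw [abs_of_nonneg (by linarith)]
      linarith
    calc |min ‖z‖ s - min ‖w‖ s| * |min ‖z‖ s + min ‖w‖ s| ≤ dist z w * (2 * s) :=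
          mul_le_mul e1 e3 (abs_nonneg _) dist_nonneg
      _ ≤ dist z w * D := mul_le_mul_of_nonneg_left (by linarith) dist_nonneg)
  rw [integral_div, integral_div, ← sub_div, abs_div, abs_of_pos hD0, div_le_div_iff₀ hD0 (by positivity)] at hΦ
  have hΦ' : |∫ z, m z ∂(μ i) - ∫ z, m z ∂ν| ≤ ε / 4 := by
    have : 4 * |∫ z, m z ∂(μ i) - ∫ z, m z ∂ν| * D ≤ ε * D := by linarith
    have := le_of_mul_le_mul_right this hD0
    linarith
  have hmi : ∀ (ρ : Measure ℂ), IsProbabilityMeasure ρ → Integrable m ρ := by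
    intro ρ hρ
    refine Integrable.mono' (integrable_const R) hmc.aestronglyMeasurable ?_
    exact Eventually.of_forall fun z => by rw [Real.norm_of_nonneg (hm0 z)]; exact hmR z
  have hti : ∀ (ρ : Measure ℂ), Integrable (fun z : ℂ => ‖z‖ ^ 2) ρ → Integrable (tau R) ρ := by
    intro ρ hρ
    refine Integrable.mono' hρ (tau_cont _).aestronglyMeasurable ?_
    exact Eventually.of_forall fun z => by
      rw [Real.norm_of_nonneg (tau_nonneg _ _)]; exact tau_le_sq hR0 z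
  have hsplit : ∀ (ρ : Measure ℂ), IsProbabilityMeasure ρ → Integrable (fun z : ℂ => ‖z‖ ^ 2) ρ →
      ∫ z, ‖z‖ ^ 2 ∂ρ = ∫ z, m z ∂ρ + ∫ z, tau R z ∂ρ := by
    intro ρ hρ h
    rw [← integral_add (hmi ρ hρ) (hti ρ h)]
    exact integral_congr_ae (Eventually.of_forall hmt)
  rw [Real.dist_eq, hsplit (μ i) (hμ i) (hμi i), hsplit ν hν hνi]
  have t1 : ∫ z, tau R z ∂(μ i) ≤ ε / 4 := by
    refine (integral_mono (hti _ (hμi i)) ?_ (tau_anti hRR1)).trans (h1 i hi1)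
    refine Integrable.mono' (hμi i) (tau_cont _).aestronglyMeasurable ?_
    exact Eventually.of_forall fun z => by
      rw [Real.norm_of_nonneg (tau_nonneg _ _)]; exact tau_le_sq hR1 z
  have t2 : 0 ≤ ∫ z, tau R z ∂(μ i) := integral_nonneg (tau_nonneg _)
  have t3 : ∫ z, tau R z ∂ν ≤ ε / 4 := hk1
  have t4 : 0 ≤ ∫ z, tau R z ∂ν := integral_nonneg (tau_nonneg _)
  rw [abs_le] at hΦ'
  rw [abs_lt]
  constructor <;> linarith [hΦ'.1, hΦ'.2]

/-- the mean square distance of two linear combinations of exponentials -/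
theorem G4 (hEX : S_EX) {N : ℕ} (α : ℂ) (S : Matrix (Fin N) (Fin N) ℝ) (hS : S.PosSemidef)
    (p q : Fin N → ℂ) (I : ℂ) (ε : ℝ)
    (h1 : ‖(∑ i, ∑ j, p i * conj (p j) * ((Real.exp (‖α‖ ^ 2 * S i j) : ℝ) : ℂ)) - I‖ ≤ ε)
    (h2 : ‖(∑ i, ∑ j, q i * conj (q j) * ((Real.exp (‖α‖ ^ 2 * S i j) : ℝ) : ℂ)) - I‖ ≤ ε)
    (h3 : ‖(∑ i, ∑ j, p i * conj (q j) * ((Real.exp (‖α‖ ^ 2 * S i j) : ℝ) : ℂ)) - I‖ ≤ ε)
    (h4 : ‖(∑ i, ∑ j, q i * conj (p j) * ((Real.exp (‖α‖ ^ 2 * S i j) : ℝ) : ℂ)) - I‖ ≤ ε) :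
    Integrable (fun w => ‖XX α S p w - XX α S q w‖ ^ 2) (multivariateGaussian 0 S) ∧
    ∫ w, ‖XX α S p w - XX α S q w‖ ^ 2 ∂(multivariateGaussian 0 S) ≤ 4 * ε := by
  obtain ⟨g1, g2⟩ := G2 hEX α S hS (fun i => p i - q i)
  have hsub : ∀ w, XX α S (fun i => p i - q i) w = XX α S p w - XX α S q w := by
    intro w
    unfold XX
    rw [← Finset.sum_sub_distrib]
    exact Finset.sum_congr rfl fun i _ => by ring
  simp_rw [hsub] at g1 g2
  refine ⟨g1, ?_⟩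
  rw [g2]
  have e1 : (∑ i, ∑ j, (p i - q i) * conj (p j - q j) *
      ((Real.exp (‖α‖ ^ 2 * S i j) : ℝ) : ℂ)) =
      ((∑ i, ∑ j, p i * conj (p j) * ((Real.exp (‖α‖ ^ 2 * S i j) : ℝ) : ℂ)) - I) +
      ((∑ i, ∑ j, q i * conj (q j) * ((Real.exp (‖α‖ ^ 2 * S i j) : ℝ) : ℂ)) - I) -
      ((∑ i, ∑ j, p i * conj (q j) * ((Real.exp (‖α‖ ^ 2 * S i j) : ℝ) : ℂ)) - I) -
      ((∑ i, ∑ j, q i * conj (p j) * ((Real.exp (‖α‖ ^ 2 * S i j) : ℝ) : ℂ)) - I) := by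
    have e2 : (∑ i, ∑ j, (p i - q i) * conj (p j - q j) *
        ((Real.exp (‖α‖ ^ 2 * S i j) : ℝ) : ℂ)) =
        (∑ i, ∑ j, p i * conj (p j) * ((Real.exp (‖α‖ ^ 2 * S i j) : ℝ) : ℂ)) +
        (∑ i, ∑ j, q i * conj (q j) * ((Real.exp (‖α‖ ^ 2 * S i j) : ℝ) : ℂ)) -
        (∑ i, ∑ j, p i * conj (q j) * ((Real.exp (‖α‖ ^ 2 * S i j) : ℝ) : ℂ)) -
        (∑ i, ∑ j, q i * conj (p j) * ((Real.exp (‖α‖ ^ 2 * S i j) : ℝ) : ℂ)) := by
      simp only [← Finset.sum_add_distrib, ← Finset.sum_sub_distrib, map_sub]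
      exact Finset.sum_congr rfl fun i _ => Finset.sum_congr rfl fun j _ => by ring
    rw [e2]; ring
  rw [e1]
  refine (Complex.re_le_norm _).trans ?_
  refine (norm_sub_le _ _).trans ?_
  have := (norm_sub_le ((∑ i, ∑ j, p i * conj (p j) * ((Real.exp (‖α‖ ^ 2 * S i j) : ℝ) : ℂ)) - I
    + ((∑ i, ∑ j, q i * conj (q j) * ((Real.exp (‖α‖ ^ 2 * S i j) : ℝ) : ℂ)) - I))
    ((∑ i, ∑ j, p i * conj (q j) * ((Real.exp (‖α‖ ^ 2 * S i j) : ℝ) : ℂ)) - I))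
  have h5 := norm_add_le ((∑ i, ∑ j, p i * conj (p j) * ((Real.exp (‖α‖ ^ 2 * S i j) : ℝ) : ℂ)) - I)
    ((∑ i, ∑ j, q i * conj (q j) * ((Real.exp (‖α‖ ^ 2 * S i j) : ℝ) : ℂ)) - I)
  linarith

variable {K : ℕ → ℕ → ℝ → ℝ → ℝ} {κ C : ℝ} {α : ℂ} {φ : ℝ → ℂ} {I : ℂ}

/-- the second moment of the Gaussian chaos and its convergence -/
theorem ch_second (hEX : S_EX) (hK : KerB K κ C) {δ : ℝ} {J0 : ℕ}
    (hI : ∀ J J' n n' : ℕ, J0 ≤ J → J0 ≤ J' →
      Real.exp ((‖α‖ ^ 2 * C + 2) * J) ≤ n → Real.exp ((‖α‖ ^ 2 * C + 2) * J') ≤ n' →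
      ‖RR K (‖α‖ ^ 2) φ J n J' n' - I‖ ≤ δ) {J n : ℕ} (hJ : J0 ≤ J)
    (hn : Real.exp ((‖α‖ ^ 2 * C + 2) * J) ≤ n) :
    Integrable (fun w => ‖Ch K α φ J n w‖ ^ 2) (multivariateGaussian 0 (KM K J n)) ∧
    |∫ w, ‖Ch K α φ J n w‖ ^ 2 ∂(multivariateGaussian 0 (KM K J n)) - I.re| ≤ δ := by
  obtain ⟨h1, h2⟩ := G2 hEX α (KM K J n) (KM_psd hK J n) (fun k => ph φ n k)
  refine ⟨h1, ?_⟩
  have h := hI J J n n hJ hJ hn hn
  rw [RR_fin] at h
  rw [Ch_eq, h2, ← Complex.sub_re]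
  exact (Complex.abs_re_le_norm _).trans h

/-- uniform integrability of the squares of the Gaussian chaos -/
theorem ch_ui (hEX : S_EX) (hLIN : S_LIN) (hK : KerB K κ C)
    (hI : ∀ δ : ℝ, 0 < δ → ∃ J0 : ℕ, ∀ J J' n n' : ℕ, J0 ≤ J → J0 ≤ J' →
      Real.exp ((‖α‖ ^ 2 * C + 2) * J) ≤ n → Real.exp ((‖α‖ ^ 2 * C + 2) * J') ≤ n' →
      ‖RR K (‖α‖ ^ 2) φ J n J' n' - I‖ ≤ δ) (ε : ℝ) (hε : 0 < ε) :
    ∃ (R : ℝ) (J0 : ℕ), 0 ≤ R ∧ ∀ J n : ℕ, J0 ≤ J → Real.exp ((‖α‖ ^ 2 * C + 2) * J) ≤ n →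
      ∫ w, tau R (Ch K α φ J n w) ∂(multivariateGaussian 0 (KM K J n)) ≤ ε := by
  obtain ⟨J0, hJ0⟩ := hI (ε / 16) (by positivity)
  set ns : ℕ := ⌈Real.exp ((‖α‖ ^ 2 * C + 2) * J0)⌉₊ with hns
  have hns1 : Real.exp ((‖α‖ ^ 2 * C + 2) * J0) ≤ ns := Nat.le_ceil _
  have hs := ch_second hEX hK hJ0 le_rfl hns1
  have hcont : ∀ J n : ℕ, Continuous (Ch K α φ J n) := fun J n => by
    rw [Ch_eq]; exact XX_cont α _ _
  have htt := (tau_tendsto _ (Ch K α φ J0 ns) (hcont _ _).aestronglyMeasurable hs.1).eventually_le_const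
    (show (0 : ℝ) < ε / 4 by positivity)
  obtain ⟨k, hk⟩ := htt.exists
  refine ⟨2 * k, J0, by positivity, fun J n hJ hn => ?_⟩
  have hSp := SJ_psd hK J n J0 ns
  set p : Fin (n + ns) → ℂ := Fin.addCases (fun k : Fin n => ph φ n k) (fun _ => 0) with hp
  set q : Fin (n + ns) → ℂ := Fin.addCases (fun _ => 0) (fun k : Fin ns => ph φ ns k) with hq
  obtain ⟨d1, d2⟩ := G4 hEX α _ hSp p q I (ε / 16) (by
      have h := hJ0 J J n n hJ hJ hn hn
      rw [RR_fin] at h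
      rw [Fin.sum_univ_add]
      simpa [Fin.sum_univ_add, SJ, hp] using h) (by
      have h := hJ0 J0 J0 ns ns le_rfl le_rfl hns1 hns1
      rw [RR_fin] at h
      rw [Fin.sum_univ_add]
      simpa [Fin.sum_univ_add, SJ, hq] using h) (by
      have h := hJ0 J J0 n ns hJ le_rfl hn hns1
      rw [RR_fin] at h
      rw [Fin.sum_univ_add]
      simpa [Fin.sum_univ_add, SJ, hp, hq] using h) (by
      have h := hJ0 J0 J ns n le_rfl hJ hns1 hn
      rw [RR_fin] at h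
      rw [Fin.sum_univ_add]
      simpa [Fin.sum_univ_add, SJ, hp, hq] using h)
  rw [int_L hLIN hK α φ J n J0 ns (tau (2 * k)) (tau_cont _)]
  have hk' : ∫ w, tau k (XX α (SJ K J n J0 ns) q w) ∂(multivariateGaussian 0 (SJ K J n J0 ns)) ≤
      ε / 4 := by
    rw [← int_R hLIN hK α φ J n J0 ns (tau k) (tau_cont _)]
    exact hk
  have hqi := (G2 hEX α _ hSp q).1
  have hpi := (G2 hEX α _ hSp p).1
  have hti : ∀ (R : ℝ) (r : Fin (n + ns) → ℂ), 0 ≤ R →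
      Integrable (fun w => tau R (XX α (SJ K J n J0 ns) r w))
        (multivariateGaussian 0 (SJ K J n J0 ns)) := by
    intro R r hR
    refine Integrable.mono' (G2 hEX α _ hSp r).1
      ((tau_cont _).comp (XX_cont _ _ _)).aestronglyMeasurable ?_
    exact Eventually.of_forall fun w => by
      rw [Real.norm_of_nonneg (tau_nonneg _ _)]; exact tau_le_sq hR _
  calc ∫ w, tau (2 * k) (XX α (SJ K J n J0 ns) p w) ∂(multivariateGaussian 0 (SJ K J n J0 ns))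
      ≤ ∫ w, (2 * ‖XX α (SJ K J n J0 ns) p w - XX α (SJ K J n J0 ns) q w‖ ^ 2 +
          2 * tau k (XX α (SJ K J n J0 ns) q w)) ∂(multivariateGaussian 0 (SJ K J n J0 ns)) := by
        refine integral_mono (hti _ _ (by positivity))
          ((d1.const_mul 2).add ((hti _ _ (by positivity)).const_mul 2)) fun w => ?_
        have h := tau_le (2 * k) (XX α (SJ K J n J0 ns) p w) (XX α (SJ K J n J0 ns) q w)
        rwa [show (2 * (k : ℝ)) / 2 = k by ring] at h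
    _ = 2 * ∫ w, ‖XX α (SJ K J n J0 ns) p w - XX α (SJ K J n J0 ns) q w‖ ^ 2
          ∂(multivariateGaussian 0 (SJ K J n J0 ns)) +
        2 * ∫ w, tau k (XX α (SJ K J n J0 ns) q w) ∂(multivariateGaussian 0 (SJ K J n J0 ns)) := by
        rw [integral_add (d1.const_mul 2) ((hti _ _ (by positivity)).const_mul 2),
          integral_const_mul, integral_const_mul]
    _ ≤ ε := by linarith

end Pool.Agent.Q278.GC
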