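import Pool.Agent.Q278.GC.R1

/-!
# The chaos of the zeros (helper278)
-/

set_option autoImplicit false

namespace Pool.Agent.Q278.GC

open Filter Topology MeasureTheory Complex ProbabilityTheory
open scoped ComplexConjugate
open Pool.Agent.Q150.GC

variable {H : ℝ → ℝ}

theorem ker_kj (hH : Step H) : ∃ C : ℝ, KerB (kj H) (1 / (2 * Real.pi ^ 2)) C :=
  Pool.Agent.Q65.GC.t_K3 Pool.Agent.Q128.GC.t_K1 Pool.Agent.Q128.GC2.t_K2 H hH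

/-- universality: for every `α` and every size of the test function the chaos of the zeros and the
Gaussian chaos have nearly the same law -/
theorem chaos_univ (hH : Step H) {b c : ℝ} (hb0 : 0 ≤ b) (hc0 : 0 ≤ c) :
    ∃ A B K : ℝ, 0 < A ∧ 0 < B ∧ 0 < K ∧ ∀ J : ℕ, 1 ≤ J → ∀ L T : ℝ,
      Real.exp (B * J) ≤ L → Real.exp (B * J) * L ≤ Real.log T → 0 < T →
      ∀ n : ℕ, Real.exp (A * J) ≤ n → (n : ℝ) ≤ Real.exp (2 * A * J) →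
      ∀ (α : ℂ) (φ : ℝ → ℂ), ‖α‖ ≤ b → Continuous φ →
      (∀ x ∈ Set.Icc (0 : ℝ) 1, ‖φ x‖ ≤ Real.exp (c * J)) →
      ∀ Φ : ℂ → ℝ, (∀ z, |Φ z| ≤ 1) → LipschitzWith 1 Φ →
      |1 / T * (∫ t in T..(2 * T), Φ (Mz H α φ J L T t)) -
        ∫ w, Φ (Ch (kj H) α φ J n w) ∂(multivariateGaussian 0 (KM (kj H) J n))| ≤
          K * Real.exp (-J) := by
  obtain ⟨C, hK⟩ := ker_kj hH
  obtain ⟨K, hK0, h⟩ := comp_exp t_LIN hH hK.C1 (fun J => by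
    have := hK.sup J J 0 0
    simpa using this) hb0 hc0
  have h6 := A1f_six hb0 hc0 hK.C1
  exact ⟨A1f b c C, 20 * (2 * A1f b c C + 3), K, by linarith, by linarith, hK0, h⟩

/-- the number of grid points -/
noncomputable def nn (A : ℝ) (J : ℕ) : ℕ := ⌈Real.exp (A * J)⌉₊

lemma nn_ge (A : ℝ) (J : ℕ) : Real.exp (A * J) ≤ nn A J := Nat.le_ceil _

lemma nn_le {A : ℝ} (hA : 6 ≤ A) {J : ℕ} (hJ : 1 ≤ J) : (nn A J : ℝ) ≤ Real.exp (2 * A * J) := by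
  have hj : (1 : ℝ) ≤ J := by exact_mod_cast hJ
  have h1 : (2 : ℝ) ≤ Real.exp (A * J) := by
    have := Real.add_one_le_exp (A * J)
    nlinarith
  have h2 := (Nat.ceil_lt_add_one (Real.exp_pos (A * J)).le).le
  have h3 : Real.exp (2 * A * J) = Real.exp (A * J) * Real.exp (A * J) := by
    rw [← Real.exp_add]; congr 1; ring
  rw [h3]
  unfold nn
  nlinarith

lemma Ch_cont (K : ℕ → ℕ → ℝ → ℝ → ℝ) (α : ℂ) (φ : ℝ → ℂ) (J n : ℕ) : Continuous (Ch K α φ J n) := by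
  rw [Ch_eq]; exact XX_cont α _ _

/-- the law of the Gaussian chaos -/
noncomputable def lawCh (K : ℕ → ℕ → ℝ → ℝ → ℝ) (α : ℂ) (φ : ℝ → ℂ) (J n : ℕ) : Measure ℂ :=
  (multivariateGaussian 0 (KM K J n)).map (Ch K α φ J n)

lemma lawCh_int {K : ℕ → ℕ → ℝ → ℝ → ℝ} {α : ℂ} {φ : ℝ → ℂ} {J n : ℕ} {F : ℂ → ℝ} (hF : Continuous F) :
    ∫ z, F z ∂(lawCh K α φ J n) = ∫ w, F (Ch K α φ J n w) ∂(multivariateGaussian 0 (KM K J n)) :=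
  integral_map (Ch_cont K α φ J n).measurable.aemeasurable hF.aestronglyMeasurable

lemma lawCh_intC {K : ℕ → ℕ → ℝ → ℝ → ℝ} {α : ℂ} {φ : ℝ → ℂ} {J n : ℕ} {F : ℂ → ℂ} (hF : Continuous F) :
    ∫ z, F z ∂(lawCh K α φ J n) = ∫ w, F (Ch K α φ J n w) ∂(multivariateGaussian 0 (KM K J n)) :=
  integral_map (Ch_cont K α φ J n).measurable.aemeasurable hF.aestronglyMeasurable

lemma lawCh_prob (K : ℕ → ℕ → ℝ → ℝ → ℝ) (α : ℂ) (φ : ℝ → ℂ) (J n : ℕ) :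
    IsProbabilityMeasure (lawCh K α φ J n) :=
  Measure.isProbabilityMeasure_map (Ch_cont K α φ J n).measurable.aemeasurable

lemma lawCh_sq {K : ℕ → ℕ → ℝ → ℝ → ℝ} {α : ℂ} {φ : ℝ → ℂ} {J n : ℕ}
    (h : Integrable (fun w => ‖Ch K α φ J n w‖ ^ 2) (multivariateGaussian 0 (KM K J n))) :
    Integrable (fun z => ‖z‖ ^ 2) (lawCh K α φ J n) := by
  unfold lawCh
  rw [integrable_map_measure (by fun_prop) (Ch_cont K α φ J n).measurable.aemeasurable]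
  exact h

/-- the chaos of the zeros converges in the whole mean square phase -/
theorem chaos_main (hH : Step H) {α : ℂ} (hα : ‖α‖ ^ 2 < 2 * Real.pi ^ 2) :
    ∃ A : ℝ, 0 < A ∧ ∀ φ : ℝ → ℂ, Continuous φ → ∃ ν : Measure ℂ, IsProbabilityMeasure ν ∧
      Integrable (fun z => ‖z‖ ^ 2) ν ∧ ∫ z, z ∂ν = ∫ x in (0 : ℝ)..1, φ x ∧
      Tendsto (fun J : ℕ => (∫ x in (0 : ℝ)..1, ∫ y in (0 : ℝ)..1,
        φ x * conj (φ y) * ((Real.exp (‖α‖ ^ 2 * kj H J J x y) : ℝ) : ℂ)).re) atTop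
        (𝓝 (∫ z, ‖z‖ ^ 2 ∂ν)) ∧
      (∀ δ : ℝ, 0 < δ → ∃ J0 : ℕ, ∀ J n : ℕ, J0 ≤ J → Real.exp (A * J) ≤ n →
        ∀ Φ : ℂ → ℝ, (∀ z, |Φ z| ≤ 1) → LipschitzWith 1 Φ →
        |∫ w, Φ (Ch (kj H) α φ J n w) ∂(multivariateGaussian 0 (KM (kj H) J n)) -
          ∫ z, Φ z ∂ν| ≤ δ) ∧
      (∀ δ : ℝ, 0 < δ → ∃ J0 : ℕ, ∀ J : ℕ, J0 ≤ J → ∀ L T : ℝ, Real.exp (A * J) ≤ L →
        Real.exp (A * J) * L ≤ Real.log T → 0 < T →
        ∀ Φ : ℂ → ℝ, (∀ z, |Φ z| ≤ 1) → LipschitzWith 1 Φ →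
        |1 / T * (∫ t in T..(2 * T), Φ (Mz H α φ J L T t)) - ∫ z, Φ z ∂ν| ≤ δ) := by
  obtain ⟨C, hK⟩ := ker_kj hH
  set b : ℝ := ‖α‖ with hb
  have hb0 : 0 ≤ b := norm_nonneg _
  have hπ : 0 < 2 * Real.pi ^ 2 := by positivity
  have hbκ : b ^ 2 * (1 / (2 * Real.pi ^ 2)) < 1 := by
    rw [mul_one_div, div_lt_one hπ]
    exact hα
  obtain ⟨Ku, hKu0, hu⟩ := comp_exp t_LIN hH hK.C1 (fun J => by
    have := hK.sup J J 0 0
    simpa using this) hb0 zero_le_one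
  set A1 : ℝ := A1f b 1 C with hA1
  have h6 : 6 ≤ A1 := A1f_six hb0 zero_le_one hK.C1
  have hge : b ^ 2 * C + 2 ≤ A1 := A1f_ge hb0 zero_le_one hK.C1
  set A : ℝ := 20 * (2 * A1 + 3) with hA
  have hC0 : 0 ≤ C := by linarith [hK.C1]
  have hAge : b ^ 2 * C + 2 ≤ A := by rw [hA]; linarith
  refine ⟨A, by positivity, fun φ hφ => ?_⟩
  obtain ⟨I, hI1, hI2'⟩ := dc2 (kj H) (1 / (2 * Real.pi ^ 2)) C (b ^ 2) hK.C1 hK.κ0 hK.sup hK.lip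
    hK.log hK.lim (by positivity) hbκ φ hφ
  have hI2 : ∀ δ : ℝ, 0 < δ → ∃ J0 : ℕ, ∀ J J' n n' : ℕ, J0 ≤ J → J0 ≤ J' →
      Real.exp ((‖α‖ ^ 2 * C + 2) * J) ≤ n → Real.exp ((‖α‖ ^ 2 * C + 2) * J') ≤ n' →
      ‖RR (kj H) (‖α‖ ^ 2) φ J n J' n' - I‖ ≤ δ := hI2'
  obtain ⟨hc1, ⟨B, JB, hc2⟩, hc3⟩ := t_CH t_EX t_LIN Pool.Agent.Q162.GC.t_DC (kj H) (1 / (2 * Real.pi ^ 2)) C α hK
    hbκ φ hφ
  set J1 : ℕ := max JB 1 with hJ1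
  have hJ11 : 1 ≤ J1 := le_max_right _ _
  have hJ1B : JB ≤ J1 := le_max_left _ _
  have hexp : ∀ J : ℕ, Real.exp ((b ^ 2 * C + 2) * J) ≤ nn A1 J := fun J =>
    (Real.exp_le_exp.2 (mul_le_mul_of_nonneg_right hge (Nat.cast_nonneg J))).trans (nn_ge A1 J)
  have hnn1 : ∀ J : ℕ, 1 ≤ nn A1 J := fun J => by
    have h1 := (Real.exp_pos _).trans_le (nn_ge A1 J)
    exact_mod_cast h1
  set μ : ℕ → Measure ℂ := fun i => lawCh (kj H) α φ (J1 + i) (nn A1 (J1 + i)) with hμ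
  have hμp : ∀ i, IsProbabilityMeasure (μ i) := fun i => lawCh_prob _ _ _ _ _
  have hμsq : ∀ i, Integrable (fun z => ‖z‖ ^ 2) (μ i) ∧ ∫ z, ‖z‖ ^ 2 ∂(μ i) ≤ B := by
    intro i
    obtain ⟨e1, e2⟩ := hc2 (J1 + i) (nn A1 (J1 + i)) (by omega) (hexp _)
    refine ⟨lawCh_sq e1, ?_⟩
    rw [hμ]
    simp only
    rw [lawCh_int (by fun_prop)]
    exact e2
  have hμm : ∀ i, ∫ z, z ∂(μ i) = ∫ x in (0 : ℝ)..1, φ x := by
    intro i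
    rw [hμ]
    simp only
    rw [lawCh_intC (F := fun z => z) continuous_id]
    exact (hc3 (J1 + i) (nn A1 (J1 + i)) (hnn1 _)).2
  obtain ⟨ν, hν1, hν2, hν3, hν4, hν5⟩ := Pool.Agent.Q162.GC.t_PR μ B (∫ x in (0 : ℝ)..1, φ x) hμp
    hμsq hμm (by
      intro δ hδ
      obtain ⟨J0, hJ0⟩ := hc1 δ hδ
      refine ⟨J0, fun i j hi hj Φ hΦ1 hΦ => ?_⟩
      rw [hμ]
      simp only
      rw [lawCh_int hΦ.continuous, lawCh_int hΦ.continuous]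
      exact hJ0 (J1 + i) (J1 + j) _ _ (by omega) (by omega) (hexp _) (hexp _) Φ hΦ1 hΦ)
  -- second moments
  have hsec : Tendsto (fun i => ∫ z, ‖z‖ ^ 2 ∂(μ i)) atTop (𝓝 (∫ z, ‖z‖ ^ 2 ∂ν)) := by
    refine second_moment hμp hν1 (fun i => (hμsq i).1) hν2 ?_ hν5
    intro ε hε
    obtain ⟨R, J0, hR, h⟩ := ch_ui t_EX t_LIN hK hI2 ε hε
    refine ⟨R, J0, hR, fun i hi => ?_⟩
    rw [hμ]
    simp only
    rw [lawCh_int (tau_cont R)]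
    exact h (J1 + i) _ (by omega) (hexp _)
  have hsec2 : Tendsto (fun i => ∫ z, ‖z‖ ^ 2 ∂(μ i)) atTop (𝓝 I.re) := by
    rw [Metric.tendsto_atTop]
    intro ε hε
    obtain ⟨J0, hJ0⟩ := hI2 (ε / 2) (by positivity)
    refine ⟨J0, fun i hi => ?_⟩
    have h1 := (ch_second t_EX hK hJ0 (J := J1 + i) (n := nn A1 (J1 + i)) (by omega) (hexp _)).2
    rw [Real.dist_eq, hμ]
    simp only
    rw [lawCh_int (by fun_prop)]
    linarith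
  have hIν : I.re = ∫ z, ‖z‖ ^ 2 ∂ν := tendsto_nhds_unique hsec2 hsec
  -- the Gaussian chaos
  have hGa : ∀ δ : ℝ, 0 < δ → ∃ J0 : ℕ, ∀ J n : ℕ, J0 ≤ J → Real.exp ((b ^ 2 * C + 2) * J) ≤ n →
        ∀ Φ : ℂ → ℝ, (∀ z, |Φ z| ≤ 1) → LipschitzWith 1 Φ →
        |∫ w, Φ (Ch (kj H) α φ J n w) ∂(multivariateGaussian 0 (KM (kj H) J n)) -
          ∫ z, Φ z ∂ν| ≤ δ := by
    intro δ hδ
    obtain ⟨J0, hJ0⟩ := hc1 (δ / 2) (by positivity)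
    obtain ⟨N, hN⟩ := hν5 (δ / 2) (by positivity)
    refine ⟨J0, fun J n hJ hn Φ hΦ1 hΦ => ?_⟩
    set i : ℕ := max N J0 with hi
    have h1 := hN i (le_max_left _ _) Φ hΦ1 hΦ
    rw [hμ] at h1
    simp only at h1
    rw [lawCh_int hΦ.continuous] at h1
    have h2 := hJ0 J (J1 + i) n (nn A1 (J1 + i)) hJ (by
      have := le_max_right N J0
      omega) hn (hexp _) Φ hΦ1 hΦ
    have h3 := abs_add_le (∫ w, Φ (Ch (kj H) α φ J n w) ∂(multivariateGaussian 0 (KM (kj H) J n)) -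
      ∫ w, Φ (Ch (kj H) α φ (J1 + i) (nn A1 (J1 + i)) w)
        ∂(multivariateGaussian 0 (KM (kj H) (J1 + i) (nn A1 (J1 + i)))))
      (∫ w, Φ (Ch (kj H) α φ (J1 + i) (nn A1 (J1 + i)) w)
        ∂(multivariateGaussian 0 (KM (kj H) (J1 + i) (nn A1 (J1 + i)))) - ∫ z, Φ z ∂ν)
    rw [sub_add_sub_cancel] at h3
    linarith
  refine ⟨ν, hν1, hν2, hν4, ?_, ?_, ?_⟩
  · rw [← hIν]
    exact (Complex.continuous_re.tendsto _).comp hI1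
  · intro δ hδ
    obtain ⟨J0, hJ0⟩ := hGa δ hδ
    exact ⟨J0, fun J n hJ hn => hJ0 J n hJ
      ((Real.exp_le_exp.2 (mul_le_mul_of_nonneg_right hAge (Nat.cast_nonneg J))).trans hn)⟩
  · intro δ hδ
    obtain ⟨J0, hJ0⟩ := hGa (δ / 2) (by positivity)
    obtain ⟨P, hP⟩ := isCompact_Icc.exists_bound_of_continuousOn (hφ.continuousOn (s := Set.Icc (0 : ℝ) 1))
    have hdec : Tendsto (fun J : ℕ => Ku * Real.exp (-(J : ℝ))) atTop (𝓝 (Ku * 0)) :=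
      ((Real.tendsto_exp_neg_atTop_nhds_zero.comp tendsto_natCast_atTop_atTop)).const_mul Ku
    rw [mul_zero] at hdec
    obtain ⟨J2, hJ2⟩ := eventually_atTop.1 (hdec.eventually_le_const (show (0 : ℝ) < δ / 2 by positivity))
    obtain ⟨J3, hJ3⟩ := exists_nat_ge P
    refine ⟨max (max J0 J2) (max J3 1), fun J hJ L T hL hT hT0 Φ hΦ1 hΦ => ?_⟩
    simp only [max_le_iff] at hJ
    obtain ⟨⟨j0, j2⟩, j3, j1⟩ := hJ
    have hPJ : ∀ x ∈ Set.Icc (0 : ℝ) 1, ‖φ x‖ ≤ Real.exp (1 * J) := by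
      intro x hx
      refine (hP x hx).trans (hJ3.trans ?_)
      have e1 : (J3 : ℝ) ≤ J := by exact_mod_cast j3
      have e2 := Real.add_one_le_exp (J : ℝ)
      rw [one_mul]
      linarith
    have h1 := hu J j1 L T hL hT hT0 (nn A1 J) (nn_ge A1 J) (nn_le h6 j1) α φ le_rfl hφ hPJ Φ hΦ1 hΦ
    have h2 := hJ0 J (nn A1 J) j0 (hexp J) Φ hΦ1 hΦ
    have h4 := hJ2 J j2
    have h3 := abs_add_le (1 / T * (∫ t in T..(2 * T), Φ (Mz H α φ J L T t)) -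
      ∫ w, Φ (Ch (kj H) α φ J (nn A1 J) w) ∂(multivariateGaussian 0 (KM (kj H) J (nn A1 J))))
      (∫ w, Φ (Ch (kj H) α φ J (nn A1 J) w) ∂(multivariateGaussian 0 (KM (kj H) J (nn A1 J))) -
        ∫ z, Φ z ∂ν)
    rw [sub_add_sub_cancel] at h3
    linarith

end Pool.Agent.Q278.GC
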