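import Pool.Agent.Q278.GC.Stm3

/-!
# Statements: the whole subcritical phase for real parameters (helper278)
-/

set_option autoImplicit false

namespace Pool.Agent.Q278.GC

open Filter Topology MeasureTheory Complex ProbabilityTheory
open scoped FourierTransform ContDiff ComplexConjugate RealInnerProductSpace
open Pool.Agent.Q278.MC

/-- the properties of the kernels used in the subcritical phase -/
structure KerC (K : ℕ → ℕ → ℝ → ℝ → ℝ) (κ C : ℝ) : Prop where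
  kb : KerB K κ C
  κpos : 0 < κ
  symm : ∀ (j j' : ℕ) (x y : ℝ), K j j' x y = K j' j y x
  diag : ∀ (j j' : ℕ) (x : ℝ), |K j j' x x - κ * Real.log 2 * (min j j' : ℕ)| ≤ C
  cau1 : ∀ (j J J' : ℕ) (x y : ℝ), j ≤ J → j ≤ J' →
    |K j J x y - K j J' x y| ≤ C * (1 / 2) ^ (min J J' - j)
  cau2 : ∀ η ε : ℝ, 0 < η → 0 < ε → ∃ N : ℕ, ∀ J1 J2 J3 J4 : ℕ, N ≤ J1 → N ≤ J2 → N ≤ J3 → N ≤ J4 →
    ∀ x y : ℝ, η ≤ |x - y| → |x - y| ≤ 1 → |K J1 J2 x y - K J3 J4 x y| ≤ ε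

def S_K5 : Prop :=
  S_K1 → S_K2b → ∀ H : ℝ → ℝ, Step H → ∃ C : ℝ, KerC (kj H) (1 / (2 * Real.pi ^ 2)) C

/-- change of measure for Gaussian vectors -/
def S_GIR : Prop :=
  ∀ (ι : Type) [Fintype ι] [DecidableEq ι] (S : Matrix ι ι ℝ), S.PosSemidef →
    ∀ (a : ι → ℝ) (F : EuclideanSpace ℝ ι → ℝ), Measurable F → (∃ B : ℝ, ∀ w, |F w| ≤ B) →
    Integrable (fun w => Real.exp ((∑ i, a i * w i) - (∑ i, ∑ j, a i * a j * S i j) / 2) * F w)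
      (multivariateGaussian 0 S) ∧
    ∫ w, Real.exp ((∑ i, a i * w i) - (∑ i, ∑ j, a i * a j * S i j) / 2) * F w
        ∂(multivariateGaussian (0 : EuclideanSpace ℝ ι) S) =
      ∫ w, F (w + WithLp.toLp 2 (S.mulVec a)) ∂(multivariateGaussian (0 : EuclideanSpace ℝ ι) S)

/-- tails and small intervals for one coordinate -/
def S_TA : Prop :=
  ∀ (ι : Type) [Fintype ι] [DecidableEq ι] (S : Matrix ι ι ℝ), S.PosSemidef → ∀ i : ι,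
    (∀ v u : ℝ, S i i ≤ v → 0 < v → 0 ≤ u →
      (multivariateGaussian (0 : EuclideanSpace ℝ ι) S).real {w | u ≤ w i} ≤
        Real.exp (-u ^ 2 / (2 * v)) ∧
      (multivariateGaussian (0 : EuclideanSpace ℝ ι) S).real {w | w i ≤ -u} ≤
        Real.exp (-u ^ 2 / (2 * v))) ∧
    (∀ t δ : ℝ, 0 < S i i → 0 ≤ δ →
      (multivariateGaussian (0 : EuclideanSpace ℝ ι) S).real {w | t ≤ w i ∧ w i ≤ t + δ} ≤
        δ / Real.sqrt (S i i))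

/-- the covariance matrix of the fields at the scales `0..Jm` and the places `k/n` -/
noncomputable def SB (K : ℕ → ℕ → ℝ → ℝ → ℝ) (Jm n : ℕ) :
    Matrix (Fin (Jm + 1) × Fin n) (Fin (Jm + 1) × Fin n) ℝ :=
  Matrix.of fun p q => K p.1 q.1 ((p.2 : ℕ) / (n : ℝ)) ((q.2 : ℕ) / (n : ℝ))

/-- the field at scale `j` and place `k/n`, for `j ≤ Jm` -/
noncomputable def co {Jm n : ℕ} (w : EuclideanSpace ℝ (Fin (Jm + 1) × Fin n)) (j : ℕ) (k : Fin n) : ℝ :=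
  w (Fin.ofNat (Jm + 1) j, k)

/-- the field is not too large at the scales `j0..J` -/
def good {Jm n : ℕ} (a : ℝ) (j0 J : ℕ) (w : EuclideanSpace ℝ (Fin (Jm + 1) × Fin n)) (k : Fin n) : Prop :=
  ∀ j : ℕ, j0 ≤ j → j ≤ J → co w j k ≤ a * j

/-- the normalised exponential -/
noncomputable def ex (K : ℕ → ℕ → ℝ → ℝ → ℝ) (γ : ℝ) {Jm n : ℕ} (J : ℕ)
    (w : EuclideanSpace ℝ (Fin (Jm + 1) × Fin n)) (k : Fin n) : ℝ :=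
  Real.exp (γ * co w J k - γ ^ 2 / 2 * K J J ((k : ℕ) / (n : ℝ)) ((k : ℕ) / (n : ℝ)))

open Classical in
/-- the truncated two-point function -/
noncomputable def QQ (K : ℕ → ℕ → ℝ → ℝ → ℝ) (γ a : ℝ) (j0 Jm n J1 J2 : ℕ) (k l : Fin n) : ℝ :=
  ∫ w, (if good a j0 J1 w k ∧ good a j0 J2 w l then ex K γ J1 w k * ex K γ J2 w l else 0)
    ∂(multivariateGaussian (0 : EuclideanSpace ℝ (Fin (Jm + 1) × Fin n)) (SB K Jm n))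

/-- the probability in the formula for `QQ` -/
noncomputable def PP (K : ℕ → ℕ → ℝ → ℝ → ℝ) (γ a : ℝ) (j0 Jm n J1 J2 : ℕ) (k l : Fin n) : ℝ :=
  (multivariateGaussian (0 : EuclideanSpace ℝ (Fin (Jm + 1) × Fin n)) (SB K Jm n)).real
    {w | (∀ j : ℕ, j0 ≤ j → j ≤ J1 → co w j k ≤ a * j -
        γ * (K j J1 ((k : ℕ) / (n : ℝ)) ((k : ℕ) / (n : ℝ)) +
          K j J2 ((k : ℕ) / (n : ℝ)) ((l : ℕ) / (n : ℝ)))) ∧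
      (∀ j : ℕ, j0 ≤ j → j ≤ J2 → co w j l ≤ a * j -
        γ * (K j J1 ((l : ℕ) / (n : ℝ)) ((k : ℕ) / (n : ℝ)) +
          K j J2 ((l : ℕ) / (n : ℝ)) ((l : ℕ) / (n : ℝ))))}

def S_QF : Prop :=
  ∀ (K : ℕ → ℕ → ℝ → ℝ → ℝ) (κ C : ℝ), KerB K κ C →
    ∀ (γ a : ℝ) (j0 Jm n J1 J2 : ℕ) (k l : Fin n), J1 ≤ Jm → J2 ≤ Jm →
    QQ K γ a j0 Jm n J1 J2 k l =
      Real.exp (γ ^ 2 * K J1 J2 ((k : ℕ) / (n : ℝ)) ((l : ℕ) / (n : ℝ))) * PP K γ a j0 Jm n J1 J2 k l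

/-- the exponent of the truncated two-point function -/
noncomputable def sx (κ γ β : ℝ) : ℝ := κ * (γ ^ 2 - (2 * γ - β) ^ 2 / 2)

open Classical in
/-- the points outside the good event carry little mass -/
def S_Q1 : Prop :=
  ∀ (K : ℕ → ℕ → ℝ → ℝ → ℝ) (κ C : ℝ), KerC K κ C → ∀ γ β : ℝ, 0 < γ → γ < β →
    ∀ ε : ℝ, 0 < ε → ∃ j1 : ℕ, ∀ j0 : ℕ, j1 ≤ j0 → ∀ (Jm n J : ℕ) (k : Fin n), J ≤ Jm →
      Integrable (fun w => ex K γ J w k)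
        (multivariateGaussian (0 : EuclideanSpace ℝ (Fin (Jm + 1) × Fin n)) (SB K Jm n)) ∧
      ∫ w, (if good (β * (κ * Real.log 2)) j0 J w k then 0 else ex K γ J w k)
        ∂(multivariateGaussian (0 : EuclideanSpace ℝ (Fin (Jm + 1) × Fin n)) (SB K Jm n)) ≤ ε

/-- the bound of the two-point function -/
def S_Q2 : Prop :=
  ∀ (K : ℕ → ℕ → ℝ → ℝ → ℝ) (κ C : ℝ), KerC K κ C → ∀ γ β : ℝ, 0 < γ → γ < β → β < 2 * γ →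
    ∀ j0 : ℕ, ∃ C' : ℝ, 0 < C' ∧ ∀ (Jm n J1 J2 : ℕ) (k l : Fin n), J1 ≤ Jm → J2 ≤ Jm →
      0 ≤ QQ K γ (β * (κ * Real.log 2)) j0 Jm n J1 J2 k l ∧
      QQ K γ (β * (κ * Real.log 2)) j0 Jm n J1 J2 k l ≤
        C' * Real.exp (sx κ γ β * Real.log 2 * (min J1 J2 : ℕ)) ∧
      (k ≠ l → QQ K γ (β * (κ * Real.log 2)) j0 Jm n J1 J2 k l ≤
        C' * |((k : ℕ) : ℝ) / n - ((l : ℕ) : ℝ) / n| ^ (-sx κ γ β))

/-- the two-point function at distant points converges -/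
def S_Q3 : Prop :=
  ∀ (K : ℕ → ℕ → ℝ → ℝ → ℝ) (κ C : ℝ), KerC K κ C → ∀ γ β : ℝ, 0 < γ → γ < β →
    ∀ j0 : ℕ, C + 1 ≤ κ * Real.log 2 * j0 → ∀ ε η : ℝ, 0 < ε → 0 < η → ∃ N : ℕ,
      ∀ (Jm n J1 J2 J3 J4 : ℕ) (k l : Fin n), N ≤ J1 → N ≤ J2 → N ≤ J3 → N ≤ J4 →
        J1 ≤ Jm → J2 ≤ Jm → J3 ≤ Jm → J4 ≤ Jm →
        η ≤ |((k : ℕ) : ℝ) / n - ((l : ℕ) : ℝ) / n| →
        |QQ K γ (β * (κ * Real.log 2)) j0 Jm n J1 J2 k l -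
          QQ K γ (β * (κ * Real.log 2)) j0 Jm n J3 J4 k l| ≤ ε

open Classical in
/-- the truncated chaos on the big space -/
noncomputable def Mt (K : ℕ → ℕ → ℝ → ℝ → ℝ) (γ a : ℝ) (φ : ℝ → ℂ) (j0 : ℕ) {Jm n : ℕ} (J : ℕ)
    (w : EuclideanSpace ℝ (Fin (Jm + 1) × Fin n)) : ℂ :=
  ∑ k : Fin n, ph φ n k * (((if good a j0 J w k then ex K γ J w k else 0) : ℝ) : ℂ)

/-- mean square convergence of the truncated chaos -/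
def S_Q4 : Prop :=
  ∀ (K : ℕ → ℕ → ℝ → ℝ → ℝ) (κ C : ℝ), KerC K κ C → ∀ γ β : ℝ, 0 < γ → γ < β → β < 2 * γ →
    sx κ γ β < 1 → ∀ j0 : ℕ, C + 1 ≤ κ * Real.log 2 * j0 → ∀ φ : ℝ → ℂ, Continuous φ →
      (∀ ε : ℝ, 0 < ε → ∃ N : ℕ, ∀ Jm n J1 J2 : ℕ, N ≤ J1 → N ≤ J2 → J1 ≤ Jm → J2 ≤ Jm →
        Real.exp Jm ≤ n →
        Integrable (fun w => ‖Mt K γ (β * (κ * Real.log 2)) φ j0 J1 w -
            Mt K γ (β * (κ * Real.log 2)) φ j0 J2 w‖ ^ 2)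
          (multivariateGaussian (0 : EuclideanSpace ℝ (Fin (Jm + 1) × Fin n)) (SB K Jm n)) ∧
        ∫ w, ‖Mt K γ (β * (κ * Real.log 2)) φ j0 J1 w -
            Mt K γ (β * (κ * Real.log 2)) φ j0 J2 w‖ ^ 2
          ∂(multivariateGaussian (0 : EuclideanSpace ℝ (Fin (Jm + 1) × Fin n)) (SB K Jm n)) ≤ ε) ∧
      (∃ B : ℝ, ∀ Jm n J : ℕ, J ≤ Jm → Real.exp Jm ≤ n →
        Integrable (fun w => ‖Mt K γ (β * (κ * Real.log 2)) φ j0 J w‖ ^ 2)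
          (multivariateGaussian (0 : EuclideanSpace ℝ (Fin (Jm + 1) × Fin n)) (SB K Jm n)) ∧
        ∫ w, ‖Mt K γ (β * (κ * Real.log 2)) φ j0 J w‖ ^ 2
          ∂(multivariateGaussian (0 : EuclideanSpace ℝ (Fin (Jm + 1) × Fin n)) (SB K Jm n)) ≤ B)

/-- the marginal of the big vector at one scale -/
def S_Q6 : Prop :=
  ∀ (K : ℕ → ℕ → ℝ → ℝ → ℝ) (κ C : ℝ), KerB K κ C → ∀ Jm n J : ℕ, J ≤ Jm →
    ∀ F : EuclideanSpace ℝ (Fin n) → ℝ, Continuous F →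
    ∫ w, F (WithLp.toLp 2 fun k => co w J k)
      ∂(multivariateGaussian (0 : EuclideanSpace ℝ (Fin (Jm + 1) × Fin n)) (SB K Jm n)) =
    ∫ w, F w ∂(multivariateGaussian 0 (KM K J n))

/-- completeness with uniform integrability -/
def S_Q8 : Prop :=
  ∀ (μ : ℕ → Measure ℂ) (c : ℂ), (∀ i, IsProbabilityMeasure (μ i)) →
    (∀ i, Integrable (fun z => z) (μ i)) →
    (∀ ε : ℝ, 0 < ε → ∃ (R : ℝ) (N : ℕ), 0 ≤ R ∧ ∀ i, N ≤ i → ∫ z, max 0 (‖z‖ - R) ∂(μ i) ≤ ε) →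
    (∀ i, ∫ z, z ∂(μ i) = c) →
    (∀ δ : ℝ, 0 < δ → ∃ N : ℕ, ∀ i j : ℕ, N ≤ i → N ≤ j → ∀ Φ : ℂ → ℝ, (∀ z, |Φ z| ≤ 1) →
      LipschitzWith 1 Φ → |∫ z, Φ z ∂(μ i) - ∫ z, Φ z ∂(μ j)| ≤ δ) →
    ∃ ν : Measure ℂ, IsProbabilityMeasure ν ∧ Integrable (fun z => z) ν ∧ ∫ z, z ∂ν = c ∧
      ∀ δ : ℝ, 0 < δ → ∃ N : ℕ, ∀ i : ℕ, N ≤ i → ∀ Φ : ℂ → ℝ, (∀ z, |Φ z| ≤ 1) →
        LipschitzWith 1 Φ → |∫ z, Φ z ∂(μ i) - ∫ z, Φ z ∂ν| ≤ δ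

end Pool.Agent.Q278.GC
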