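import Pool.Agent.Q278.GC.R2
import Pool.Agent.Q278.GC.Stm5

/-!
# Independence of the grid at a fixed scale (helper278, after helper162)
-/

set_option autoImplicit false

open MeasureTheory Filter Topology Set ProbabilityTheory
open scoped ComplexConjugate

namespace Pool.Agent.Q278.GC

open Pool.Agent.Q162.GC (UI MM exp_sub_le FF FF_cont ph' riemann RR')
open Pool.Agent.Q150.GC

/-- the sums of second moments at one scale and two fine grids -/
theorem rr_near {K : ℕ → ℕ → ℝ → ℝ → ℝ} {κ C b : ℝ} (hK : KerB K κ C) (hb : 0 ≤ b) {φ : ℝ → ℂ}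
    (hφ : Continuous φ) : ∃ D : ℝ, 0 ≤ D ∧ ∀ J n n' : ℕ,
      Real.exp ((b * C + 2) * J) ≤ n → Real.exp ((b * C + 2) * J) ≤ n' →
      ‖RR K b φ J n J n' - ∫ z, FF (K J J) b φ z ∂MM‖ ≤ D * Real.exp (-(J : ℝ)) := by
  have hC1 := hK.C1
  have hsup := hK.sup
  have hlip := hK.lip
  obtain ⟨P, hP⟩ : ∃ P : ℝ, ∀ x ∈ Icc (0 : ℝ) 1, ‖φ x‖ ≤ P := by
    obtain ⟨P, hP⟩ := isCompact_Icc.exists_bound_of_continuousOn (f := φ) (s := Icc (0 : ℝ) 1) hφ.continuousOn
    exact ⟨P, hP⟩
  have hP0 : 0 ≤ P := (norm_nonneg _).trans (hP 0 ⟨le_rfl, zero_le_one⟩)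
  have hC0 : 0 ≤ C := by linarith
  have hKc : ∀ J J' : ℕ, Continuous fun z : ℝ × ℝ => K J J' z.1 z.2 := by
    intro J J'
    have hL : LipschitzWith (2 * (C * 2 ^ (min J J'))).toNNReal fun z : ℝ × ℝ => K J J' z.1 z.2 := by
      refine LipschitzWith.of_dist_le_mul fun z w => ?_
      rw [Real.coe_toNNReal _ (by positivity), Real.dist_eq]
      refine (hlip J J' z.1 w.1 z.2 w.2).trans ?_
      have h1 : |z.1 - w.1| ≤ dist z w := by rw [← Real.dist_eq]; exact le_max_left _ _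
      have h2 : |z.2 - w.2| ≤ dist z w := by rw [← Real.dist_eq]; exact le_max_right _ _
      have h3 : 0 ≤ C * 2 ^ (min J J') := by positivity
      nlinarith
    exact hL.continuous
  set D : ℝ := P ^ 2 * (2 * b * C * Real.exp (b * C)) with hD
  have hD0 : 0 ≤ D := by positivity
  refine ⟨D, hD0, fun m n n' hn hn' => ?_⟩
  have hnpos : 0 < n := by
    have := (Real.exp_pos ((b * C + 2) * m)).trans_le hn
    exact_mod_cast this
  have hnpos' : 0 < n' := by
    have := (Real.exp_pos ((b * C + 2) * m)).trans_le hn'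
    exact_mod_cast this
  have hn0 : (0 : ℝ) < n := by exact_mod_cast hnpos
  have hn0' : (0 : ℝ) < n' := by exact_mod_cast hnpos'
  set A : ℝ := b * C + 2 with hA
  have hA0 : 0 < A := by positivity
  have hinv : ∀ (q : ℕ), Real.exp (A * m) ≤ q → 1 / (q : ℝ) ≤ Real.exp (-(A * m)) := by
    intro q hq
    rw [Real.exp_neg, one_div]
    exact inv_anti₀ (Real.exp_pos _) hq
  have hi1 := hinv n hn
  have hi2 := hinv n' hn'
  set ε : ℝ := Real.exp (b * (C * (1 + m))) * (b * (C * 2 ^ m * (2 * Real.exp (-(A * m))))) with hε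
  have hε0 : 0 ≤ ε := by positivity
  have hR := riemann (hKc m m) b hφ hP hε0 hnpos hnpos' ?_
  · have hε2 : P ^ 2 * ε ≤ D * Real.exp (-(m : ℝ)) := by
      have h2m : (2 : ℝ) ^ m ≤ Real.exp m := by
        have h1 : (2 : ℝ) ≤ Real.exp 1 := by
          have := Real.exp_one_gt_d9
          linarith
        calc (2 : ℝ) ^ m ≤ (Real.exp 1) ^ m := pow_le_pow_left₀ (by norm_num) h1 m
          _ = Real.exp m := by rw [← Real.exp_nat_mul, mul_one]
      have h3 : ε ≤ 2 * b * C * Real.exp (b * C) * Real.exp (-(m : ℝ)) := by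
        calc ε = 2 * b * C * (Real.exp (b * (C * (1 + m))) * Real.exp (-(A * m))) * 2 ^ m := by rw [hε]; ring
          _ ≤ 2 * b * C * (Real.exp (b * (C * (1 + m))) * Real.exp (-(A * m))) * Real.exp m := by gcongr
          _ = 2 * b * C * (Real.exp (b * (C * (1 + m))) * Real.exp (-(A * m)) * Real.exp m) := by ring
          _ = 2 * b * C * (Real.exp (b * C) * Real.exp (-(m : ℝ))) := by
              rw [← Real.exp_add, ← Real.exp_add, ← Real.exp_add]
              congr 2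
              rw [hA]
              ring
          _ = 2 * b * C * Real.exp (b * C) * Real.exp (-(m : ℝ)) := by ring
      calc P ^ 2 * ε ≤ P ^ 2 * (2 * b * C * Real.exp (b * C) * Real.exp (-(m : ℝ))) := by gcongr
        _ = D * Real.exp (-(m : ℝ)) := by rw [hD]; ring
    exact hR.trans hε2
  · intro k l x y hx1 hx2 hy1 hy2
    have hs : ∀ u v : ℝ, b * K m m u v ≤ b * (C * (1 + m)) := fun u v =>
      mul_le_mul_of_nonneg_left ((le_abs_self _).trans (by
        have := hsup m m u v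
        rw [min_self] at this
        exact_mod_cast this)) hb
    refine (exp_sub_le _ _ (b * (C * (1 + m))) (hs _ _) (hs _ _)).trans ?_
    rw [hε]
    refine mul_le_mul_of_nonneg_left ?_ (Real.exp_pos _).le
    rw [← mul_sub, abs_mul, abs_of_nonneg hb]
    refine mul_le_mul_of_nonneg_left ?_ hb
    refine (hlip m m _ _ _ _).trans ?_
    rw [min_self]
    refine mul_le_mul_of_nonneg_left ?_ (by positivity)
    have e1 : |(k : ℝ) / n - x| ≤ 1 / n := by
      rw [abs_le]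
      have : ((k : ℝ) + 1) / n = k / n + 1 / n := add_div _ _ _
      have h0 : 0 ≤ 1 / (n : ℝ) := by positivity
      constructor <;> linarith
    have e2 : |(l : ℝ) / n' - y| ≤ 1 / n' := by
      rw [abs_le]
      have : ((l : ℝ) + 1) / n' = l / n' + 1 / n' := add_div _ _ _
      have h0 : 0 ≤ 1 / (n' : ℝ) := by positivity
      constructor <;> linarith
    linarith

/-- the law of the chaos at a given large scale does not depend on the (fine) grid -/
theorem grid_ind {K : ℕ → ℕ → ℝ → ℝ → ℝ} {κ C : ℝ} (hK : KerB K κ C) (α : ℂ) {φ : ℝ → ℂ}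
    (hφ : Continuous φ) (δ : ℝ) (hδ : 0 < δ) : ∃ J0 : ℕ, ∀ J n n' : ℕ, J0 ≤ J →
      Real.exp ((‖α‖ ^ 2 * C + 2) * J) ≤ n → Real.exp ((‖α‖ ^ 2 * C + 2) * J) ≤ n' →
      ∀ Φ : ℂ → ℝ, (∀ z, |Φ z| ≤ 1) → LipschitzWith 1 Φ →
      |∫ w, Φ (Ch K α φ J n w) ∂(multivariateGaussian 0 (KM K J n)) -
        ∫ w, Φ (Ch K α φ J n' w) ∂(multivariateGaussian 0 (KM K J n'))| ≤ δ := by
  obtain ⟨D, hD0, hD⟩ := rr_near (b := ‖α‖ ^ 2) hK (by positivity) hφ
  have hdec : Tendsto (fun J : ℕ => D * Real.exp (-(J : ℝ))) atTop (𝓝 (D * 0)) :=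
    ((Real.tendsto_exp_neg_atTop_nhds_zero.comp tendsto_natCast_atTop_atTop)).const_mul D
  rw [mul_zero] at hdec
  obtain ⟨J0, hJ0⟩ := eventually_atTop.1 (hdec.eventually_le_const (show (0 : ℝ) < δ ^ 2 / 4 by positivity))
  refine ⟨J0, fun J n n' hJ hn hn' Φ hΦ1 hΦ => ?_⟩
  have hsm := hJ0 J hJ
  rw [int_L t_LIN hK α φ J n J n' Φ hΦ.continuous, int_R t_LIN hK α φ J n J n' Φ hΦ.continuous]
  apply G3 t_EX α _ (SJ_psd hK J n J n') _ _ (∫ z, FF (K J J) (‖α‖ ^ 2) φ z ∂MM) δ hδ _ _ _ _ Φ hΦ1 hΦ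
  · have h := (hD J n n hn hn).trans hsm
    rw [RR_fin] at h
    rw [Fin.sum_univ_add]
    simpa [Fin.sum_univ_add, SJ] using h
  · have h := (hD J n' n' hn' hn').trans hsm
    rw [RR_fin] at h
    rw [Fin.sum_univ_add]
    simpa [Fin.sum_univ_add, SJ] using h
  · have h := (hD J n n' hn hn').trans hsm
    rw [RR_fin] at h
    rw [Fin.sum_univ_add]
    simpa [Fin.sum_univ_add, SJ] using h
  · have h := (hD J n' n hn' hn).trans hsm
    rw [RR_fin] at h
    rw [Fin.sum_univ_add]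
    simpa [Fin.sum_univ_add, SJ] using h

end Pool.Agent.Q278.GC
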