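import Pool.Agent.Q278.GC.S1

/-!
# The Gaussian chaos in the whole subcritical phase, assembly (helper278)
-/

set_option autoImplicit false

open MeasureTheory Filter Topology Set ProbabilityTheory
open scoped ComplexConjugate

namespace Pool.Agent.Q278.GC

open Pool.Agent.Q150.GC

variable {K : ℕ → ℕ → ℝ → ℝ → ℝ} {κ C γ : ℝ} {φ : ℝ → ℂ}

/-- the Gaussian measure on the big space -/
noncomputable abbrev NB (K : ℕ → ℕ → ℝ → ℝ → ℝ) (Jm n : ℕ) :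
    Measure (EuclideanSpace ℝ (Fin (Jm + 1) × Fin n)) :=
  multivariateGaussian (0 : EuclideanSpace ℝ (Fin (Jm + 1) × Fin n)) (SB K Jm n)

/-- the full chaos on the big space -/
noncomputable def Mf (K : ℕ → ℕ → ℝ → ℝ → ℝ) (γ : ℝ) (φ : ℝ → ℂ) {Jm n : ℕ} (J : ℕ)
    (w : EuclideanSpace ℝ (Fin (Jm + 1) × Fin n)) : ℂ :=
  ∑ k : Fin n, ph φ n k * ((ex K γ J w k : ℝ) : ℂ)

lemma Ch_co (J : ℕ) {Jm n : ℕ} (w : EuclideanSpace ℝ (Fin (Jm + 1) × Fin n)) :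
    Ch K (γ : ℂ) φ J n (WithLp.toLp 2 fun k => co w J k) = Mf K γ φ J w := by
  unfold Ch Mf
  refine Finset.sum_congr rfl fun k _ => ?_
  congr 1
  unfold ex
  rw [Complex.ofReal_exp]
  congr 1
  push_cast
  rfl

lemma int_big (hQ6 : S_Q6) (hK : KerB K κ C) {Jm n J : ℕ} (hJ : J ≤ Jm) {F : ℂ → ℝ} (hF : Continuous F) :
    ∫ w, F (Ch K (γ : ℂ) φ J n w) ∂(multivariateGaussian 0 (KM K J n)) =
      ∫ w, F (Mf K γ φ J w) ∂(NB K Jm n) := by
  rw [← hQ6 K κ C hK Jm n J hJ (fun w => F (Ch K (γ : ℂ) φ J n w)) (hF.comp (Ch_cont K _ φ J n))]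
  refine integral_congr_ae (Eventually.of_forall fun w => ?_)
  simp only [Ch_co]

lemma sum_ph_le {P : ℝ} (hP : ∀ x ∈ Set.Icc (0 : ℝ) 1, ‖φ x‖ ≤ P) (hP0 : 0 ≤ P) (n : ℕ) :
    ∑ k : Fin n, ‖ph φ n k‖ ≤ P := by
  rcases Nat.eq_zero_or_pos n with rfl | hn
  · simpa using hP0
  · calc ∑ k : Fin n, ‖ph φ n k‖ ≤ ∑ _k : Fin n, P / n :=
          Finset.sum_le_sum fun k _ => ph_le hP k.2
      _ = P := by
          rw [Finset.sum_const, Finset.card_univ, Fintype.card_fin, nsmul_eq_mul]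
          field_simp

open Classical in
/-- the mass outside the good event -/
lemma bad_mass {β ε : ℝ} {j0 Jm n J : ℕ}
    (hi : ∀ k : Fin n, Integrable (fun w => ex K γ J w k) (NB K Jm n))
    (h : ∀ k : Fin n, ∫ w, (if good (β * (κ * Real.log 2)) j0 J w k then 0 else ex K γ J w k) ∂(NB K Jm n) ≤ ε)
    {P : ℝ} (hP : ∀ x ∈ Set.Icc (0 : ℝ) 1, ‖φ x‖ ≤ P) (hP0 : 0 ≤ P) (hε : 0 ≤ ε) :
    Integrable (fun w => ‖Mf K γ φ J w - Mt K γ (β * (κ * Real.log 2)) φ j0 J w‖) (NB K Jm n) ∧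
    ∫ w, ‖Mf K γ φ J w - Mt K γ (β * (κ * Real.log 2)) φ j0 J w‖ ∂(NB K Jm n) ≤ P * ε := by
  set a : ℝ := β * (κ * Real.log 2) with ha
  have hco : ∀ (j : ℕ) (k : Fin n), Measurable fun w : EuclideanSpace ℝ (Fin (Jm + 1) × Fin n) => co w j k := by
    intro j k
    unfold co
    fun_prop
  have hgood : ∀ k : Fin n, MeasurableSet {w : EuclideanSpace ℝ (Fin (Jm + 1) × Fin n) | good a j0 J w k} := by
    intro k
    have : {w : EuclideanSpace ℝ (Fin (Jm + 1) × Fin n) | good a j0 J w k} =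
        ⋂ j : ℕ, ⋂ _ : j0 ≤ j, ⋂ _ : j ≤ J, {w | co w j k ≤ a * j} := by
      ext w
      simp [good]
    rw [this]
    refine MeasurableSet.iInter fun j => MeasurableSet.iInter fun _ => MeasurableSet.iInter fun _ => ?_
    exact measurableSet_le (hco j k) measurable_const
  have hexm : ∀ k : Fin n, Measurable fun w : EuclideanSpace ℝ (Fin (Jm + 1) × Fin n) => ex K γ J w k := by
    intro k
    unfold ex
    have := hco J k
    fun_prop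
  have hbm : ∀ k : Fin n, Measurable fun w : EuclideanSpace ℝ (Fin (Jm + 1) × Fin n) =>
      (if good a j0 J w k then (0 : ℝ) else ex K γ J w k) := fun k =>
    Measurable.ite (hgood k) measurable_const (hexm k)
  have hgm : ∀ k : Fin n, Measurable fun w : EuclideanSpace ℝ (Fin (Jm + 1) × Fin n) =>
      (if good a j0 J w k then ex K γ J w k else (0 : ℝ)) := fun k =>
    Measurable.ite (hgood k) (hexm k) measurable_const
  have hbi : ∀ k : Fin n, Integrable (fun w : EuclideanSpace ℝ (Fin (Jm + 1) × Fin n) =>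
      (if good a j0 J w k then (0 : ℝ) else ex K γ J w k)) (NB K Jm n) := by
    intro k
    refine (hi k).mono' (hbm k).aestronglyMeasurable (Eventually.of_forall fun w => ?_)
    have h0 : 0 ≤ ex K γ J w k := (Real.exp_pos _).le
    split_ifs
    · simpa using h0
    · rw [Real.norm_of_nonneg h0]
  have hpt : ∀ w : EuclideanSpace ℝ (Fin (Jm + 1) × Fin n), ‖Mf K γ φ J w - Mt K γ a φ j0 J w‖ ≤
      ∑ k : Fin n, ‖ph φ n k‖ * (if good a j0 J w k then (0 : ℝ) else ex K γ J w k) := by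
    intro w
    unfold Mf Mt
    rw [← Finset.sum_sub_distrib]
    refine (norm_sum_le _ _).trans (Finset.sum_le_sum fun k _ => ?_)
    rw [← mul_sub, norm_mul, ← Complex.ofReal_sub, Complex.norm_real]
    refine mul_le_mul_of_nonneg_left (le_of_eq ?_) (norm_nonneg _)
    have h0 : 0 ≤ ex K γ J w k := (Real.exp_pos _).le
    split_ifs
    · simp
    · rw [sub_zero, Real.norm_of_nonneg h0]
  have hsi : Integrable (fun w : EuclideanSpace ℝ (Fin (Jm + 1) × Fin n) =>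
      ∑ k : Fin n, ‖ph φ n k‖ * (if good a j0 J w k then (0 : ℝ) else ex K γ J w k)) (NB K Jm n) :=
    integrable_finsetSum _ fun k _ => (hbi k).const_mul _
  have hmeas : Measurable fun w : EuclideanSpace ℝ (Fin (Jm + 1) × Fin n) =>
      ‖Mf K γ φ J w - Mt K γ a φ j0 J w‖ := by
    unfold Mf Mt
    refine Measurable.norm (Measurable.sub ?_ ?_)
    · exact Finset.measurable_fun_sum _ fun k _ =>
        (Complex.measurable_ofReal.comp (hexm k)).const_mul _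
    · exact Finset.measurable_fun_sum _ fun k _ =>
        (Complex.measurable_ofReal.comp (hgm k)).const_mul _
  have hint : Integrable (fun w => ‖Mf K γ φ J w - Mt K γ a φ j0 J w‖) (NB K Jm n) :=
    hsi.mono' hmeas.aestronglyMeasurable (Eventually.of_forall fun w => by
      rw [norm_norm]; exact hpt w)
  refine ⟨hint, ?_⟩
  calc ∫ w, ‖Mf K γ φ J w - Mt K γ a φ j0 J w‖ ∂(NB K Jm n)
      ≤ ∫ w, (∑ k : Fin n, ‖ph φ n k‖ * (if good a j0 J w k then (0 : ℝ) else ex K γ J w k)) ∂(NB K Jm n) :=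
        integral_mono hint hsi hpt
    _ = ∑ k : Fin n, ‖ph φ n k‖ * ∫ w, (if good a j0 J w k then (0 : ℝ) else ex K γ J w k) ∂(NB K Jm n) := by
        rw [integral_finsetSum _ fun k _ => (hbi k).const_mul _]
        exact Finset.sum_congr rfl fun k _ => integral_const_mul _ _
    _ ≤ ∑ k : Fin n, ‖ph φ n k‖ * ε :=
        Finset.sum_le_sum fun k _ => mul_le_mul_of_nonneg_left (h k) (norm_nonneg _)
    _ = (∑ k : Fin n, ‖ph φ n k‖) * ε := by rw [Finset.sum_mul]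
    _ ≤ P * ε := mul_le_mul_of_nonneg_right (sum_ph_le hP hP0 n) hε

/-- the threshold parameter -/
lemma beta_exists (hκ : 0 < κ) (hγ0 : 0 < γ) (hγ : γ ^ 2 * κ < 2) :
    ∃ β : ℝ, γ < β ∧ β < 2 * γ ∧ sx κ γ β < 1 := by
  set t : ℝ := min (γ / 2) ((1 - κ * γ ^ 2 / 2) / (2 * (κ * γ))) with ht
  have h1 : 0 < 1 - κ * γ ^ 2 / 2 := by nlinarith
  have hκγ : 0 < κ * γ := by positivity
  have ht0 : 0 < t := lt_min (by positivity) (by positivity)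
  have ht1 : t ≤ γ / 2 := min_le_left _ _
  have ht2 : t ≤ (1 - κ * γ ^ 2 / 2) / (2 * (κ * γ)) := min_le_right _ _
  have ht3 : t * (2 * (κ * γ)) ≤ 1 - κ * γ ^ 2 / 2 := by
    rwa [le_div_iff₀ (by positivity)] at ht2
  refine ⟨γ + t, by linarith, by linarith, ?_⟩
  unfold sx
  have : κ * (γ ^ 2 - (2 * γ - (γ + t)) ^ 2 / 2) = κ * γ ^ 2 / 2 + κ * γ * t - κ * t ^ 2 / 2 := by ring
  rw [this]
  have h2 : 0 ≤ κ * t ^ 2 / 2 := by positivity
  have h3 : 0 < κ * γ * t := by positivity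
  nlinarith

/-- the big threshold scale -/
lemma j0_exists (hκ : 0 < κ) (C : ℝ) (j1 : ℕ) : ∃ j0 : ℕ, j1 ≤ j0 ∧ C + 1 ≤ κ * Real.log 2 * j0 := by
  have hl : 0 < κ * Real.log 2 := mul_pos hκ (Real.log_pos (by norm_num))
  obtain ⟨m, hm⟩ := exists_nat_ge ((C + 1) / (κ * Real.log 2))
  refine ⟨max j1 m, le_max_left _ _, ?_⟩
  have h1 : (m : ℝ) ≤ ((max j1 m : ℕ) : ℝ) := by exact_mod_cast le_max_right _ _
  rw [div_le_iff₀ hl] at hm
  nlinarith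

/-- the laws of the Gaussian chaos form a Cauchy sequence in the whole subcritical phase -/
theorem l1_cauchy (hQ1 : S_Q1) (hQ4 : S_Q4) (hQ6 : S_Q6) (hK : KerC K κ C) (hγ0 : 0 < γ)
    (hγ : γ ^ 2 * κ < 2) (hφ : Continuous φ) (δ : ℝ) (hδ : 0 < δ) :
    ∃ J0 : ℕ, ∀ J J' n n' : ℕ, J0 ≤ J → J0 ≤ J' →
      Real.exp ((γ ^ 2 * C + 2) * J) ≤ n → Real.exp ((γ ^ 2 * C + 2) * J') ≤ n' →
      ∀ Φ : ℂ → ℝ, (∀ z, |Φ z| ≤ 1) → LipschitzWith 1 Φ →
      |∫ w, Φ (Ch K (γ : ℂ) φ J n w) ∂(multivariateGaussian 0 (KM K J n)) -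
        ∫ w, Φ (Ch K (γ : ℂ) φ J' n' w) ∂(multivariateGaussian 0 (KM K J' n'))| ≤ δ := by
  obtain ⟨P, hP⟩ : ∃ P : ℝ, ∀ x ∈ Icc (0 : ℝ) 1, ‖φ x‖ ≤ P := by
    obtain ⟨P, hP⟩ := isCompact_Icc.exists_bound_of_continuousOn (f := φ) (s := Icc (0 : ℝ) 1) hφ.continuousOn
    exact ⟨P, hP⟩
  have hP0 : 0 ≤ P := (norm_nonneg _).trans (hP 0 ⟨le_rfl, zero_le_one⟩)
  obtain ⟨β, hβ1, hβ2, hβ3⟩ := beta_exists hK.κpos hγ0 hγ
  have hC1 : 1 ≤ C := hK.kb.C1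
  set ε : ℝ := δ / (8 * (P + 1)) with hε
  have hε0 : 0 < ε := by positivity
  obtain ⟨j1, hj1⟩ := hQ1 K κ C hK γ β hγ0 hβ1 ε hε0
  obtain ⟨j0, hj01, hj02⟩ := j0_exists hK.κpos C j1
  obtain ⟨hq, _⟩ := hQ4 K κ C hK γ β hγ0 hβ1 hβ2 hβ3 j0 hj02 φ hφ
  obtain ⟨N, hN⟩ := hq ((δ / 8) ^ 2) (by positivity)
  have hnorm : ‖(γ : ℂ)‖ ^ 2 = γ ^ 2 := by rw [Complex.norm_real, Real.norm_eq_abs, sq_abs]
  obtain ⟨J2, hJ2⟩ := grid_ind hK.kb (γ : ℂ) hφ (δ / 8) (by positivity)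
  rw [hnorm] at hJ2
  have hPε : P * ε ≤ δ / 8 := by
    rw [hε]
    have : P * (δ / (8 * (P + 1))) = δ / 8 * (P / (P + 1)) := by field_simp
    rw [this]
    have h1 : P / (P + 1) ≤ 1 := by rw [div_le_one (by positivity)]; linarith
    nlinarith
  refine ⟨max N J2, fun J J' n n' hJ hJ' hn hn' Φ hΦ1 hΦ => ?_⟩
  simp only [max_le_iff] at hJ hJ'
  set Jm : ℕ := max J J' with hJm
  set ns : ℕ := ⌈Real.exp ((γ ^ 2 * C + 2) * Jm)⌉₊ with hns
  have hns1 : Real.exp ((γ ^ 2 * C + 2) * Jm) ≤ ns := Nat.le_ceil _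
  have hA0 : 0 ≤ γ ^ 2 * C + 2 := by positivity
  have hJJm : J ≤ Jm := le_max_left _ _
  have hJ'Jm : J' ≤ Jm := le_max_right _ _
  have hmono : ∀ i : ℕ, i ≤ Jm → Real.exp ((γ ^ 2 * C + 2) * i) ≤ ns := fun i hi =>
    (Real.exp_le_exp.2 (mul_le_mul_of_nonneg_left (by exact_mod_cast hi) hA0)).trans hns1
  have hJmns : Real.exp Jm ≤ ns := by
    refine (Real.exp_le_exp.2 ?_).trans hns1
    have h1 : 0 ≤ γ ^ 2 * C := by positivity
    have h2 : (0 : ℝ) ≤ Jm := Nat.cast_nonneg _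
    nlinarith
  have g1 := hJ2 J n ns hJ.2 hn (hmono J hJJm) Φ hΦ1 hΦ
  have g2 := hJ2 J' n' ns hJ'.2 hn' (hmono J' hJ'Jm) Φ hΦ1 hΦ
  rw [int_big (n := ns) hQ6 hK.kb hJJm hΦ.continuous] at g1
  rw [int_big (n := ns) hQ6 hK.kb hJ'Jm hΦ.continuous] at g2
  -- the comparison on the big space
  obtain ⟨q1, q2⟩ := hN Jm ns J J' hJ.1 hJ'.1 hJJm hJ'Jm hJmns
  set a : ℝ := β * (κ * Real.log 2) with ha
  obtain ⟨b1, b2⟩ := bad_mass (κ := κ) (β := β) (φ := φ) (fun k => (hj1 j0 hj01 Jm ns J k hJJm).1)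
    (fun k => (hj1 j0 hj01 Jm ns J k hJJm).2) hP hP0 hε0.le
  obtain ⟨b3, b4⟩ := bad_mass (κ := κ) (β := β) (φ := φ) (fun k => (hj1 j0 hj01 Jm ns J' k hJ'Jm).1)
    (fun k => (hj1 j0 hj01 Jm ns J' k hJ'Jm).2) hP hP0 hε0.le
  have hint : ∀ i : ℕ, Integrable (fun w => Φ (Mf K γ φ i w)) (NB K Jm ns) := by
    intro i
    refine Integrable.mono' (integrable_const (1 : ℝ)) ?_ (Eventually.of_forall fun w => hΦ1 _)
    refine (hΦ.continuous.comp ?_).aestronglyMeasurable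
    unfold Mf ex co
    fun_prop
  have hb : ∀ w : EuclideanSpace ℝ (Fin (Jm + 1) × Fin ns), |Φ (Mf K γ φ J w) - Φ (Mf K γ φ J' w)| ≤
      ‖Mf K γ φ J w - Mt K γ a φ j0 J w‖ + (‖Mt K γ a φ j0 J w - Mt K γ a φ j0 J' w‖ ^ 2 / (2 * (δ / 8)) +
        δ / 8 / 2) + ‖Mf K γ φ J' w - Mt K γ a φ j0 J' w‖ := by
    intro w
    have k1 : |Φ (Mf K γ φ J w) - Φ (Mf K γ φ J' w)| ≤ ‖Mf K γ φ J w - Mf K γ φ J' w‖ := by
      rw [← dist_eq_norm, ← Real.dist_eq]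
      simpa using hΦ.dist_le_mul (Mf K γ φ J w) (Mf K γ φ J' w)
    have k2 : ‖Mf K γ φ J w - Mf K γ φ J' w‖ ≤ ‖Mf K γ φ J w - Mt K γ a φ j0 J w‖ +
        ‖Mt K γ a φ j0 J w - Mt K γ a φ j0 J' w‖ + ‖Mf K γ φ J' w - Mt K γ a φ j0 J' w‖ := by
      have e : Mf K γ φ J w - Mf K γ φ J' w = (Mf K γ φ J w - Mt K γ a φ j0 J w) +
        (Mt K γ a φ j0 J w - Mt K γ a φ j0 J' w) - (Mf K γ φ J' w - Mt K γ a φ j0 J' w) := by ring
      rw [e]
      exact (norm_sub_le _ _).trans (add_le_add_left (norm_add_le _ _) _)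
    set s := ‖Mt K γ a φ j0 J w - Mt K γ a φ j0 J' w‖
    have k3 : s ≤ s ^ 2 / (2 * (δ / 8)) + δ / 8 / 2 := by
      rw [div_add' _ _ _ (by positivity), le_div_iff₀ (by positivity)]
      nlinarith [sq_nonneg (s - δ / 8)]
    linarith
  have hmain : |∫ w, Φ (Mf K γ φ J w) ∂(NB K Jm ns) - ∫ w, Φ (Mf K γ φ J' w) ∂(NB K Jm ns)| ≤
      3 * (δ / 8) := by
    rw [← integral_sub (hint J) (hint J')]
    have i2 : Integrable (fun w => ‖Mt K γ a φ j0 J w - Mt K γ a φ j0 J' w‖ ^ 2 / (2 * (δ / 8)) +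
        δ / 8 / 2) (NB K Jm ns) := (q1.div_const _).add (integrable_const _)
    calc |∫ w, (Φ (Mf K γ φ J w) - Φ (Mf K γ φ J' w)) ∂(NB K Jm ns)|
        ≤ ∫ w, |Φ (Mf K γ φ J w) - Φ (Mf K γ φ J' w)| ∂(NB K Jm ns) := by
          simpa [Real.norm_eq_abs] using
            norm_integral_le_integral_norm (μ := NB K Jm ns)
              (fun w => Φ (Mf K γ φ J w) - Φ (Mf K γ φ J' w))
      _ ≤ ∫ w, (‖Mf K γ φ J w - Mt K γ a φ j0 J w‖ +
            (‖Mt K γ a φ j0 J w - Mt K γ a φ j0 J' w‖ ^ 2 / (2 * (δ / 8)) + δ / 8 / 2) +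
            ‖Mf K γ φ J' w - Mt K γ a φ j0 J' w‖) ∂(NB K Jm ns) :=
          integral_mono ((hint J).sub (hint J')).abs ((b1.add i2).add b3) hb
      _ = (∫ w, ‖Mf K γ φ J w - Mt K γ a φ j0 J w‖ ∂(NB K Jm ns)) +
            ((∫ w, ‖Mt K γ a φ j0 J w - Mt K γ a φ j0 J' w‖ ^ 2 ∂(NB K Jm ns)) / (2 * (δ / 8)) +
              δ / 8 / 2) +
            (∫ w, ‖Mf K γ φ J' w - Mt K γ a φ j0 J' w‖ ∂(NB K Jm ns)) := by
          have e1 : ∫ w, (‖Mf K γ φ J w - Mt K γ a φ j0 J w‖ +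
            (‖Mt K γ a φ j0 J w - Mt K γ a φ j0 J' w‖ ^ 2 / (2 * (δ / 8)) + δ / 8 / 2) +
            ‖Mf K γ φ J' w - Mt K γ a φ j0 J' w‖) ∂(NB K Jm ns) =
            (∫ w, (‖Mf K γ φ J w - Mt K γ a φ j0 J w‖ +
            (‖Mt K γ a φ j0 J w - Mt K γ a φ j0 J' w‖ ^ 2 / (2 * (δ / 8)) + δ / 8 / 2)) ∂(NB K Jm ns)) +
            ∫ w, ‖Mf K γ φ J' w - Mt K γ a φ j0 J' w‖ ∂(NB K Jm ns) := integral_add (b1.add i2) b3
          have e2 : ∫ w, (‖Mf K γ φ J w - Mt K γ a φ j0 J w‖ +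
            (‖Mt K γ a φ j0 J w - Mt K γ a φ j0 J' w‖ ^ 2 / (2 * (δ / 8)) + δ / 8 / 2)) ∂(NB K Jm ns) =
            (∫ w, ‖Mf K γ φ J w - Mt K γ a φ j0 J w‖ ∂(NB K Jm ns)) +
            ∫ w, (‖Mt K γ a φ j0 J w - Mt K γ a φ j0 J' w‖ ^ 2 / (2 * (δ / 8)) + δ / 8 / 2)
              ∂(NB K Jm ns) := integral_add b1 i2
          rw [e1, e2, integral_add (q1.div_const _) (integrable_const _), integral_div, integral_const]
          simp
      _ ≤ P * ε + ((δ / 8) ^ 2 / (2 * (δ / 8)) + δ / 8 / 2) + P * ε := by gcongr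
      _ ≤ δ / 8 + ((δ / 8) ^ 2 / (2 * (δ / 8)) + δ / 8 / 2) + δ / 8 := by gcongr
      _ = 3 * (δ / 8) := by field_simp; ring
  rw [abs_le] at g1 g2 hmain ⊢
  constructor <;> linarith [g1.1, g1.2, g2.1, g2.2, hmain.1, hmain.2]

end Pool.Agent.Q278.GC
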