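import Pool.Agent.Q278.GC.S2

/-!
# The limit of the Gaussian chaos in the whole subcritical phase for real parameters (helper278)
-/

set_option autoImplicit false

open MeasureTheory Filter Topology Set ProbabilityTheory
open scoped ComplexConjugate

namespace Pool.Agent.Q278.GC

open Pool.Agent.Q150.GC

variable {K : ℕ → ℕ → ℝ → ℝ → ℝ} {κ C γ : ℝ} {φ : ℝ → ℂ}

/-- the mean of the Gaussian chaos, all parameters (after helper150) -/
theorem ch_mean (hK : KerB K κ C) (α : ℂ) (hφ : Continuous φ) {J n : ℕ} (hn : 1 ≤ n) :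
    Integrable (fun w => Ch K α φ J n w) (multivariateGaussian 0 (KM K J n)) ∧
      ∫ w, Ch K α φ J n w ∂(multivariateGaussian 0 (KM K J n)) = ∫ x in (0 : ℝ)..1, φ x := by
  have hS := KM_psd hK J n
  have hterm : ∀ k : Fin n, Integrable (fun w : EuclideanSpace ℝ (Fin n) =>
      ph φ n k * Complex.exp (α * (w k : ℝ) - α ^ 2 / 2 * (KM K J n k k : ℝ)))
      (multivariateGaussian 0 (KM K J n)) ∧
      ∫ w : EuclideanSpace ℝ (Fin n), ph φ n k *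
        Complex.exp (α * (w k : ℝ) - α ^ 2 / 2 * (KM K J n k k : ℝ))
        ∂(multivariateGaussian 0 (KM K J n)) = ph φ n k := by
    intro k
    obtain ⟨h1, h2⟩ := t_EX n (KM K J n) hS k k α 0
    have e : ∀ w : EuclideanSpace ℝ (Fin n),
        ph φ n k * Complex.exp (α * (w k : ℝ) - α ^ 2 / 2 * (KM K J n k k : ℝ)) =
        (ph φ n k * Complex.exp (-(α ^ 2 / 2 * (KM K J n k k : ℝ)))) *
          Complex.exp (α * (w k : ℝ) + 0 * (w k : ℝ)) := by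
      intro w
      rw [mul_assoc, ← Complex.exp_add]
      congr 2
      ring
    simp_rw [e]
    refine ⟨h1.const_mul _, ?_⟩
    rw [integral_const_mul, h2, mul_assoc, ← Complex.exp_add]
    rw [show -(α ^ 2 / 2 * ((KM K J n k k : ℝ) : ℂ)) + (α ^ 2 * ((KM K J n k k : ℝ) : ℂ) +
      2 * α * 0 * ((KM K J n k k : ℝ) : ℂ) + 0 ^ 2 * ((KM K J n k k : ℝ) : ℂ)) / 2 = 0 by ring,
      Complex.exp_zero, mul_one]
  rw [Ch_eq]
  unfold XX
  constructor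
  · exact integrable_finsetSum _ fun k _ => (hterm k).1
  · rw [integral_finsetSum _ fun k _ => (hterm k).1, ← sum_ph hφ hn]
    exact Finset.sum_congr rfl fun k _ => (hterm k).2

/-- uniform integrability in the whole subcritical phase -/
theorem l1_ui (hQ1 : S_Q1) (hQ4 : S_Q4) (hQ6 : S_Q6) (hK : KerC K κ C) (hγ0 : 0 < γ)
    (hγ : γ ^ 2 * κ < 2) (hφ : Continuous φ) (ε : ℝ) (hε : 0 < ε) :
    ∃ R : ℝ, 0 ≤ R ∧ ∀ J n : ℕ, Real.exp ((γ ^ 2 * C + 2) * J) ≤ n →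
      ∫ w, max 0 (‖Ch K (γ : ℂ) φ J n w‖ - R) ∂(multivariateGaussian 0 (KM K J n)) ≤ ε := by
  obtain ⟨P, hP⟩ : ∃ P : ℝ, ∀ x ∈ Icc (0 : ℝ) 1, ‖φ x‖ ≤ P := by
    obtain ⟨P, hP⟩ := isCompact_Icc.exists_bound_of_continuousOn (f := φ) (s := Icc (0 : ℝ) 1) hφ.continuousOn
    exact ⟨P, hP⟩
  have hP0 : 0 ≤ P := (norm_nonneg _).trans (hP 0 ⟨le_rfl, zero_le_one⟩)
  obtain ⟨β, hβ1, hβ2, hβ3⟩ := beta_exists hK.κpos hγ0 hγ
  have hC1 : 1 ≤ C := hK.kb.C1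
  set ε1 : ℝ := ε / (2 * (P + 1)) with hε1
  have hε10 : 0 < ε1 := by positivity
  obtain ⟨j1, hj1⟩ := hQ1 K κ C hK γ β hγ0 hβ1 ε1 hε10
  obtain ⟨j0, hj01, hj02⟩ := j0_exists hK.κpos C j1
  obtain ⟨_, B, hB⟩ := hQ4 K κ C hK γ β hγ0 hβ1 hβ2 hβ3 j0 hj02 φ hφ
  have hPε : P * ε1 ≤ ε / 2 := by
    rw [hε1]
    have : P * (ε / (2 * (P + 1))) = ε / 2 * (P / (P + 1)) := by field_simp
    rw [this]
    have h1 : P / (P + 1) ≤ 1 := by rw [div_le_one (by positivity)]; linarith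
    nlinarith
  set R : ℝ := (|B| + 1) / (2 * ε) with hR
  have hR0 : 0 < R := by positivity
  refine ⟨R, hR0.le, fun J n hn => ?_⟩
  have hJn : Real.exp J ≤ n := by
    refine (Real.exp_le_exp.2 ?_).trans hn
    have h1 : 0 ≤ γ ^ 2 * C := by positivity
    have h2 : (0 : ℝ) ≤ J := Nat.cast_nonneg _
    nlinarith
  rw [int_big (Jm := J) (n := n) (F := fun z => max 0 (‖z‖ - R)) hQ6 hK.kb le_rfl (by fun_prop)]
  obtain ⟨q1, q2⟩ := hB J n J le_rfl hJn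
  set a : ℝ := β * (κ * Real.log 2) with ha
  obtain ⟨b1, b2⟩ := bad_mass (κ := κ) (β := β) (φ := φ) (fun k => (hj1 j0 hj01 J n J k le_rfl).1)
    (fun k => (hj1 j0 hj01 J n J k le_rfl).2) hP hP0 hε10.le
  have hpt : ∀ w : EuclideanSpace ℝ (Fin (J + 1) × Fin n), max 0 (‖Mf K γ φ J w‖ - R) ≤
      ‖Mf K γ φ J w - Mt K γ a φ j0 J w‖ + ‖Mt K γ a φ j0 J w‖ ^ 2 / (4 * R) := by
    intro w
    refine max_le (by positivity) ?_
    have h1 : ‖Mf K γ φ J w‖ ≤ ‖Mf K γ φ J w - Mt K γ a φ j0 J w‖ + ‖Mt K γ a φ j0 J w‖ := by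
      have := norm_add_le (Mf K γ φ J w - Mt K γ a φ j0 J w) (Mt K γ a φ j0 J w)
      rwa [sub_add_cancel] at this
    set s := ‖Mt K γ a φ j0 J w‖
    have h2 : s - R ≤ s ^ 2 / (4 * R) := by
      rw [le_div_iff₀ (by positivity)]
      nlinarith [sq_nonneg (s - 2 * R)]
    linarith
  have hMfi : Integrable (fun w => max 0 (‖Mf K γ φ J w‖ - R)) (NB K J n) := by
    have i2 : Integrable (fun w => ‖Mf K γ φ J w - Mt K γ a φ j0 J w‖ +
        ‖Mt K γ a φ j0 J w‖ ^ 2 / (4 * R)) (NB K J n) := b1.add (q1.div_const _)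
    refine i2.mono' ?_ (Eventually.of_forall fun w => ?_)
    · refine Continuous.aestronglyMeasurable ?_
      unfold Mf ex co
      fun_prop
    · rw [Real.norm_of_nonneg (le_max_left _ _)]
      exact hpt w
  calc ∫ w, max 0 (‖Mf K γ φ J w‖ - R) ∂(NB K J n)
      ≤ ∫ w, (‖Mf K γ φ J w - Mt K γ a φ j0 J w‖ + ‖Mt K γ a φ j0 J w‖ ^ 2 / (4 * R)) ∂(NB K J n) :=
        integral_mono hMfi (b1.add (q1.div_const _)) hpt
    _ = (∫ w, ‖Mf K γ φ J w - Mt K γ a φ j0 J w‖ ∂(NB K J n)) +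
          (∫ w, ‖Mt K γ a φ j0 J w‖ ^ 2 ∂(NB K J n)) / (4 * R) := by
        have e1 : ∫ w, (‖Mf K γ φ J w - Mt K γ a φ j0 J w‖ + ‖Mt K γ a φ j0 J w‖ ^ 2 / (4 * R)) ∂(NB K J n)
          = (∫ w, ‖Mf K γ φ J w - Mt K γ a φ j0 J w‖ ∂(NB K J n)) +
            ∫ w, ‖Mt K γ a φ j0 J w‖ ^ 2 / (4 * R) ∂(NB K J n) := integral_add b1 (q1.div_const _)
        rw [e1, integral_div]
    _ ≤ P * ε1 + B / (4 * R) := by gcongr
    _ ≤ ε / 2 + ε / 2 := by
        refine add_le_add hPε ?_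
        rw [div_le_iff₀ (by positivity), hR]
        have h1 : B ≤ |B| := le_abs_self B
        have h2 : ε / 2 * (4 * ((|B| + 1) / (2 * ε))) = |B| + 1 := by field_simp; ring
        rw [h2]
        linarith
    _ = ε := by ring

/-- the limit of the Gaussian chaos for real positive parameters -/
theorem l1_gauss (hQ1 : S_Q1) (hQ4 : S_Q4) (hQ6 : S_Q6) (hQ8 : S_Q8) (hK : KerC K κ C) (hγ0 : 0 < γ)
    (hγ : γ ^ 2 * κ < 2) (hφ : Continuous φ) :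
    ∃ ν : Measure ℂ, IsProbabilityMeasure ν ∧ Integrable (fun z => z) ν ∧
      ∫ z, z ∂ν = ∫ x in (0 : ℝ)..1, φ x ∧
      ∀ δ : ℝ, 0 < δ → ∃ J0 : ℕ, ∀ J n : ℕ, J0 ≤ J → Real.exp ((γ ^ 2 * C + 2) * J) ≤ n →
        ∀ Φ : ℂ → ℝ, (∀ z, |Φ z| ≤ 1) → LipschitzWith 1 Φ →
        |∫ w, Φ (Ch K (γ : ℂ) φ J n w) ∂(multivariateGaussian 0 (KM K J n)) - ∫ z, Φ z ∂ν| ≤ δ := by
  have hcau := l1_cauchy hQ1 hQ4 hQ6 hK hγ0 hγ hφ
  set ng : ℕ → ℕ := fun J => ⌈Real.exp ((γ ^ 2 * C + 2) * J)⌉₊ with hng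
  have hng1 : ∀ J : ℕ, Real.exp ((γ ^ 2 * C + 2) * J) ≤ ng J := fun J => Nat.le_ceil _
  have hng2 : ∀ J : ℕ, 1 ≤ ng J := fun J => by
    have h1 := (Real.exp_pos _).trans_le (hng1 J)
    exact_mod_cast h1
  set μ : ℕ → Measure ℂ := fun i => lawCh K (γ : ℂ) φ i (ng i) with hμ
  obtain ⟨ν, h1, h2, h3, h4⟩ := hQ8 μ (∫ x in (0 : ℝ)..1, φ x) (fun i => lawCh_prob _ _ _ _ _)
    (fun i => by
      rw [hμ]
      simp only
      unfold lawCh
      rw [integrable_map_measure (by fun_prop) (Ch_cont K _ φ i (ng i)).measurable.aemeasurable]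
      exact (ch_mean hK.kb (γ : ℂ) hφ (hng2 i)).1)
    (fun ε hε => by
      obtain ⟨R, hR, h⟩ := l1_ui hQ1 hQ4 hQ6 hK hγ0 hγ hφ ε hε
      refine ⟨R, 0, hR, fun i _ => ?_⟩
      rw [hμ]
      simp only
      rw [lawCh_int (F := fun z => max 0 (‖z‖ - R)) (by fun_prop)]
      exact h i (ng i) (hng1 i))
    (fun i => by
      rw [hμ]
      simp only
      rw [lawCh_intC (F := fun z => z) continuous_id]
      exact (ch_mean hK.kb (γ : ℂ) hφ (hng2 i)).2)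
    (fun δ hδ => by
      obtain ⟨J0, hJ0⟩ := hcau δ hδ
      refine ⟨J0, fun i j hi hj Φ hΦ1 hΦ => ?_⟩
      rw [hμ]
      simp only
      rw [lawCh_int hΦ.continuous, lawCh_int hΦ.continuous]
      exact hJ0 i j _ _ hi hj (hng1 i) (hng1 j) Φ hΦ1 hΦ)
  refine ⟨ν, h1, h2, h3, fun δ hδ => ?_⟩
  obtain ⟨J0, hJ0⟩ := hcau (δ / 2) (by positivity)
  obtain ⟨N, hN⟩ := h4 (δ / 2) (by positivity)
  refine ⟨J0, fun J n hJ hn Φ hΦ1 hΦ => ?_⟩
  set i : ℕ := max N J0 with hi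
  have g1 := hN i (le_max_left _ _) Φ hΦ1 hΦ
  rw [hμ] at g1
  simp only at g1
  rw [lawCh_int hΦ.continuous] at g1
  have g2 := hJ0 J i n (ng i) hJ (le_max_right _ _) hn (hng1 i) Φ hΦ1 hΦ
  have g3 := abs_add_le (∫ w, Φ (Ch K (γ : ℂ) φ J n w) ∂(multivariateGaussian 0 (KM K J n)) -
      ∫ w, Φ (Ch K (γ : ℂ) φ i (ng i) w) ∂(multivariateGaussian 0 (KM K i (ng i))))
      (∫ w, Φ (Ch K (γ : ℂ) φ i (ng i) w) ∂(multivariateGaussian 0 (KM K i (ng i))) - ∫ z, Φ z ∂ν)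
  rw [sub_add_sub_cancel] at g3
  linarith

/-- symmetry of a centred Gaussian vector -/
lemma gauss_symm {n : ℕ} {S : Matrix (Fin n) (Fin n) ℝ} (hS : S.PosSemidef)
    {F : EuclideanSpace ℝ (Fin n) → ℝ} (hF : Continuous F) :
    ∫ w, F (-w) ∂(multivariateGaussian 0 S) = ∫ w, F w ∂(multivariateGaussian 0 S) := by
  have h := t_LIN n n S (-1) hS
  have hm : Measurable (fun w : EuclideanSpace ℝ (Fin n) =>
      (WithLp.toLp 2 ((-1 : Matrix (Fin n) (Fin n) ℝ).mulVec w.ofLp) : EuclideanSpace ℝ (Fin n))) := by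
    fun_prop
  have e1 : (-1 : Matrix (Fin n) (Fin n) ℝ) * S * (-1 : Matrix (Fin n) (Fin n) ℝ).transpose = S := by
    simp
  rw [e1] at h
  conv_rhs => rw [← h]
  rw [integral_map hm.aemeasurable hF.aestronglyMeasurable]
  refine integral_congr_ae (Eventually.of_forall fun w => ?_)
  simp only
  congr 1
  ext i
  simp [Matrix.neg_mulVec]

/-- the chaos with the opposite parameter has the same law -/
lemma ch_neg (hK : KerB K κ C) (α : ℂ) (J n : ℕ) {Φ : ℂ → ℝ} (hΦ : Continuous Φ) :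
    ∫ w, Φ (Ch K (-α) φ J n w) ∂(multivariateGaussian 0 (KM K J n)) =
      ∫ w, Φ (Ch K α φ J n w) ∂(multivariateGaussian 0 (KM K J n)) := by
  have h := gauss_symm (KM_psd hK J n) (F := fun w => Φ (Ch K (-α) φ J n w))
    (hΦ.comp (Ch_cont K (-α) φ J n))
  rw [← h]
  refine integral_congr_ae (Eventually.of_forall fun w => ?_)
  simp only
  congr 1
  unfold Ch
  refine Finset.sum_congr rfl fun k _ => ?_
  congr 2
  simp

end Pool.Agent.Q278.GC
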