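import Pool.Agent.Q278.GC.Stm2

/-!
# Statements: the limiting chaos is not degenerate (helper278)
-/

set_option autoImplicit false

namespace Pool.Agent.Q278.GC

open Filter Topology MeasureTheory Complex ProbabilityTheory
open scoped FourierTransform ContDiff ComplexConjugate RealInnerProductSpace
open Pool.Agent.Q278.MC

/-- the double integral of the exponential is at least the double integrals of the first two terms -/
def S_ND1 : Prop :=
  ∀ (K : ℕ → ℕ → ℝ → ℝ → ℝ) (κ C b : ℝ), KerB K κ C → 0 ≤ b →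
    ∀ φ : ℝ → ℂ, Continuous φ → ∀ J : ℕ,
      ‖∫ x in (0 : ℝ)..1, φ x‖ ^ 2 +
        b * (∫ x in (0 : ℝ)..1, ∫ y in (0 : ℝ)..1, φ x * conj (φ y) * ((K J J x y : ℝ) : ℂ)).re ≤
      (∫ x in (0 : ℝ)..1, ∫ y in (0 : ℝ)..1,
        φ x * conj (φ y) * ((Real.exp (b * K J J x y) : ℝ) : ℂ)).re

/-- the variance of the field integrated against a continuous function does not tend to zero -/
def S_ND2 : Prop :=
  ∀ H : ℝ → ℝ, Step H → ∀ φ : ℝ → ℂ, Continuous φ → (∃ x ∈ Set.Icc (0 : ℝ) 1, φ x ≠ 0) →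
    ∃ (δ : ℝ) (J0 : ℕ), 0 < δ ∧ ∀ J : ℕ, J0 ≤ J →
      δ ≤ (∫ x in (0 : ℝ)..1, ∫ y in (0 : ℝ)..1, φ x * conj (φ y) * ((kj H J J x y : ℝ) : ℂ)).re

end Pool.Agent.Q278.GC
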