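import Pool.Agent.Q278.GC.S3
import Pool.Agent.Q278.GC.Stm4

/-!
# The chaos of the zeros in the whole subcritical phase (helper278)
-/

set_option autoImplicit false

open MeasureTheory Filter Topology Set ProbabilityTheory
open scoped ComplexConjugate

namespace Pool.Agent.Q278.GC

open Pool.Agent.Q150.GC

variable {H : ℝ → ℝ} {κ C : ℝ} {φ : ℝ → ℂ}

/-- from the Gaussian chaos to the chaos of the zeros -/
theorem zeros_of_gauss (hH : Step H) (hK : KerB (kj H) κ C) (α : ℂ) (hφ : Continuous φ) (ν : Measure ℂ)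
    (hG : ∀ δ : ℝ, 0 < δ → ∃ J0 : ℕ, ∀ J n : ℕ, J0 ≤ J → Real.exp ((‖α‖ ^ 2 * C + 2) * J) ≤ n →
        ∀ Φ : ℂ → ℝ, (∀ z, |Φ z| ≤ 1) → LipschitzWith 1 Φ →
        |∫ w, Φ (Ch (kj H) α φ J n w) ∂(multivariateGaussian 0 (KM (kj H) J n)) - ∫ z, Φ z ∂ν| ≤ δ)
    (δ : ℝ) (hδ : 0 < δ) : ∃ J0 : ℕ, ∀ J : ℕ, J0 ≤ J → ∀ L T : ℝ,
      Real.exp (20 * (2 * A1f ‖α‖ 1 C + 3) * J) ≤ L →
      Real.exp (20 * (2 * A1f ‖α‖ 1 C + 3) * J) * L ≤ Real.log T → 0 < T →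
        ∀ Φ : ℂ → ℝ, (∀ z, |Φ z| ≤ 1) → LipschitzWith 1 Φ →
        |1 / T * (∫ t in T..(2 * T), Φ (Mz H α φ J L T t)) - ∫ z, Φ z ∂ν| ≤ δ := by
  set b : ℝ := ‖α‖ with hb
  have hb0 : 0 ≤ b := norm_nonneg _
  obtain ⟨Ku, hKu0, hu⟩ := comp_exp t_LIN hH hK.C1 (fun J => by
    have := hK.sup J J 0 0
    simpa using this) hb0 zero_le_one
  set A1 : ℝ := A1f b 1 C with hA1
  have h6 : 6 ≤ A1 := A1f_six hb0 zero_le_one hK.C1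
  have hge : b ^ 2 * C + 2 ≤ A1 := A1f_ge hb0 zero_le_one hK.C1
  have hexp : ∀ J : ℕ, Real.exp ((b ^ 2 * C + 2) * J) ≤ nn A1 J := fun J =>
    (Real.exp_le_exp.2 (mul_le_mul_of_nonneg_right hge (Nat.cast_nonneg J))).trans (nn_ge A1 J)
  obtain ⟨J0, hJ0⟩ := hG (δ / 2) (by positivity)
  obtain ⟨P, hP⟩ := isCompact_Icc.exists_bound_of_continuousOn (hφ.continuousOn (s := Set.Icc (0 : ℝ) 1))
  have hdec : Tendsto (fun J : ℕ => Ku * Real.exp (-(J : ℝ))) atTop (𝓝 (Ku * 0)) :=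
    ((Real.tendsto_exp_neg_atTop_nhds_zero.comp tendsto_natCast_atTop_atTop)).const_mul Ku
  rw [mul_zero] at hdec
  obtain ⟨J2, hJ2⟩ := eventually_atTop.1 (hdec.eventually_le_const (show (0 : ℝ) < δ / 2 by positivity))
  obtain ⟨J3, hJ3⟩ := exists_nat_ge P
  refine ⟨max (max J0 J2) (max J3 1), fun J hJ L T hL hT hT0 Φ hΦ1 hΦ => ?_⟩
  simp only [max_le_iff] at hJ
  obtain ⟨⟨j0, j2⟩, j3, j1⟩ := hJ
  have hPJ : ∀ x ∈ Set.Icc (0 : ℝ) 1, ‖φ x‖ ≤ Real.exp (1 * J) := by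
    intro x hx
    refine (hP x hx).trans (hJ3.trans ?_)
    have e1 : (J3 : ℝ) ≤ J := by exact_mod_cast j3
    have e2 := Real.add_one_le_exp (J : ℝ)
    rw [one_mul]
    linarith
  have h1 := hu J j1 L T hL hT hT0 (nn A1 J) (nn_ge A1 J) (nn_le h6 j1) α φ le_rfl hφ hPJ Φ hΦ1 hΦ
  have h2 := hJ0 J (nn A1 J) j0 (hexp J) Φ hΦ1 hΦ
  have h4 := hJ2 J j2
  have h3 := abs_add_le (1 / T * (∫ t in T..(2 * T), Φ (Mz H α φ J L T t)) -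
    ∫ w, Φ (Ch (kj H) α φ J (nn A1 J) w) ∂(multivariateGaussian 0 (KM (kj H) J (nn A1 J))))
    (∫ w, Φ (Ch (kj H) α φ J (nn A1 J) w) ∂(multivariateGaussian 0 (KM (kj H) J (nn A1 J))) -
      ∫ z, Φ z ∂ν)
  rw [sub_add_sub_cancel] at h3
  linarith

/-- the mean square phase: the Gaussian chaos with its second moment -/
theorem l2_gauss (hK : KerB (kj H) κ C) {α : ℂ} (hα : ‖α‖ ^ 2 * κ < 1) (hφ : Continuous φ) :
    ∃ ν : Measure ℂ, IsProbabilityMeasure ν ∧ Integrable (fun z => z) ν ∧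
      ∫ z, z ∂ν = ∫ x in (0 : ℝ)..1, φ x ∧
      (∀ δ : ℝ, 0 < δ → ∃ J0 : ℕ, ∀ J n : ℕ, J0 ≤ J → Real.exp ((‖α‖ ^ 2 * C + 2) * J) ≤ n →
        ∀ Φ : ℂ → ℝ, (∀ z, |Φ z| ≤ 1) → LipschitzWith 1 Φ →
        |∫ w, Φ (Ch (kj H) α φ J n w) ∂(multivariateGaussian 0 (KM (kj H) J n)) - ∫ z, Φ z ∂ν| ≤ δ) ∧
      Integrable (fun z => ‖z‖ ^ 2) ν ∧
      Tendsto (fun J : ℕ => (∫ x in (0 : ℝ)..1, ∫ y in (0 : ℝ)..1,
        φ x * conj (φ y) * ((Real.exp (‖α‖ ^ 2 * kj H J J x y) : ℝ) : ℂ)).re) atTop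
        (𝓝 (∫ z, ‖z‖ ^ 2 ∂ν)) := by
  set b : ℝ := ‖α‖ with hb
  have hb0 : 0 ≤ b := norm_nonneg _
  obtain ⟨I, hI1, hI2'⟩ := dc2 (kj H) κ C (b ^ 2) hK.C1 hK.κ0 hK.sup hK.lip
    hK.log hK.lim (by positivity) hα φ hφ
  have hI2 : ∀ δ : ℝ, 0 < δ → ∃ J0 : ℕ, ∀ J J' n n' : ℕ, J0 ≤ J → J0 ≤ J' →
      Real.exp ((‖α‖ ^ 2 * C + 2) * J) ≤ n → Real.exp ((‖α‖ ^ 2 * C + 2) * J') ≤ n' →
      ‖RR (kj H) (‖α‖ ^ 2) φ J n J' n' - I‖ ≤ δ := hI2'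
  obtain ⟨hc1, ⟨B, JB, hc2⟩, hc3⟩ := t_CH t_EX t_LIN Pool.Agent.Q162.GC.t_DC (kj H) κ C α hK
    hα φ hφ
  set ng : ℕ → ℕ := fun J => ⌈Real.exp ((b ^ 2 * C + 2) * J)⌉₊ with hng
  have hexp : ∀ J : ℕ, Real.exp ((b ^ 2 * C + 2) * J) ≤ ng J := fun J => Nat.le_ceil _
  have hnn1 : ∀ J : ℕ, 1 ≤ ng J := fun J => by
    have h1 := (Real.exp_pos _).trans_le (hexp J)
    exact_mod_cast h1
  set μ : ℕ → Measure ℂ := fun i => lawCh (kj H) α φ (JB + i) (ng (JB + i)) with hμ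
  have hμp : ∀ i, IsProbabilityMeasure (μ i) := fun i => lawCh_prob _ _ _ _ _
  have hμsq : ∀ i, Integrable (fun z => ‖z‖ ^ 2) (μ i) ∧ ∫ z, ‖z‖ ^ 2 ∂(μ i) ≤ B := by
    intro i
    obtain ⟨e1, e2⟩ := hc2 (JB + i) (ng (JB + i)) (by omega) (hexp _)
    refine ⟨lawCh_sq e1, ?_⟩
    rw [hμ]
    simp only
    rw [lawCh_int (by fun_prop)]
    exact e2
  have hμm : ∀ i, ∫ z, z ∂(μ i) = ∫ x in (0 : ℝ)..1, φ x := by
    intro i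
    rw [hμ]
    simp only
    rw [lawCh_intC (F := fun z => z) continuous_id]
    exact (hc3 (JB + i) (ng (JB + i)) (hnn1 _)).2
  obtain ⟨ν, hν1, hν2, hν3, hν4, hν5⟩ := Pool.Agent.Q162.GC.t_PR μ B (∫ x in (0 : ℝ)..1, φ x) hμp
    hμsq hμm (by
      intro δ hδ
      obtain ⟨J0, hJ0⟩ := hc1 δ hδ
      refine ⟨J0, fun i j hi hj Φ hΦ1 hΦ => ?_⟩
      rw [hμ]
      simp only
      rw [lawCh_int hΦ.continuous, lawCh_int hΦ.continuous]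
      exact hJ0 (JB + i) (JB + j) _ _ (by omega) (by omega) (hexp _) (hexp _) Φ hΦ1 hΦ)
  have hsec : Tendsto (fun i => ∫ z, ‖z‖ ^ 2 ∂(μ i)) atTop (𝓝 (∫ z, ‖z‖ ^ 2 ∂ν)) := by
    refine second_moment hμp hν1 (fun i => (hμsq i).1) hν2 ?_ hν5
    intro ε hε
    obtain ⟨R, J0, hR, h⟩ := ch_ui t_EX t_LIN hK hI2 ε hε
    refine ⟨R, J0, hR, fun i hi => ?_⟩
    rw [hμ]
    simp only
    rw [lawCh_int (tau_cont R)]
    exact h (JB + i) _ (by omega) (hexp _)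
  have hsec2 : Tendsto (fun i => ∫ z, ‖z‖ ^ 2 ∂(μ i)) atTop (𝓝 I.re) := by
    rw [Metric.tendsto_atTop]
    intro ε hε
    obtain ⟨J0, hJ0⟩ := hI2 (ε / 2) (by positivity)
    refine ⟨J0, fun i hi => ?_⟩
    have h1 := (ch_second t_EX hK hJ0 (J := JB + i) (n := ng (JB + i)) (by omega) (hexp _)).2
    rw [Real.dist_eq, hμ]
    simp only
    rw [lawCh_int (by fun_prop)]
    linarith
  have hIν : I.re = ∫ z, ‖z‖ ^ 2 ∂ν := tendsto_nhds_unique hsec2 hsec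
  refine ⟨ν, hν1, ?_, hν4, ?_, hν2, ?_⟩
  · refine (hν2.add (integrable_const (1 : ℝ))).mono' measurable_id.aestronglyMeasurable
      (Eventually.of_forall fun z => ?_)
    simp only [Pi.add_apply, id]
    have h0 : 0 ≤ ‖z‖ := norm_nonneg z
    nlinarith [sq_nonneg (‖z‖ - 1)]
  · intro δ hδ
    obtain ⟨J0, hJ0⟩ := hc1 (δ / 2) (by positivity)
    obtain ⟨N, hN⟩ := hν5 (δ / 2) (by positivity)
    refine ⟨J0, fun J n hJ hn Φ hΦ1 hΦ => ?_⟩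
    set i : ℕ := max N J0 with hi
    have h1 := hN i (le_max_left _ _) Φ hΦ1 hΦ
    rw [hμ] at h1
    simp only at h1
    rw [lawCh_int hΦ.continuous] at h1
    have h2 := hJ0 J (JB + i) n (ng (JB + i)) hJ (by
      have := le_max_right N J0
      omega) hn (hexp _) Φ hΦ1 hΦ
    have h3 := abs_add_le (∫ w, Φ (Ch (kj H) α φ J n w) ∂(multivariateGaussian 0 (KM (kj H) J n)) -
      ∫ w, Φ (Ch (kj H) α φ (JB + i) (ng (JB + i)) w)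
        ∂(multivariateGaussian 0 (KM (kj H) (JB + i) (ng (JB + i)))))
      (∫ w, Φ (Ch (kj H) α φ (JB + i) (ng (JB + i)) w)
        ∂(multivariateGaussian 0 (KM (kj H) (JB + i) (ng (JB + i)))) - ∫ z, Φ z ∂ν)
    rw [sub_add_sub_cancel] at h3
    linarith
  · rw [← hIν]
    exact (Complex.continuous_re.tendsto _).comp hI1

/-- the limit is not a point mass -/
theorem nondeg (hND1 : S_ND1) (hND2 : S_ND2) (hH : Step H) (hK : KerB (kj H) κ C) {α : ℂ} (hα0 : α ≠ 0)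
    (hφ : Continuous φ) (h0 : ∃ x ∈ Set.Icc (0 : ℝ) 1, φ x ≠ 0) {V : ℝ}
    (hV : Tendsto (fun J : ℕ => (∫ x in (0 : ℝ)..1, ∫ y in (0 : ℝ)..1,
        φ x * conj (φ y) * ((Real.exp (‖α‖ ^ 2 * kj H J J x y) : ℝ) : ℂ)).re) atTop (𝓝 V)) :
    ‖∫ x in (0 : ℝ)..1, φ x‖ ^ 2 < V := by
  obtain ⟨δ, J0, hδ, h⟩ := hND2 H hH φ hφ h0
  have hb : 0 < ‖α‖ ^ 2 := by
    have := norm_pos_iff.2 hα0
    positivity
  have h1 : ‖∫ x in (0 : ℝ)..1, φ x‖ ^ 2 + ‖α‖ ^ 2 * δ ≤ V := by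
    refine ge_of_tendsto hV ?_
    filter_upwards [eventually_ge_atTop J0] with J hJ
    have g1 := hND1 (kj H) κ C (‖α‖ ^ 2) hK hb.le φ hφ J
    have g2 := h J hJ
    have g3 : ‖α‖ ^ 2 * δ ≤ ‖α‖ ^ 2 * (∫ x in (0 : ℝ)..1, ∫ y in (0 : ℝ)..1,
        φ x * conj (φ y) * ((kj H J J x y : ℝ) : ℂ)).re := mul_le_mul_of_nonneg_left g2 hb.le
    linarith
  have h2 : 0 < ‖α‖ ^ 2 * δ := by positivity
  linarith

end Pool.Agent.Q278.GC
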